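import Pool.Agent.J6H14.DMu.Quo

/-!
# Counting fixed vectors
-/

set_option autoImplicit false

namespace Pool.Agent.J6H14.DMu

open Subgroup Pool.Agent.W5h77.MB Pool.Agent.W5h33.DF

section
variable {𝔾 : Type} [Group 𝔾] {K D' : Subgroup 𝔾}

/-- The product of the numbers of fixed vectors of `T`. -/
noncomputable def cnt {V : Type} [CommGroup V] (ρ : 𝔾 →* MulAut V) (D' : Subgroup 𝔾) {r : ℕ}
    (P : Fin r → Subgroup 𝔾) (T : Subgroup V) : ℝ :=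
  ∏ i, (Nat.card (T ⊓ fx ρ (P i ⊓ D') : Subgroup V) : ℝ)

/-- The product of the numbers of fixed vectors of a module. -/
noncomputable def cn {S : Type} [CommGroup S] (b : 𝔾 →* MulAut S) {r : ℕ}
    (P : Fin r → Subgroup 𝔾) : ℝ := ∏ i, (Nat.card (fx b (P i)) : ℝ)

theorem cnt_pos {V : Type} [CommGroup V] [Finite V] (ρ : 𝔾 →* MulAut V) {r : ℕ}
    (P : Fin r → Subgroup 𝔾) (T : Subgroup V) : 0 < cnt ρ D' P T :=
  Finset.prod_pos fun _ _ => by exact_mod_cast Nat.card_pos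

theorem cn_pos {S : Type} [CommGroup S] [Finite S] (b : 𝔾 →* MulAut S) {r : ℕ}
    (P : Fin r → Subgroup 𝔾) : 0 < cn b P :=
  Finset.prod_pos fun _ _ => by exact_mod_cast Nat.card_pos

theorem cnt_bot {V : Type} [CommGroup V] (ρ : 𝔾 →* MulAut V) {r : ℕ}
    (P : Fin r → Subgroup 𝔾) : cnt ρ D' P (⊥ : Subgroup V) = 1 := by
  refine Finset.prod_eq_one fun i _ => ?_
  rw [bot_inf_eq, card_bot, Nat.cast_one]

theorem cnt_top {V : Type} [CommGroup V] (ρ : 𝔾 →* MulAut V) {r : ℕ}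
    (P : Fin r → Subgroup 𝔾) : cnt ρ D' P (⊤ : Subgroup V) = cn ρ (fun i => P i ⊓ D') := by
  refine Finset.prod_congr rfl fun i _ => ?_
  rw [top_inf_eq]

/-- the subgroups with `p ∤ (P : K)` -/
def Good (p : ℕ) (K : Subgroup 𝔾) {r : ℕ} (P : Fin r → Subgroup 𝔾) : Prop :=
  ∀ i, ¬ p ∣ K.relIndex (P i)

theorem cnt_mul {p : ℕ} (hp : p.Prime) (hKn : K.Normal)
    {V S : Type} [CommGroup V] [Finite V] [CommGroup S]
    (ρ : 𝔾 →* MulAut V) (htriv : ∀ x ∈ K ⊓ D', ρ x = 1) (b : 𝔾 →* MulAut S)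
    (hS : ∀ s : S, s ^ p = 1) {T T' : Subgroup V} (hT : ∀ g, ∀ v ∈ T, ρ g v ∈ T)
    (hle : T' ≤ T) (f : T →* S) (hsurj : Function.Surjective f)
    (hker : ∀ v : T, f v = 1 ↔ (v : V) ∈ T')
    (hf : ∀ g (v : T) (hv : ρ g v ∈ T), f ⟨ρ g v, hv⟩ = b g (f v)) {r : ℕ}
    (P : Fin r → Subgroup 𝔾) (hP : Good p K P) :
    cnt ρ D' P T = cnt ρ D' P T' * cn b (fun i => P i ⊓ D') := by
  unfold cnt cn
  rw [← Finset.prod_mul_distrib]
  refine Finset.prod_congr rfl fun i _ => ?_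
  rw [card_fx_mul hp ρ b (P i ⊓ D') (card_map_cop hKn (hP i) ρ htriv inf_le_left inf_le_right)
    (fun h _ v hv => hT h v hv) hle f (fun h _ v hv => hf h v hv) hS hsurj hker]
  push_cast
  rfl

/-- the quotient of the numbers of fixed vectors -/
noncomputable def rat {V : Type} [CommGroup V] (ρ : 𝔾 →* MulAut V) (D' : Subgroup 𝔾) {r s : ℕ}
    (P : Fin r → Subgroup 𝔾) (N : Fin s → Subgroup 𝔾) (T : Subgroup V) : ℝ :=
  cnt ρ D' P T / cnt ρ D' N T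

theorem rat_pos {V : Type} [CommGroup V] [Finite V] (ρ : 𝔾 →* MulAut V) {r s : ℕ}
    (P : Fin r → Subgroup 𝔾) (N : Fin s → Subgroup 𝔾) (T : Subgroup V) : 0 < rat ρ D' P N T :=
  div_pos (cnt_pos ρ P T) (cnt_pos ρ N T)

theorem rat_mul {p : ℕ} (hp : p.Prime) (hKn : K.Normal)
    {V S : Type} [CommGroup V] [Finite V] [CommGroup S]
    (ρ : 𝔾 →* MulAut V) (htriv : ∀ x ∈ K ⊓ D', ρ x = 1) (b : 𝔾 →* MulAut S)
    (hS : ∀ s : S, s ^ p = 1) {T T' : Subgroup V} (hT : ∀ g, ∀ v ∈ T, ρ g v ∈ T)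
    (hle : T' ≤ T) (f : T →* S) (hsurj : Function.Surjective f)
    (hker : ∀ v : T, f v = 1 ↔ (v : V) ∈ T')
    (hf : ∀ g (v : T) (hv : ρ g v ∈ T), f ⟨ρ g v, hv⟩ = b g (f v)) {r s : ℕ}
    (P : Fin r → Subgroup 𝔾) (hP : Good p K P) (N : Fin s → Subgroup 𝔾) (hN : Good p K N) :
    rat ρ D' P N T = rat ρ D' P N T' * (cn b (fun i => P i ⊓ D') / cn b (fun j => N j ⊓ D')) := by
  unfold rat
  rw [cnt_mul hp hKn ρ htriv b hS hT hle f hsurj hker hf P hP,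
    cnt_mul hp hKn ρ htriv b hS hT hle f hsurj hker hf N hN, mul_div_mul_comm]

variable {p m' : ℕ} (hp : p.Prime) (hKn : K.Normal) (hD'n : D'.Normal) (hD'i : D'.index = p ^ m')

include hp hKn hD'n hD'i in
theorem cn_sub {S : Type} [CommGroup S] {b : 𝔾 →* MulAut S} (hbK : ∀ x ∈ K, b x = 1) {r : ℕ}
    (P : Fin r → Subgroup 𝔾) (hP : Good p K P) : cn b (fun i => P i ⊓ D') = cn b P := by
  refine Finset.prod_congr rfl fun i _ => ?_
  rw [fx_sub hp hKn hD'n hD'i (hP i) hbK le_rfl]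

include hp hKn hD'n hD'i in
/-- The inequality for the simple modules implies the inequality for all modules. -/
theorem rat_mono {V : Type} [CommGroup V] [Finite V] (hV : ∀ v : V, v ^ p = 1)
    (ρ : 𝔾 →* MulAut V) (htriv : ∀ x ∈ K ⊓ D', ρ x = 1) {r s : ℕ}
    (P : Fin r → Subgroup 𝔾) (hP : Good p K P) (N : Fin s → Subgroup 𝔾) (hN : Good p K N)
    (hPN : ∀ (S : Type) [CommGroup S] [Finite S] (b : 𝔾 →* MulAut S), Simp p K b →
      cn b N ≤ cn b P)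
    (T T' : Subgroup V) (hT : ∀ g, ∀ v ∈ T, ρ g v ∈ T) (hT' : ∀ g, ∀ v ∈ T', ρ g v ∈ T')
    (hle : T' ≤ T) : rat ρ D' P N T' ≤ rat ρ D' P N T := by
  classical
  induction hn : Nat.card T using Nat.strong_induction_on generalizing T with
  | _ n ih =>
    by_cases heq : T' = T
    · rw [heq]
    let 𝒮 : Set (Subgroup V) := {M | (∀ g, ∀ v ∈ M, ρ g v ∈ M) ∧ M < T}
    have hfin : 𝒮.Finite := Set.toFinite _
    obtain ⟨M, hTM, hM⟩ := hfin.exists_le_maximal (show T' ∈ 𝒮 from ⟨hT', lt_of_le_of_ne hle heq⟩)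
    obtain ⟨⟨hM1, hM2⟩, hM3⟩ := hM
    obtain ⟨S, iS, b, f, hfS, hsimp, hsurj, hker, hf⟩ := exists_simple hp hKn hD'n hD'i hV ρ htriv hT
      hM1 hM2 (fun M' h1 h2 h3 => by
        by_cases h4 : M' = T
        · exact Or.inr h4
        · exact Or.inl (le_antisymm (hM3 ⟨h1, lt_of_le_of_ne h3 h4⟩ h2) h2))
    have h1 := ih (Nat.card M) (by
      rw [← hn]
      exact Set.Finite.card_lt_card (Set.toFinite _) (SetLike.coe_ssubset_coe.2 hM2)) M hM1 hTM rfl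
    have h2 := rat_mul hp hKn ρ htriv b hsimp.2.1 hT hM2.le f hsurj hker hf P hP N hN
    rw [cn_sub hp hKn hD'n hD'i hsimp.2.2.1 P hP, cn_sub hp hKn hD'n hD'i hsimp.2.2.1 N hN] at h2
    rw [h2]
    have h3 : 1 ≤ cn b P / cn b N := (one_le_div (cn_pos b N)).2 (hPN S b hsimp)
    calc rat ρ D' P N T' ≤ rat ρ D' P N M := h1
      _ = rat ρ D' P N M * 1 := (mul_one _).symm
      _ ≤ _ := mul_le_mul_of_nonneg_left h3 (rat_pos ρ P N M).le

include hp hKn hD'n hD'i in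
/-- A module which contains a simple module many times. -/
theorem rat_chain {V : Type} [CommGroup V] [Finite V] (hV : ∀ v : V, v ^ p = 1)
    (ρ : 𝔾 →* MulAut V) (htriv : ∀ x ∈ K ⊓ D', ρ x = 1) {r s : ℕ}
    (P : Fin r → Subgroup 𝔾) (hP : Good p K P) (N : Fin s → Subgroup 𝔾) (hN : Good p K N)
    (hPN : ∀ (S : Type) [CommGroup S] [Finite S] (b : 𝔾 →* MulAut S), Simp p K b →
      cn b N ≤ cn b P)
    {S : Type} [CommGroup S] [Finite S] (b : 𝔾 →* MulAut S) (hbK : ∀ x ∈ K, b x = 1)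
    (hSp : ∀ s : S, s ^ p = 1)
    (Y : ℕ → Subgroup V) (hY : ∀ j, ∀ g, ∀ v ∈ Y j, ρ g v ∈ Y j)
    (q : ℕ) (hg : ∀ j < q, ∃ (T₁ T₂ : Subgroup V) (f : T₁ →* S), (∀ g, ∀ v ∈ T₁, ρ g v ∈ T₁) ∧
      (∀ g, ∀ v ∈ T₂, ρ g v ∈ T₂) ∧ Y (j + 1) ≤ T₂ ∧ T₂ ≤ T₁ ∧ T₁ ≤ Y j ∧ Function.Surjective f ∧
      (∀ v, f v = 1 ↔ (v : V) ∈ T₂) ∧ ∀ g (v : T₁) (hv : ρ g v ∈ T₁), f ⟨ρ g v, hv⟩ = b g (f v)) :
    rat ρ D' P N (Y q) * (cn b P / cn b N) ^ q ≤ rat ρ D' P N (Y 0) := by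
  have key : ∀ j ≤ q, rat ρ D' P N (Y j) * (cn b P / cn b N) ^ j ≤ rat ρ D' P N (Y 0) := by
    intro j
    induction j with
    | zero =>
      intro _
      rw [pow_zero, mul_one]
    | succ j ih =>
      intro hj
      have h0 := ih (Nat.le_of_succ_le hj)
      obtain ⟨T₁, T₂, f, h1, h2, h3, h4, h5, hsurj, hker, hf⟩ := hg j (Nat.lt_of_succ_le hj)
      have e1 := rat_mono hp hKn hD'n hD'i hV ρ htriv P hP N hN hPN (Y j) T₁ (hY j) h1 h5
      have e2 := rat_mono hp hKn hD'n hD'i hV ρ htriv P hP N hN hPN T₂ (Y (j + 1)) h2 (hY (j + 1)) h3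
      have e3 := rat_mul hp hKn ρ htriv b hSp h1 h4 f hsurj hker hf P hP N hN
      rw [cn_sub hp hKn hD'n hD'i hbK P hP, cn_sub hp hKn hD'n hD'i hbK N hN] at e3
      have hr : 0 < cn b P / cn b N := div_pos (cn_pos b P) (cn_pos b N)
      calc rat ρ D' P N (Y (j + 1)) * (cn b P / cn b N) ^ (j + 1) =
          rat ρ D' P N (Y (j + 1)) * (cn b P / cn b N) * (cn b P / cn b N) ^ j := by ring
        _ ≤ rat ρ D' P N T₂ * (cn b P / cn b N) * (cn b P / cn b N) ^ j := by gcongr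
        _ = rat ρ D' P N T₁ * (cn b P / cn b N) ^ j := by rw [e3]
        _ ≤ rat ρ D' P N (Y j) * (cn b P / cn b N) ^ j := by gcongr
        _ ≤ _ := h0
  exact key q le_rfl

end

end Pool.Agent.J6H14.DMu
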