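import Pool.Agent.J6H14.DMu.Tot

/-!
# Frobenius elements in the field of `p`-power roots of unity
-/

set_option autoImplicit false

namespace Pool.Agent.J6H14.DMu

open IntermediateField Module Pool.Agent.Q60.MU Pool.Agent.W5h77.MB Pool.Agent.W5h33.DF NumberField
open scoped Pointwise commutatorElement

/-- The cyclotomic character. -/
theorem exists_char' {p : ℕ} (hp : p.Prime) (N : ℕ) :
    ∃ χ : Gal(Qb/ℚ) →* (ZMod (p ^ N))ˣ, Function.Surjective χ ∧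
      ∀ (g : Gal(Qb/ℚ)) (z : Qb), z ^ p ^ N = 1 → g z = z ^ ((χ g : ZMod (p ^ N))).val := by
  have hpn : NeZero (p ^ N) := ⟨(pow_pos hp.pos N).ne'⟩
  have hpQ : NeZero ((p ^ N : ℕ) : Qb) := ⟨by exact_mod_cast (pow_pos hp.pos N).ne'⟩
  have hne : HasEnoughRootsOfUnity Qb (p ^ N) := inferInstance
  have hn : Nat.card { x // x ∈ rootsOfUnity (p ^ N) Qb } = p ^ N :=
    HasEnoughRootsOfUnity.natCard_rootsOfUnity Qb (p ^ N)
  let f : Gal(Qb/ℚ) →* (Qb ≃+* Qb) :=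
    { toFun := fun g => g.toRingEquiv
      map_one' := rfl
      map_mul' := fun _ _ => rfl }
  let χ : Gal(Qb/ℚ) →* (ZMod (p ^ N))ˣ := (modularCyclotomicCharacter Qb hn).comp f
  have hspec : ∀ (g : Gal(Qb/ℚ)) (z : Qb), z ^ p ^ N = 1 → g z = z ^ ((χ g : ZMod (p ^ N))).val := by
    intro g z hz
    have hz0 : z ≠ 0 := by
      rintro rfl
      rw [zero_pow (pow_pos hp.pos N).ne'] at hz
      exact zero_ne_one hz
    have h4 : (Units.mk0 z hz0) ∈ rootsOfUnity (p ^ N) Qb := by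
      rw [mem_rootsOfUnity]
      ext
      exact hz
    exact modularCyclotomicCharacter.spec Qb hn (f g) h4
  refine ⟨χ, ?_, hspec⟩
  have hval : ∀ (g : Gal(Qb/ℚ)) (c : (ZMod (p ^ N))ˣ),
      (∀ z : Qb, z ^ p ^ N = 1 → g z = z ^ ((c : ZMod (p ^ N))).val) → χ g = c := by
    intro g c h
    ext
    refine (modularCyclotomicCharacter.unique Qb hn (f g) (c := (c : ZMod (p ^ N))) ?_).symm
    intro t ht
    exact h t (by
      have h1 := congrArg Units.val ((mem_rootsOfUnity _ _).1 ht)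
      exact h1)
  have hker : χ.ker = (adjoin ℚ {z : Qb | z ^ p ^ N = 1}).fixingSubgroup := by
    ext g
    rw [MonoidHom.mem_ker]
    constructor
    · intro h1
      have h2 : adjoin ℚ {z : Qb | z ^ p ^ N = 1} ≤ fixedField (Subgroup.zpowers g) := by
        rw [adjoin_le_iff]
        intro z hz
        have h3 : Subgroup.zpowers g ≤ MulAction.stabilizer Gal(Qb/ℚ) z := by
          rw [Subgroup.zpowers_le]
          show g z = z
          have hz' : z ^ p ^ N = 1 := hz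
          rw [hspec g z hz, h1]
          rcases Nat.eq_or_lt_of_le (Nat.one_le_iff_ne_zero.2 (pow_pos hp.pos N).ne') with h | h
          · rw [← h, pow_one] at hz'
            rw [hz', one_pow]
          · have : Fact (1 < p ^ N) := ⟨h⟩
            rw [Units.val_one, ZMod.val_one, pow_one]
        exact (mem_fixedField_iff _ _).2 fun f hf => h3 hf
      rw [IntermediateField.mem_fixingSubgroup_iff]
      intro x hx
      exact (mem_fixedField_iff _ _).1 (h2 hx) g (Subgroup.mem_zpowers g)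
    · intro h1
      rw [IntermediateField.mem_fixingSubgroup_iff] at h1
      apply hval
      intro z hz
      rw [h1 z (subset_adjoin ℚ _ hz)]
      rcases Nat.eq_or_lt_of_le (Nat.one_le_iff_ne_zero.2 (pow_pos hp.pos N).ne') with h | h
      · rw [← h, pow_one] at hz
        rw [hz, one_pow]
      · have : Fact (1 < p ^ N) := ⟨h⟩
        rw [Units.val_one, ZMod.val_one, pow_one]
  obtain ⟨ζ, hζ⟩ := HasEnoughRootsOfUnity.exists_primitiveRoot Qb (p ^ N)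
  have hE : adjoin ℚ {z : Qb | z ^ p ^ N = 1} = ℚ⟮ζ⟯ := by
    apply le_antisymm
    · rw [adjoin_le_iff]
      intro z hz
      obtain ⟨i, -, rfl⟩ := hζ.eq_pow_of_pow_eq_one hz
      exact pow_mem (mem_adjoin_simple_self ℚ ζ) i
    · rw [adjoin_le_iff]
      rintro _ rfl
      exact subset_adjoin ℚ _ hζ.pow_eq_one
  have hcyc : IsCyclotomicExtension {p ^ N} ℚ ℚ⟮ζ⟯ :=
    hζ.intermediateField_adjoin_isCyclotomicExtension ℚ
  have hfr : finrank ℚ ℚ⟮ζ⟯ = (p ^ N).totient :=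
    IsCyclotomicExtension.finrank ℚ⟮ζ⟯ (Polynomial.cyclotomic.irreducible_rat (pow_pos hp.pos N))
  have h1 : Nat.card χ.range = Nat.card (ZMod (p ^ N))ˣ := by
    rw [← Subgroup.index_ker, hker, hE, ← finrank_eq_fixingSubgroup_index, hfr,
      Nat.card_eq_fintype_card, ZMod.card_units_eq_totient]
  rw [← MonoidHom.range_eq_top]
  exact Subgroup.eq_top_of_card_eq _ h1

/-- The integers of the cyclotomic fields. -/
theorem cy_poly {p : ℕ} [hp : Fact p.Prime] (k : ℕ) :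
    FiniteDimensional ℚ (adjoin ℚ {z : Qb | z ^ p ^ (k + 1) = 1}) ∧
    ∃ ζ : Qb, ζ ^ p ^ (k + 1) = 1 ∧ ∀ r ∈ adjoin ℚ {z : Qb | z ^ p ^ (k + 1) = 1}, IsIntegral ℤ r →
      ∃ P : Polynomial ℤ, r = Polynomial.aeval ζ P := by
  have hpn : NeZero (p ^ (k + 1)) := ⟨(pow_pos hp.out.pos (k + 1)).ne'⟩
  have hpQ : NeZero ((p ^ (k + 1) : ℕ) : Qb) := ⟨by exact_mod_cast (pow_pos hp.out.pos (k + 1)).ne'⟩
  obtain ⟨ζ, hζ⟩ := HasEnoughRootsOfUnity.exists_primitiveRoot Qb (p ^ (k + 1))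
  have hE : adjoin ℚ {z : Qb | z ^ p ^ (k + 1) = 1} = ℚ⟮ζ⟯ := by
    apply le_antisymm
    · rw [adjoin_le_iff]
      intro z hz
      obtain ⟨i, -, rfl⟩ := hζ.eq_pow_of_pow_eq_one hz
      exact pow_mem (mem_adjoin_simple_self ℚ ζ) i
    · rw [adjoin_le_iff]
      rintro _ rfl
      exact subset_adjoin ℚ _ hζ.pow_eq_one
  rw [hE]
  have hfd : FiniteDimensional ℚ ℚ⟮ζ⟯ :=
    adjoin.finiteDimensional (Algebra.IsIntegral.isIntegral ζ)
  have hcyc : IsCyclotomicExtension {p ^ (k + 1)} ℚ ℚ⟮ζ⟯ :=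
    hζ.intermediateField_adjoin_isCyclotomicExtension ℚ
  have hnf : NumberField ℚ⟮ζ⟯ := ⟨⟩
  have hz := IsCyclotomicExtension.zeta_spec (p ^ (k + 1)) ℚ ℚ⟮ζ⟯
  set z := IsCyclotomicExtension.zeta (p ^ (k + 1)) ℚ ℚ⟮ζ⟯ with hzdef
  refine ⟨hfd, (z : Qb), ?_, ?_⟩
  · have h1 := congrArg (fun y : ℚ⟮ζ⟯ => (y : Qb)) hz.pow_eq_one
    exact h1
  · intro r hr hint
    have hint' : IsIntegral ℤ (⟨r, hr⟩ : ℚ⟮ζ⟯) := by
      have h1 : IsIntegral ℤ (algebraMap ℚ⟮ζ⟯ Qb ⟨r, hr⟩) := hint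
      exact (isIntegral_algebraMap_iff (algebraMap ℚ⟮ζ⟯ Qb).injective).1 h1
    let a : 𝓞 ℚ⟮ζ⟯ := ⟨⟨r, hr⟩, hint'⟩
    obtain ⟨P, hP⟩ := hz.integralPowerBasisOfPrimePow.exists_eq_aeval' a
    rw [IsPrimitiveRoot.integralPowerBasisOfPrimePow_gen] at hP
    refine ⟨P, ?_⟩
    let φ : 𝓞 ℚ⟮ζ⟯ →ₐ[ℤ] Qb :=
      ((algebraMap ℚ⟮ζ⟯ Qb).comp (algebraMap (𝓞 ℚ⟮ζ⟯) ℚ⟮ζ⟯)).toIntAlgHom
    have h1 := congrArg φ hP
    rw [← Polynomial.aeval_algHom_apply] at h1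
    exact h1

/-- Frobenius elements. -/
theorem exists_frob {p : ℕ} [hp : Fact p.Prime] {ℓ : ℕ} (hℓ : ℓ.Prime) (hℓp : ℓ ≠ p)
    {A : ValuationSubring Qb} (hA : (ℓ : Qb) ∈ A.nonunits) (k : ℕ) :
    ∃ σ : Gal(Qb/ℚ), σ • A = A ∧ ∀ z : Qb, z ^ p ^ (k + 1) = 1 → σ z = z ^ ℓ := by
  obtain ⟨χ, hsurj, hχ⟩ := exists_char' hp.out (k + 1)
  have hcop : Nat.Coprime ℓ (p ^ (k + 1)) :=
    Nat.Coprime.pow_right _ ((Nat.coprime_primes hℓ hp.out).2 hℓp)
  obtain ⟨σ₁, hσ₁⟩ := hsurj (ZMod.unitOfCoprime ℓ hcop)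
  have hσz : ∀ z : Qb, z ^ p ^ (k + 1) = 1 → σ₁ z = z ^ ℓ := by
    intro z hz
    rw [hχ σ₁ z hz, hσ₁, ZMod.coe_unitOfCoprime, ZMod.val_natCast]
    have h1 : z ^ ℓ = z ^ (ℓ % p ^ (k + 1) + p ^ (k + 1) * (ℓ / p ^ (k + 1))) := by
      rw [Nat.mod_add_div]
    have h2 : z ^ (ℓ % p ^ (k + 1) + p ^ (k + 1) * (ℓ / p ^ (k + 1))) =
        z ^ (ℓ % p ^ (k + 1)) * (z ^ (p ^ (k + 1))) ^ (ℓ / p ^ (k + 1)) := by
      rw [pow_add z (ℓ % p ^ (k + 1)) (p ^ (k + 1) * (ℓ / p ^ (k + 1))), pow_mul z (p ^ (k + 1))]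
    rw [h1, h2, hz, one_pow, mul_one]
  obtain ⟨hfd, ζ, hζ, hpoly⟩ := cy_poly (p := p) k
  set 𝕃 := adjoin ℚ {z : Qb | z ^ p ^ (k + 1) = 1} with h𝕃
  have hnf : NumberField 𝕃 := ⟨⟩
  -- the residue field
  let κ := IsLocalRing.ResidueField A
  have hℓA : (ℓ : Qb) = ((ℓ : A) : Qb) := by simp
  have hℓ0 : (ℓ : κ) = 0 := by
    have h1 : IsLocalRing.residue A (ℓ : A) = 0 := by
      rw [IsLocalRing.residue_eq_zero_iff, A.valuation_lt_one_iff, ← hℓA]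
      exact (ValuationSubring.mem_nonunits_iff A).1 hA
    rwa [map_natCast] at h1
  have hC : CharP κ ℓ := (CharP.charP_iff_prime_eq_zero hℓ).mpr hℓ0
  have hfℓ : Fact ℓ.Prime := ⟨hℓ⟩
  have hζA : ζ ∈ A := root_mem (pow_pos hp.out.pos (k + 1)).ne' hζ
  let x : A := ⟨ζ, hζA⟩
  have key : ∀ c ∈ 𝕃, IsIntegral ℤ c → (A.valuation c < 1 ↔ A.valuation (σ₁ c) < 1) := by
    intro c hc hci
    obtain ⟨P, rfl⟩ := hpoly c hc hci
    have e1 : Polynomial.aeval ζ P = ((Polynomial.aeval x P : A) : Qb) := by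
      have h1 := Polynomial.aeval_algHom_apply (A.subtype.toIntAlgHom : A →ₐ[ℤ] Qb) x P
      exact h1
    have e2 : σ₁ (Polynomial.aeval ζ P) = ((Polynomial.aeval (x ^ ℓ) P : A) : Qb) := by
      have h1 := Polynomial.aeval_algHom_apply (A.subtype.toIntAlgHom : A →ₐ[ℤ] Qb) (x ^ ℓ) P
      have h2 := Polynomial.aeval_algHom_apply (σ₁.restrictScalars ℤ : Qb →ₐ[ℤ] Qb) ζ P
      have h3 : (σ₁.restrictScalars ℤ : Qb →ₐ[ℤ] Qb) ζ = ζ ^ ℓ := hσz ζ hζ
      rw [h3] at h2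
      exact h2.symm.trans h1
    have e3 : IsLocalRing.residue A (Polynomial.aeval (x ^ ℓ) P) =
        (IsLocalRing.residue A (Polynomial.aeval x P)) ^ ℓ := by
      have h1 := Polynomial.aeval_algHom_apply
        ((IsLocalRing.residue A).toIntAlgHom : A →ₐ[ℤ] κ) (x ^ ℓ) P
      have h2 := Polynomial.aeval_algHom_apply
        ((IsLocalRing.residue A).toIntAlgHom : A →ₐ[ℤ] κ) x P
      have h3 := Polynomial.aeval_algHom_apply
        ((frobenius κ ℓ).toIntAlgHom : κ →ₐ[ℤ] κ) (IsLocalRing.residue A x) P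
      have h4 : ((frobenius κ ℓ).toIntAlgHom : κ →ₐ[ℤ] κ) (IsLocalRing.residue A x) =
          ((IsLocalRing.residue A).toIntAlgHom : A →ₐ[ℤ] κ) (x ^ ℓ) := by
        show frobenius κ ℓ (IsLocalRing.residue A x) = IsLocalRing.residue A (x ^ ℓ)
        rw [frobenius_def, map_pow]
      have h5 : ((IsLocalRing.residue A).toIntAlgHom : A →ₐ[ℤ] κ) x = IsLocalRing.residue A x := rfl
      rw [h4] at h3
      rw [h5] at h2
      have h6 : ((frobenius κ ℓ).toIntAlgHom : κ →ₐ[ℤ] κ)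
          (Polynomial.aeval (IsLocalRing.residue A x) P) =
          (Polynomial.aeval (IsLocalRing.residue A x) P) ^ ℓ := frobenius_def _ _
      have h7 : ((IsLocalRing.residue A).toIntAlgHom : A →ₐ[ℤ] κ) (Polynomial.aeval x P) =
          IsLocalRing.residue A (Polynomial.aeval x P) := rfl
      have h8 : ((IsLocalRing.residue A).toIntAlgHom : A →ₐ[ℤ] κ) (Polynomial.aeval (x ^ ℓ) P) =
          IsLocalRing.residue A (Polynomial.aeval (x ^ ℓ) P) := rfl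
      rw [← h8, ← h1, h3, h6]
      exact congrArg (fun y : κ => y ^ ℓ) (h2.trans h7)
    rw [e2, e1]
    have h1 : ∀ y : A, A.valuation (y : Qb) < 1 ↔ IsLocalRing.residue A y = 0 := by
      intro y
      rw [IsLocalRing.residue_eq_zero_iff, A.valuation_lt_one_iff]
    rw [h1, h1, e3, pow_eq_zero_iff hℓ.ne_zero]
  have hAint : ∀ a : ℤ, algebraMap ℤ Qb a ∈ A := fun a => integral_mem A isIntegral_algebraMap
  have hne : ∀ B : ValuationSubring Qb, (ℓ : Qb) ∈ B.nonunits → B.comap (algebraMap 𝕃 Qb) ≠ ⊤ := by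
    intro B hB htop
    have h2 : ((ℓ : 𝕃))⁻¹ ∈ B.comap (algebraMap 𝕃 Qb) := by rw [htop]; trivial
    rw [ValuationSubring.mem_comap, map_inv₀, map_natCast] at h2
    rw [ValuationSubring.mem_nonunits_iff_or] at hB
    rcases hB with h3 | h3
    · exact hℓ.ne_zero (by exact_mod_cast h3)
    · exact h3 h2
  set A₁ : ValuationSubring Qb := A.comap ((σ₁ : Qb ≃ₐ[ℚ] Qb) : Qb →+* Qb) with hA₁
  have hmem₁ : ∀ y, y ∈ A₁ ↔ σ₁ y ∈ A := fun y => Iff.rfl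
  have hA₁ℓ : (ℓ : Qb) ∈ A₁.nonunits := by
    rw [ValuationSubring.mem_nonunits_iff_or] at hA ⊢
    rcases hA with h | h
    · exact Or.inl h
    · right
      rw [hmem₁, map_inv₀, map_natCast]
      exact h
  have heq : A.comap (algebraMap 𝕃 Qb) = A₁.comap (algebraMap 𝕃 Qb) := by
    apply Pool.Agent.H639R3.eq_of_integral_nonunits (A := ℤ) (F := ℚ)
    · intro a
      rw [ValuationSubring.mem_comap]
      have h1 : algebraMap 𝕃 Qb (algebraMap ℤ 𝕃 a) = algebraMap ℤ Qb a :=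
        (IsScalarTower.algebraMap_apply ℤ 𝕃 Qb a).symm
      rw [h1]
      exact hAint a
    · intro a
      rw [ValuationSubring.mem_comap]
      have h1 : algebraMap 𝕃 Qb (algebraMap ℤ 𝕃 a) = algebraMap ℤ Qb a :=
        (IsScalarTower.algebraMap_apply ℤ 𝕃 Qb a).symm
      rw [h1]
      exact integral_mem A₁ isIntegral_algebraMap
    · exact hne A hA
    · exact hne A₁ hA₁ℓ
    · intro c hc
      have hcL : IsIntegral ℤ (c : Qb) := hc.map ((algebraMap 𝕃 Qb).toIntAlgHom)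
      rw [Pool.Agent.H639R3.comap_val_lt_one, Pool.Agent.H639R3.comap_val_lt_one,
        Pool.Agent.H639R3.comap_val_lt_one]
      exact key (c : Qb) c.2 hcL
  obtain ⟨τ, hτ⟩ := Pool.Agent.H639R3.exists_aut (F := 𝕃) (L := Qb) (A := 𝓞 𝕃) A A₁
    (fun a => integral_mem A
      ((RingOfIntegers.isIntegral_coe a).map ((algebraMap 𝕃 Qb).toIntAlgHom))) (hne A hA) heq
  -- `σ₁ y ∈ A ↔ τ y ∈ A`
  let τ' : Gal(Qb/ℚ) := τ.restrictScalars ℚ
  have hτ' : ∀ y, τ' y ∈ A ↔ σ₁ y ∈ A := fun y => (hτ y).symm.trans (hmem₁ y)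
  have hττ : ∀ y, τ' (τ'⁻¹ y) = y := by
    intro y
    show (τ' * τ'⁻¹) y = y
    rw [mul_inv_cancel]
    rfl
  refine ⟨σ₁ * τ'⁻¹, ?_, ?_⟩
  · apply stab_iff.1
    intro y
    show σ₁ (τ'⁻¹ y) ∈ A ↔ y ∈ A
    rw [← hτ', hττ]
  · intro z hz
    have h1 : τ'⁻¹ z = z := by
      have h2 : τ' z = z := τ.commutes (⟨z, subset_adjoin ℚ _ hz⟩ : 𝕃)
      conv_lhs => rw [← h2]
      show (τ'⁻¹ * τ') z = z
      rw [inv_mul_cancel]
      rfl
    show σ₁ (τ'⁻¹ z) = z ^ ℓ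
    rw [h1, hσz z hz]

end Pool.Agent.J6H14.DMu
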