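import Pool.Agent.J6H14.DMu.Dec1

/-!
# Finite decomposition in the cyclotomic `ℤ_p`-extension
-/

set_option autoImplicit false

namespace Pool.Agent.J6H14.DMu

open IntermediateField Module Pool.Agent.Q60.MU Pool.Agent.W5h77.MB Pool.Agent.W5h33.DF NumberField
open scoped Pointwise commutatorElement ComplexConjugate

/-- A layer with an explicit description. -/
theorem exists_layer_pow {p : ℕ} (hp : p.Prime) (m : ℕ) :
    ∃ R, Layer p m R ∧ ∀ σ ∈ R.fixingSubgroup, ∀ z : Qb, z ^ p ^ (m + 1) = 1 →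
      (σ ^ (2 * (p - 1))) z = z := by
  have hfdN : ∀ N : ℕ, FiniteDimensional ℚ (adjoin ℚ {z : Qb | z ^ p ^ N = 1}) := by
    intro N
    have hpn : NeZero (p ^ N) := ⟨(pow_pos hp.pos N).ne'⟩
    obtain ⟨ζ, hζ⟩ := HasEnoughRootsOfUnity.exists_primitiveRoot Qb (p ^ N)
    have hE : adjoin ℚ {z : Qb | z ^ p ^ N = 1} = ℚ⟮ζ⟯ := by
      apply le_antisymm
      · rw [adjoin_le_iff]
        intro z hz
        obtain ⟨i, -, rfl⟩ := hζ.eq_pow_of_pow_eq_one hz
        exact pow_mem (mem_adjoin_simple_self ℚ ζ) i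
      · rw [adjoin_le_iff]
        rintro _ rfl
        exact subset_adjoin ℚ _ hζ.pow_eq_one
    rw [hE]
    exact adjoin.finiteDimensional (Algebra.IsIntegral.isIntegral ζ)
  have hopen : ∀ (N : ℕ) (H : Subgroup Gal(Qb/ℚ)),
      (adjoin ℚ {z : Qb | z ^ p ^ N = 1}).fixingSubgroup ≤ H → IsOpen (H : Set Gal(Qb/ℚ)) := by
    intro N H hH
    have := hfdN N
    exact Subgroup.isOpen_mono hH (adjoin ℚ {z : Qb | z ^ p ^ N = 1}).fixingSubgroup_isOpen
  have key : ∀ (N : ℕ) (H : Subgroup Gal(Qb/ℚ)),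
      (adjoin ℚ {z : Qb | z ^ p ^ N = 1}).fixingSubgroup ≤ H → H.index = p ^ m →
      IsLayer p m (fixedField H) := by
    intro N H hH hidx
    refine ⟨?_, N, ?_⟩
    · rw [finrank_eq_fixingSubgroup_index, fix_fixed (hopen N H hH), hidx]
    · rw [← InfiniteGalois.fixedField_fixingSubgroup (adjoin ℚ {z : Qb | z ^ p ^ N = 1})]
      exact fixedField_antitone hH
  by_cases hp2 : p = 2
  · subst hp2
    obtain ⟨χ, hsurj, hker, hneg⟩ := exists_char hp (m + 2)
    let H : Subgroup Gal(Qb/ℚ) := (Subgroup.zpowers (-1 : (ZMod (2 ^ (m + 2)))ˣ)).comap χ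
    have hH : (adjoin ℚ {z : Qb | z ^ 2 ^ (m + 2) = 1}).fixingSubgroup ≤ H := by
      rw [← hker]
      intro x hx
      rw [Subgroup.mem_comap, MonoidHom.mem_ker.1 hx]
      exact one_mem _
    have hidx : H.index = 2 ^ m := by
      rw [Subgroup.index_comap_of_surjective _ hsurj]
      have hcard : Nat.card (ZMod (2 ^ (m + 2)))ˣ = 2 ^ (m + 1) := by
        rw [Nat.card_eq_fintype_card, ZMod.card_units_eq_totient,
          Nat.totient_prime_pow Nat.prime_two (by omega)]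
        simp
      have h2 : Nat.card (Subgroup.zpowers (-1 : (ZMod (2 ^ (m + 2)))ˣ)) = 2 := by
        rw [Nat.card_zpowers]
        apply orderOf_eq_prime
        · rw [neg_one_sq]
        · intro h
          have h3 := congrArg Units.val h
          rw [Units.val_neg, Units.val_one] at h3
          have h4 : Fact (2 < 2 ^ (m + 2)) := ⟨by
            calc 2 < 2 ^ 2 := by norm_num
              _ ≤ 2 ^ (m + 2) := Nat.pow_le_pow_right (by norm_num) (by omega)⟩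
          exact ZMod.neg_one_ne_one h3
      have h3 := (Subgroup.zpowers (-1 : (ZMod (2 ^ (m + 2)))ˣ)).card_mul_index
      rw [h2, hcard, pow_succ, mul_comm] at h3
      exact Nat.eq_of_mul_eq_mul_right (by norm_num) h3
    refine ⟨fixedField H, ⟨key (m + 2) H hH hidx, fun ι x hx => ?_⟩, ?_⟩
    · obtain ⟨c, hc, hcc⟩ := exists_conj ι
      have hχc : χ c = -1 := hneg c fun z hz => conj_root hc (by positivity) hz
      have h1 : c ∈ H := by
        rw [Subgroup.mem_comap, hχc]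
        exact Subgroup.mem_zpowers _
      rw [← hc, (mem_fixedField_iff _ _).1 hx c h1]
    · intro σ hσ z hz
      rw [fix_fixed (hopen (m + 2) H hH), Subgroup.mem_comap] at hσ
      obtain ⟨j, hj⟩ := hσ
      have h1 : χ (σ ^ (2 * (2 - 1))) = 1 := by
        rw [map_pow, ← hj]
        show ((-1 : (ZMod (2 ^ (m + 2)))ˣ) ^ j) ^ 2 = 1
        rw [← zpow_natCast, ← zpow_mul, mul_comm, zpow_mul]
        show ((-1 : (ZMod (2 ^ (m + 2)))ˣ) ^ (2 : ℤ)) ^ j = 1
        rw [zpow_ofNat, neg_one_sq, one_zpow]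
      have h2 : σ ^ (2 * (2 - 1)) ∈ χ.ker := h1
      rw [hker, IntermediateField.mem_fixingSubgroup_iff] at h2
      refine h2 z (subset_adjoin ℚ _ ?_)
      show z ^ 2 ^ (m + 2) = 1
      rw [show m + 2 = (m + 1) + 1 from rfl, pow_succ, pow_mul, hz, one_pow]
  · obtain ⟨χ, hsurj, hker, -⟩ := exists_char hp (m + 1)
    have hcyc : IsCyclic (ZMod (p ^ (m + 1)))ˣ := ZMod.isCyclic_units_of_prime_pow p hp hp2 (m + 1)
    have hne : NeZero (p ^ (m + 1)) := ⟨(pow_pos hp.pos _).ne'⟩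
    let H : Subgroup Gal(Qb/ℚ) :=
      (powMonoidHom (p - 1) : (ZMod (p ^ (m + 1)))ˣ →* (ZMod (p ^ (m + 1)))ˣ).ker.comap χ
    have hH : (adjoin ℚ {z : Qb | z ^ p ^ (m + 1) = 1}).fixingSubgroup ≤ H := by
      rw [← hker]
      intro x hx
      rw [Subgroup.mem_comap, MonoidHom.mem_ker.1 hx]
      exact one_mem _
    have hidx : H.index = p ^ m := by
      rw [Subgroup.index_comap_of_surjective _ hsurj, IsCyclic.index_powMonoidHom_ker,
        Nat.card_eq_fintype_card, ZMod.card_units_eq_totient, Nat.totient_prime_pow hp (by omega),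
        Nat.add_sub_cancel, Nat.gcd_eq_right (Dvd.intro_left _ rfl),
        Nat.mul_div_cancel _ (Nat.sub_pos_of_lt hp.one_lt)]
    have h1 := key (m + 1) H hH hidx
    refine ⟨fixedField H, ⟨h1, fun ι x hx => mem_realSub.1 (layer_real hp hp2 h1 ι hx)⟩, ?_⟩
    intro σ hσ z hz
    rw [fix_fixed (hopen (m + 1) H hH), Subgroup.mem_comap] at hσ
    have h2 : (χ σ) ^ (p - 1) = 1 := hσ
    have h3 : χ (σ ^ (2 * (p - 1))) = 1 := by
      rw [map_pow, mul_comm, pow_mul, h2, one_pow]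
    have h4 : σ ^ (2 * (p - 1)) ∈ χ.ker := h3
    rw [hker, IntermediateField.mem_fixingSubgroup_iff] at h4
    exact h4 z (subset_adjoin ℚ _ hz)

section
variable {p : ℕ} [hp : Fact p.Prime]

theorem layer_eq {m : ℕ} {R R' : IntermediateField ℚ Qb} (hR : Layer p m R) (hR' : Layer p m R') :
    R = R' := le_antisymm (layer_le hR hR' le_rfl) (layer_le hR' hR le_rfl)

theorem layer_pow {m : ℕ} {R : IntermediateField ℚ Qb} (hR : Layer p m R) :
    ∀ σ ∈ R.fixingSubgroup, ∀ z : Qb, z ^ p ^ (m + 1) = 1 → (σ ^ (2 * (p - 1))) z = z := by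
  obtain ⟨R', hR', h⟩ := exists_layer_pow hp.out m
  rw [layer_eq hR hR']
  exact h

theorem pow_act {σ : Gal(Qb/ℚ)} {z : Qb} {ℓ : ℕ} (h : ∀ n : ℕ, σ (z ^ n) = (z ^ n) ^ ℓ) (n : ℕ) :
    (σ ^ n) z = z ^ ℓ ^ n := by
  induction n with
  | zero => rw [pow_zero, pow_zero, pow_one]; rfl
  | succ n ih =>
    rw [pow_succ']
    show σ ((σ ^ n) z) = _
    rw [ih, h, pow_succ, pow_mul]

/-- The decomposition groups in the layers have bounded index. -/
theorem stab_index {ℓ : ℕ} (hℓ : ℓ.Prime) {A : ValuationSubring Qb} (hA : (ℓ : Qb) ∈ A.nonunits)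
    {m' : ℕ} {R' : IntermediateField ℚ Qb} (hR' : Layer p m' R') :
    (MulAction.stabilizer Gal(Qb/ℚ) A ⊔ R'.fixingSubgroup).index ≤ ℓ ^ (2 * (p - 1)) ∧
      (MulAction.stabilizer Gal(Qb/ℚ) A ⊔ R'.fixingSubgroup).index ≠ 0 := by
  have hfR' := layer_fd hp.out hR'.1
  set H := MulAction.stabilizer Gal(Qb/ℚ) A ⊔ R'.fixingSubgroup with hH
  have hd : H.index ∣ p ^ m' := by
    rw [← layer_index hR']
    exact Subgroup.index_dvd_of_le le_sup_right
  refine ⟨?_, fun h => (pow_pos hp.out.pos m').ne' (Nat.eq_zero_of_zero_dvd (h ▸ hd))⟩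
  by_cases hℓp : ℓ = p
  · subst hℓp
    have h1 : H = ⊤ := by
      rw [eq_top_iff]
      intro g _
      obtain ⟨h, hh, hhg⟩ := inertia_surj hA hR' g
      have h2 : h⁻¹ * g ∈ R'.fixingSubgroup := by
        rw [IntermediateField.mem_fixingSubgroup_iff]
        intro z hz
        show h⁻¹ (g z) = z
        rw [← hhg z hz]
        show (h⁻¹ * h) z = z
        rw [inv_mul_cancel]
        rfl
      have h3 : g = h * (h⁻¹ * g) := by group
      rw [h3]
      exact mul_mem ((le_sup_left : _ ≤ H) hh.1) ((le_sup_right : _ ≤ H) h2)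
    rw [h1, Subgroup.index_top]
    exact Nat.one_le_pow _ _ hℓ.pos
  · obtain ⟨c, hcm, hc⟩ := (Nat.dvd_prime_pow hp.out).1 hd
    obtain ⟨R, hR⟩ := exists_layer hp.out c
    have hfR := layer_fd hp.out hR.1
    have hRR : R ≤ R' := layer_le hR hR' hcm
    have hn := layer_normal hp.out hR'.1
    have hle : H ≤ R.fixingSubgroup := cyc_le (layer_cyc hp.out hR') (fixingSubgroup_le hRR)
      le_sup_right (by rw [layer_index hR, hc])
    obtain ⟨σ, hσA, hσ⟩ := exists_frob (p := p) hℓ hℓp hA c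
    have hσR : σ ∈ R.fixingSubgroup := hle ((le_sup_left : _ ≤ H) hσA)
    have hpn : NeZero (p ^ (c + 1)) := ⟨(pow_pos hp.out.pos (c + 1)).ne'⟩
    have hpQ : NeZero ((p ^ (c + 1) : ℕ) : Qb) := ⟨by exact_mod_cast (pow_pos hp.out.pos (c + 1)).ne'⟩
    obtain ⟨ζ, hζ⟩ := HasEnoughRootsOfUnity.exists_primitiveRoot Qb (p ^ (c + 1))
    have h1 := layer_pow hR σ hσR ζ hζ.pow_eq_one
    rw [pow_act (ℓ := ℓ) (fun n => hσ _ (by rw [← pow_mul, mul_comm, pow_mul, hζ.pow_eq_one, one_pow]))]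
      at h1
    have hℓ1 : 1 ≤ ℓ ^ (2 * (p - 1)) := Nat.one_le_pow _ _ hℓ.pos
    have h2 : ζ ^ (ℓ ^ (2 * (p - 1)) - 1) = 1 := by
      have h0 : ζ ≠ 0 := hζ.ne_zero (pow_pos hp.out.pos (c + 1)).ne'
      have h3 : ζ ^ (ℓ ^ (2 * (p - 1)) - 1) * ζ = 1 * ζ := by
        rw [← pow_succ, Nat.sub_add_cancel hℓ1, h1, one_mul]
      exact mul_right_cancel₀ h0 h3
    have h3 : p ^ (c + 1) ∣ ℓ ^ (2 * (p - 1)) - 1 := hζ.dvd_of_pow_eq_one _ h2
    have h4 : 1 < ℓ ^ (2 * (p - 1)) := Nat.one_lt_pow (by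
      have := hp.out.one_lt
      omega) hℓ.one_lt
    have h5 := Nat.le_of_dvd (by omega) h3
    rw [hc]
    calc p ^ c ≤ p ^ (c + 1) := Nat.pow_le_pow_right hp.out.pos (Nat.le_succ c)
      _ ≤ _ := h5
      _ ≤ _ := Nat.sub_le _ _

/-- The primes above `ℓ` form boundedly many orbits. -/
theorem fin_dec {ℓ : ℕ} (hℓ : ℓ.Prime) {m' : ℕ} {R' : IntermediateField ℚ Qb} (hR' : Layer p m' R') :
    ∃ T : Finset (ValuationSubring Qb), T.card ≤ ℓ ^ (2 * (p - 1)) ∧
      ∀ A : ValuationSubring Qb, (ℓ : Qb) ∈ A.nonunits →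
        ∃ B ∈ T, ∃ σ ∈ R'.fixingSubgroup, A = σ • B := by
  classical
  obtain ⟨A₀, hA₀⟩ := exists_above hℓ
  obtain ⟨h1, h2⟩ := stab_index (p := p) hℓ hA₀ hR'
  have hn := layer_normal hp.out hR'.1
  set H := MulAction.stabilizer Gal(Qb/ℚ) A₀ ⊔ R'.fixingSubgroup with hH
  have hfi : H.FiniteIndex := ⟨h2⟩
  have ft : Fintype (Gal(Qb/ℚ) ⧸ H) := Fintype.ofFinite _
  refine ⟨(Finset.univ : Finset (Gal(Qb/ℚ) ⧸ H)).image fun q => q.out • A₀, ?_, ?_⟩
  · refine Finset.card_image_le.trans ?_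
    rw [Finset.card_univ, ← Nat.card_eq_fintype_card]
    exact h1
  · intro A hA
    obtain ⟨g, -, hg⟩ := conj_of_one hℓ ⊥ (onePrime_bot hℓ) hA hA₀
    obtain ⟨h, hh⟩ := QuotientGroup.mk_out_eq_mul H g
    obtain ⟨h', hhH⟩ := h
    have hhH' : h' ∈ (R'.fixingSubgroup : Set Gal(Qb/ℚ)) * (MulAction.stabilizer Gal(Qb/ℚ) A₀ : Set Gal(Qb/ℚ)) := by
      rw [← Subgroup.normal_mul, sup_comm]
      exact hhH
    obtain ⟨d, hd, x, hx, hdx⟩ := hhH'
    refine ⟨_, Finset.mem_image.2 ⟨(g : Gal(Qb/ℚ) ⧸ H), Finset.mem_univ _, rfl⟩, (g * d * g⁻¹)⁻¹,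
      inv_mem (hn.conj_mem d hd g), ?_⟩
    have hh' : ((g : Gal(Qb/ℚ) ⧸ H)).out = g * h' := hh
    have hx' : x • A₀ = A₀ := hx
    have hdx' : h' = d * x := hdx.symm
    rw [hh', hdx', hg, smul_smul]
    have h3 : (g * d * g⁻¹)⁻¹ * (g * (d * x)) = g * x := by group
    rw [h3, mul_smul, hx']

end

end Pool.Agent.J6H14.DMu
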