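import Pool.Agent.J6H14.DMu.Def

/-!
# Definitions for the modular criterion
-/

set_option autoImplicit false

namespace Pool.Agent.J6H14.DMu

open IntermediateField Module Pool.Agent.Q60.MU NumberField

/-- The condition at the infinite places: if `p = 2`, then the decomposition groups over `k` of the
infinite places of the field of algebraic numbers fix `K`. -/
def InfOk (p : ℕ) (k K : Fl) : Prop :=
  p ≠ 2 ∨ ∀ w : InfinitePlace Qb, ∀ σ ∈ gal k, (∀ x, w (im σ x) = w x) → σ ∈ gal K

/-- `K` is a Galois extension of `k` and, if `p = 2`, unramified at the infinite places. -/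
def GalInf (p : ℕ) (k K : Fl) : Prop :=
  k ≤ K ∧ (∀ σ ∈ gal k, ∀ x ∈ K, im σ x ∈ K) ∧ InfOk p k K

/-- The base field: `ℚ(i)` for `p = 2`, and `ℚ` for odd `p`. -/
noncomputable def Bs (p : ℕ) : Fl := if p = 2 then adjoin ℚ {z : Qb | z ^ 4 = 1} else ⊥

end Pool.Agent.J6H14.DMu
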