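import Pool.Agent.J6H14.DMu.Dec2
import Pool.Agent.J6H14.DMu.Def2

/-!
# The reduction to fixed fields of vectors
-/

set_option autoImplicit false

namespace Pool.Agent.J6H14.DMu

open IntermediateField Module Pool.Agent.Q60.MU Pool.Agent.W5h77.MB Pool.Agent.W5h33.DF NumberField
open scoped Pointwise commutatorElement ComplexConjugate

/-- The decomposition groups of the infinite places have order at most two. -/
theorem place_sq {w : InfinitePlace Qb} {σ : Gal(Qb/ℚ)}
    (hσ : σ ∈ MulAction.stabilizer Gal(Qb/ℚ) w) : σ * σ = 1 := by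
  rw [MulAction.mem_stabilizer_iff] at hσ
  have h1 : InfinitePlace.mk (w.embedding.comp (σ.symm : Qb →+* Qb)) = InfinitePlace.mk w.embedding := by
    have h2 : σ • InfinitePlace.mk w.embedding = InfinitePlace.mk w.embedding := by
      rw [InfinitePlace.mk_embedding, hσ]
    exact h2
  rw [InfinitePlace.mk_eq_iff] at h1
  have h2 : ∀ x, σ.symm (σ.symm x) = x := by
    intro x
    apply w.embedding.injective
    rcases h1 with h | h
    · have h3 : w.embedding (σ.symm (σ.symm x)) = w.embedding (σ.symm x) := RingHom.congr_fun h _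
      have h4 : w.embedding (σ.symm x) = w.embedding x := RingHom.congr_fun h x
      rw [h3, h4]
    · have h3 : conj (w.embedding (σ.symm (σ.symm x))) = w.embedding (σ.symm x) :=
        RingHom.congr_fun h _
      have h4 : conj (w.embedding (σ.symm x)) = w.embedding x := RingHom.congr_fun h x
      rw [← h4, ← h3, Complex.conj_conj]
  ext x
  show σ (σ x) = x
  have h3 := h2 (σ (σ x))
  rw [σ.symm_apply_apply, σ.symm_apply_apply] at h3
  exact h3.symm

/-- The local groups without the infinite places, if `p` is odd. -/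
noncomputable def lc' (p : ℕ) (s : Bool) (k : IntermediateField ℚ Qb) :
    ValuationSubring Qb ⊕ InfinitePlace Qb → Subgroup k.fixingSubgroup
  | .inl A => lc p s k (.inl A)
  | .inr w => open Classical in if p = 2 then lc p s k (.inr w) else ⊥

section
variable {p : ℕ} [hp : Fact p.Prime] {s : Bool} {k : IntermediateField ℚ Qb}

omit hp in
theorem lc'_le (w : ValuationSubring Qb ⊕ InfinitePlace Qb) : lc' p s k w ≤ lc p s k w := by
  rcases w with A | w
  · exact le_rfl
  · show (open Classical in if p = 2 then lc p s k (.inr w) else ⊥) ≤ _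
    split_ifs
    · exact le_rfl
    · exact bot_le

omit hp in
theorem lc'_conj (g : k.fixingSubgroup) (w : ValuationSubring Qb ⊕ InfinitePlace Qb) :
    ∀ x ∈ lc' p s k w, g * x * g⁻¹ ∈ lc' p s k (g • w) := by
  intro x hx
  rcases w with A | w
  · exact lc_conj g (.inl A) x hx
  · have h1 : x ∈ (open Classical in if p = 2 then lc p s k (.inr w) else ⊥) := hx
    show g * x * g⁻¹ ∈ (open Classical in if p = 2 then lc p s k (.inr (g • w)) else ⊥)
    split_ifs at h1 ⊢
    · exact lc_conj g (.inr w) x h1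
    · rw [Subgroup.mem_bot] at h1 ⊢
      rw [h1, mul_one, mul_inv_cancel]

theorem gens_lc' {U : Subgroup k.fixingSubgroup} : gens p (lc' p s k) U = gens p (lc p s k) U := by
  apply Set.Subset.antisymm
  · rintro x ((⟨a, ha, rfl⟩ | ⟨a, ha, b, hb, rfl⟩) | ⟨hx, w, hw⟩)
    · exact Or.inl (Or.inl ⟨a, ha, rfl⟩)
    · exact Or.inl (Or.inr ⟨a, ha, b, hb, rfl⟩)
    · exact Or.inr ⟨hx, w, lc'_le w hw⟩
  · rintro x ((⟨a, ha, rfl⟩ | ⟨a, ha, b, hb, rfl⟩) | ⟨hx, w, hw⟩)
    · exact Or.inl (Or.inl ⟨a, ha, rfl⟩)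
    · exact Or.inl (Or.inr ⟨a, ha, b, hb, rfl⟩)
    · rcases w with A | w
      · exact Or.inr ⟨hx, .inl A, hw⟩
      · by_cases hp2 : p = 2
        · refine Or.inr ⟨hx, .inr w, ?_⟩
          show x ∈ (open Classical in if p = 2 then lc p s k (.inr w) else ⊥)
          rw [if_pos hp2]
          exact hw
        · refine Or.inl (Or.inl ⟨x, hx, ?_⟩)
          have h1 : x * x = 1 := Subtype.ext (place_sq (w := w) hw)
          obtain ⟨j, hj⟩ := hp.out.odd_of_ne_two hp2
          show x = x ^ p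
          rw [hj, pow_succ, pow_mul, pow_two, h1, one_pow, one_mul]

theorem rank_lc' {U : Subgroup k.fixingSubgroup} {C : ℕ} :
    RankLe p (lc' p s k) U C ↔ RankLe p (lc p s k) U C := by
  unfold RankLe
  rw [gens_lc']

/-- The places which are not unramified form boundedly many orbits. -/
theorem hram_lc [FiniteDimensional ℚ k] {K : IntermediateField ℚ Qb} [FiniteDimensional ℚ K]
    (hinf : InfOk p k K) :
    ∃ t, ∀ (m : ℕ) (R' : IntermediateField ℚ Qb), Layer p m R' →
      ∃ T : Finset (ValuationSubring Qb ⊕ InfinitePlace Qb), T.card ≤ t ∧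
        ∀ w, lc' p s k w ⊓ sb k R' ≤ sb k K ∨ ∃ u ∈ T, ∃ d ∈ sb k R', w = d • u := by
  classical
  obtain ⟨c, hc0, hc⟩ := exists_bad K
  set P : Finset ℕ := insert p c.primeFactors with hP
  have hPp : ∀ ℓ ∈ P, ℓ.Prime := by
    intro ℓ hℓ
    rcases Finset.mem_insert.1 hℓ with rfl | h
    · exact hp.out
    · exact Nat.prime_of_mem_primeFactors h
  refine ⟨k.fixingSubgroup.index * ∑ ℓ ∈ P, ℓ ^ (2 * (p - 1)), fun m R' hR' => ?_⟩
  have hT : ∀ ℓ ∈ P, ∃ T : Finset (ValuationSubring Qb), T.card ≤ ℓ ^ (2 * (p - 1)) ∧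
      ∀ A : ValuationSubring Qb, (ℓ : Qb) ∈ A.nonunits →
        ∃ B ∈ T, ∃ σ ∈ R'.fixingSubgroup, A = σ • B := fun ℓ hℓ => fin_dec (hPp ℓ hℓ) hR'
  choose! T hTc hT using hT
  have hfR' := layer_fd hp.out hR'.1
  have hL0 : (k.fixingSubgroup ⊓ R'.fixingSubgroup).relIndex R'.fixingSubgroup ≠ 0 := by
    rw [Subgroup.inf_relIndex_right]
    intro h
    have h3 := Subgroup.relIndex_eq_zero_of_le_right (le_top : R'.fixingSubgroup ≤ ⊤) h
    rw [Subgroup.relIndex_top_right] at h3
    exact index_ne_zero' k h3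
  have hLle : (k.fixingSubgroup ⊓ R'.fixingSubgroup).relIndex R'.fixingSubgroup ≤
      k.fixingSubgroup.index := by
    rw [Subgroup.inf_relIndex_right]
    have h3 := Subgroup.relIndex_le_of_le_right (le_top : R'.fixingSubgroup ≤ ⊤)
      (H := k.fixingSubgroup) (by
      rw [Subgroup.relIndex_top_right]
      exact index_ne_zero' k)
    rwa [Subgroup.relIndex_top_right] at h3
  let T₁ : Finset (ValuationSubring Qb ⊕ InfinitePlace Qb) := (P.biUnion T).image Sum.inl
  obtain ⟨T', hT'c, hT'⟩ := exists_TL (L := k.fixingSubgroup ⊓ R'.fixingSubgroup)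
    (D := R'.fixingSubgroup) hL0 T₁
  refine ⟨T', ?_, ?_⟩
  · refine hT'c.trans (Nat.mul_le_mul hLle ?_)
    refine Finset.card_image_le.trans (Finset.card_biUnion_le.trans (Finset.sum_le_sum fun ℓ hℓ => ?_))
    exact hTc ℓ hℓ
  · rintro (A | w)
    · by_cases h : lc p s k (.inl A) ≤ sb k K
      · exact Or.inl (inf_le_left.trans h)
      · right
        obtain ⟨σ, hσ, hσK⟩ := SetLike.not_le_iff_exists.1 h
        have hσK' : (σ : Gal(Qb/ℚ)) ∉ K.fixingSubgroup := fun h' => hσK (mem_sb.2 h')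
        have hσA : (σ : Gal(Qb/ℚ)) ∈ locFin p s A := hσ
        obtain ⟨ℓ, hℓ, hℓA⟩ : ∃ ℓ ∈ P, (ℓ : Qb) ∈ A.nonunits := by
          unfold locFin at hσA
          split_ifs at hσA with h1
          · exact ⟨p, Finset.mem_insert_self _ _, h1.2⟩
          · obtain ⟨ℓ, hℓ, hℓA⟩ := exists_prime hc0 (hc A _ hσA hσK')
            exact ⟨ℓ, Finset.mem_insert_of_mem hℓ, hℓA⟩
        obtain ⟨B, hB, g, hg, hAB⟩ := hT ℓ hℓ A hℓA
        obtain ⟨u', hu', l, hl, hlu⟩ := hT' (Sum.inl B)
          (Finset.mem_image.2 ⟨B, Finset.mem_biUnion.2 ⟨ℓ, hℓ, hB⟩, rfl⟩) g hg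
        refine ⟨u', hu', ⟨l, hl.1⟩, mem_sb.2 hl.2, ?_⟩
        show Sum.inl A = l • u'
        rw [← hlu, hAB]
        rfl
    · left
      refine inf_le_left.trans ?_
      show (open Classical in if p = 2 then lc p s k (.inr w) else ⊥) ≤ _
      split_ifs with h2
      · intro x hx
        rcases hinf with h | h
        · exact absurd h2 h
        · exact mem_sb.2 (h w x x.2 (place_iff.2 hx))
      · exact bot_le

/-- **The reduction for number fields.** -/
theorem mu_mod {K : IntermediateField ℚ Qb} [FiniteDimensional ℚ K] (hkK : k ≤ K)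
    (hKn : ∀ σ ∈ k.fixingSubgroup, ∀ x ∈ K, σ x ∈ K) (hinf : InfOk p k K)
    (h : ∀ (S : Type) [AddCommGroup S] [Module (ZMod p) S] [Module.Finite (ZMod p) S]
      (τ : Rp p k S), SimpleMod K τ → ∃ F, k ≤ F ∧ F ≤ K ∧ nfix τ F ≠ 1 ∧ MuVanishes p s F) :
    MuVanishes p s K := by
  classical
  have hfk : FiniteDimensional ℚ k := fd_of_le hkK
  choose R hR using fun m => exists_layer hp.out m
  have hfR : ∀ m, FiniteDimensional ℚ (R m) := fun m => layer_fd hp.out (hR m).1
  have hiff : ∀ F : IntermediateField ℚ Qb, k ≤ F → FiniteDimensional ℚ F →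
      (Mu0 p (lc' p s k) (fun m => sb k (R m)) (sb k F) ↔ MuVanishes p s F) := by
    intro F hkF hfF
    constructor
    · rintro ⟨C, hC⟩
      refine ⟨C, fun m R' hR' => ?_⟩
      have h1 := hC m
      rw [rank_lc', sb_inf] at h1
      rw [layer_eq hR' (hR m)]
      exact (rk_iff (hkF.trans le_sup_left) C).1 h1
    · rintro ⟨C, hC⟩
      refine ⟨C, fun m => ?_⟩
      rw [rank_lc', sb_inf]
      exact (rk_iff (hkF.trans le_sup_left) C).2 (hC m (R m) (hR m))
  rw [← hiff K hkK inferInstance]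
  have hK0 : (sb k K).index ≠ 0 := by
    rw [index_sb hkK, ← relIndex_fix hkK]
    exact fun h => index_ne_zero' K (by
      have h1 := Subgroup.relIndex_mul_index (fixingSubgroup_le hkK)
      rw [h, zero_mul] at h1
      exact h1.symm)
  obtain ⟨t, ht⟩ := hram_lc (s := s) hinf
  refine reduction (p := p) lc'_conj (fun m => layer_sb_normal (hR m)) (fun m => sb_open)
    (fun m => ?_) (sb_normal hKn) sb_open hK0 ⟨t, fun m => ht m (R m) (hR m)⟩ ?_
  · obtain ⟨a, ha⟩ := layer_sb_index (k := k) (hR m)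
    rw [ha]
    exact (pow_pos hp.out.pos a).ne'
  · intro S _ _ _ τ hτ hs
    obtain ⟨F, hkF, hFK, hfix, hmu⟩ := h S τ ⟨hs, fun v g hg => hτ g (mem_sb.2 hg) v⟩
    have hfF : FiniteDimensional ℚ F := fd_of_le hFK
    refine ⟨sb k F, ⟨sb_mono hFK, (hiff F hkF hfF).2 hmu⟩, ?_⟩
    by_contra hcon
    push Not at hcon
    apply hfix
    have hfin : Finite S := Module.finite_of_finite (ZMod p)
    rw [nfix, Nat.card_eq_one_iff_unique]
    refine ⟨⟨fun v w => ?_⟩, ⟨⟨0, fun g _ => map_zero _⟩⟩⟩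
    have h0 : ∀ v : {v : S // FixedBy τ F v}, v.1 = 0 := by
      intro v
      by_contra hv
      exact hcon v.1 hv fun g hg => v.2 g (mem_sb.1 hg)
    exact Subtype.ext ((h0 v).trans (h0 w).symm)

/-- The fixed field of a Sylow subgroup. -/
theorem exists_sylow {K : IntermediateField ℚ Qb} [FiniteDimensional ℚ K] (hkK : k ≤ K)
    (hKn : ∀ σ ∈ k.fixingSubgroup, ∀ x ∈ K, σ x ∈ K) :
    ∃ F₀, k ≤ F₀ ∧ F₀ ≤ K ∧ ¬ p ∣ rdeg k F₀ ∧ (∃ a, rdeg F₀ K = p ^ a) ∧
      ∀ (S : Type) [AddCommGroup S] [Module (ZMod p) S] [Module.Finite (ZMod p) S]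
        (τ : Rp p k S), SimpleMod K τ → nfix τ F₀ ≠ 1 := by
  classical
  have hfk : FiniteDimensional ℚ k := fd_of_le hkK
  have hK : (sb k K).Normal := sb_normal hKn
  have hK0 : (sb k K).index ≠ 0 := by
    rw [index_sb hkK, ← relIndex_fix hkK]
    exact fun h => index_ne_zero' K (by
      have h1 := Subgroup.relIndex_mul_index (fixingSubgroup_le hkK)
      rw [h, zero_mul] at h1
      exact h1.symm)
  have hfi : (sb k K).FiniteIndex := ⟨hK0⟩
  have hfin : Finite (k.fixingSubgroup ⧸ sb k K) := inferInstance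
  let P : Sylow p (k.fixingSubgroup ⧸ sb k K) := default
  let P' : Subgroup k.fixingSubgroup :=
    (P : Subgroup (k.fixingSubgroup ⧸ sb k K)).comap (QuotientGroup.mk' (sb k K))
  have hKP : sb k K ≤ P' := by
    intro x hx
    rw [Subgroup.mem_comap]
    have h1 : QuotientGroup.mk' (sb k K) x = 1 := (QuotientGroup.eq_one_iff x).2 hx
    rw [h1]
    exact one_mem _
  let G₀ : Subgroup Gal(Qb/ℚ) := P'.map k.fixingSubgroup.subtype
  have hKG : K.fixingSubgroup ≤ G₀ := by
    intro x hx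
    exact ⟨⟨x, fixingSubgroup_le hkK hx⟩, hKP (mem_sb.2 hx), rfl⟩
  have hGo : IsOpen (G₀ : Set Gal(Qb/ℚ)) := Subgroup.isOpen_mono hKG K.fixingSubgroup_isOpen
  have hfix : (fixedField G₀).fixingSubgroup = G₀ := fix_fixed hGo
  have hkF : k ≤ fixedField G₀ := by
    rw [le_iff_le]
    rintro _ ⟨x, -, rfl⟩
    exact x.2
  have hFK : fixedField G₀ ≤ K := by
    rw [← InfiniteGalois.fixedField_fixingSubgroup K]
    exact fixedField_antitone hKG
  have hfF : FiniteDimensional ℚ (fixedField G₀) := fd_of_le hFK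
  have hsb : sb k (fixedField G₀) = P' := by
    ext x
    rw [mem_sb, hfix]
    constructor
    · rintro ⟨y, hy, hyx⟩
      rwa [← Subtype.ext hyx]
    · exact fun hx => ⟨x, hx, rfl⟩
  refine ⟨fixedField G₀, hkF, hFK, ?_, ?_, ?_⟩
  · rw [← index_sb hkF, hsb,
      Subgroup.index_comap_of_surjective _ (QuotientGroup.mk'_surjective (sb k K))]
    exact P.not_dvd_index
  · rw [← rel_sb hkF hFK, hsb]
    have h1 : (sb k K).relIndex P' = Nat.card (P : Subgroup (k.fixingSubgroup ⧸ sb k K)) := by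
      have h2 : ((QuotientGroup.mk' (sb k K)).ker).relIndex P' =
          Nat.card (P'.map (QuotientGroup.mk' (sb k K))) := Subgroup.relIndex_ker _ _
      rw [QuotientGroup.ker_mk'] at h2
      rw [h2, Subgroup.map_comap_eq_self_of_surjective (QuotientGroup.mk'_surjective (sb k K))]
    rw [h1]
    exact P.isPGroup'.exists_card_eq
  · intro S _ _ _ τ hτ hcon
    have hnt : Nontrivial S := hτ.1.1
    let τ' : (k.fixingSubgroup ⧸ sb k K) →* Module.End (ZMod p) S :=
      QuotientGroup.lift (sb k K) τ (fun g hg => by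
        apply LinearMap.ext
        intro x
        exact hτ.2 x g (mem_sb.1 hg))
    let ρ : Representation (ZMod p) P S :=
      τ'.comp (P : Subgroup (k.fixingSubgroup ⧸ sb k K)).subtype
    obtain ⟨v, hv, hvfix⟩ := exists_fixed P.isPGroup' ρ
    have hvF : FixedBy τ (fixedField G₀) v := by
      intro g hg
      have h1 : g ∈ P' := by
        rw [← hsb]
        exact mem_sb.2 hg
      exact hvfix ⟨QuotientGroup.mk' (sb k K) g, h1⟩
    have h4 := (Nat.card_eq_one_iff_unique.1 hcon).1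
    have h5 := @Subsingleton.elim _ h4 (⟨v, hvF⟩ : {v : S // FixedBy τ (fixedField G₀) v})
      ⟨0, fun g _ => map_zero _⟩
    exact hv (congrArg Subtype.val h5)

end

end Pool.Agent.J6H14.DMu
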