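import Pool.Agent.Q60.MU.Alg
import Pool.Agent.Q60.MU.Ram

/-!
# Definitions
-/

set_option autoImplicit false

namespace Pool.Agent.J6H14.DMu

open IntermediateField Module Pool.Agent.Q60.MU NumberField
open scoped Pointwise ComplexConjugate

/-- The subfields of the field `Qb` of algebraic numbers. -/
abbrev Fl : Type := IntermediateField ℚ Qb

/-- The absolute Galois group of `ℚ`. -/
abbrev GQ : Type := Gal(Qb/ℚ)

/-- The value of the automorphism `σ` at `x`. -/
noncomputable abbrev im (σ : GQ) (x : Qb) : Qb := σ x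

/-- The absolute Galois group of `E`. -/
noncomputable abbrev gal (E : Fl) : Subgroup GQ := E.fixingSubgroup

/-- The degree of `E` over `ℚ`. -/
noncomputable abbrev deg (E : Fl) : ℕ := finrank ℚ E

/-- The degree of `F` over `E`, for fields `E ≤ F`. -/
noncomputable def rdeg (E F : Fl) : ℕ := deg F / deg E

/-- `σ` belongs to the decomposition group of the prime `A` of the field of algebraic numbers. -/
def Stab (A : ValuationSubring Qb) (σ : GQ) : Prop := ∀ x, im σ x ∈ A ↔ x ∈ A

/-- `σ` belongs to the local group at the prime `A` of the field of algebraic numbers: this is the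
inertia group, and for `s = true` and a prime above `p` the decomposition group. -/
def LocalAt (p : ℕ) (s : Bool) (A : ValuationSubring Qb) (σ : GQ) : Prop :=
  Stab A σ ∧ ((s = true ∧ (p : Qb) ∈ A.nonunits) ∨ ∀ x ∈ A, im σ x - x ∈ A.nonunits)

/-- Every finite extension `M` of `E` which is Galois over `E` with abelian Galois group of exponent
`p`, unramified at all finite primes and all infinite places and, if `s = true`, such that the primes
above `p` split completely, has degree at most `C` over `E`. -/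
def RkLe (p : ℕ) (s : Bool) (E : Fl) (C : ℕ) : Prop :=
  ∀ M : Fl, E ≤ M → FiniteDimensional ℚ M →
    (∀ σ ∈ gal E, ∀ x ∈ M, im σ x ∈ M) →
    (∀ σ ∈ gal E, ∀ τ ∈ gal E, ∀ x ∈ M, im σ (im τ x) = im τ (im σ x)) →
    (∀ σ ∈ gal E, ∀ x ∈ M, im (σ ^ p) x = x) →
    (∀ A, ∀ σ ∈ gal E, LocalAt p s A σ → ∀ x ∈ M, im σ x = x) →
    (∀ w : InfinitePlace Qb, ∀ σ ∈ gal E, (∀ x, w (im σ x) = w x) → ∀ x ∈ M, im σ x = x) →
    deg M ≤ C * deg E

/-- `R` is the `m`-th layer of the cyclotomic `ℤ_p`-extension of `ℚ`: the field of degree `p ^ m`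
which is contained in a field generated by roots of unity of `p`-power order, and which is totally
real (a condition for `p = 2` only). -/
def Layer (p m : ℕ) (R : Fl) : Prop :=
  (deg R = p ^ m ∧ ∃ N : ℕ, R ≤ adjoin ℚ {z : Qb | z ^ p ^ N = 1}) ∧
    ∀ ι : Qb →+* ℂ, ∀ x ∈ R, conj (ι x) = ι x

/-- The ranks of the layers `F R` of the cyclotomic `ℤ_p`-extension of `F` are bounded. -/
def MuVanishes (p : ℕ) (s : Bool) (F : Fl) : Prop :=
  ∃ C : ℕ, ∀ (m : ℕ) (R : Fl), Layer p m R → RkLe p s (F ⊔ R) C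

/-- The representations of the absolute Galois group of `k` on the `𝔽_p`-vector space `S`. -/
abbrev Rp (p : ℕ) [Fact p.Prime] (k : Fl) (S : Type) [AddCommGroup S] [Module (ZMod p) S] : Type :=
  Representation (ZMod p) (gal k) S

section
variable {p : ℕ} [Fact p.Prime] {k : Fl} {S : Type} [AddCommGroup S] [Module (ZMod p) S]

/-- The image of the vector `v` under `g`. -/
noncomputable abbrev ap (τ : Rp p k S) (g : gal k) (v : S) : S := τ g v

/-- The vector `v` is fixed by the absolute Galois group of `E`. -/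
def FixedBy (τ : Rp p k S) (E : Fl) (v : S) : Prop := ∀ g : gal k, (g : GQ) ∈ gal E → ap τ g v = v

/-- The number of vectors fixed by the absolute Galois group of `E`. -/
noncomputable def nfix (τ : Rp p k S) (E : Fl) : ℕ := Nat.card {v : S // FixedBy τ E v}

/-- A simple representation of `Gal(K/k)`, viewed as a representation of the absolute Galois group
of `k`. -/
def SimpleMod (K : Fl) (τ : Rp p k S) : Prop := IsSimple τ ∧ ∀ v, FixedBy τ K v

/-- The vector `v` is fixed by the decomposition group of the prime `A` over `M`. -/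
def FixedAt (τ : Rp p k S) (M : Fl) (A : ValuationSubring Qb) (v : S) : Prop :=
  ∀ g : gal k, (g : GQ) ∈ gal M → Stab A g → ap τ g v = v

/-- The criterion for the simple representation `τ` at the layer `R`. -/
def Criterion (s : Bool) (K R : Fl) (τ : Rp p k S) : Prop :=
  ∃ (r t : ℕ) (P : Fin r → Fl) (N : Fin t → Fl) (C : Fin r → ℕ) (c : Fin t → ℕ),
    (∀ i, k ≤ P i ∧ P i ≤ K ∧ ¬ p ∣ rdeg (P i) K ∧ RkLe p s (P i ⊔ R) (C i)) ∧
    (∀ j, k ≤ N j ∧ N j ≤ K ∧ ¬ p ∣ rdeg (N j) K ∧ ∀ C', RkLe p s (N j ⊔ R) C' → c j ≤ C') ∧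
    (∀ (T : Type) [AddCommGroup T] [Module (ZMod p) T] [Module.Finite (ZMod p) T] (σ : Rp p k T),
      SimpleMod K σ → ∏ j, nfix σ (N j) ≤ ∏ i, nfix σ (P i)) ∧
    (∏ i, C i) * (∏ j, nfix τ (N j)) ^ rdeg K (K ⊔ R) <
      (∏ j, c j) * (∏ i, nfix τ (P i)) ^ rdeg K (K ⊔ R)

end

/-- The local condition: no simple representation of `Gal(K/k)` without nonzero vectors fixed by one
of the fields in `𝓔` has a nonzero vector which is fixed by the decomposition group in `Gal(K/M)` of
a prime above `p`. -/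
def LocalCondition (p : ℕ) [Fact p.Prime] (k M K : Fl) (𝓔 : Finset Fl) : Prop :=
  ∀ (S : Type) [AddCommGroup S] [Module (ZMod p) S] [Module.Finite (ZMod p) S] (τ : Rp p k S),
    SimpleMod K τ → (∀ E ∈ 𝓔, nfix τ E = 1) → ∀ A : ValuationSubring Qb, (p : Qb) ∈ A.nonunits →
    ∀ v, FixedAt τ M A v → v = 0

/-- `Z` contains the decomposition field in `K / M` of the prime of `K` below `A`. -/
def HasDecompositionField (A : ValuationSubring Qb) (M K Z : Fl) : Prop :=
  ∀ x ∈ K, (∀ σ ∈ gal M, Stab A σ → im σ x = x) → x ∈ Z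

/-- Each prime above `p` is conjugate over `k` to a prime whose decomposition field in `K / M` is
contained in a field of `𝓔`. -/
def CoversDecompositionFields (p : ℕ) (k M K : Fl) (𝓔 : Finset Fl) : Prop :=
  ∀ A : ValuationSubring Qb, (p : Qb) ∈ A.nonunits → ∃ Z ∈ 𝓔, ∃ B : ValuationSubring Qb,
    (∃ g ∈ gal k, ∀ x, im g x ∈ B ↔ x ∈ A) ∧ HasDecompositionField B M K Z

end Pool.Agent.J6H14.DMu
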