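import Pool.Agent.J6H14.DMu.Quo

/-!
# Extension of equivariant homomorphisms from a higher layer to a lower layer
-/

set_option autoImplicit false

namespace Pool.Agent.J6H14.DMu

open Subgroup Pool.Agent.W5h77.MB Pool.Agent.W5h33.DF
open scoped commutatorElement

section
variable {𝔾 : Type} [Group 𝔾] {K B D D' : Subgroup 𝔾}

theorem exists_extend {p : ℕ} (hp : p.Prime) (hKn : K.Normal) (hBn : B.Normal)
    (hD'n : D'.Normal) (hDD : D' ≤ D) (hcm : ∀ a b : 𝔾, ⁅a, b⁆ ∈ D') (hKB : ¬ p ∣ K.relIndex B)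
    {S : Type} [CommGroup S] (hSp : ∀ s : S, s ^ p = 1) (b : 𝔾 →* MulAut S)
    (hbK : ∀ x ∈ K ⊓ D, b x = 1) (hfix : ∀ s ∈ fx b (B ⊓ D'), s = 1) (f : 𝔾 → S)
    (hf : ∀ x ∈ K ⊓ D', ∀ y ∈ K ⊓ D', f (x * y) = f x * f y)
    (hfe : ∀ g : 𝔾, ∀ x ∈ K ⊓ D', f (g * x * g⁻¹) = b g (f x)) :
    ∃ F : 𝔾 → S, (∀ x ∈ K ⊓ D, ∀ y ∈ K ⊓ D, F (x * y) = F x * F y) ∧
      (∀ x ∈ K ⊓ D', F x = f x) ∧ ∀ g : 𝔾, ∀ x ∈ K ⊓ D, F (g * x * g⁻¹) = b g (F x) := by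
  classical
  set Δ : Subgroup 𝔾 := B ⊓ D' with hΔdef
  have hΔn : Δ.Normal := normal_inf_normal B D'
  have hn : (K.subgroupOf Δ).Normal := hKn.subgroupOf Δ
  have hKi : ¬ p ∣ K.relIndex Δ := fun h => hKB (h.trans (rel_dvd hKn inf_le_left))
  have hKi0 : K.relIndex Δ ≠ 0 := fun h => hKi (h ▸ dvd_zero p)
  have hfi : (K.subgroupOf Δ).FiniteIndex := ⟨hKi0⟩
  have hfin : Finite (Δ ⧸ K.subgroupOf Δ) := inferInstance
  have : Fintype (Δ ⧸ K.subgroupOf Δ) := Fintype.ofFinite _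
  set n := K.relIndex Δ with hndef
  have hcard : Fintype.card (Δ ⧸ K.subgroupOf Δ) = n := by
    rw [← Nat.card_eq_fintype_card]
    rfl
  have hcop : Nat.Coprime n p := ((Nat.Prime.coprime_iff_not_dvd hp).2 hKi).symm
  obtain ⟨m, -, hm⟩ := Nat.exists_mul_mod_eq_one_of_coprime hcop hp.one_lt
  have hSnm : ∀ s : S, (s ^ n) ^ m = s := by
    intro s
    rw [← pow_mul, ← Nat.div_add_mod (n * m) p, hm, pow_add, pow_mul, hSp, one_pow, one_mul, pow_one]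
  have hf1 : f 1 = 1 := by
    have h1 := hf 1 (one_mem _) 1 (one_mem _)
    rw [mul_one] at h1
    exact mul_eq_left.1 h1.symm
  have hfinv : ∀ x ∈ K ⊓ D', f x⁻¹ = (f x)⁻¹ := by
    intro x hx
    have h1 := hf x⁻¹ (inv_mem hx) x hx
    rw [inv_mul_cancel, hf1] at h1
    exact eq_inv_of_mul_eq_one_left h1.symm
  have hck : ∀ d x : 𝔾, x ∈ K → ⁅d, x⁆ ∈ K ⊓ D' := by
    intro d x hx
    refine ⟨?_, hcm d x⟩
    rw [commutatorElement_def]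
    exact K.mul_mem (hKn.conj_mem x hx d) (K.inv_mem hx)
  have hcj : ∀ d x : 𝔾, x ∈ K ⊓ D' → d * x * d⁻¹ ∈ K ⊓ D' := fun d x hx =>
    ⟨hKn.conj_mem x hx.1 d, hD'n.conj_mem x hx.2 d⟩
  have hfk : ∀ k ∈ K ⊓ D, ∀ x ∈ K ⊓ D', f (k * x * k⁻¹) = f x := by
    intro k hk x hx
    rw [hfe k x hx, hbK k hk, MulAut.one_apply]
  -- the value only depends on the class
  have hP0 : ∀ d : 𝔾, ∀ k ∈ K ⊓ D', ∀ x ∈ K ⊓ D, f ⁅d * k, x⁆ = f ⁅d, x⁆ := by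
    intro d k hk x hx
    have h1 : ⁅d * k, x⁆ = (d * (k * (x * k⁻¹ * x⁻¹)) * d⁻¹) * ⁅d, x⁆ := by
      rw [commutatorElement_def, commutatorElement_def]
      group
    have h2 : x * k⁻¹ * x⁻¹ ∈ K ⊓ D' := hcj x _ (inv_mem hk)
    rw [h1, hf _ (hcj d _ (mul_mem hk h2)) _ (hck d x hx.1), hfe d _ (mul_mem hk h2),
      hf k hk _ h2, hfk x hx _ (inv_mem hk), hfinv k hk, mul_inv_cancel, map_one, one_mul]
  have hP0' : ∀ d e : Δ, (d : Δ ⧸ K.subgroupOf Δ) = e → ∀ x ∈ K ⊓ D,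
      f ⁅(d : 𝔾), x⁆ = f ⁅(e : 𝔾), x⁆ := by
    intro d e hde x hx
    have h1 : d⁻¹ * e ∈ K.subgroupOf Δ := QuotientGroup.eq.1 hde
    have h2 : (e : 𝔾) = d * ((d : 𝔾)⁻¹ * e) := by group
    rw [h2]
    exact (hP0 d _ ⟨h1, D'.mul_mem (D'.inv_mem d.2.2) e.2.2⟩ x hx).symm
  have hbc : ∀ d e : Δ, (d : Δ ⧸ K.subgroupOf Δ) = e → b d = b e := by
    intro d e hde
    have h1 : d⁻¹ * e ∈ K.subgroupOf Δ := QuotientGroup.eq.1 hde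
    have h2 : (e : 𝔾) = d * ((d : 𝔾)⁻¹ * e) := by group
    have h3 : (d : 𝔾)⁻¹ * e ∈ K ⊓ D := ⟨h1, hDD (D'.mul_mem (D'.inv_mem d.2.2) e.2.2)⟩
    rw [h2, map_mul, hbK _ h3, mul_one]
  let G : 𝔾 → S := fun x => ∏ q : Δ ⧸ K.subgroupOf Δ, f ⁅((q.out : Δ) : 𝔾), x⁆
  have hGmul : ∀ x ∈ K ⊓ D, ∀ y ∈ K ⊓ D, G (x * y) = G x * G y := by
    intro x hx y hy
    show ∏ q : Δ ⧸ K.subgroupOf Δ, _ = (∏ q : Δ ⧸ K.subgroupOf Δ, _) *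
      (∏ q : Δ ⧸ K.subgroupOf Δ, _)
    rw [← Finset.prod_mul_distrib]
    refine Finset.prod_congr rfl fun q _ => ?_
    have h1 : ⁅((q.out : Δ) : 𝔾), x * y⁆ =
        ⁅((q.out : Δ) : 𝔾), x⁆ * (x * ⁅((q.out : Δ) : 𝔾), y⁆ * x⁻¹) := by
      rw [commutatorElement_def, commutatorElement_def, commutatorElement_def]
      group
    rw [h1, hf _ (hck _ _ hx.1) _ (hcj _ _ (hck _ _ hy.1)), hfk x hx _ (hck _ _ hy.1)]
  have hGf : ∀ x ∈ K ⊓ D', G x = ((f x)⁻¹) ^ n := by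
    intro x hx
    have h1 : G x = (∏ q : Δ ⧸ K.subgroupOf Δ, b ((q.out : Δ) : 𝔾) (f x)) * ((f x)⁻¹) ^ n := by
      rw [← hcard, ← Finset.card_univ, ← Finset.prod_const, ← Finset.prod_mul_distrib]
      refine Finset.prod_congr rfl fun q _ => ?_
      rw [commutatorElement_def, hf _ (hcj _ _ hx) _ (inv_mem hx), hfe _ _ hx, hfinv _ hx]
    rw [h1, hfix (∏ q : Δ ⧸ K.subgroupOf Δ, b ((q.out : Δ) : 𝔾) (f x)) ?_, one_mul]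
    intro d hd
    rw [map_prod]
    refine Fintype.prod_equiv (Equiv.mulLeft ((⟨d, hd⟩ : Δ) : Δ ⧸ K.subgroupOf Δ)) _ _ fun q => ?_
    have h2 : (((⟨d, hd⟩ : Δ) * q.out : Δ) : Δ ⧸ K.subgroupOf Δ) =
        (((Equiv.mulLeft ((⟨d, hd⟩ : Δ) : Δ ⧸ K.subgroupOf Δ) q).out : Δ) : Δ ⧸ K.subgroupOf Δ) := by
      rw [QuotientGroup.mk_mul, QuotientGroup.out_eq', QuotientGroup.out_eq']
      rfl
    have h3 := hbc _ _ h2
    rw [← h3]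
    show _ = b (d * ((q.out : Δ) : 𝔾)) (f x)
    rw [map_mul, MulAut.mul_apply]
  have hGe : ∀ g : 𝔾, ∀ x ∈ K ⊓ D, G (g * x * g⁻¹) = b g (G x) := by
    intro g x hx
    show ∏ q : Δ ⧸ K.subgroupOf Δ, _ = b g (∏ q : Δ ⧸ K.subgroupOf Δ, _)
    rw [map_prod]
    -- conjugation on the classes
    let cj : 𝔾 → Δ → Δ := fun g d => ⟨g * d * g⁻¹, hΔn.conj_mem d d.2 g⟩
    have hcjc : ∀ (g : 𝔾) (d e : Δ), (d : Δ ⧸ K.subgroupOf Δ) = e →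
        ((cj g d : Δ) : Δ ⧸ K.subgroupOf Δ) = cj g e := by
      intro g d e hde
      rw [QuotientGroup.eq] at hde ⊢
      have h1 : (d : 𝔾)⁻¹ * e ∈ K := hde
      show (g * (d : 𝔾) * g⁻¹)⁻¹ * (g * e * g⁻¹) ∈ K
      have h2 : (g * (d : 𝔾) * g⁻¹)⁻¹ * (g * e * g⁻¹) = g * ((d : 𝔾)⁻¹ * e) * g⁻¹ := by group
      rw [h2]
      exact hKn.conj_mem _ h1 g
    have hinv : ∀ (g : 𝔾) (q : Δ ⧸ K.subgroupOf Δ),
        ((cj g⁻¹ (((cj g q.out : Δ) : Δ ⧸ K.subgroupOf Δ)).out : Δ) : Δ ⧸ K.subgroupOf Δ) = q := by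
      intro g q
      rw [hcjc g⁻¹ _ (cj g q.out) (QuotientGroup.out_eq' _)]
      have h1 : cj g⁻¹ (cj g q.out) = q.out := by
        apply Subtype.ext
        show g⁻¹ * (g * (q.out : Δ) * g⁻¹) * g⁻¹⁻¹ = _
        group
      rw [h1, QuotientGroup.out_eq']
    let e : Δ ⧸ K.subgroupOf Δ ≃ Δ ⧸ K.subgroupOf Δ :=
      { toFun := fun q => ((cj g⁻¹ q.out : Δ) : Δ ⧸ K.subgroupOf Δ)
        invFun := fun q => ((cj g q.out : Δ) : Δ ⧸ K.subgroupOf Δ)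
        left_inv := fun q => by
          have h1 := hinv g⁻¹ q
          rwa [inv_inv] at h1
        right_inv := fun q => hinv g q }
    refine Fintype.prod_equiv e _ _ fun q => ?_
    have h1 : ⁅((q.out : Δ) : 𝔾), g * x * g⁻¹⁆ =
        g * ⁅g⁻¹ * ((q.out : Δ) : 𝔾) * g⁻¹⁻¹, x⁆ * g⁻¹ := by
      rw [commutatorElement_def, commutatorElement_def]
      group
    rw [h1, hfe g _ (hck _ _ hx.1)]
    congr 1
    exact hP0' (cj g⁻¹ q.out) (e q).out (QuotientGroup.out_eq' _).symm x hx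
  refine ⟨fun x => ((G x) ^ m)⁻¹, ?_, ?_, ?_⟩
  · intro x hx y hy
    show ((G (x * y)) ^ m)⁻¹ = ((G x) ^ m)⁻¹ * ((G y) ^ m)⁻¹
    rw [hGmul x hx y hy, mul_pow, mul_inv]
  · intro x hx
    show ((G x) ^ m)⁻¹ = f x
    rw [hGf x hx, hSnm, inv_inv]
  · intro g x hx
    show ((G (g * x * g⁻¹)) ^ m)⁻¹ = b g (((G x) ^ m)⁻¹)
    rw [hGe g x hx, map_inv, map_pow]

/-- The extension is unramified. -/
theorem ext_unram {Ω : Type} [MulAction 𝔾 Ω] {I : Ω → Subgroup 𝔾}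
    (hI : ∀ (g : 𝔾) (w : Ω), ∀ x ∈ I w, g * x * g⁻¹ ∈ I (g • w)) (hKn : K.Normal)
    (hDD : D' ≤ D) (hcm : ∀ a b : 𝔾, ⁅a, b⁆ ∈ D')
    {S : Type} [CommGroup S] (b : 𝔾 →* MulAut S) {f F : 𝔾 → S}
    (hF1 : ∀ x ∈ K ⊓ D, ∀ y ∈ K ⊓ D, F (x * y) = F x * F y)
    (hF2 : ∀ x ∈ K ⊓ D', F x = f x) (hF3 : ∀ g : 𝔾, ∀ x ∈ K ⊓ D, F (g * x * g⁻¹) = b g (F x))
    (hfr : ∀ A, ∀ x ∈ K ⊓ D', x ∈ I A → f x = 1)
    (hram : ∀ A, I A ≤ D' ∨ ∀ s ∈ fx b (MulAction.stabilizer 𝔾 A ⊓ B ⊓ D'), s = 1) (A : Ω) :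
    ∀ x ∈ K ⊓ D, x ∈ I A → F x = 1 := by
  intro x hx hxA
  rcases hram A with h | h
  · have h1 : x ∈ K ⊓ D' := ⟨hx.1, h hxA⟩
    rw [hF2 x h1]
    exact hfr A x h1 hxA
  · apply h
    rintro z ⟨⟨hz, -⟩, -⟩
    rw [← hF3 z x hx]
    have h1 : z * x * z⁻¹ ∈ I A := by
      have h2 := hI z A x hxA
      rwa [MulAction.mem_stabilizer_iff.1 hz] at h2
    have h2 : ⁅z, x⁆ ∈ I A := by
      rw [commutatorElement_def]
      exact (I A).mul_mem h1 ((I A).inv_mem hxA)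
    have h3 : ⁅z, x⁆ ∈ K ⊓ D' := by
      refine ⟨?_, hcm z x⟩
      rw [commutatorElement_def]
      exact K.mul_mem (hKn.conj_mem x hx.1 z) (K.inv_mem hx.1)
    have h4 : z * x * z⁻¹ = ⁅z, x⁆ * x := by
      rw [commutatorElement_def]
      group
    rw [h4, hF1 _ ⟨h3.1, hDD h3.2⟩ x hx, hF2 _ h3, hfr A _ h3 h2, one_mul]

end

end Pool.Agent.J6H14.DMu
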