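import Pool.Agent.J6H14.DMu.Loc
import Pool.Agent.Y737.PC.HMF
import Pool.Agent.Y809.PC.Ram

/-!
# Finiteness of the ranks (Hermite-Minkowski)
-/

set_option autoImplicit false

namespace Pool.Agent.J6H14.DMu

open IntermediateField Module Pool.Agent.Q60.MU Pool.Agent.W5h77.MB Pool.Agent.W5h33.DF NumberField
open Pool.Agent.Y157.PC (FinLevel UnramOut)
open Pool.Agent.Y157.PS (Ine Dec)
open scoped Pointwise commutatorElement

theorem ine_iff {V : ValuationSubring Qb} {σ : Gal(Qb/ℚ)} : Ine V σ ↔ σ ∈ inertia V := by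
  refine and_congr_left fun _ => ?_
  constructor
  · intro h
    ext z
    rw [ValuationSubring.mem_pointwise_smul_iff_inv_smul_mem]
    show σ⁻¹ z ∈ V ↔ z ∈ V
    rw [← h (σ⁻¹ z)]
    have h3 : σ (σ⁻¹ z) = z := by
      show (σ * σ⁻¹) z = z
      rw [mul_inv_cancel]
      rfl
    rw [h3]
  · intro h z
    have h1 : σ • z ∈ σ • V ↔ z ∈ V := ValuationSubring.smul_mem_pointwise_smul_iff
    rw [h] at h1
    exact h1

/-- Hyperplanes. -/
theorem exists_hyper {p : ℕ} [hp : Fact p.Prime] {Ω : Type} {I : Ω → Subgroup Gal(Qb/ℚ)}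
    {H W : Subgroup Gal(Qb/ℚ)} (hWH : W ≤ H) (hWf : W.relIndex H ≠ 0) (hg : gens p I H ⊆ W) {x : Gal(Qb/ℚ)}
    (hx : x ∈ H) (hxW : x ∉ W) : ∃ W₁ : Subgroup Gal(Qb/ℚ), W ≤ W₁ ∧ W₁ ≤ H ∧ x ∉ W₁ ∧
      W₁.relIndex H ≤ p := by
  obtain ⟨V, i1, i2, i3, ρ, π, hπ, hadd, h0, -⟩ := exists_rep (D := H) (K := H) le_rfl
    (fun d hd y hy => H.mul_mem (H.mul_mem hd hy) (H.inv_mem hd)) hWf hg
    (fun d hd y hy => by
      have h1 : d * y * d⁻¹ = ⁅d, y⁆ * y := by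
        rw [commutatorElement_def]
        group
      rw [h1]
      exact W.mul_mem (hg (Or.inl (Or.inr ⟨d, hd, y, hWH hy, rfl⟩))) hy)
  have hπx : π ⟨x, hx⟩ ≠ 0 := fun h => hxW ((h0 _).1 h)
  obtain ⟨φ, hφ⟩ : ∃ φ : Dual (ZMod p) V, φ (π ⟨x, hx⟩) ≠ 0 := by
    by_contra hcon
    push Not at hcon
    exact hπx ((forall_dual_apply_eq_zero_iff (ZMod p) _).1 hcon)
  have hπ1 : π 1 = 0 := (h0 1).2 W.one_mem
  let χ : H →* Multiplicative (ZMod p) :=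
    { toFun := fun y => Multiplicative.ofAdd (φ (π y))
      map_one' := by rw [hπ1, map_zero]; rfl
      map_mul' := fun y z => by rw [hadd, map_add]; rfl }
  refine ⟨χ.ker.map H.subtype, ?_, ?_, ?_, ?_⟩
  · intro y hyW
    refine ⟨⟨y, hWH hyW⟩, ?_, rfl⟩
    show Multiplicative.ofAdd (φ (π ⟨y, hWH hyW⟩)) = 1
    rw [(h0 ⟨y, hWH hyW⟩).2 hyW, map_zero]
    rfl
  · rintro _ ⟨y, -, rfl⟩
    exact y.2
  · rintro ⟨y, hy, hyx⟩
    have h1 : y = ⟨x, hx⟩ := Subtype.ext hyx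
    subst h1
    exact hφ (Multiplicative.ofAdd.injective hy)
  · have h1 : (χ.ker.map H.subtype).relIndex H = χ.ker.index := by
      show ((χ.ker.map H.subtype).comap H.subtype).index = _
      rw [Subgroup.comap_map_eq_self_of_injective H.subtype_injective]
    rw [h1, Subgroup.index_ker]
    have h2 : Nat.card (Multiplicative (ZMod p)) = p := by
      show Nat.card (ZMod p) = p
      exact Nat.card_zmod p
    exact (Nat.card_le_card_of_injective _ Subtype.val_injective).trans_eq h2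

theorem inertia_le_locFin (p : ℕ) (s : Bool) (A : ValuationSubring Qb) :
    inertia A ≤ locFin p s A := by
  unfold locFin
  split_ifs
  · intro σ hσ
    exact hσ.1
  · exact le_rfl

/-- The ranks are finite. -/
theorem rank_finite {p : ℕ} [hp : Fact p.Prime] (s : Bool) (E : IntermediateField ℚ Qb)
    [hE : FiniteDimensional ℚ E] : ∃ C, RkLe p s E C := by
  classical
  have hcl : IsAlgClosure ℚ Qb := ⟨AlgebraicClosure.isAlgClosed ℚ, isAlg_Qb⟩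
  obtain ⟨S, hS⟩ := Pool.Agent.Y809.PC.ram Qb E hE
  set H := E.fixingSubgroup with hH
  set n := H.index with hn
  have hH0 : H.index ≠ 0 := index_ne_zero' E
  have hfin : ∀ N : ℕ, {ψ : (Qb ≃ₐ[ℚ] Qb) →* Equiv.Perm (Fin N) | FinLevel ψ ∧ UnramOut S ψ}.Finite :=
    fun N => Pool.Agent.Y737.PC.hmf Qb (Equiv.Perm (Fin N)) S
  let 𝒳 : ℕ → Type := fun N =>
    {ψ : (Qb ≃ₐ[ℚ] Qb) →* Equiv.Perm (Fin N) // FinLevel ψ ∧ UnramOut S ψ}
  have hX : ∀ N, Finite (𝒳 N) := fun N => (hfin N).to_subtype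
  let W₀ : Subgroup Gal(Qb/ℚ) := ⨅ N : Fin (p * n + 1), ⨅ ψ : 𝒳 N, ψ.1.ker
  have hW₀ : W₀.index ≠ 0 := by
    refine Subgroup.index_iInf_ne_zero fun N => Subgroup.index_iInf_ne_zero fun ψ => ?_
    rw [Subgroup.index_ker]
    exact Nat.card_pos.ne'
  have hW₀H : W₀.relIndex H ≠ 0 := fun h => hW₀ (by
    have h1 := Subgroup.relIndex_eq_zero_of_le_right (le_top : H ≤ ⊤) h
    rwa [Subgroup.relIndex_top_right] at h1)
  refine ⟨W₀.relIndex H, (rkLe_iff E _).1 ?_⟩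
  intro W hWH hWo hWf hg
  rw [← Subgroup.inf_relIndex_right W₀]
  refine Subgroup.relIndex_le_of_le_left ?_ (by rwa [Subgroup.inf_relIndex_right])
  rintro x ⟨hx, hxH⟩
  by_contra hxW
  obtain ⟨W₁, h1, h2, h3, h4⟩ := exists_hyper hWH hWf hg hxH hxW
  have hW₁o : IsOpen (W₁ : Set Gal(Qb/ℚ)) := Subgroup.isOpen_mono h1 hWo
  have hW₁H : W₁.relIndex H ≠ 0 := by
    intro h
    have h5 := Subgroup.relIndex_le_of_le_left h1 hWf
    have h6 : W.relIndex H = 0 ∨ True := Or.inr trivial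
    have h7 := Subgroup.relIndex_dvd_of_le_left H h1
    rw [h] at h7
    exact hWf (Nat.eq_zero_of_zero_dvd h7)
  have hidx : W₁.index = W₁.relIndex H * n := (Subgroup.relIndex_mul_index h2).symm
  have hidx0 : W₁.index ≠ 0 := by
    rw [hidx]
    exact mul_ne_zero hW₁H hH0
  have hle : W₁.index ≤ p * n := by
    rw [hidx]
    exact Nat.mul_le_mul_right _ h4
  have hfi : W₁.FiniteIndex := ⟨hidx0⟩
  have hfq : Finite (Gal(Qb/ℚ) ⧸ W₁) := inferInstance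
  let e : (Gal(Qb/ℚ) ⧸ W₁) ≃ Fin W₁.index := Finite.equivFinOfCardEq rfl
  let ψ : (Qb ≃ₐ[ℚ] Qb) →* Equiv.Perm (Fin W₁.index) :=
    (e.permCongrHom).toMonoidHom.comp (MulAction.toPermHom Gal(Qb/ℚ) (Gal(Qb/ℚ) ⧸ W₁))
  have hψ : ∀ σ : Gal(Qb/ℚ), ψ σ = 1 ↔ ∀ q : Gal(Qb/ℚ) ⧸ W₁, σ • q = q := by
    intro σ
    show e.permCongrHom (MulAction.toPermHom Gal(Qb/ℚ) (Gal(Qb/ℚ) ⧸ W₁) σ) = 1 ↔ _
    rw [EmbeddingLike.map_eq_one_iff, Equiv.ext_iff]
    exact Iff.rfl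
  have hψ1 : ∀ σ : Gal(Qb/ℚ), (∀ g : Gal(Qb/ℚ), g⁻¹ * σ * g ∈ W₁) → ψ σ = 1 := by
    intro σ h
    rw [hψ]
    intro q
    obtain ⟨g, rfl⟩ := QuotientGroup.mk_surjective q
    show ((σ * g : Gal(Qb/ℚ)) : Gal(Qb/ℚ) ⧸ W₁) = g
    rw [eq_comm, QuotientGroup.eq, ← mul_assoc]
    exact h g
  have hψ2 : ψ.ker ≤ W₁ := by
    intro σ hσ
    have h5 := (hψ σ).1 hσ ((1 : Gal(Qb/ℚ)) : Gal(Qb/ℚ) ⧸ W₁)
    have h6 : ((σ * 1 : Gal(Qb/ℚ)) : Gal(Qb/ℚ) ⧸ W₁) = ((1 : Gal(Qb/ℚ)) : Gal(Qb/ℚ) ⧸ W₁) := h5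
    rw [mul_one, eq_comm, QuotientGroup.eq, inv_one, one_mul] at h6
    exact h6
  have hlev : FinLevel ψ := by
    have hcl2 : (fixedField W₁).fixingSubgroup = W₁ := fix_fixed hW₁o
    have hfd : FiniteDimensional ℚ (fixedField W₁) := finite_fixed hW₁o hidx0
    refine ⟨IntermediateField.normalClosure ℚ (fixedField W₁) Qb, inferInstance, fun σ hσ => ?_⟩
    apply hψ1
    intro g
    rw [← hcl2, IntermediateField.mem_fixingSubgroup_iff]
    intro y hy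
    have hy' : g y ∈ IntermediateField.normalClosure ℚ (fixedField W₁) Qb :=
      AlgHom.fieldRange_le_normalClosure ((g : Qb →ₐ[ℚ] Qb).comp (fixedField W₁).val)
        ⟨⟨y, hy⟩, rfl⟩
    have h5 := (IntermediateField.mem_fixingSubgroup_iff _ _).1 hσ _ hy'
    show g⁻¹ (σ (g y)) = y
    rw [h5]
    show (g⁻¹ * g) y = y
    rw [inv_mul_cancel]
    rfl
  have hun : UnramOut S ψ := by
    intro ℓ hℓ hℓS V hV σ hσ
    apply hψ1
    intro g
    have h5 : g⁻¹ * σ * g ∈ inertia (g⁻¹ • V) := by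
      have h6 := inertia_conj g⁻¹ V σ (ine_iff.1 hσ)
      rwa [inv_inv] at h6
    have h6 : (ℓ : Qb) ∈ (g⁻¹ • V).nonunits := (natCast_mem_nonunits_smul g⁻¹).2 hV
    have h7 : g⁻¹ * σ * g ∈ H := by
      rw [hH, IntermediateField.mem_fixingSubgroup_iff]
      exact fun z hz => hS ℓ hℓ hℓS _ h6 _ (ine_iff.2 h5) z hz
    exact h1 (hg (Or.inr ⟨h7, Sum.inl (g⁻¹ • V), inertia_le_locFin p s _ h5⟩))
  have h5 : x ∈ ψ.ker := by
    have h6 : W₀ ≤ ψ.ker := iInf_le_of_le (⟨W₁.index, Nat.lt_succ_of_le hle⟩ : Fin (p * n + 1))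
      (iInf_le_of_le (⟨ψ, hlev, hun⟩ : 𝒳 W₁.index) le_rfl)
    exact h6 hx
  exact h3 (hψ2 h5)

end Pool.Agent.J6H14.DMu
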