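import Pool.Agent.J6H14.DMu.Loc

/-!
# The layers of the cyclotomic `ℤ_p`-extension, for all primes `p`
-/

set_option autoImplicit false

namespace Pool.Agent.J6H14.DMu

open IntermediateField Module Pool.Agent.Q60.MU Pool.Agent.W5h77.MB Pool.Agent.W5h33.DF NumberField
open scoped Pointwise commutatorElement ComplexConjugate

/-- The cyclotomic character. -/
theorem exists_char {p : ℕ} (hp : p.Prime) (N : ℕ) :
    ∃ χ : Gal(Qb/ℚ) →* (ZMod (p ^ N))ˣ, Function.Surjective χ ∧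
      χ.ker = (adjoin ℚ {z : Qb | z ^ p ^ N = 1}).fixingSubgroup ∧
      ∀ g, (∀ z : Qb, z ^ p ^ N = 1 → g z = z⁻¹) → χ g = -1 := by
  have hpn : NeZero (p ^ N) := ⟨(pow_pos hp.pos N).ne'⟩
  have hpQ : NeZero ((p ^ N : ℕ) : Qb) := ⟨by exact_mod_cast (pow_pos hp.pos N).ne'⟩
  have hne : HasEnoughRootsOfUnity Qb (p ^ N) := inferInstance
  have hn : Nat.card { x // x ∈ rootsOfUnity (p ^ N) Qb } = p ^ N :=
    HasEnoughRootsOfUnity.natCard_rootsOfUnity Qb (p ^ N)
  let f : Gal(Qb/ℚ) →* (Qb ≃+* Qb) :=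
    { toFun := fun g => g.toRingEquiv
      map_one' := rfl
      map_mul' := fun _ _ => rfl }
  let χ : Gal(Qb/ℚ) →* (ZMod (p ^ N))ˣ := (modularCyclotomicCharacter Qb hn).comp f
  have hspec : ∀ (g : Gal(Qb/ℚ)) (z : Qb), z ^ p ^ N = 1 → g z = z ^ ((χ g : ZMod (p ^ N))).val := by
    intro g z hz
    have hz0 : z ≠ 0 := by
      rintro rfl
      rw [zero_pow (pow_pos hp.pos N).ne'] at hz
      exact zero_ne_one hz
    have h4 : (Units.mk0 z hz0) ∈ rootsOfUnity (p ^ N) Qb := by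
      rw [mem_rootsOfUnity]
      ext
      exact hz
    exact modularCyclotomicCharacter.spec Qb hn (f g) h4
  have hval : ∀ (g : Gal(Qb/ℚ)) (c : (ZMod (p ^ N))ˣ),
      (∀ z : Qb, z ^ p ^ N = 1 → g z = z ^ ((c : ZMod (p ^ N))).val) → χ g = c := by
    intro g c h
    ext
    refine (modularCyclotomicCharacter.unique Qb hn (f g) (c := (c : ZMod (p ^ N))) ?_).symm
    intro t ht
    exact h t (by
      have h1 := congrArg Units.val ((mem_rootsOfUnity _ _).1 ht)
      exact h1)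
  have hker : χ.ker = (adjoin ℚ {z : Qb | z ^ p ^ N = 1}).fixingSubgroup := by
    ext g
    rw [MonoidHom.mem_ker]
    constructor
    · intro h1
      have h2 : adjoin ℚ {z : Qb | z ^ p ^ N = 1} ≤ fixedField (Subgroup.zpowers g) := by
        rw [adjoin_le_iff]
        intro z hz
        have h3 : Subgroup.zpowers g ≤ MulAction.stabilizer Gal(Qb/ℚ) z := by
          rw [Subgroup.zpowers_le]
          show g z = z
          have hz' : z ^ p ^ N = 1 := hz
          rw [hspec g z hz, h1]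
          rcases Nat.eq_or_lt_of_le (Nat.one_le_iff_ne_zero.2 (pow_pos hp.pos N).ne') with h | h
          · rw [← h, pow_one] at hz'
            rw [hz', one_pow]
          · have : Fact (1 < p ^ N) := ⟨h⟩
            rw [Units.val_one, ZMod.val_one, pow_one]
        exact (mem_fixedField_iff _ _).2 fun f hf => h3 hf
      rw [IntermediateField.mem_fixingSubgroup_iff]
      intro x hx
      exact (mem_fixedField_iff _ _).1 (h2 hx) g (Subgroup.mem_zpowers g)
    · intro h1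
      rw [IntermediateField.mem_fixingSubgroup_iff] at h1
      apply hval
      intro z hz
      rw [h1 z (subset_adjoin ℚ _ hz)]
      rcases Nat.eq_or_lt_of_le (Nat.one_le_iff_ne_zero.2 (pow_pos hp.pos N).ne') with h | h
      · rw [← h, pow_one] at hz
        rw [hz, one_pow]
      · have : Fact (1 < p ^ N) := ⟨h⟩
        rw [Units.val_one, ZMod.val_one, pow_one]
  refine ⟨χ, ?_, hker, ?_⟩
  · -- surjectivity
    obtain ⟨ζ, hζ⟩ := HasEnoughRootsOfUnity.exists_primitiveRoot Qb (p ^ N)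
    have hE : adjoin ℚ {z : Qb | z ^ p ^ N = 1} = ℚ⟮ζ⟯ := by
      apply le_antisymm
      · rw [adjoin_le_iff]
        intro z hz
        obtain ⟨i, -, rfl⟩ := hζ.eq_pow_of_pow_eq_one hz
        exact pow_mem (mem_adjoin_simple_self ℚ ζ) i
      · rw [adjoin_le_iff]
        rintro _ rfl
        exact subset_adjoin ℚ _ hζ.pow_eq_one
    have hcyc : IsCyclotomicExtension {p ^ N} ℚ ℚ⟮ζ⟯ :=
      hζ.intermediateField_adjoin_isCyclotomicExtension ℚ
    have hfr : finrank ℚ ℚ⟮ζ⟯ = (p ^ N).totient :=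
      IsCyclotomicExtension.finrank ℚ⟮ζ⟯ (Polynomial.cyclotomic.irreducible_rat (pow_pos hp.pos N))
    have h1 : Nat.card χ.range = Nat.card (ZMod (p ^ N))ˣ := by
      rw [← Subgroup.index_ker, hker, hE, ← finrank_eq_fixingSubgroup_index, hfr,
        Nat.card_eq_fintype_card, ZMod.card_units_eq_totient]
    rw [← MonoidHom.range_eq_top]
    exact Subgroup.eq_top_of_card_eq _ h1
  · intro g h
    apply hval
    intro z hz
    have hz0 : z ≠ 0 := by
      rintro rfl
      rw [zero_pow (pow_pos hp.pos N).ne'] at hz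
      exact zero_ne_one hz
    rw [h z hz]
    obtain ⟨n, hn'⟩ := Nat.exists_eq_succ_of_ne_zero (pow_pos hp.pos N).ne'
    have h2 : (((-1 : (ZMod (p ^ N))ˣ) : ZMod (p ^ N))).val = n := by
      rw [Units.val_neg, Units.val_one]
      generalize p ^ N = q at hn' ⊢
      subst hn'
      exact ZMod.val_neg_one n
    rw [h2]
    rw [hn', pow_succ] at hz
    exact (eq_inv_of_mul_eq_one_left hz).symm

theorem adjoin_mono {p a b : ℕ} (hab : a ≤ b) :
    adjoin ℚ {z : Qb | z ^ p ^ a = 1} ≤ adjoin ℚ {z : Qb | z ^ p ^ b = 1} := by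
  apply adjoin.mono
  intro z hz
  obtain ⟨k, rfl⟩ := Nat.exists_eq_add_of_le hab
  show z ^ p ^ (a + k) = 1
  rw [pow_add, pow_mul, show z ^ p ^ a = 1 from hz, one_pow]

/-- Complex conjugation inverts the roots of unity. -/
theorem conj_root {ι : Qb →+* ℂ} {c : Gal(Qb/ℚ)} (hc : ∀ x, ι (c x) = conj (ι x)) {n : ℕ}
    (hn : n ≠ 0) {z : Qb} (hz : z ^ n = 1) : c z = z⁻¹ := by
  apply ι.injective
  rw [hc, map_inv₀]
  have h1 : (ι z) ^ n = 1 := by rw [← map_pow, hz, map_one]
  have h2 : ‖ι z‖ = 1 := Complex.norm_eq_one_of_pow_eq_one h1 hn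
  exact (Complex.inv_eq_conj h2).symm

/-- The units modulo `2 ^ (n + 2)`. -/
theorem two_units (n : ℕ) : IsCyclic ((ZMod (2 ^ (n + 2)))ˣ ⧸ Subgroup.zpowers (-1 : (ZMod (2 ^ (n + 2)))ˣ)) := by
  classical
  have hne : NeZero (2 ^ (n + 2)) := ⟨by positivity⟩
  have h5 : orderOf (5 : ZMod (2 ^ (n + 2))) = 2 ^ n := ZMod.orderOf_five n
  have hu : IsUnit (5 : ZMod (2 ^ (n + 2))) := by
    have h1 : (5 : ZMod (2 ^ (n + 2))) ^ 2 ^ n = 1 := by
      rw [← h5]
      exact pow_orderOf_eq_one _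
    exact IsUnit.of_pow_eq_one h1 (by positivity)
  obtain ⟨u, hu⟩ := hu
  have hou : orderOf u = 2 ^ n := by rw [← h5, ← hu, orderOf_units]
  set H := Subgroup.zpowers u with hH
  have hcardH : Nat.card H = 2 ^ n := by rw [hH, Nat.card_zpowers, hou]
  have hcard : Nat.card (ZMod (2 ^ (n + 2)))ˣ = 2 ^ (n + 1) := by
    rw [Nat.card_eq_fintype_card, ZMod.card_units_eq_totient, Nat.totient_prime_pow Nat.prime_two
      (by omega)]
    simp
  have hidx : H.index = 2 := by
    have h1 := H.card_mul_index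
    rw [hcardH, hcard] at h1
    exact Nat.eq_of_mul_eq_mul_left (by positivity) (h1.trans (pow_succ 2 n))
  have hneg : (-1 : (ZMod (2 ^ (n + 2)))ˣ) ∉ H := by
    intro h
    obtain ⟨i, hi⟩ := h
    have hdvd : 4 ∣ 2 ^ (n + 2) := ⟨2 ^ n, by ring⟩
    have h1 := congrArg (ZMod.unitsMap hdvd) hi
    have h2 : ZMod.unitsMap hdvd u = 1 := by
      ext
      rw [ZMod.unitsMap_val, hu]
      have h3 : (ZMod.castHom hdvd (ZMod 4)) (5 : ZMod (2 ^ (n + 2))) = 5 := map_ofNat _ 5
      rw [ZMod.castHom_apply] at h3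
      rw [h3]
      rfl
    have h4 : ZMod.unitsMap hdvd (-1) = -1 := by
      ext
      rw [ZMod.unitsMap_val, Units.val_neg, Units.val_one, Units.val_neg, Units.val_one]
      have h3 : (ZMod.castHom hdvd (ZMod 4)) (-1 : ZMod (2 ^ (n + 2))) = -1 := by
        rw [map_neg, map_one]
      rw [ZMod.castHom_apply] at h3
      exact h3
    have h5 : (1 : (ZMod 4)ˣ) = -1 := by
      have h6 : ZMod.unitsMap hdvd (u ^ i) = ZMod.unitsMap hdvd (-1) := h1
      rw [map_zpow, h2, one_zpow, h4] at h6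
      exact h6
    have h6 := congrArg Units.val h5
    rw [Units.val_neg, Units.val_one] at h6
    exact absurd h6 (by decide)
  refine ⟨(u : (ZMod (2 ^ (n + 2)))ˣ ⧸ Subgroup.zpowers (-1 : (ZMod (2 ^ (n + 2)))ˣ)), fun q => ?_⟩
  obtain ⟨x, rfl⟩ := QuotientGroup.mk_surjective q
  have h1 : x ∈ H ∨ x * (-1) ∈ H := by
    by_cases hx : x ∈ H
    · exact Or.inl hx
    · right
      rw [Subgroup.mul_mem_iff_of_index_two hidx]
      exact ⟨fun h => absurd h hx, fun h => absurd h hneg⟩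
  rcases h1 with ⟨i, hi⟩ | ⟨i, hi⟩
  · exact ⟨i, by rw [← hi]; rfl⟩
  · refine ⟨i, ?_⟩
    have h2 : (u : (ZMod (2 ^ (n + 2)))ˣ ⧸ Subgroup.zpowers (-1 : (ZMod (2 ^ (n + 2)))ˣ)) ^ i =
        ((x * (-1) : (ZMod (2 ^ (n + 2)))ˣ) : (ZMod (2 ^ (n + 2)))ˣ ⧸
          Subgroup.zpowers (-1 : (ZMod (2 ^ (n + 2)))ˣ)) := by
      rw [← hi]
      rfl
    show _ ^ i = _
    rw [h2, QuotientGroup.eq]
    refine ⟨1, ?_⟩
    show (-1 : (ZMod (2 ^ (n + 2)))ˣ) ^ (1 : ℤ) = _
    rw [zpow_one, mul_inv_rev, inv_mul_cancel_right]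
    simp

/-- The layers are cyclic over `ℚ`. -/
theorem layer_cyc {p m : ℕ} (hp : p.Prime) {R : IntermediateField ℚ Qb} (hR : Layer p m R) :
    ∃ σ : Gal(Qb/ℚ), ∀ τ, ∃ i : ℤ, τ * (σ ^ i)⁻¹ ∈ R.fixingSubgroup := by
  by_cases hp2 : p = 2
  · subst hp2
    obtain ⟨⟨-, N, hN⟩, hreal⟩ := hR
    have hN2 : R ≤ adjoin ℚ {z : Qb | z ^ 2 ^ (N + 2) = 1} := hN.trans (adjoin_mono (by omega))
    obtain ⟨χ, -, hker, hneg⟩ := exists_char hp (N + 2)
    have hcyc := two_units N
    let π := (QuotientGroup.mk' (Subgroup.zpowers (-1 : (ZMod (2 ^ (N + 2)))ˣ))).comp χ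
    have hcr : IsCyclic π.range := inferInstance
    obtain ⟨⟨_, σ, rfl⟩, hσ⟩ := hcr.exists_generator
    refine ⟨σ, fun τ => ?_⟩
    obtain ⟨i, hi⟩ := hσ ⟨π τ, τ, rfl⟩
    refine ⟨i, ?_⟩
    have h1 : π (τ * (σ ^ i)⁻¹) = 1 := by
      have h2 : (π σ) ^ i = π τ := congrArg Subtype.val hi
      rw [map_mul, map_inv, map_zpow, h2, mul_inv_cancel]
    generalize τ * (σ ^ i)⁻¹ = g at h1 ⊢
    have h2 : χ g ∈ Subgroup.zpowers (-1 : (ZMod (2 ^ (N + 2)))ˣ) := by
      rw [← QuotientGroup.eq_one_iff]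
      exact h1
    obtain ⟨ι⟩ : Nonempty (Qb →+* ℂ) := ⟨(IsAlgClosed.lift : Qb →ₐ[ℚ] ℂ).toRingHom⟩
    obtain ⟨c, hc, hcc⟩ := exists_conj ι
    have hχc : χ c = -1 := hneg c fun z hz => conj_root hc (by positivity) hz
    have hcR : c ∈ R.fixingSubgroup := by
      rw [IntermediateField.mem_fixingSubgroup_iff]
      intro x hx
      apply ι.injective
      rw [hc, hreal ι x hx]
    have h3 : ∀ h : Gal(Qb/ℚ), χ h = 1 → h ∈ R.fixingSubgroup := by
      intro h hh
      have h4 : h ∈ χ.ker := hh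
      rw [hker] at h4
      exact fixingSubgroup_le hN2 h4
    obtain ⟨j, hj⟩ := h2
    have h4 : χ (g * (c ^ j)⁻¹) = 1 := by
      rw [map_mul, map_inv, map_zpow, hχc]
      have h5 : (-1 : (ZMod (2 ^ (N + 2)))ˣ) ^ j = χ g := hj
      rw [h5, mul_inv_cancel]
    have h5 : g = (g * (c ^ j)⁻¹) * c ^ j := by rw [inv_mul_cancel_right]
    rw [h5]
    exact mul_mem (h3 _ h4) (zpow_mem hcR j)
  · exact layer_cyclic hp hp2 hR.1

/-- The decomposition groups of the infinite places fix the layers. -/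
theorem stab_le_layer {p m : ℕ} {R : IntermediateField ℚ Qb} (hR : Layer p m R)
    (w : InfinitePlace Qb) : MulAction.stabilizer Gal(Qb/ℚ) w ≤ R.fixingSubgroup := by
  intro σ hσ
  rw [MulAction.mem_stabilizer_iff] at hσ
  have h1 : InfinitePlace.mk (w.embedding.comp (σ.symm : Qb →+* Qb)) = InfinitePlace.mk w.embedding := by
    have h2 : σ • InfinitePlace.mk w.embedding = InfinitePlace.mk w.embedding := by
      rw [InfinitePlace.mk_embedding, hσ]
    exact h2
  rw [InfinitePlace.mk_eq_iff] at h1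
  rw [IntermediateField.mem_fixingSubgroup_iff]
  intro x hx
  have h3 : σ.symm x = x := by
    apply w.embedding.injective
    rcases h1 with h | h
    · exact RingHom.congr_fun h x
    · have h4 : conj (w.embedding (σ.symm x)) = w.embedding x := RingHom.congr_fun h x
      have h5 := hR.2 w.embedding x hx
      rw [← h4, Complex.conj_conj] at h5
      rw [← h4]
      exact h5
  conv_lhs => rw [← h3]
  exact σ.apply_symm_apply x

theorem Layer.sup {p : ℕ} [hp : Fact p.Prime] {m m' : ℕ} {R R' : IntermediateField ℚ Qb}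
    (hR : Layer p m R) (hR' : Layer p m' R') : ∃ m'', Layer p m'' (R ⊔ R') := by
  obtain ⟨m'', h⟩ := layer_sup hR.1 hR'.1
  refine ⟨m'', h, fun ι x hx => ?_⟩
  have h1 : R ⊔ R' ≤ realSub ι := sup_le (fun x hx => mem_realSub.2 (hR.2 ι x hx))
    (fun x hx => mem_realSub.2 (hR'.2 ι x hx))
  exact mem_realSub.1 (h1 hx)

/-- There are layers of each degree. -/
theorem exists_layer {p : ℕ} (hp : p.Prime) (m : ℕ) : ∃ R, Layer p m R := by
  have key : ∀ (N : ℕ) (H : Subgroup Gal(Qb/ℚ)),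
      (adjoin ℚ {z : Qb | z ^ p ^ N = 1}).fixingSubgroup ≤ H → H.index = p ^ m →
      IsLayer p m (fixedField H) := by
    intro N H hH hidx
    have hfd : FiniteDimensional ℚ (adjoin ℚ {z : Qb | z ^ p ^ N = 1}) := by
      have hpn : NeZero (p ^ N) := ⟨(pow_pos hp.pos N).ne'⟩
      obtain ⟨ζ, hζ⟩ := HasEnoughRootsOfUnity.exists_primitiveRoot Qb (p ^ N)
      have hE : adjoin ℚ {z : Qb | z ^ p ^ N = 1} = ℚ⟮ζ⟯ := by
        apply le_antisymm
        · rw [adjoin_le_iff]
          intro z hz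
          obtain ⟨i, -, rfl⟩ := hζ.eq_pow_of_pow_eq_one hz
          exact pow_mem (mem_adjoin_simple_self ℚ ζ) i
        · rw [adjoin_le_iff]
          rintro _ rfl
          exact subset_adjoin ℚ _ hζ.pow_eq_one
      rw [hE]
      exact adjoin.finiteDimensional (Algebra.IsIntegral.isIntegral ζ)
    have hHo : IsOpen (H : Set Gal(Qb/ℚ)) :=
      Subgroup.isOpen_mono hH (adjoin ℚ {z : Qb | z ^ p ^ N = 1}).fixingSubgroup_isOpen
    refine ⟨?_, N, ?_⟩
    · rw [finrank_eq_fixingSubgroup_index, fix_fixed hHo, hidx]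
    · rw [← InfiniteGalois.fixedField_fixingSubgroup (adjoin ℚ {z : Qb | z ^ p ^ N = 1})]
      exact fixedField_antitone hH
  by_cases hp2 : p = 2
  · subst hp2
    obtain ⟨χ, hsurj, hker, hneg⟩ := exists_char hp (m + 2)
    let H : Subgroup Gal(Qb/ℚ) := (Subgroup.zpowers (-1 : (ZMod (2 ^ (m + 2)))ˣ)).comap χ
    have hH : (adjoin ℚ {z : Qb | z ^ 2 ^ (m + 2) = 1}).fixingSubgroup ≤ H := by
      rw [← hker]
      intro x hx
      rw [Subgroup.mem_comap, MonoidHom.mem_ker.1 hx]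
      exact one_mem _
    have hidx : H.index = 2 ^ m := by
      rw [Subgroup.index_comap_of_surjective _ hsurj]
      have hcard : Nat.card (ZMod (2 ^ (m + 2)))ˣ = 2 ^ (m + 1) := by
        rw [Nat.card_eq_fintype_card, ZMod.card_units_eq_totient,
          Nat.totient_prime_pow Nat.prime_two (by omega)]
        simp
      have h2 : Nat.card (Subgroup.zpowers (-1 : (ZMod (2 ^ (m + 2)))ˣ)) = 2 := by
        rw [Nat.card_zpowers]
        apply orderOf_eq_prime
        · rw [neg_one_sq]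
        · intro h
          have h3 := congrArg Units.val h
          rw [Units.val_neg, Units.val_one] at h3
          have h4 : Fact (2 < 2 ^ (m + 2)) := ⟨by
            calc 2 < 2 ^ 2 := by norm_num
              _ ≤ 2 ^ (m + 2) := Nat.pow_le_pow_right (by norm_num) (by omega)⟩
          exact ZMod.neg_one_ne_one h3
      have h3 := (Subgroup.zpowers (-1 : (ZMod (2 ^ (m + 2)))ˣ)).card_mul_index
      rw [h2, hcard, pow_succ, mul_comm] at h3
      exact Nat.eq_of_mul_eq_mul_right (by norm_num) h3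
    refine ⟨fixedField H, key (m + 2) H hH hidx, fun ι x hx => ?_⟩
    obtain ⟨c, hc, hcc⟩ := exists_conj ι
    have hχc : χ c = -1 := hneg c fun z hz => conj_root hc (by positivity) hz
    have h1 : c ∈ H := by
      rw [Subgroup.mem_comap, hχc]
      exact Subgroup.mem_zpowers _
    rw [← hc, (mem_fixedField_iff _ _).1 hx c h1]
  · obtain ⟨χ, hsurj, hker, -⟩ := exists_char hp (m + 1)
    have hcyc : IsCyclic (ZMod (p ^ (m + 1)))ˣ := ZMod.isCyclic_units_of_prime_pow p hp hp2 (m + 1)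
    have hne : NeZero (p ^ (m + 1)) := ⟨(pow_pos hp.pos _).ne'⟩
    let H : Subgroup Gal(Qb/ℚ) :=
      (powMonoidHom (p - 1) : (ZMod (p ^ (m + 1)))ˣ →* (ZMod (p ^ (m + 1)))ˣ).ker.comap χ
    have hH : (adjoin ℚ {z : Qb | z ^ p ^ (m + 1) = 1}).fixingSubgroup ≤ H := by
      rw [← hker]
      intro x hx
      rw [Subgroup.mem_comap, MonoidHom.mem_ker.1 hx]
      exact one_mem _
    have hidx : H.index = p ^ m := by
      rw [Subgroup.index_comap_of_surjective _ hsurj, IsCyclic.index_powMonoidHom_ker,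
        Nat.card_eq_fintype_card, ZMod.card_units_eq_totient, Nat.totient_prime_pow hp (by omega),
        Nat.add_sub_cancel, Nat.gcd_eq_right (Dvd.intro_left _ rfl),
        Nat.mul_div_cancel _ (Nat.sub_pos_of_lt hp.one_lt)]
    have h1 := key (m + 1) H hH hidx
    exact ⟨fixedField H, h1, fun ι x hx => mem_realSub.1 (layer_real hp hp2 h1 ι hx)⟩

end Pool.Agent.J6H14.DMu
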