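import Pool.Agent.J6H14.DMu.Lev
import Pool.Agent.J6H14.DMu.Lay
import Pool.Agent.J6H14.DMu.Hm

/-!
# Translation to number fields
-/

set_option autoImplicit false

namespace Pool.Agent.J6H14.DMu

open IntermediateField Module Pool.Agent.Q60.MU Pool.Agent.W5h77.MB Pool.Agent.W5h33.DF NumberField
open scoped Pointwise commutatorElement

/-- the subgroup of the absolute Galois group of `k` -/
noncomputable def sb (k E : IntermediateField ℚ Qb) : Subgroup k.fixingSubgroup :=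
  E.fixingSubgroup.subgroupOf k.fixingSubgroup

/-- the local groups -/
noncomputable def lc (p : ℕ) (s : Bool) (k : IntermediateField ℚ Qb)
    (w : ValuationSubring Qb ⊕ InfinitePlace Qb) : Subgroup k.fixingSubgroup :=
  (loc p s w).subgroupOf k.fixingSubgroup

theorem mem_sb {k E : IntermediateField ℚ Qb} {g : k.fixingSubgroup} :
    g ∈ sb k E ↔ (g : Gal(Qb/ℚ)) ∈ E.fixingSubgroup := Subgroup.mem_subgroupOf

theorem sb_inf (k E R : IntermediateField ℚ Qb) : sb k E ⊓ sb k R = sb k (E ⊔ R) := by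
  ext g
  rw [Subgroup.mem_inf, mem_sb, mem_sb, mem_sb, fixingSubgroup_sup, Subgroup.mem_inf]

theorem sb_mono {k E F : IntermediateField ℚ Qb} (h : E ≤ F) : sb k F ≤ sb k E := fun _ hg =>
  fixingSubgroup_le h hg

section
variable {p : ℕ} [hp : Fact p.Prime] {s : Bool} {k : IntermediateField ℚ Qb}
  [FiniteDimensional ℚ k]

omit hp in
theorem rk_iff {E : IntermediateField ℚ Qb} [FiniteDimensional ℚ E] (hkE : k ≤ E) (C : ℕ) :
    RankLe p (lc p s k) (sb k E) C ↔ RkLe p s E C := by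
  rw [← rkLe_iff]
  exact rankLe_sub k.fixingSubgroup_isOpen (fixingSubgroup_le hkE) C

omit hp [FiniteDimensional ℚ k] in
theorem lc_conj (g : k.fixingSubgroup) (w : ValuationSubring Qb ⊕ InfinitePlace Qb) :
    ∀ x ∈ lc p s k w, g * x * g⁻¹ ∈ lc p s k (g • w) := fun x hx =>
  loc_conj p s (g : Gal(Qb/ℚ)) w (x : Gal(Qb/ℚ)) hx

omit [FiniteDimensional ℚ k] in
theorem relIndex_fix {E F : IntermediateField ℚ Qb} [FiniteDimensional ℚ F] (hEF : E ≤ F) :
    F.fixingSubgroup.relIndex E.fixingSubgroup = rdeg E F := by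
  have hfE : FiniteDimensional ℚ E := fd_of_le hEF
  have h3 := Subgroup.relIndex_mul_index (fixingSubgroup_le hEF)
  rw [← finrank_eq_fixingSubgroup_index Qb F, ← finrank_eq_fixingSubgroup_index Qb E] at h3
  show _ = finrank ℚ F / finrank ℚ E
  rw [← h3, Nat.mul_div_cancel _ finrank_pos]

omit [FiniteDimensional ℚ k] in
theorem rel_sb {E F : IntermediateField ℚ Qb} [FiniteDimensional ℚ F] (hkE : k ≤ E) (hEF : E ≤ F) :
    (sb k F).relIndex (sb k E) = rdeg E F := by
  rw [← relIndex_fix hEF]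
  exact Subgroup.relIndex_subgroupOf (fixingSubgroup_le hkE)

omit [FiniteDimensional ℚ k] in
theorem index_sb {E : IntermediateField ℚ Qb} [FiniteDimensional ℚ E] (hkE : k ≤ E) :
    (sb k E).index = rdeg k E := relIndex_fix hkE

omit [FiniteDimensional ℚ k] in
theorem rel_layer {K R : IntermediateField ℚ Qb} [FiniteDimensional ℚ K] [FiniteDimensional ℚ R]
    (hkK : k ≤ K) : (sb k R).relIndex (sb k K) = rdeg K (K ⊔ R) := by
  rw [← Subgroup.inf_relIndex_left, sb_inf]
  exact rel_sb hkK le_sup_left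

omit [FiniteDimensional ℚ k] in
theorem sb_open {E : IntermediateField ℚ Qb} [FiniteDimensional ℚ E] :
    IsOpen (sb k E : Set k.fixingSubgroup) :=
  E.fixingSubgroup_isOpen.preimage continuous_subtype_val

omit [FiniteDimensional ℚ k] in
theorem sb_normal {E : IntermediateField ℚ Qb} (h : ∀ σ ∈ k.fixingSubgroup, ∀ x ∈ E, σ x ∈ E) :
    (sb k E).Normal := by
  refine ⟨fun g hg h' => ?_⟩
  rw [mem_sb, IntermediateField.mem_fixingSubgroup_iff] at hg ⊢
  intro x hx
  have h1 : (h' : Gal(Qb/ℚ))⁻¹ x ∈ E := h _ (inv_mem h'.2) x hx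
  show (h' : Gal(Qb/ℚ)) ((g : Gal(Qb/ℚ)) ((h' : Gal(Qb/ℚ))⁻¹ x)) = x
  rw [hg _ h1]
  show ((h' : Gal(Qb/ℚ)) * (h' : Gal(Qb/ℚ))⁻¹) x = x
  rw [mul_inv_cancel]
  rfl

omit [FiniteDimensional ℚ k] in
theorem layer_sb_normal {m : ℕ} {R : IntermediateField ℚ Qb} (hR : Layer p m R) :
    (sb k R).Normal := (layer_normal hp.out hR.1).subgroupOf _

omit [FiniteDimensional ℚ k] in
theorem layer_sb_index {m : ℕ} {R : IntermediateField ℚ Qb} (hR : Layer p m R) :
    ∃ m', (sb k R).index = p ^ m' := by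
  have hn := layer_normal hp.out hR.1
  have hfd := layer_fd hp.out hR.1
  have h1 : R.fixingSubgroup.relIndex k.fixingSubgroup ∣ p ^ m := by
    have h0 : finrank ℚ R = p ^ m := hR.1.1
    rw [← h0, finrank_eq_fixingSubgroup_index Qb R]
    exact Subgroup.relIndex_dvd_index_of_normal _ _
  obtain ⟨a, -, ha⟩ := (Nat.dvd_prime_pow hp.out).1 h1
  exact ⟨a, ha⟩

omit [FiniteDimensional ℚ k] in
theorem layer_sb_cyc {m : ℕ} {R : IntermediateField ℚ Qb} (hR : Layer p m R) :
    ∃ σ : k.fixingSubgroup, ∀ τ, ∃ i : ℤ, τ * (σ ^ i)⁻¹ ∈ sb k R := by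
  have hn := layer_normal hp.out hR.1
  obtain ⟨γ, hγ, h⟩ := exists_gamma (K := k.fixingSubgroup) (layer_cyc hp.out hR)
  refine ⟨⟨γ, hγ⟩, fun τ => ?_⟩
  obtain ⟨i, hi⟩ := h τ τ.2
  exact ⟨i, hi⟩

omit [FiniteDimensional ℚ k] in
/-- the map from fields to subgroups is injective -/
theorem sb_inj {E F : IntermediateField ℚ Qb} (hE : k ≤ E) (hF : k ≤ F) (h : sb k E = sb k F) :
    E = F := by
  have h1 : E.fixingSubgroup = F.fixingSubgroup := by
    have h2 := congrArg (Subgroup.map k.fixingSubgroup.subtype) h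
    unfold sb at h2
    rw [Subgroup.subgroupOf_map_subtype, Subgroup.subgroupOf_map_subtype,
      inf_eq_left.2 (fixingSubgroup_le hE), inf_eq_left.2 (fixingSubgroup_le hF)] at h2
    exact h2
  rw [← InfiniteGalois.fixedField_fixingSubgroup E, h1, InfiniteGalois.fixedField_fixingSubgroup]

omit [FiniteDimensional ℚ k] in
/-- Passage to additive notation. -/
theorem exists_rep_add {K : IntermediateField ℚ Qb} {S : Type} [CommGroup S] [Finite S]
    (b : k.fixingSubgroup →* MulAut S) (hS : Simp p (sb k K) b) :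
    ∃ (_ : Module (ZMod p) (Additive S)) (_ : Module.Finite (ZMod p) (Additive S))
      (τ : Rp p k (Additive S)), SimpleMod K τ ∧
      (∀ g (v : S), τ g (Additive.ofMul v) = Additive.ofMul (b g v)) ∧
      ∀ E, nfix τ E = Nat.card (fx b (sb k E)) := by
  obtain ⟨hn, hSp, hbK, hsimp⟩ := hS
  obtain ⟨i1, i2, τ, hτ⟩ := rep_of_comm (Q := Additive S) (p := p) (fun x => hSp x.toMul)
    (D := k.fixingSubgroup) (fun g => MonoidHom.toAdditive (b g).toMonoidHom)
    (fun x => by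
      show Additive.ofMul (b 1 x.toMul) = x
      rw [map_one]
      rfl)
    (fun d e x => by
      show Additive.ofMul (b (d * e) x.toMul) = Additive.ofMul (b d (b e x.toMul))
      rw [map_mul]
      rfl)
  have h1 : ∀ g (v : S), τ g (Additive.ofMul v) = Additive.ofMul (b g v) := fun g v => hτ g _
  refine ⟨i1, i2, τ, ⟨⟨inferInstance, ?_⟩, ?_⟩, h1, ?_⟩
  · intro U hU
    let T : Subgroup S :=
      { carrier := {s | Additive.ofMul s ∈ U}
        mul_mem' := fun {x y} hx hy => U.add_mem hx hy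
        one_mem' := U.zero_mem
        inv_mem' := fun {x} hx => U.neg_mem hx }
    have hT : ∀ s, s ∈ T ↔ Additive.ofMul s ∈ U := fun s => Iff.rfl
    rcases hsimp T (by
      intro g s hs
      rw [hT] at hs ⊢
      rw [← h1]
      exact hU g _ hs) with h | h
    · left
      rw [eq_bot_iff]
      intro x hx
      have h2 : x.toMul ∈ T := hx
      rw [h, Subgroup.mem_bot] at h2
      rw [Submodule.mem_bot]
      exact h2
    · right
      rw [eq_top_iff]
      intro x _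
      have h2 : x.toMul ∈ T := by
        rw [h]
        exact Subgroup.mem_top _
      exact h2
  · intro v g hg
    have h2 := h1 g v.toMul
    rw [hbK g hg, MulAut.one_apply] at h2
    exact h2
  · intro E
    refine Nat.card_congr (Equiv.subtypeEquiv Additive.toMul fun v => ?_)
    constructor
    · intro h g hg
      have h2 := h1 g v.toMul
      have h3 := h g hg
      exact Additive.ofMul.injective (h2.symm.trans h3)
    · intro h g hg
      have h2 := h1 g v.toMul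
      rw [h g hg] at h2
      exact h2

omit hp in
theorem fx_eq_bot {Λ S : Type} [Group Λ] [CommGroup S] [Finite S] {b : Λ →* MulAut S}
    {H : Subgroup Λ} : fx b H = ⊥ ↔ Nat.card (fx b H) = 1 := by
  constructor
  · intro h
    rw [h, Subgroup.card_bot]
  · exact fun h => Subgroup.eq_bot_of_card_eq _ h

/-- From the criterion for fields to the criterion for groups. -/
theorem crit_of {K R : IntermediateField ℚ Qb} [FiniteDimensional ℚ K] [FiniteDimensional ℚ R]
    (hkK : k ≤ K) {S : Type} [CommGroup S] [Finite S]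
    (b : k.fixingSubgroup →* MulAut S) {T : Type} [AddCommGroup T] [Module (ZMod p) T]
    (τ : Rp p k T)
    (hτ : ∀ E, nfix τ E = Nat.card (fx b (sb k E))) (hc : Criterion s K R τ) :
    Crit p (lc p s k) (sb k K) (sb k R) b := by
  obtain ⟨r, t, P, N, C, c, hP, hN, hPN, hlt⟩ := hc
  have hPf : ∀ i, FiniteDimensional ℚ (P i) := fun i => fd_of_le (hP i).2.1
  have hNf : ∀ j, FiniteDimensional ℚ (N j) := fun j => fd_of_le (hN j).2.1
  refine ⟨r, t, fun i => sb k (P i), fun j => sb k (N j), C, c, ?_, ?_, ?_, ?_⟩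
  · intro i
    obtain ⟨h1, h2, h3, h4⟩ := hP i
    have := hPf i
    refine ⟨sb_mono h2, by rwa [rel_sb h1 h2], ?_⟩
    rw [sb_inf]
    exact (rk_iff (h1.trans le_sup_left) _).2 h4
  · intro j
    obtain ⟨h1, h2, h3, h4⟩ := hN j
    have := hNf j
    refine ⟨sb_mono h2, by rwa [rel_sb h1 h2], fun C' hC' => ?_⟩
    rw [sb_inf] at hC'
    exact h4 C' ((rk_iff (h1.trans le_sup_left) _).1 hC')
  · intro S' _ _ a ha
    obtain ⟨i1, i2, σ, h1, h2, h3⟩ := exists_rep_add a ha
    have h4 := hPN (Additive S') σ h1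
    simp only [h3] at h4
    exact h4
  · simp only [hτ] at hlt
    rw [rel_layer hkK]
    exact hlt

omit hp in
/-- There is a prime above `p`. -/
theorem exists_above (hp : p.Prime) : ∃ A : ValuationSubring Qb, (p : Qb) ∈ A.nonunits := by
  let A : Subring Qb := (Int.castRingHom Qb).range
  let x : A := ⟨(p : Qb), ⟨(p : ℤ), by simp⟩⟩
  have hne : Ideal.span {x} ≠ ⊤ := by
    rw [Ne, Ideal.span_singleton_eq_top]
    rintro ⟨u, hu⟩
    have h1 : x * ((u⁻¹ : Aˣ) : A) = 1 := by rw [← hu, Units.mul_inv]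
    obtain ⟨n, hn⟩ := ((u⁻¹ : Aˣ) : A).2
    have h2 := congrArg Subtype.val h1
    have h3 : (p : Qb) * (n : Qb) = 1 := by
      have h4 : ((Int.castRingHom Qb) n : Qb) = (n : Qb) := rfl
      rw [← h4, hn]
      exact h2
    have h5 : ((p : ℤ) * n) = 1 := by exact_mod_cast h3
    have h6 := Int.isUnit_iff.1 (IsUnit.of_mul_eq_one _ h5)
    have h7 : (2 : ℤ) ≤ p := by exact_mod_cast hp.two_le
    omega
  obtain ⟨B, -, hB⟩ := Ideal.image_subset_nonunits_valuationSubring (Ideal.span {x}) hne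
  exact ⟨B, hB ⟨x, Ideal.subset_span rfl, rfl⟩⟩

section main
variable {M F K : IntermediateField ℚ Qb} [FiniteDimensional ℚ K]

/-- The explicit bound. -/
theorem bound_fields (hkM : k ≤ M) (hMK : M ≤ K) (hkF : k ≤ F) (hFK : F ≤ K)
    (hKn : ∀ σ ∈ k.fixingSubgroup, ∀ x ∈ K, σ x ∈ K)
    (hMn : ∀ σ ∈ k.fixingSubgroup, ∀ x ∈ M, σ x ∈ M)
    (hpM : ¬ p ∣ rdeg M K) (hpF : ¬ p ∣ rdeg F K)
    (𝓔 : Finset (IntermediateField ℚ Qb)) (h𝓔 : ∀ E ∈ 𝓔, k ≤ E ∧ E ≤ K ∧ ¬ p ∣ rdeg E K)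
    (hdec : LocalCondition p k M K 𝓔) {m₀ m' : ℕ} {R₀ R' : IntermediateField ℚ Qb}
    (hR₀ : Layer p m₀ R₀) (hR' : Layer p m' R') (hRR : R₀ ≤ R')
    (hcrit : ∀ (S : Type) [CommGroup S] [Finite S] (b : k.fixingSubgroup →* MulAut S),
      Simp p (sb k K) b → (∀ E ∈ 𝓔, fx b (sb k E) = ⊥) → fx b (sb k F) ≠ ⊥ →
      ∃ m R, Layer p m R ∧ sb k R₀ ≤ sb k R ∧ Crit p (lc p s k) (sb k K) (sb k R) b)
    {C₀ : ℕ} (hC₀ : RkLe p s (F ⊔ R₀) C₀) (c : IntermediateField ℚ Qb → ℕ)
    (hc : ∀ E ∈ 𝓔, RkLe p s (E ⊔ R') (c E)) :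
    RkLe p s (F ⊔ R') (C₀ * ∏ E ∈ 𝓔, c E ^ rdeg k E) := by
  classical
  have hfR₀ := layer_fd hp.out hR₀.1
  have hfR' := layer_fd hp.out hR'.1
  have hfF : FiniteDimensional ℚ F := fd_of_le hFK
  have hkK := hkF.trans hFK
  have hEf : ∀ E ∈ 𝓔, FiniteDimensional ℚ E := fun E hE => fd_of_le (h𝓔 E hE).2.1
  obtain ⟨a₀, ha₀⟩ := layer_sb_index (k := k) hR₀
  obtain ⟨a', ha'⟩ := layer_sb_index (k := k) hR'
  have hKnor : (sb k K).Normal := sb_normal hKn
  have hMnor : (sb k M).Normal := sb_normal hMn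
  have hinj : ∀ E ∈ 𝓔, ∀ E' ∈ 𝓔, sb k E = sb k E' → E = E' := fun E hE E' hE' h =>
    sb_inj (h𝓔 E hE).1 (h𝓔 E' hE').1 h
  let cc : Subgroup k.fixingSubgroup → ℕ := fun H => c (fixedField (H.map k.fixingSubgroup.subtype))
  have hcc : ∀ E ∈ 𝓔, cc (sb k E) = c E := by
    intro E hE
    show c (fixedField ((sb k E).map k.fixingSubgroup.subtype)) = c E
    unfold sb
    rw [Subgroup.subgroupOf_map_subtype, inf_eq_left.2 (fixingSubgroup_le (h𝓔 E hE).1),
      InfiniteGalois.fixedField_fixingSubgroup]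
  rw [← rk_iff (hkF.trans le_sup_left), ← sb_inf] at hC₀ ⊢
  have hprod : ∏ E ∈ 𝓔.image (sb k), cc E ^ E.index = ∏ E ∈ 𝓔, c E ^ rdeg k E := by
    rw [Finset.prod_image fun E hE E' hE' h => hinj E hE E' hE' h]
    refine Finset.prod_congr rfl fun E hE => ?_
    have := hEf E hE
    rw [hcc E hE, index_sb (h𝓔 E hE).1]
  rw [← hprod]
  have hK0 : (sb k K).index ≠ 0 := by
    rw [index_sb hkK, ← relIndex_fix hkK]
    exact fun h => index_ne_zero' K (by
      have h1 := Subgroup.relIndex_mul_index (fixingSubgroup_le hkK)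
      rw [h, zero_mul] at h1
      exact h1.symm)
  refine main (I := lc p s k) lc_conj hKnor hMnor (layer_sb_normal hR₀) (layer_sb_normal hR')
    (sb_mono hRR) hK0 sb_open sb_open (by rwa [rel_sb hkM hMK]) ha₀ ha' (layer_sb_cyc hR')
    (sb_mono hFK) (by rwa [rel_sb hkF hFK]) (𝓔.image (sb k)) ?_ ?_ hC₀ cc ?_
  · intro E' hE'
    obtain ⟨E, hE, rfl⟩ := Finset.mem_image.1 hE'
    exact ⟨sb_mono (h𝓔 E hE).2.1, by
      rw [rel_sb (h𝓔 E hE).1 (h𝓔 E hE).2.1]
      exact (h𝓔 E hE).2.2⟩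
  · intro S _ _ b hb hbE
    have hund : ∀ E ∈ 𝓔, fx b (sb k E) = ⊥ := fun E hE =>
      hbE _ (Finset.mem_image_of_mem _ hE)
    obtain ⟨i1, i2, τ, h1, h2, h3⟩ := exists_rep_add b hb
    have hA : ∀ A : ValuationSubring Qb, (p : Qb) ∈ A.nonunits →
        fx b (MulAction.stabilizer k.fixingSubgroup
          (Sum.inl A : ValuationSubring Qb ⊕ InfinitePlace Qb) ⊓ sb k M) = ⊥ := by
      intro A hA
      rw [eq_bot_iff]
      intro v hv
      have h4 := hdec (Additive S) τ h1 (fun E hE => by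
        rw [h3, ← fx_eq_bot]
        exact hund E hE) A hA (Additive.ofMul v) (by
        intro g hgM hgA
        show τ g (Additive.ofMul v) = Additive.ofMul v
        rw [h2]
        congr 1
        refine hv g ⟨?_, hgM⟩
        show Sum.inl ((g : Gal(Qb/ℚ)) • A) = Sum.inl A
        rw [stab_iff.1 hgA])
      exact h4
    refine ⟨?_, ?_, ?_⟩
    · obtain ⟨A, hA'⟩ := exists_above hp.out
      rw [eq_bot_iff, ← hA A hA']
      exact fun v hv g hg => hv g hg.2
    · rintro (A | w)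
      · by_cases hpA : (p : Qb) ∈ A.nonunits
        · exact Or.inr (hA A hpA)
        · left
          intro g hg
          have h4 : (g : Gal(Qb/ℚ)) ∈ locFin p s A := hg
          unfold locFin at h4
          rw [if_neg (fun h => hpA h.2)] at h4
          exact inertia_le_layer hp.out hR'.1 hpA h4
      · left
        intro g hg
        exact stab_le_layer hR' w hg
    · intro hF
      obtain ⟨m, R, hR, hRR₀, hcr⟩ := hcrit S b hb hund hF
      exact ⟨sb k R, layer_sb_normal hR, hRR₀, layer_sb_index hR, hcr⟩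
  · intro E' hE'
    obtain ⟨E, hE, rfl⟩ := Finset.mem_image.1 hE'
    have := hEf E hE
    rw [hcc E hE, sb_inf]
    exact (rk_iff ((h𝓔 E hE).1.trans le_sup_left) _).2 (hc E hE)

end main

omit hp in
/-- The first layer is `ℚ`. -/
theorem layer_zero : Layer p 0 (⊥ : IntermediateField ℚ Qb) := by
  refine ⟨layer_bot, fun ι x hx => ?_⟩
  obtain ⟨r, rfl⟩ := IntermediateField.mem_bot.1 hx
  rw [eq_ratCast, map_ratCast, map_ratCast]

omit [FiniteDimensional ℚ k] in
/-- It suffices to consider the layers above a given one. -/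
theorem mu_above {F : IntermediateField ℚ Qb} [FiniteDimensional ℚ F] {m : ℕ}
    {R : IntermediateField ℚ Qb} (hR : Layer p m R)
    (h : ∃ C : ℕ, ∀ (m' : ℕ) (R' : IntermediateField ℚ Qb), Layer p m' R' → R ≤ R' →
      RkLe p s (F ⊔ R') C) : MuVanishes p s F := by
  obtain ⟨C, hC⟩ := h
  have hfR := layer_fd hp.out hR.1
  refine ⟨C * R.fixingSubgroup.index, fun m' R' hR' => ?_⟩
  have hfR' := layer_fd hp.out hR'.1
  obtain ⟨m'', hR''⟩ := hR.sup hR'
  have h0 := hC m'' _ hR'' le_sup_left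
  have hRn := layer_normal hp.out hR.1
  rw [← rkLe_iff] at h0 ⊢
  rw [fixingSubgroup_sup, fixingSubgroup_sup] at h0
  rw [fixingSubgroup_sup]
  have h1 : (F.fixingSubgroup ⊓ (R.fixingSubgroup ⊓ R'.fixingSubgroup)).relIndex
      (F.fixingSubgroup ⊓ R'.fixingSubgroup) =
      R.fixingSubgroup.relIndex (F.fixingSubgroup ⊓ R'.fixingSubgroup) := by
    rw [← Subgroup.inf_relIndex_right, ← Subgroup.inf_relIndex_right R.fixingSubgroup]
    congr 1
    ext x
    simp only [Subgroup.mem_inf]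
    tauto
  have h2 : R.fixingSubgroup.relIndex (F.fixingSubgroup ⊓ R'.fixingSubgroup) ∣
      R.fixingSubgroup.index := Subgroup.relIndex_dvd_index_of_normal _ _
  have h3 : (F.fixingSubgroup ⊓ (R.fixingSubgroup ⊓ R'.fixingSubgroup)).relIndex
      (F.fixingSubgroup ⊓ R'.fixingSubgroup) ≠ 0 := by
    rw [h1]
    intro h
    rw [h] at h2
    exact index_ne_zero' R (Nat.eq_zero_of_zero_dvd h2)
  refine (RankLe.of_le (inf_le_inf_left _ inf_le_right) (by
    rw [Subgroup.coe_inf, Subgroup.coe_inf]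
    exact F.fixingSubgroup_isOpen.inter (R.fixingSubgroup_isOpen.inter R'.fixingSubgroup_isOpen))
    h3 h0).mono ?_
  rw [h1]
  exact Nat.mul_le_mul_left _ (Nat.le_of_dvd (Nat.pos_of_ne_zero (index_ne_zero' R)) h2)

omit hp [FiniteDimensional ℚ k] in
/-- The numbers of fixed vectors are positive. -/
theorem nfix_pos [Fact p.Prime] {T : Type} [AddCommGroup T] [Module (ZMod p) T]
    [Module.Finite (ZMod p) T] (σ : Rp p k T)
    (E : IntermediateField ℚ Qb) : 0 < nfix σ E := by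
  have hfin : Finite T := Module.finite_of_finite (ZMod p)
  have hne : Nonempty {v : T // FixedBy σ E v} := ⟨⟨0, fun g _ => map_zero _⟩⟩
  exact Nat.card_pos

omit [FiniteDimensional ℚ k] in
/-- Necessity of the criterion. -/
theorem necessity {F K : IntermediateField ℚ Qb} [FiniteDimensional ℚ K] (hkF : k ≤ F)
    (hFK : F ≤ K) (hpF : ¬ p ∣ rdeg F K) (h : MuVanishes p s F) {S : Type} [AddCommGroup S]
    [Module (ZMod p) S] [Module.Finite (ZMod p) S]
    (τ : Rp p k S) (hF : nfix τ F ≠ 1) :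
    ∃ m R, Layer p m R ∧ Criterion s K R τ := by
  obtain ⟨C, hC⟩ := h
  obtain ⟨R, hR⟩ := exists_layer hp.out (finrank ℚ K * C)
  have hfR := layer_fd hp.out hR.1
  have h1 : C ≤ rdeg K (K ⊔ R) := by
    show C ≤ finrank ℚ ↥(K ⊔ R) / finrank ℚ K
    rw [Nat.le_div_iff_mul_le finrank_pos]
    have h2 : finrank ℚ R ≤ finrank ℚ ↥(K ⊔ R) :=
      IntermediateField.finrank_le_of_le_right le_sup_right
    have h0 : finrank ℚ R = p ^ (finrank ℚ K * C) := hR.1.1
    rw [h0] at h2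
    have h3 : finrank ℚ K * C < p ^ (finrank ℚ K * C) := Nat.lt_pow_self hp.out.one_lt
    calc C * finrank ℚ K = finrank ℚ K * C := mul_comm _ _
      _ ≤ _ := h3.le.trans h2
  have h2 := nfix_pos τ F
  refine ⟨_, R, hR, 1, 0, fun _ => F, Fin.elim0, fun _ => C, Fin.elim0, fun _ =>
    ⟨hkF, hFK, hpF, hC _ R hR⟩, fun j => j.elim0, ?_, ?_⟩
  · intro T _ _ _ σ _
    simp only [Finset.univ_unique, Finset.prod_const, Finset.card_singleton, pow_one,
      Finset.univ_eq_empty, Finset.prod_empty]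
    exact nfix_pos σ F
  · simp only [Finset.univ_unique, Finset.prod_const, Finset.card_singleton, pow_one,
      Finset.univ_eq_empty, Finset.prod_empty, one_pow, mul_one, one_mul]
    calc C < 2 ^ C := Nat.lt_pow_self (by norm_num)
      _ ≤ 2 ^ rdeg K (K ⊔ R) := Nat.pow_le_pow_right (by norm_num) h1
      _ ≤ _ := Nat.pow_le_pow_left (by omega) _

/-- Sufficiency of the criterion. -/
theorem sufficiency {M F K : IntermediateField ℚ Qb} [FiniteDimensional ℚ K]
    (hkM : k ≤ M) (hMK : M ≤ K) (hkF : k ≤ F) (hFK : F ≤ K)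
    (hKn : ∀ σ ∈ k.fixingSubgroup, ∀ x ∈ K, σ x ∈ K)
    (hMn : ∀ σ ∈ k.fixingSubgroup, ∀ x ∈ M, σ x ∈ M)
    (hpM : ¬ p ∣ rdeg M K) (hpF : ¬ p ∣ rdeg F K)
    (𝓔 : Finset (IntermediateField ℚ Qb)) (h𝓔 : ∀ E ∈ 𝓔, k ≤ E ∧ E ≤ K ∧ ¬ p ∣ rdeg E K)
    (hdec : LocalCondition p k M K 𝓔) (hE : ∀ E ∈ 𝓔, MuVanishes p s E)
    (hcrit : ∀ (S : Type) [AddCommGroup S] [Module (ZMod p) S] [Module.Finite (ZMod p) S]
      (τ : Rp p k S), SimpleMod K τ →
      (∀ E ∈ 𝓔, nfix τ E = 1) → nfix τ F ≠ 1 → ∃ m R, Layer p m R ∧ Criterion s K R τ) :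
    MuVanishes p s F := by
  classical
  have hkK := hkF.trans hFK
  have hfF : FiniteDimensional ℚ F := fd_of_le hFK
  have hKnor : (sb k K).Normal := sb_normal hKn
  have hK0 : (sb k K).index ≠ 0 := by
    rw [index_sb hkK, ← relIndex_fix hkK]
    exact fun h => index_ne_zero' K (by
      have h1 := Subgroup.relIndex_mul_index (fixingSubgroup_le hkK)
      rw [h, zero_mul] at h1
      exact h1.symm)
  obtain ⟨D₀, ⟨m₀, R₀, hR₀, rfl⟩, hD₀⟩ := exists_level (I := lc p s k) hp.out hKnor hK0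
    (fun S _ b => (∀ E ∈ 𝓔, fx b (sb k E) = ⊥) ∧ fx b (sb k F) ≠ ⊥)
    {D | ∃ m R, Layer p m R ∧ D = sb k R} ⟨_, 0, ⊥, layer_zero, rfl⟩
    (by
      rintro _ ⟨m, R, hR, rfl⟩ _ ⟨m', R', hR', rfl⟩
      obtain ⟨m'', hR''⟩ := hR.sup hR'
      exact ⟨m'', R ⊔ R', hR'', sb_inf k R R'⟩)
    (by
      rintro S _ _ b hb ⟨hE', hF'⟩
      obtain ⟨i1, i2, τ, h1, h2, h3⟩ := exists_rep_add b hb
      obtain ⟨m, R, hR, hcr⟩ := hcrit (Additive S) τ h1 (fun E hE => by
        rw [h3, ← fx_eq_bot]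
        exact hE' E hE) (by
        rw [h3, Ne, ← fx_eq_bot]
        exact hF')
      have hfR := layer_fd hp.out hR.1
      exact ⟨sb k R, ⟨m, R, hR, rfl⟩, crit_of hkK b τ h3 hcr⟩)
  have hfR₀ := layer_fd hp.out hR₀.1
  obtain ⟨C₀, hC₀⟩ := rank_finite (p := p) s (F ⊔ R₀)
  choose! c hc using hE
  refine mu_above hR₀ ⟨C₀ * ∏ E ∈ 𝓔, c E ^ rdeg k E, fun m' R' hR' hRR => ?_⟩
  refine bound_fields hkM hMK hkF hFK hKn hMn hpM hpF 𝓔 h𝓔 hdec hR₀ hR' hRR ?_ hC₀ c
    (fun E hE => hc E hE m' R' hR')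
  intro S _ _ b hb hE' hF'
  obtain ⟨_, ⟨m, R, hR, rfl⟩, hle, hcr⟩ := hD₀ S b hb ⟨hE', hF'⟩
  exact ⟨m, R, hR, hle, hcr⟩

omit [FiniteDimensional ℚ k] in
/-- If the rank of `F` is zero, then the criterion holds at the bottom layer. -/
theorem crit_zero {F K : IntermediateField ℚ Qb} [FiniteDimensional ℚ K] (hkF : k ≤ F)
    (hFK : F ≤ K) (hpF : ¬ p ∣ rdeg F K) (h : RkLe p s F 1) {S : Type} [AddCommGroup S]
    [Module (ZMod p) S] [Module.Finite (ZMod p) S]
    (τ : Rp p k S) (hF : nfix τ F ≠ 1) :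
    Criterion s K ⊥ τ := by
  have h2 := nfix_pos τ F
  have h3 : rdeg K (K ⊔ ⊥) = 1 := by
    unfold rdeg
    rw [sup_bot_eq, Nat.div_self finrank_pos]
  refine ⟨1, 0, fun _ => F, Fin.elim0, fun _ => 1, Fin.elim0, fun _ =>
    ⟨hkF, hFK, hpF, by rwa [sup_bot_eq]⟩, fun j => j.elim0, ?_, ?_⟩
  · intro T _ _ _ σ _
    simp only [Finset.univ_unique, Finset.prod_const, Finset.card_singleton, pow_one,
      Finset.univ_eq_empty, Finset.prod_empty]
    exact nfix_pos σ F
  · simp only [Finset.univ_unique, Finset.prod_const, Finset.card_singleton, pow_one,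
      Finset.univ_eq_empty, Finset.prod_empty, mul_one, one_mul, h3]
    omega

omit [FiniteDimensional ℚ k] in
/-- The local condition holds if the decomposition fields are contained in fields of `𝓔`. -/
theorem local_of_dec {M K : IntermediateField ℚ Qb} [FiniteDimensional ℚ K]
    (hMn : ∀ σ ∈ k.fixingSubgroup, ∀ x ∈ M, σ x ∈ M) (hkM : k ≤ M) (hMK : M ≤ K)
    {𝓔 : Finset (IntermediateField ℚ Qb)}
    (h : CoversDecompositionFields p k M K 𝓔) : LocalCondition p k M K 𝓔 := by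
  intro S _ _ _ τ hτ hE A hA v hv
  obtain ⟨Z, hZ, B, ⟨g, hg, hgB⟩, hdec⟩ := h A hA
  let γ : k.fixingSubgroup := ⟨g, hg⟩
  have hfin : Finite S := Module.finite_of_finite (ZMod p)
  have hMnor : (sb k M).Normal := sb_normal hMn
  -- the subgroup which fixes `g v`
  let T : Subgroup k.fixingSubgroup :=
    { carrier := {x | τ x (τ γ v) = τ γ v}
      mul_mem' := by
        intro a b ha hb
        show τ (a * b) (τ γ v) = τ γ v
        rw [map_mul, Module.End.mul_apply, show τ b (τ γ v) = τ γ v from hb, show τ a (τ γ v) = τ γ v from ha]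
      one_mem' := by
        show τ 1 (τ γ v) = τ γ v
        rw [map_one, Module.End.one_apply]
      inv_mem' := by
        intro a ha
        have ha' : τ a (τ γ v) = τ γ v := ha
        show τ a⁻¹ (τ γ v) = τ γ v
        conv_lhs => rw [← ha']
        rw [← Module.End.mul_apply, ← map_mul, inv_mul_cancel, map_one, Module.End.one_apply] }
  let H : Subgroup Gal(Qb/ℚ) := K.fixingSubgroup ⊔
    (MulAction.stabilizer Gal(Qb/ℚ) B ⊓ M.fixingSubgroup)
  have hHo : IsOpen (H : Set Gal(Qb/ℚ)) := Subgroup.isOpen_mono le_sup_left K.fixingSubgroup_isOpen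
  have hZH : Z.fixingSubgroup ≤ H := by
    have h1 : fixedField H ≤ Z := by
      intro x hx
      rw [mem_fixed_sup, InfiniteGalois.fixedField_fixingSubgroup, mem_fixedField_iff] at hx
      exact hdec x hx.1 fun σ h1 h2 => hx.2 σ ⟨stab_iff.1 h2, h1⟩
    have h2 := fixingSubgroup_le h1
    rwa [fix_fixed hHo] at h2
  have hHT : H ≤ T.map k.fixingSubgroup.subtype := by
    refine sup_le ?_ ?_
    · intro x hx
      exact ⟨⟨x, fixingSubgroup_le (hkM.trans hMK) hx⟩, hτ.2 _ _ hx, rfl⟩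
    · rintro x ⟨hx1, hx2⟩
      have hx3 : Stab B x := stab_iff.2 hx1
      let ξ : k.fixingSubgroup := ⟨x, fixingSubgroup_le hkM hx2⟩
      have h1 : γ⁻¹ * ξ * γ ∈ sb k M := by
        have h2 := hMnor.conj_mem ξ hx2 γ⁻¹
        rwa [inv_inv] at h2
      have h2 : τ (γ⁻¹ * ξ * γ) v = v := by
        refine hv _ h1 ?_
        intro y
        rw [← hgB]
        have h3 : im g (im ((γ⁻¹ * ξ * γ : k.fixingSubgroup) : Gal(Qb/ℚ)) y) = im x (im g y) := by
          show g ((g⁻¹ * x * g) y) = x (g y)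
          show (g * (g⁻¹ * x * g)) y = (x * g) y
          congr 1
          group
        rw [h3, hx3, hgB]
      refine ⟨ξ, ?_, rfl⟩
      show τ ξ (τ γ v) = τ γ v
      have h3 : ξ * γ = γ * (γ⁻¹ * ξ * γ) := by group
      rw [← Module.End.mul_apply, ← map_mul, h3, map_mul, Module.End.mul_apply, h2]
  have h1 : nfix τ Z = 1 := hE Z hZ
  have h2 : τ γ v = 0 := by
    have h3 : FixedBy τ Z (τ γ v) := by
      intro x hx
      obtain ⟨y, hy, hyx⟩ := hHT (hZH hx)
      have h4 : y = x := Subtype.ext hyx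
      rw [← h4]
      exact hy
    have h4 := (Nat.card_eq_one_iff_unique.1 h1).1
    have h5 := @Subsingleton.elim _ h4 (⟨τ γ v, h3⟩ : {v : S // FixedBy τ Z v})
      ⟨0, fun g _ => map_zero _⟩
    exact congrArg Subtype.val h5
  have h3 : τ γ⁻¹ (τ γ v) = v := by
    rw [← Module.End.mul_apply, ← map_mul, inv_mul_cancel, map_one, Module.End.one_apply]
  rw [← h3, h2, map_zero]

end

end Pool.Agent.J6H14.DMu
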