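import Pool.Agent.J6H14.DMu.Kill

/-!
# The group-theoretical theorem
-/

set_option autoImplicit false

namespace Pool.Agent.J6H14.DMu

open Subgroup Pool.Agent.Q60.MU Pool.Agent.W5h77.MB Pool.Agent.W5h33.DF
open scoped commutatorElement

variable {𝔾 : Type} [Group 𝔾]

theorem card_sup_prod {A : Type} [CommGroup A] [Finite A] {ι : Type} (J : ι → Subgroup A)
    (n : ι → ℕ) (T : Finset ι) (hn : ∀ w ∈ T, Nat.card (J w) ≤ n w) :
    Nat.card (T.sup J : Subgroup A) ≤ ∏ w ∈ T, n w := by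
  classical
  induction T using Finset.induction_on with
  | empty => simp
  | insert a s ha ih =>
    rw [Finset.sup_insert, Finset.prod_insert ha]
    exact (card_sup_le' _ _).trans (Nat.mul_le_mul (hn a (Finset.mem_insert_self a s))
      (ih fun w hw => hn w (Finset.mem_insert_of_mem hw)))

/-- The subgroup generated by the conjugates of the fixed vectors of `E ∩ D'`. -/
theorem exists_conj_span {K D' E : Subgroup 𝔾} (hD'n : D'.Normal) (hKE : K ≤ E) (hK0 : K.index ≠ 0)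
    {V : Type} [CommGroup V] [Finite V] (ρ : 𝔾 →* MulAut V) {c : ℕ}
    (hc : Nat.card (fx ρ (E ⊓ D')) ≤ c) :
    ∃ U : Subgroup V, (∀ g, ∀ v ∈ U, ρ g v ∈ U) ∧ fx ρ (E ⊓ D') ≤ U ∧ Nat.card U ≤ c ^ E.index := by
  classical
  have hE0 : E.index ≠ 0 := by
    intro h
    have h1 := index_dvd_of_le hKE
    rw [h] at h1
    exact hK0 (Nat.eq_zero_of_zero_dvd h1)
  have hfi : E.FiniteIndex := ⟨hE0⟩
  have : Fintype (𝔾 ⧸ E) := Fintype.ofFinite _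
  have hstab : ∀ g ∈ E, ∀ v ∈ fx ρ (E ⊓ D'), ρ g v ∈ fx ρ (E ⊓ D') := by
    rintro g hg v hv l ⟨hl1, hl2⟩
    have h1 : l * g = g * (g⁻¹ * l * g⁻¹⁻¹) := by group
    rw [← MulAut.mul_apply, ← map_mul, h1, map_mul, MulAut.mul_apply]
    congr 1
    apply hv
    refine ⟨?_, hD'n.conj_mem l hl2 g⁻¹⟩
    rw [inv_inv]
    exact E.mul_mem (E.mul_mem (E.inv_mem hg) hl1) hg
  let J : 𝔾 ⧸ E → Subgroup V := fun i => (fx ρ (E ⊓ D')).map (ρ i.out).toMonoidHom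
  let U : Subgroup V := Finset.univ.sup J
  have hJU : ∀ i, J i ≤ U := fun i => Finset.le_sup (f := J) (Finset.mem_univ i)
  have hJmem : ∀ (g : 𝔾), ∀ u ∈ fx ρ (E ⊓ D'), ρ g u ∈ U := by
    intro g u hu
    obtain ⟨z, hz⟩ := QuotientGroup.mk_out_eq_mul E g
    apply hJU (QuotientGroup.mk g)
    refine ⟨ρ ((z : 𝔾)⁻¹) u, hstab _ (E.inv_mem z.2) u hu, ?_⟩
    show ρ ((QuotientGroup.mk g : 𝔾 ⧸ E).out) (ρ ((z : 𝔾)⁻¹) u) = _
    rw [hz, ← MulAut.mul_apply, ← map_mul, mul_inv_cancel_right]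
  refine ⟨U, ?_, ?_, ?_⟩
  · intro g
    have h1 : U ≤ U.comap (ρ g).toMonoidHom := by
      refine Finset.sup_le fun i _ => ?_
      rintro _ ⟨u, hu, rfl⟩
      show ρ g (ρ i.out u) ∈ U
      rw [← MulAut.mul_apply, ← map_mul]
      exact hJmem _ u hu
    exact fun v hv => h1 hv
  · intro u hu
    have h1 := hJmem 1 u hu
    rwa [map_one, MulAut.one_apply] at h1
  · have h2 : ∀ i, Nat.card (J i) ≤ c := by
      intro i
      refine le_trans ?_ hc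
      refine Nat.card_le_card_of_surjective
        (fun x : fx ρ (E ⊓ D') => (⟨ρ i.out x, x, x.2, rfl⟩ : J i)) ?_
      rintro ⟨_, x, hx, rfl⟩
      exact ⟨⟨x, hx⟩, rfl⟩
    have h3 := card_finset_sup_le J c h2 Finset.univ
    rw [Finset.card_univ, ← Nat.card_eq_fintype_card] at h3
    exact h3

/-- The fixed vectors of a quotient module of a layer. -/
theorem fx_le [TopologicalSpace 𝔾] [ContinuousMul 𝔾] {p : ℕ} [hp : Fact p.Prime]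
    {Ω : Type} [MulAction 𝔾 Ω] {I : Ω → Subgroup 𝔾}
    (hI : ∀ (g : 𝔾) (w : Ω), ∀ x ∈ I w, g * x * g⁻¹ ∈ I (g • w))
    {K D Q : Subgroup 𝔾} (hKn : K.Normal) (hDn : D.Normal) (hK0 : K.index ≠ 0) (hD0 : D.index ≠ 0)
    (hQo : IsOpen (Q : Set 𝔾)) (hQ0 : Q.index ≠ 0) {X : Type} [CommGroup X]
    (hXp : ∀ s : X, s ^ p = 1) (b : 𝔾 →* MulAut X) {F : 𝔾 → X}
    (hF1 : ∀ x ∈ K ⊓ D, ∀ y ∈ K ⊓ D, F (x * y) = F x * F y)
    (hFs : ∀ s : X, ∃ x ∈ K ⊓ D, F x = s)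
    (hFQ : ∀ x ∈ Q, x ∈ K ⊓ D ∧ F x = 1)
    (hF3 : ∀ g : 𝔾, ∀ x ∈ K ⊓ D, F (g * x * g⁻¹) = b g (F x))
    (hF4 : ∀ A, ∀ x ∈ K ⊓ D, x ∈ I A → F x = 1)
    {L : Subgroup 𝔾} (hKL : K ≤ L) (hpL : ¬ p ∣ K.relIndex L) {C : ℕ}
    (hC : RankLe p I (L ⊓ D) C) : Nat.card (fx b (L ⊓ D)) ≤ C := by
  classical
  set 𝒦 : Subgroup 𝔾 := K ⊓ D with h𝒦def
  have h𝒦n : 𝒦.Normal := normal_inf_normal K D
  have hF5 : F 1 = 1 := by
    have h1 := hF1 1 (one_mem _) 1 (one_mem _)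
    rw [mul_one] at h1
    exact mul_eq_left.1 h1.symm
  let Φ : 𝒦 →* X :=
    { toFun := fun x => F x
      map_one' := hF5
      map_mul' := fun x y => hF1 x x.2 y y.2 }
  let W : Subgroup 𝔾 :=
    { carrier := {x | x ∈ 𝒦 ∧ F x = 1}
      mul_mem' := by
        rintro x y ⟨hx1, hx2⟩ ⟨hy1, hy2⟩
        refine ⟨mul_mem hx1 hy1, ?_⟩
        rw [hF1 x hx1 y hy1, hx2, hy2, mul_one]
      one_mem' := ⟨one_mem _, hF5⟩
      inv_mem' := by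
        rintro x ⟨hx1, hx2⟩
        refine ⟨inv_mem hx1, ?_⟩
        have h1 := hF1 x⁻¹ (inv_mem hx1) x hx1
        rw [inv_mul_cancel, hF5, hx2, mul_one] at h1
        exact h1.symm }
  have hQW : Q ≤ W := fun x hx => hFQ x hx
  have hW0 : W.index ≠ 0 := by
    intro h
    have h2 := index_dvd_of_le hQW
    rw [h] at h2
    exact hQ0 (Nat.eq_zero_of_zero_dvd h2)
  have hWo : IsOpen (W : Set 𝔾) := Subgroup.isOpen_mono hQW hQo
  have hWK : W ≤ 𝒦 := fun x hx => hx.1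
  have hWf : W.relIndex 𝒦 ≠ 0 := by
    intro h
    have h1 := relIndex_mul_index hWK
    rw [h, zero_mul] at h1
    exact hW0 h1.symm
  have hWg : gens p I 𝒦 ⊆ W := by
    intro x hx
    refine ⟨gens_subset hx, ?_⟩
    rcases hx with (⟨a, ha, rfl⟩ | ⟨a, ha, a', ha', rfl⟩) | ⟨hx, A, hA⟩
    · have h1 := map_pow Φ ⟨a, ha⟩ p
      rw [hXp] at h1
      exact h1
    · have h1 := map_commutatorElement Φ ⟨a, ha⟩ ⟨a', ha'⟩
      rw [commutatorElement_eq_one_iff_mul_comm.2 (mul_comm (Φ ⟨a, ha⟩) (Φ ⟨a', ha'⟩))] at h1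
      exact h1
    · exact hF4 A x hx hA
  obtain ⟨R, hRW, hRo, hRf, hgR, hRn⟩ := exists_core hI (K := 𝒦) (D := ⊤)
    (fun d _ x hx => h𝒦n.conj_mem x hx d)
    (by
      rw [relIndex_top_right]
      exact index_inf_ne_zero hK0 hD0) hWK hWo hWf hWg
  have hRK := hRW.trans hWK
  have hRnorm : R.Normal := ⟨fun x hx g => hRn g trivial x hx⟩
  obtain ⟨Y, iY, σ, ψ, hYfin, hY, hψ, hψ1, hψσ, hσtriv, -, hup, hlow⟩ :=
    exists_module (I := I) hKn hDn hRnorm hRK hRo hRf hgR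
  have hker : ψ.ker ≤ Φ.ker := by
    intro x hx
    have h1 : (x : 𝔾) ∈ R := (hψ1 x).1 hx
    exact (hRW h1).2
  obtain ⟨g, hg⟩ : ∃ g : Y →* X, ∀ x : 𝒦, g (ψ x) = F x :=
    ⟨ψ.liftOfSurjective hψ ⟨Φ, hker⟩, fun x =>
      MonoidHom.liftOfRightInverse_comp_apply ψ _ _ ⟨Φ, hker⟩ x⟩
  have hge : ∀ d u, g (σ d u) = b d (g u) := by
    intro d u
    obtain ⟨x, rfl⟩ := hψ u
    rw [hψσ d x (h𝒦n.conj_mem x x.2 d), hg, hg]
    exact hF3 d x x.2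
  have hgs : Function.Surjective g := by
    intro s
    obtain ⟨x, hx, rfl⟩ := hFs s
    exact ⟨ψ ⟨x, hx⟩, hg _⟩
  have h1 := card_fx_mul hp.out σ b (L ⊓ D) (card_map_cop hKn hpL σ hσtriv inf_le_left inf_le_right)
    (T := ⊤) (T' := g.ker) (fun _ _ _ _ => mem_top _) le_top (g.comp (⊤ : Subgroup Y).subtype)
    (fun h _ v _ => hge h v) hXp (fun s => by
      obtain ⟨v, hv⟩ := hgs s
      exact ⟨⟨v, mem_top v⟩, hv⟩) (fun v => Iff.rfl)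
  rw [top_inf_eq] at h1
  refine le_trans ?_ (hup L hKL hpL C hC)
  rw [h1]
  exact Nat.le_mul_of_pos_left _ Nat.card_pos

/-- **The main theorem** (for profinite groups): `F` is an intermediate group. -/
theorem main [TopologicalSpace 𝔾] [ContinuousMul 𝔾] {p : ℕ} [hp : Fact p.Prime]
    {Ω : Type} [MulAction 𝔾 Ω] {I : Ω → Subgroup 𝔾}
    (hI : ∀ (g : 𝔾) (w : Ω), ∀ x ∈ I w, g * x * g⁻¹ ∈ I (g • w))
    {K B D₀ D' : Subgroup 𝔾} (hKn : K.Normal) (hBn : B.Normal) (hD₀n : D₀.Normal)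
    (hD'n : D'.Normal) (hDD : D' ≤ D₀) (hK0 : K.index ≠ 0) (hKo : IsOpen (K : Set 𝔾))
    (hD'o : IsOpen (D' : Set 𝔾))
    (hKB : ¬ p ∣ K.relIndex B) {m₀ m' : ℕ} (hD₀i : D₀.index = p ^ m₀)
    (hD'i : D'.index = p ^ m') (hσ : ∃ σ : 𝔾, ∀ τ, ∃ i : ℤ, τ * (σ ^ i)⁻¹ ∈ D')
    {F : Subgroup 𝔾} (hKF : K ≤ F) (hpF : ¬ p ∣ K.relIndex F)
    (𝓔 : Finset (Subgroup 𝔾)) (h𝓔 : ∀ E ∈ 𝓔, K ≤ E ∧ ¬ p ∣ K.relIndex E)
    (hcrit : ∀ (S : Type) [CommGroup S] [Finite S] (b : 𝔾 →* MulAut S), Simp p K b →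
      (∀ E ∈ 𝓔, fx b E = ⊥) → fx b B = ⊥ ∧
      (∀ A, I A ≤ D' ∨ fx b (MulAction.stabilizer 𝔾 A ⊓ B) = ⊥) ∧
      (fx b F ≠ ⊥ → ∃ D : Subgroup 𝔾, D.Normal ∧ D₀ ≤ D ∧ (∃ m, D.index = p ^ m) ∧ Crit p I K D b))
    {C₀ : ℕ} (hC₀ : RankLe p I (F ⊓ D₀) C₀) (c : Subgroup 𝔾 → ℕ)
    (hc : ∀ E ∈ 𝓔, RankLe p I (E ⊓ D') (c E)) :
    RankLe p I (F ⊓ D') (C₀ * ∏ E ∈ 𝓔, c E ^ E.index) := by
  classical
  intro Y hYH hYo hYf hgY
  have hD₀0 : D₀.index ≠ 0 := by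
    rw [hD₀i]
    exact (pow_pos hp.out.pos m₀).ne'
  have hD'0 : D'.index ≠ 0 := by
    rw [hD'i]
    exact (pow_pos hp.out.pos m').ne'
  have hcm := comm_mem_of hσ
  obtain ⟨γ, hγK, hγ⟩ := exists_gamma (K := K) hσ
  have h𝒦'n : (K ⊓ D').Normal := normal_inf_normal K D'
  have h𝒦'0 : (K ⊓ D').index ≠ 0 := index_inf_ne_zero hK0 hD'0
  have hKF' : K ⊓ D' ≤ F ⊓ D' := inf_le_inf_right D' hKF
  obtain ⟨Q, hQY', hQo, hQf, hgQ, hQn⟩ := exists_core hI (K := K ⊓ D') (D := ⊤)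
    (W := Y ⊓ (K ⊓ D'))
    (fun d _ x hx => h𝒦'n.conj_mem x hx d) (by rwa [relIndex_top_right]) inf_le_right (by
      rw [coe_inf, coe_inf]
      exact hYo.inter (hKo.inter hD'o)) (by
      rw [inf_relIndex_right]
      exact fun h => hYf (relIndex_eq_zero_of_le_right hKF' h))
      (fun x hx => ⟨hgY (gens_mono hKF' hx), gens_subset hx⟩)
  have hQY : Q ≤ Y := hQY'.trans inf_le_left
  have hQK : Q ≤ K ⊓ D' := hQY'.trans inf_le_right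
  have hQnorm : Q.Normal := ⟨fun x hx g => hQn g trivial x hx⟩
  have hQ0 : Q.index ≠ 0 := by
    rw [← relIndex_mul_index hQK]
    exact mul_ne_zero hQf h𝒦'0
  obtain ⟨V, iV, ρ, θ, hVfin, hV, hθ, hθ1, hθρ, htriv, hVcard, hup, hlow⟩ :=
    exists_module (I := I) hKn hD'n hQnorm hQK hQo hQf hgQ
  refine (hlow F hKF hpF Y hYH hYf hgY hQY).trans ?_
  -- the detected part
  have hUE : ∀ E : Subgroup 𝔾, E ∈ 𝓔 → ∃ U : Subgroup V, (∀ g, ∀ v ∈ U, ρ g v ∈ U) ∧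
      fx ρ (E ⊓ D') ≤ U ∧ Nat.card U ≤ c E ^ E.index := fun E hE =>
    exists_conj_span hD'n (h𝓔 E hE).1 hK0 ρ (hup E (h𝓔 E hE).1 (h𝓔 E hE).2 (c E) (hc E hE))
  choose! J hJ1 hJ2 hJ3 using hUE
  set U : Subgroup V := 𝓔.sup J with hUdef
  have hJU : ∀ E ∈ 𝓔, J E ≤ U := fun E hE => Finset.le_sup (f := J) hE
  have hcardU : Nat.card U ≤ ∏ E ∈ 𝓔, c E ^ E.index := card_sup_prod J _ 𝓔 hJ3
  have hUstab : ∀ g : 𝔾, ∀ v ∈ U, ρ g v ∈ U := by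
    intro g
    have h1 : U ≤ U.comap (ρ g).toMonoidHom := by
      refine Finset.sup_le fun E hE => ?_
      intro v hv
      exact hJU E hE (hJ1 E hE g v hv)
    exact fun v hv => h1 hv
  -- the factors above `U` are undetected
  have hund : ∀ (T₁ T₂ : Subgroup V) (S : Type) [CommGroup S] (b : 𝔾 →* MulAut S) (f : T₁ →* S),
      U ≤ T₂ → (∀ g, ∀ v ∈ T₁, ρ g v ∈ T₁) → Simp p K b → Function.Surjective f →
      (∀ v, f v = 1 ↔ (v : V) ∈ T₂) → (∀ g (v : T₁) (hv : ρ g v ∈ T₁), f ⟨ρ g v, hv⟩ = b g (f v)) →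
      ∀ E ∈ 𝓔, fx b E = ⊥ := by
    intro T₁ T₂ S _ b f hU2 hT₁ hsimp hsurj hker hf E hE
    rw [eq_bot_iff]
    intro s hs
    have hs' : s ∈ fx b (E ⊓ D') := fun g hg => hs g hg.1
    obtain ⟨⟨v, hv⟩, hfv⟩ := hsurj s
    obtain ⟨u, hu, hu1, hu2⟩ := lift_fix hp.out ρ b (E ⊓ D')
      (card_map_cop hKn (h𝓔 E hE).2 ρ htriv inf_le_left inf_le_right) (T := T₁)
      (fun h _ v hv => hT₁ h v hv) f
      (fun h _ v hv => hf h v hv) hsimp.2.1 hs' hv hfv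
    rw [mem_bot, ← hu2, hker]
    exact hU2 (hJU E hE (hJ2 E hE hu1))
  have hnf : ∀ Z : Subgroup 𝔾, Z ≤ B ⊓ D' → (∀ (S : Type) [CommGroup S] [Finite S]
      (b : 𝔾 →* MulAut S), Simp p K b → (∀ E ∈ 𝓔, fx b E = ⊥) → fx b Z = ⊥) →
      ∀ T : Subgroup V, (∀ g, ∀ v ∈ T, ρ g v ∈ T) → U ≤ T → ∀ v, (∀ z ∈ Z, ρ z v * v⁻¹ ∈ T) →
      v ∈ T := by
    intro Z hZ hZS T hT hUT v hv
    refine nofix hp.out (Z.map ρ) (card_map_cop (D' := D') hKn hKB ρ htriv (hZ.trans inf_le_left)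
      (hZ.trans inf_le_right)) T ?_ (hV v) ?_
    · intro x hx
      by_contra hxT
      obtain ⟨T₁, T₂, h1, h2, h3, h4, h5, h6, h7⟩ := exists_factor ρ hT hxT
      obtain ⟨S, iS, b, f, hSfin, hsimp, hsurj, hker, hf⟩ := exists_simple hp.out hKn hD'n hD'i hV ρ
        htriv h1 h2 h4 h7
      have h8 := hund T₁ T₂ S b f (hUT.trans h3) h1 hsimp hsurj hker hf
      have h9 : f ⟨x, h5⟩ ∈ fx b Z := by
        intro z hz
        have h10 : ρ z x = x := hx _ ⟨z, hz, rfl⟩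
        rw [← hf z ⟨x, h5⟩ (by rw [h10]; exact h5)]
        congr 1
        exact Subtype.ext h10
      rw [hZS S b hsimp h8, mem_bot, hker] at h9
      exact h6 h9
    · rintro _ ⟨z, hz, rfl⟩
      exact hv z hz
  have hT1 : ∀ T : Subgroup V, (∀ g, ∀ v ∈ T, ρ g v ∈ T) → U ≤ T → ∀ v,
      (∀ z ∈ B ⊓ D', ρ z v * v⁻¹ ∈ T) → v ∈ T := by
    refine hnf (B ⊓ D') le_rfl fun S _ _ b hb hE => ?_
    rw [fx_sub hp.out hKn hD'n hD'i hKB hb.2.2.1 le_rfl]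
    exact (hcrit S b hb hE).1
  have hT2 : ∀ A, I A ≤ D' ∨ ∀ T : Subgroup V, (∀ g, ∀ v ∈ T, ρ g v ∈ T) → U ≤ T → ∀ v,
      (∀ z ∈ MulAction.stabilizer 𝔾 A ⊓ B ⊓ D', ρ z v * v⁻¹ ∈ T) → v ∈ T := by
    intro A
    by_cases hA : I A ≤ D'
    · exact Or.inl hA
    · right
      refine hnf (MulAction.stabilizer 𝔾 A ⊓ B ⊓ D') (inf_le_inf_right _ inf_le_right)
        fun S _ _ b hb hE => ?_
      rw [fx_sub hp.out hKn hD'n hD'i hKB hb.2.2.1 inf_le_right]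
      exact ((hcrit S b hb hE).2.1 A).resolve_left hA
  -- the images of the powers of `φ`
  set φ := phi ρ γ with hφdef
  set q₀ := D₀.relIndex K with hq₀
  have hq₀0 : q₀ ≠ 0 := fun h => hD₀0 (by
    have h1 := relIndex_dvd_index_of_normal D₀ K
    rw [← hq₀, h] at h1
    exact Nat.eq_zero_of_zero_dvd h1)
  have hφc : ∀ (h : 𝔾) (v : V), ρ h (φ v) = φ (ρ h v) := phi_comm hKn hcm htriv hγK
  have hUφ : ∀ u ∈ U, φ u ∈ U := fun u hu => U.mul_mem (hUstab γ u hu) (U.inv_mem hu)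
  have hfs : ∀ (j : ℕ) (g : 𝔾), ∀ v ∈ fil U φ j, ρ g v ∈ fil U φ j := fun j g =>
    fil_stable (hUstab g) (hφc g) j
  have hN : ∀ v, φ^[p ^ m'] v = 1 := by
    intro v
    have h1 : γ ^ p ^ m' ∈ K ⊓ D' := by
      refine ⟨K.pow_mem hγK _, ?_⟩
      rw [← hD'i]
      exact D'.pow_index_mem γ
    rw [hφdef, phi_frob hV, htriv _ h1, MulAut.one_apply, mul_inv_cancel]
  have hstat : ∀ n, q₀ ≤ n + 1 → fil U φ n ⊓ fx ρ (F ⊓ D') ≤ fil U φ (n + 1) := by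
    rintro n hn x ⟨hx, hxF⟩
    by_contra hxT
    obtain ⟨T₁, T₂, h1, h2, h3, h4, h5, h6, h7⟩ := exists_factor ρ (hfs (n + 1)) hxT
    obtain ⟨S, iS, b, f, hSfin, hsimp, hsurj, hker, hf⟩ := exists_simple hp.out hKn hD'n hD'i hV ρ
      htriv h1 h2 h4 h7
    have h8 := hund T₁ T₂ S b f ((le_fil U φ (n + 1)).trans h3) h1 hsimp hsurj hker hf
    have hbF : fx b F ≠ ⊥ := by
      intro hbot
      have h9 : f ⟨x, h5⟩ ∈ fx b (F ⊓ D') := by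
        intro z hz
        have h10 : ρ z x = x := hxF z hz
        rw [← hf z ⟨x, h5⟩ (by rw [h10]; exact h5)]
        congr 1
        exact Subtype.ext h10
      rw [fx_sub hp.out hKn hD'n hD'i hpF hsimp.2.2.1 le_rfl, hbot, mem_bot, hker] at h9
      exact h6 h9
    obtain ⟨-, -, hcr'⟩ := hcrit S b hsimp h8
    obtain ⟨D, hDn, hD₀D, ⟨m, hDi⟩, hcr⟩ := hcr' hbF
    have hq : D.relIndex K ≤ n + 1 := (relIndex_le_of_le_left hD₀D hq₀0).trans hn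
    -- intersection with `fil n`
    let f' : (T₁ ⊓ fil U φ n : Subgroup V) →* S := f.comp (inclusion inf_le_left)
    have hf' : Function.Surjective f' := by
      have h9 : f'.range = ⊤ := by
        rcases hsimp.2.2.2 f'.range (by
          rintro g _ ⟨v, rfl⟩
          exact ⟨⟨ρ g v, h1 g v v.2.1, hfs n g v v.2.2⟩, hf g (inclusion inf_le_left v) _⟩) with h | h
        · exfalso
          have h10 : f' ⟨x, h5, hx⟩ ∈ f'.range := ⟨_, rfl⟩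
          rw [h, mem_bot] at h10
          exact h6 ((hker ⟨x, h5⟩).1 h10)
        · exact h
      exact MonoidHom.range_eq_top.1 h9
    refine kills hI hKn hBn hDn hD'n (hDD.trans hD₀D) hK0 hKB hDi hD'i hcm hγK hγ hQK hQo hQf hgQ hV ρ
      θ hθ hθ1 hθρ htriv hUstab hT1 hT2 b hsimp hcr hq (T₁ := T₁ ⊓ fil U φ n)
      (T₂ := T₂ ⊓ fil U φ n) ?_ ?_ (le_inf h3 (fil_anti U φ n)) (inf_le_inf_right _ h4.le)
      inf_le_right f' hf' ?_ ?_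
    · exact fun g v hv => ⟨h1 g v hv.1, hfs n g v hv.2⟩
    · exact fun g v hv => ⟨h2 g v hv.1, hfs n g v hv.2⟩
    · intro v
      show f _ = 1 ↔ _
      rw [hker]
      exact ⟨fun h => ⟨h, v.2.2⟩, fun h => h.1⟩
    · intro g v hv
      exact hf g (inclusion inf_le_left v) hv.1
  have hφU : fil U φ q₀ ⊓ fx ρ (F ⊓ D') ≤ U := by
    have h1 : ∀ i, fil U φ q₀ ⊓ fx ρ (F ⊓ D') ≤ fil U φ (q₀ + i) := by
      intro i
      induction i with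
      | zero => exact inf_le_left
      | succ i ih =>
        refine le_trans (le_inf ih inf_le_right) ?_
        rw [← add_assoc]
        exact hstat (q₀ + i) (by omega)
    intro x hx
    obtain ⟨u, hu, v, rfl⟩ := fil_elem hUφ (q₀ + p ^ m') x (h1 (p ^ m') hx)
    have h3 : φ^[q₀ + p ^ m'] v = 1 := by
      rw [Function.iterate_add_apply, hN]
      exact iterate_map_one φ q₀
    rw [h3, mul_one]
    exact hu
  -- the lower layer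
  obtain ⟨e₀, -, he₀⟩ : ∃ a ≤ m₀, D₀.relIndex K = p ^ a :=
    (Nat.dvd_prime_pow hp.out).1 (hD₀i ▸ relIndex_dvd_index_of_normal D₀ K)
  obtain ⟨X, iX, β, f', Fc, hsurj', hker', hX3, hX4, hF1, hF2, hF3, hF4⟩ :=
    lower hI hKn hBn hD'n hDD hcm hKB hgQ hV ρ θ hθ1 hθρ (hfs q₀)
      (act_mem hD₀n hDD hγK hγ hV ρ htriv he₀ (fun v => by
        rw [← he₀]
        exact iter_mem U φ q₀ v)) (hT1 _ (hfs q₀) (le_fil U φ q₀))
      (fun A => (hT2 A).imp id fun h => h _ (hfs q₀) (le_fil U φ q₀))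
  have hXp : ∀ s : X, s ^ p = 1 := by
    intro s
    obtain ⟨v, rfl⟩ := hsurj' s
    rw [← map_pow, hV, map_one]
  have e1 : Nat.card (fx β (F ⊓ D₀)) ≤ C₀ := by
    refine fx_le hI hKn hD₀n hK0 hD₀0 hQo hQ0 hXp β hF1 ?_ ?_ hF3 hF4 hKF hpF hC₀
    · intro s
      obtain ⟨v, rfl⟩ := hsurj' s
      obtain ⟨x, rfl⟩ := hθ v
      exact ⟨x, inf_le_inf_left K hDD x.2, hF2 x x.2⟩
    · intro x hx
      refine ⟨inf_le_inf_left K hDD (hQK hx), ?_⟩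
      rw [hF2 x (hQK hx), (hθ1 ⟨x, hQK hx⟩).2 hx, map_one]
  rw [← fx_layer hp.out hKn hD'n hD'i hDD hX4 hpF] at e1
  have e2 := card_fx_mul hp.out ρ β (F ⊓ D') (card_map_cop hKn hpF ρ htriv inf_le_left inf_le_right)
    (T := ⊤) (T' := fil U φ q₀) (fun _ _ _ _ => mem_top _) le_top (f'.comp (⊤ : Subgroup V).subtype)
    (fun h _ v _ => hX3 h v) hXp (fun s => by
      obtain ⟨v, hv⟩ := hsurj' s
      exact ⟨⟨v, mem_top v⟩, hv⟩) (fun v => hker' v)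
  rw [top_inf_eq] at e2
  have e3 : Nat.card (fil U φ q₀ ⊓ fx ρ (F ⊓ D') : Subgroup V) ≤ ∏ E ∈ 𝓔, c E ^ E.index :=
    (card_le_of_le hφU).trans hcardU
  rw [e2, mul_comm]
  exact Nat.mul_le_mul e1 e3

end Pool.Agent.J6H14.DMu
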