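import Pool.Agent.J6H14.DMu.Layer

/-!
# The criterion for a simple module
-/

set_option autoImplicit false

namespace Pool.Agent.J6H14.DMu

open Subgroup Pool.Agent.Q60.MU Pool.Agent.W5h77.MB Pool.Agent.W5h33.DF
open scoped commutatorElement

variable {𝔾 : Type} [Group 𝔾]

/-- `v ↦ γ v / v`. -/
def phi {V : Type} [CommGroup V] (ρ : 𝔾 →* MulAut V) (γ : 𝔾) : V →* V where
  toFun v := ρ γ v * v⁻¹
  map_one' := by rw [map_one, inv_one, mul_one]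
  map_mul' u v := by rw [map_mul, mul_inv, mul_mul_mul_comm]

theorem phi_apply {V : Type} [CommGroup V] (ρ : 𝔾 →* MulAut V) (γ : 𝔾) (v : V) :
    phi ρ γ v = ρ γ v * v⁻¹ := rfl

theorem phi_comm {K D' : Subgroup 𝔾} (hKn : K.Normal) (hcm : ∀ a b : 𝔾, ⁅a, b⁆ ∈ D') {V : Type}
    [CommGroup V] {ρ : 𝔾 →* MulAut V} (htriv : ∀ x ∈ K ⊓ D', ρ x = 1) {γ : 𝔾} (hγK : γ ∈ K)
    (h : 𝔾) (v : V) : ρ h (phi ρ γ v) = phi ρ γ (ρ h v) := by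
  have h1 : ⁅h, γ⁆ ∈ K ⊓ D' := by
    refine ⟨?_, hcm h γ⟩
    rw [commutatorElement_def]
    exact K.mul_mem (hKn.conj_mem γ hγK h) (K.inv_mem hγK)
  have h2 : h * γ = ⁅h, γ⁆ * (γ * h) := by
    rw [commutatorElement_def]
    group
  rw [phi_apply, phi_apply, map_mul, map_inv, ← MulAut.mul_apply, ← map_mul, h2, map_mul,
    htriv _ h1, one_mul, map_mul, MulAut.mul_apply]

theorem phi_frob {p : ℕ} [hp : Fact p.Prime] {V : Type} [CommGroup V] (hV : ∀ v : V, v ^ p = 1)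
    (ρ : 𝔾 →* MulAut V) (γ : 𝔾) (e : ℕ) (v : V) :
    (phi ρ γ)^[p ^ e] v = ρ (γ ^ p ^ e) v * v⁻¹ := by
  rw [frob hV (ρ γ) (phi ρ γ) (fun _ => rfl) e v, map_pow]

/-- the iterate of an endomorphism -/
def iter {V : Type} [CommGroup V] (φ : V →* V) (n : ℕ) : V →* V where
  toFun := φ^[n]
  map_one' := iterate_map_one φ n
  map_mul' u v := iterate_map_mul φ n u v

theorem fil_shift {V : Type} [CommGroup V] {U : Subgroup V} {φ : V →* V} (j n : ℕ) {v : V}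
    (hv : v ∈ fil U φ j) : φ^[n] v ∈ fil U φ (j + n) := by
  induction n with
  | zero => exact hv
  | succ n ih =>
    rw [Function.iterate_succ_apply']
    exact mem_sup_right (mem_map_of_mem φ ih)

theorem fil_elem' {V : Type} [CommGroup V] {U : Subgroup V} {φ : V →* V}
    (hU : ∀ u ∈ U, φ u ∈ U) (j n : ℕ) :
    ∀ x ∈ fil U φ (j + n), ∃ u ∈ U, ∃ y ∈ fil U φ j, x = u * φ^[n] y := by
  induction n with
  | zero => exact fun x hx => ⟨1, U.one_mem, x, hx, by simp⟩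
  | succ n ih =>
    intro x hx
    rw [← add_assoc, fil_succ, mem_sup] at hx
    obtain ⟨u, hu, _, ⟨y, hy, rfl⟩, rfl⟩ := hx
    obtain ⟨u', hu', z, hz, rfl⟩ := ih y hy
    refine ⟨u * φ u', U.mul_mem hu (hU _ hu'), z, hz, ?_⟩
    rw [map_mul, Function.iterate_succ_apply', mul_assoc]

/-- the criterion for the module `b` at the layer `D` -/
def Crit [TopologicalSpace 𝔾] (p : ℕ) {Ω : Type} (I : Ω → Subgroup 𝔾) (K D : Subgroup 𝔾) {S : Type}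
    [CommGroup S] (b : 𝔾 →* MulAut S) : Prop :=
  ∃ (r s : ℕ) (P : Fin r → Subgroup 𝔾) (N : Fin s → Subgroup 𝔾) (C : Fin r → ℕ) (c : Fin s → ℕ),
    (∀ i, K ≤ P i ∧ ¬ p ∣ K.relIndex (P i) ∧ RankLe p I (P i ⊓ D) (C i)) ∧
    (∀ j, K ≤ N j ∧ ¬ p ∣ K.relIndex (N j) ∧ ∀ C', RankLe p I (N j ⊓ D) C' → c j ≤ C') ∧
    (∀ (T : Type) [CommGroup T] [Finite T] (a : 𝔾 →* MulAut T), Simp p K a →
      ∏ j, Nat.card (fx a (N j)) ≤ ∏ i, Nat.card (fx a (P i))) ∧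
    (∏ i, C i) * (∏ j, Nat.card (fx b (N j))) ^ D.relIndex K <
      (∏ j, c j) * (∏ i, Nat.card (fx b (P i))) ^ D.relIndex K

/-- If a power of `φ` is contained in `T`, then the lower layer acts trivially modulo `T`. -/
theorem act_mem {p : ℕ} [hp : Fact p.Prime] {K D D' : Subgroup 𝔾} (hDn : D.Normal) (hDD : D' ≤ D)
    {γ : 𝔾} (hγK : γ ∈ K) (hγ : ∀ τ ∈ K, ∃ i : ℤ, τ * (γ ^ i)⁻¹ ∈ D') {V : Type} [CommGroup V]
    (hV : ∀ v : V, v ^ p = 1) (ρ : 𝔾 →* MulAut V) (htriv : ∀ x ∈ K ⊓ D', ρ x = 1) {e₀ : ℕ}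
    (he₀ : D.relIndex K = p ^ e₀) {T : Subgroup V} (hφT : ∀ v, (phi ρ γ)^[p ^ e₀] v ∈ T) :
    ∀ x ∈ K ⊓ D, ∀ v, ρ x v * v⁻¹ ∈ T := by
  rintro x ⟨hxK, hxD⟩ v
  obtain ⟨j, hj⟩ := mod_gamma hDD hγK hγ hxK hxD
  rw [he₀] at hj
  let A₀ := actSub ρ ⊤ T (fun _ _ _ => mem_top _)
  have h1 : x * ((γ ^ p ^ e₀) ^ j)⁻¹ ∈ A₀ := by
    intro v _
    rw [htriv _ ⟨K.mul_mem hxK (K.inv_mem (K.zpow_mem (K.pow_mem hγK _) j)), hj⟩, MulAut.one_apply,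
      mul_inv_cancel]
    exact T.one_mem
  have h2 : γ ^ p ^ e₀ ∈ A₀ := by
    intro v _
    rw [← phi_frob hV]
    exact hφT v
  have h3 : x = (x * ((γ ^ p ^ e₀) ^ j)⁻¹) * (γ ^ p ^ e₀) ^ j := by rw [inv_mul_cancel_right]
  have h4 : x ∈ A₀ := by
    rw [h3]
    exact A₀.mul_mem h1 (A₀.zpow_mem h2 j)
  exact h4 v (mem_top v)

/-- The quotient by `T` extends to the lower layer. -/
theorem lower {p : ℕ} [hp : Fact p.Prime] {Ω : Type} [MulAction 𝔾 Ω] {I : Ω → Subgroup 𝔾}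
    (hI : ∀ (g : 𝔾) (w : Ω), ∀ x ∈ I w, g * x * g⁻¹ ∈ I (g • w))
    {K B D D' : Subgroup 𝔾} (hKn : K.Normal) (hBn : B.Normal) (hD'n : D'.Normal)
    (hDD : D' ≤ D) (hcm : ∀ a b : 𝔾, ⁅a, b⁆ ∈ D') (hKB : ¬ p ∣ K.relIndex B)
    {Q : Subgroup 𝔾} (hgQ : gens p I (K ⊓ D') ⊆ Q) {V : Type} [CommGroup V]
    (hV : ∀ v : V, v ^ p = 1)
    (ρ : 𝔾 →* MulAut V) (θ : ↥(K ⊓ D') →* V)
    (hθ1 : ∀ x, θ x = 1 ↔ (x : 𝔾) ∈ Q)
    (hθρ : ∀ (g : 𝔾) (x : ↥(K ⊓ D')) (h : g * x * g⁻¹ ∈ K ⊓ D'), ρ g (θ x) = θ ⟨g * x * g⁻¹, h⟩)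
    {T : Subgroup V} (hT : ∀ g, ∀ v ∈ T, ρ g v ∈ T) (hTK : ∀ x ∈ K ⊓ D, ∀ v, ρ x v * v⁻¹ ∈ T)
    (hT1 : ∀ v, (∀ z ∈ B ⊓ D', ρ z v * v⁻¹ ∈ T) → v ∈ T)
    (hT2 : ∀ A, I A ≤ D' ∨ ∀ v, (∀ z ∈ MulAction.stabilizer 𝔾 A ⊓ B ⊓ D', ρ z v * v⁻¹ ∈ T) → v ∈ T) :
    ∃ (X : Type) (_ : CommGroup X) (b : 𝔾 →* MulAut X) (f : V →* X) (F : 𝔾 → X),
      Function.Surjective f ∧ (∀ v, f v = 1 ↔ v ∈ T) ∧ (∀ g v, f (ρ g v) = b g (f v)) ∧
      (∀ x ∈ K ⊓ D, b x = 1) ∧ (∀ x ∈ K ⊓ D, ∀ y ∈ K ⊓ D, F (x * y) = F x * F y) ∧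
      (∀ x (hx : x ∈ K ⊓ D'), F x = f (θ ⟨x, hx⟩)) ∧
      (∀ g : 𝔾, ∀ x ∈ K ⊓ D, F (g * x * g⁻¹) = b g (F x)) ∧
      (∀ A, ∀ x ∈ K ⊓ D, x ∈ I A → F x = 1) := by
  classical
  have h𝒦'n : (K ⊓ D').Normal := normal_inf_normal K D'
  obtain ⟨X, iX, b, f₁, hsurj, hker, hf⟩ := exists_quo ρ (T := ⊤) (T' := T)
    (fun _ _ _ => mem_top _) hT
  let f : V →* X := f₁.comp topEquiv.symm.toMonoidHom
  have hker' : ∀ v, f v = 1 ↔ v ∈ T := fun v => hker ⟨v, mem_top v⟩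
  have hfe' : ∀ d v, f (ρ d v) = b d (f v) := fun d v => hf d ⟨v, mem_top v⟩ (mem_top _)
  have hsurj' : Function.Surjective f := by
    intro s
    obtain ⟨⟨v, hv⟩, hfv⟩ := hsurj s
    exact ⟨v, hfv⟩
  have hSp : ∀ s : X, s ^ p = 1 := by
    intro s
    obtain ⟨v, rfl⟩ := hsurj' s
    rw [← map_pow, hV, map_one]
  have hmem : ∀ z v, b z (f v) = f v ↔ ρ z v * v⁻¹ ∈ T := by
    intro z v
    rw [← hker', map_mul, map_inv, hfe', mul_inv_eq_one]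
  have hbK : ∀ x ∈ K ⊓ D, b x = 1 := by
    intro x hx
    ext s
    obtain ⟨v, rfl⟩ := hsurj' s
    rw [MulAut.one_apply, hmem]
    exact hTK x hx v
  have hfix : ∀ s ∈ fx b (B ⊓ D'), s = 1 := by
    intro s hs
    obtain ⟨v, rfl⟩ := hsurj' s
    rw [hker']
    exact hT1 v fun z hz => (hmem z v).1 (hs z hz)
  have hram : ∀ A, I A ≤ D' ∨ ∀ s ∈ fx b (MulAction.stabilizer 𝔾 A ⊓ B ⊓ D'), s = 1 := by
    intro A
    rcases hT2 A with h | h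
    · exact Or.inl h
    · right
      intro s hs
      obtain ⟨v, rfl⟩ := hsurj' s
      rw [hker']
      exact h v fun z hz => (hmem z v).1 (hs z hz)
  let f₀ : 𝔾 → X := fun x => if hx : x ∈ K ⊓ D' then f (θ ⟨x, hx⟩) else 1
  have hf₀ : ∀ x (hx : x ∈ K ⊓ D'), f₀ x = f (θ ⟨x, hx⟩) := fun x hx => dif_pos hx
  have hcj : ∀ d x : 𝔾, x ∈ K ⊓ D' → d * x * d⁻¹ ∈ K ⊓ D' := fun d x hx => h𝒦'n.conj_mem x hx d
  obtain ⟨F, hF1, hF2, hF3⟩ := exists_extend (D := D) hp.out hKn hBn hD'n hDD hcm hKB hSp b hbK hfix f₀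
    (by
      intro x hx y hy
      rw [hf₀ x hx, hf₀ y hy, hf₀ (x * y) (mul_mem hx hy), ← map_mul, ← map_mul]
      rfl)
    (by
      intro d x hx
      rw [hf₀ _ (hcj d x hx), hf₀ x hx, ← hθρ d ⟨x, hx⟩, hfe' d])
  have hF4 := ext_unram (B := B) hI hKn hDD hcm b hF1 hF2 hF3 (by
    intro A x hx hxA
    rw [hf₀ x hx, (hθ1 ⟨x, hx⟩).2 (hgQ (Or.inr ⟨hx, A, hxA⟩)), map_one]) hram
  exact ⟨X, iX, b, f, F, hsurj', hker', hfe', hbK, hF1,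
    fun x hx => (hF2 x hx).trans (hf₀ x hx), hF3, hF4⟩

theorem kills [TopologicalSpace 𝔾] [ContinuousMul 𝔾] {p : ℕ} [hp : Fact p.Prime]
    {Ω : Type} [MulAction 𝔾 Ω] {I : Ω → Subgroup 𝔾}
    (hI : ∀ (g : 𝔾) (w : Ω), ∀ x ∈ I w, g * x * g⁻¹ ∈ I (g • w))
    {K B D D' : Subgroup 𝔾} (hKn : K.Normal) (hBn : B.Normal) (hDn : D.Normal) (hD'n : D'.Normal)
    (hDD : D' ≤ D) (hK0 : K.index ≠ 0)
    (hKB : ¬ p ∣ K.relIndex B) {m m' : ℕ} (hDi : D.index = p ^ m)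
    (hD'i : D'.index = p ^ m') (hcm : ∀ a b : 𝔾, ⁅a, b⁆ ∈ D') {γ : 𝔾} (hγK : γ ∈ K)
    (hγ : ∀ τ ∈ K, ∃ i : ℤ, τ * (γ ^ i)⁻¹ ∈ D')
    -- the module
    {Q : Subgroup 𝔾} (hQ : Q ≤ K ⊓ D') (hQo : IsOpen (Q : Set 𝔾)) (hQf : Q.relIndex (K ⊓ D') ≠ 0)
    (hgQ : gens p I (K ⊓ D') ⊆ Q) {V : Type} [CommGroup V] [Finite V] (hV : ∀ v : V, v ^ p = 1)
    (ρ : 𝔾 →* MulAut V) (θ : ↥(K ⊓ D') →* V) (hθ : Function.Surjective θ)
    (hθ1 : ∀ x, θ x = 1 ↔ (x : 𝔾) ∈ Q)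
    (hθρ : ∀ (g : 𝔾) (x : ↥(K ⊓ D')) (h : g * x * g⁻¹ ∈ K ⊓ D'), ρ g (θ x) = θ ⟨g * x * g⁻¹, h⟩)
    (htriv : ∀ x ∈ K ⊓ D', ρ x = 1) {U : Subgroup V} (hU : ∀ g, ∀ v ∈ U, ρ g v ∈ U)
    (hT1 : ∀ T : Subgroup V, (∀ g, ∀ v ∈ T, ρ g v ∈ T) → U ≤ T → ∀ v,
      (∀ z ∈ B ⊓ D', ρ z v * v⁻¹ ∈ T) → v ∈ T)
    (hT2 : ∀ A, I A ≤ D' ∨ ∀ T : Subgroup V, (∀ g, ∀ v ∈ T, ρ g v ∈ T) → U ≤ T → ∀ v,
      (∀ z ∈ MulAction.stabilizer 𝔾 A ⊓ B ⊓ D', ρ z v * v⁻¹ ∈ T) → v ∈ T)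
    -- the simple module
    {S : Type} [CommGroup S] [Finite S] (b : 𝔾 →* MulAut S) (hS : Simp p K b)
    (hcrit : Crit p I K D b) {n₀ : ℕ} (hn₀ : D.relIndex K ≤ n₀ + 1) {T₁ T₂ : Subgroup V}
    (h1 : ∀ g, ∀ v ∈ T₁, ρ g v ∈ T₁)
    (h2 : ∀ g, ∀ v ∈ T₂, ρ g v ∈ T₂) (hle : fil U (phi ρ γ) (n₀ + 1) ≤ T₂) (hlt : T₂ ≤ T₁)
    (hle' : T₁ ≤ fil U (phi ρ γ) n₀) (f : T₁ →* S) (hf : Function.Surjective f)
    (hf1 : ∀ v, f v = 1 ↔ (v : V) ∈ T₂)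
    (hf2 : ∀ g (v : T₁) (hv : ρ g v ∈ T₁), f ⟨ρ g v, hv⟩ = b g (f v)) : False := by
  classical
  obtain ⟨hSn, hSp, hbK, hSs⟩ := hS
  have hD0 : D.index ≠ 0 := by
    rw [hDi]
    exact (pow_pos hp.out.pos m).ne'
  have hD'0 : D'.index ≠ 0 := by
    rw [hD'i]
    exact (pow_pos hp.out.pos m').ne'
  obtain ⟨e₀, -, he₀⟩ : ∃ a ≤ m, D.relIndex K = p ^ a :=
    (Nat.dvd_prime_pow hp.out).1 (hDi ▸ relIndex_dvd_index_of_normal D K)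
  set q := D.relIndex K with hq
  set φ := phi ρ γ with hφdef
  have hφc : ∀ (h : 𝔾) (v : V), ρ h (φ v) = φ (ρ h v) := phi_comm hKn hcm htriv hγK
  have hφci : ∀ (j : ℕ) (h : 𝔾) (v : V), ρ h (φ^[j] v) = φ^[j] (ρ h v) := by
    intro j
    induction j with
    | zero => intro h v; rfl
    | succ j ih =>
      intro h v
      rw [Function.iterate_succ_apply, Function.iterate_succ_apply, ih, hφc]
  have hUφ : ∀ u ∈ U, φ u ∈ U := fun u hu => U.mul_mem (hU γ u hu) (U.inv_mem hu)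
  have hfs : ∀ (j : ℕ) (g : 𝔾), ∀ v ∈ fil U φ j, ρ g v ∈ fil U φ j := fun j g =>
    fil_stable (hU g) (hφc g) j
  have hUT₂ : U ≤ T₂ := (le_fil U φ (n₀ + 1)).trans hle
  -- the chain
  have hchain : ∀ j < q, ∃ (T₁ T₂ : Subgroup V) (f : T₁ →* S), (∀ g, ∀ v ∈ T₁, ρ g v ∈ T₁) ∧
      (∀ g, ∀ v ∈ T₂, ρ g v ∈ T₂) ∧ fil U φ (j + 1) ≤ T₂ ∧ T₂ ≤ T₁ ∧ T₁ ≤ fil U φ j ∧
      Function.Surjective f ∧ (∀ v, f v = 1 ↔ (v : V) ∈ T₂) ∧
      ∀ g (v : T₁) (hv : ρ g v ∈ T₁), f ⟨ρ g v, hv⟩ = b g (f v) := by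
    intro j hj
    obtain ⟨n, hn⟩ : ∃ n, n₀ = j + n := ⟨n₀ - j, by omega⟩
    have hqn : n₀ + 1 = j + 1 + n := by omega
    let A₁ : Subgroup V := fil U φ j ⊓ T₁.comap (iter φ n)
    let A₂ : Subgroup V := fil U φ j ⊓ T₂.comap (iter φ n)
    let r : A₁ →* T₁ := ((iter φ n).comp A₁.subtype).codRestrict T₁ (fun v => v.2.2)
    have hr : ∀ v : A₁, ((r v : T₁) : V) = φ^[n] v := fun _ => rfl
    refine ⟨A₁, A₂, f.comp r, ?_, ?_, ?_, ?_, inf_le_left, ?_, ?_, ?_⟩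
    · rintro g v ⟨hv1, hv2⟩
      refine ⟨hfs j g v hv1, ?_⟩
      show φ^[n] (ρ g v) ∈ T₁
      rw [← hφci]
      exact h1 g _ hv2
    · rintro g v ⟨hv1, hv2⟩
      refine ⟨hfs j g v hv1, ?_⟩
      show φ^[n] (ρ g v) ∈ T₂
      rw [← hφci]
      exact h2 g _ hv2
    · intro v hv
      refine ⟨fil_anti U φ j hv, ?_⟩
      show φ^[n] v ∈ T₂
      apply hle
      rw [hqn]
      exact fil_shift (j + 1) n hv
    · exact inf_le_inf_left _ (comap_mono hlt)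
    · intro s
      obtain ⟨⟨x, hx⟩, rfl⟩ := hf s
      have hx2 := hle' hx
      rw [hn] at hx2
      obtain ⟨u, hu, y, hy, hxy⟩ := fil_elem' hUφ j n x hx2
      have hu1 : u ∈ T₁ := hlt (hUT₂ hu)
      have hy1 : φ^[n] y ∈ T₁ := by
        have h3 : φ^[n] y = u⁻¹ * x := by rw [hxy, inv_mul_cancel_left]
        rw [h3]
        exact T₁.mul_mem (T₁.inv_mem hu1) hx
      refine ⟨⟨y, hy, hy1⟩, ?_⟩
      show f ⟨φ^[n] y, hy1⟩ = f ⟨x, hx⟩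
      have h3 : (⟨x, hx⟩ : T₁) = ⟨u, hu1⟩ * ⟨φ^[n] y, hy1⟩ := Subtype.ext hxy
      rw [h3, map_mul, (hf1 ⟨u, hu1⟩).2 (hUT₂ hu), one_mul]
    · intro v
      show f (r v) = 1 ↔ _
      rw [hf1]
      exact ⟨fun h => ⟨v.2.1, h⟩, fun h => h.2⟩
    · intro g v hv
      show f (r ⟨ρ g v, hv⟩) = b g (f (r v))
      have h3 : ρ g ((r v : T₁) : V) ∈ T₁ := h1 g _ (r v).2
      rw [← hf2 g (r v) h3]
      congr 1
      apply Subtype.ext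
      show φ^[n] (ρ g v) = ρ g (φ^[n] v)
      rw [hφci]
  -- the lower layer
  set 𝒦 : Subgroup 𝔾 := K ⊓ D with h𝒦def
  have h𝒦n : 𝒦.Normal := normal_inf_normal K D
  have hKK : K ⊓ D' ≤ 𝒦 := inf_le_inf_left K hDD
  obtain ⟨X, iX, β, fX, F, hX1, hX2, hX3, hX4, hF1, hF2, hF3, hF4⟩ :=
    lower hI hKn hBn hD'n hDD hcm hKB hgQ hV ρ θ hθ1 hθρ (hfs q)
      (act_mem hDn hDD hγK hγ hV ρ htriv he₀ (fun v => by
        rw [← he₀]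
        exact iter_mem U φ q v)) (hT1 _ (hfs q) (le_fil U φ q))
      (fun A => (hT2 A).imp id fun h => h _ (hfs q) (le_fil U φ q))
  have hXp : ∀ x : X, x ^ p = 1 := by
    intro s
    obtain ⟨v, rfl⟩ := hX1 s
    rw [← map_pow, hV, map_one]
  have hXfin : Finite X := Finite.of_surjective fX hX1
  -- the lower bounds
  obtain ⟨r, s, P, N, C, c, hP, hNc, hPN, hlt'⟩ := hcrit
  have hM : ∀ j, ∃ M : Subgroup 𝔾, M ≤ N j ⊓ D ∧ IsOpen (M : Set 𝔾) ∧ M.relIndex (N j ⊓ D) ≠ 0 ∧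
      gens p I (N j ⊓ D) ⊆ M ∧ c j ≤ M.relIndex (N j ⊓ D) := by
    intro j
    by_contra hcon2
    rcases Nat.eq_zero_or_pos (c j) with h0 | h0
    · refine hcon2 ⟨N j ⊓ D, le_rfl, Subgroup.isOpen_mono ?_ hQo, ?_, gens_subset, ?_⟩
      · exact hQ.trans (inf_le_inf (hNc j).1 hDD)
      · rw [relIndex_self]
        exact one_ne_zero
      · rw [h0]
        exact Nat.zero_le _
    · have h1 : RankLe p I (N j ⊓ D) (c j - 1) := by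
        intro M h1 h2 h3 h4
        by_contra h5
        exact hcon2 ⟨M, h1, h2, h3, h4, by omega⟩
      have h2 := (hNc j).2.2 _ h1
      omega
  choose M hM1 hM2 hM3 hM4 hM5 using hM
  have hgM : ∀ j, gens p I 𝒦 ⊆ M j := fun j =>
    (gens_mono (inf_le_inf_right D (hNc j).1)).trans (hM4 j)
  have hF5 : F 1 = 1 := by
    have h1 := hF1 1 (one_mem _) 1 (one_mem _)
    rw [mul_one] at h1
    exact mul_eq_left.1 h1.symm
  let Φ : 𝒦 →* X :=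
    { toFun := fun x => F x
      map_one' := hF5
      map_mul' := fun x y => hF1 x x.2 y y.2 }
  let W : Subgroup 𝔾 :=
    { carrier := {x | x ∈ 𝒦 ∧ F x = 1 ∧ ∀ j, x ∈ M j}
      mul_mem' := by
        rintro x y ⟨hx1, hx2, hx3⟩ ⟨hy1, hy2, hy3⟩
        refine ⟨mul_mem hx1 hy1, ?_, fun j => mul_mem (hx3 j) (hy3 j)⟩
        rw [hF1 x hx1 y hy1, hx2, hy2, mul_one]
      one_mem' := ⟨one_mem _, hF5, fun j => one_mem _⟩
      inv_mem' := by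
        rintro x ⟨hx1, hx2, hx3⟩
        refine ⟨inv_mem hx1, ?_, fun j => inv_mem (hx3 j)⟩
        have h1 := hF1 x⁻¹ (inv_mem hx1) x hx1
        rw [inv_mul_cancel, hF5, hx2, mul_one] at h1
        exact h1.symm }
  have hQW : Q ⊓ ⨅ j, M j ≤ W := by
    rintro x ⟨hxQ, hxM⟩
    refine ⟨hKK (hQ hxQ), ?_, fun j => ?_⟩
    · rw [hF2 x (hQ hxQ), (hθ1 ⟨x, hQ hxQ⟩).2 hxQ, map_one]
    · exact (mem_iInf.1 hxM) j
  have hW0 : W.index ≠ 0 := by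
    have h1 : (Q ⊓ ⨅ j, M j).index ≠ 0 := by
      refine index_inf_ne_zero ?_ (index_iInf_ne_zero fun j => ?_)
      · rw [← relIndex_mul_index hQ]
        exact mul_ne_zero hQf (index_inf_ne_zero hK0 hD'0)
      · rw [← relIndex_mul_index (hM1 j)]
        refine mul_ne_zero (hM3 j) (index_inf_ne_zero ?_ hD0)
        intro h
        have h2 := index_dvd_of_le (hNc j).1
        rw [h] at h2
        exact hK0 (Nat.eq_zero_of_zero_dvd h2)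
    intro h
    have h2 := index_dvd_of_le hQW
    rw [h] at h2
    exact h1 (Nat.eq_zero_of_zero_dvd h2)
  have hWo : IsOpen (W : Set 𝔾) := by
    refine Subgroup.isOpen_mono hQW ?_
    rw [coe_inf, coe_iInf]
    exact hQo.inter (isOpen_iInter_of_finite fun j => hM2 j)
  have hWK : W ≤ 𝒦 := fun x hx => hx.1
  have hWf : W.relIndex 𝒦 ≠ 0 := by
    intro h
    have h1 := relIndex_mul_index hWK
    rw [h, zero_mul] at h1
    exact hW0 h1.symm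
  have hWg : gens p I 𝒦 ⊆ W := by
    intro x hx
    refine ⟨gens_subset hx, ?_, fun j => hgM j hx⟩
    rcases hx with (⟨a, ha, rfl⟩ | ⟨a, ha, a', ha', rfl⟩) | ⟨hx, A, hA⟩
    · have h1 := map_pow Φ ⟨a, ha⟩ p
      rw [hXp] at h1
      exact h1
    · have h1 := map_commutatorElement Φ ⟨a, ha⟩ ⟨a', ha'⟩
      rw [commutatorElement_eq_one_iff_mul_comm.2 (mul_comm (Φ ⟨a, ha⟩) (Φ ⟨a', ha'⟩))] at h1
      exact h1
    · exact hF4 A x hx hA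
  obtain ⟨R, hRW, hRo, hRf, hgR, hRn⟩ := exists_core hI (K := 𝒦) (D := ⊤)
    (fun d _ x hx => h𝒦n.conj_mem x hx d)
    (by
      rw [relIndex_top_right]
      exact index_inf_ne_zero hK0 hD0) hWK hWo hWf hWg
  have hRK := hRW.trans hWK
  have hRnorm : R.Normal := ⟨fun x hx g => hRn g trivial x hx⟩
  obtain ⟨Y, iY, σ, ψ, hYfin, hY, hψ, hψ1, hψσ, hσtriv, -, hup, hlow⟩ :=
    exists_module (I := I) hKn hDn hRnorm hRK hRo hRf hgR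
  -- the homomorphism on the lower layer
  have hker : ψ.ker ≤ Φ.ker := by
    intro x hx
    have h1 : (x : 𝔾) ∈ R := (hψ1 x).1 hx
    exact (hRW h1).2.1
  obtain ⟨g, hg⟩ : ∃ g : Y →* X, ∀ x : 𝒦, g (ψ x) = F x :=
    ⟨ψ.liftOfSurjective hψ ⟨Φ, hker⟩, fun x =>
      MonoidHom.liftOfRightInverse_comp_apply ψ _ _ ⟨Φ, hker⟩ x⟩
  have hge : ∀ d u, g (σ d u) = β d (g u) := by
    intro d u
    obtain ⟨x, rfl⟩ := hψ u
    rw [hψσ d x (h𝒦n.conj_mem x x.2 d), hg, hg]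
    exact hF3 d x x.2
  have hgs : Function.Surjective g := by
    intro x
    obtain ⟨v, rfl⟩ := hX1 x
    obtain ⟨y, rfl⟩ := hθ v
    exact ⟨ψ ⟨y, hKK y.2⟩, (hg _).trans (hF2 y y.2)⟩
  -- the comparison
  have hPg : Good p K P := fun i => (hP i).2.1
  have hNg : Good p K N := fun j => (hNc j).2.1
  have hPN' : ∀ (S : Type) [CommGroup S] [Finite S] (b : 𝔾 →* MulAut S), Simp p K b →
      cn b N ≤ cn b P := by
    intro S _ _ b hb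
    have h1 := hPN S b hb
    unfold cn
    exact_mod_cast h1
  have e1 := rat_mul (D' := D') hp.out hKn ρ htriv β hXp (T := ⊤) (T' := fil U φ q)
    (fun _ _ _ => mem_top _) le_top (fX.comp (⊤ : Subgroup V).subtype)
    (fun s => by
      obtain ⟨v, hv⟩ := hX1 s
      exact ⟨⟨v, mem_top v⟩, hv⟩) (fun v => hX2 v) (fun g v _ => hX3 g v) P hPg N hNg
  have e2 := rat_chain hp.out hKn hD'n hD'i hV ρ htriv P hPg N hNg hPN' b hbK hSp (fil U φ) hfs q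
    hchain
  have e3 := rat_mul (D' := D) hp.out hKn σ hσtriv β hXp (T := ⊤) (T' := g.ker)
    (fun _ _ _ => mem_top _) le_top (g.comp (⊤ : Subgroup Y).subtype)
    (fun s => by
      obtain ⟨v, hv⟩ := hgs s
      exact ⟨⟨v, mem_top v⟩, hv⟩) (fun v => Iff.rfl) (fun d v _ => hge d v) P hPg N hNg
  have e4 := rat_mono hp.out hKn hDn hDi hY σ hσtriv P hPg N hNg hPN' g.ker ⊥
    (fun d v hv => by
      rw [MonoidHom.mem_ker] at hv ⊢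
      rw [hge, hv, map_one])
    (fun d v hv => by
      rw [mem_bot] at hv ⊢
      rw [hv, map_one]) bot_le
  have e5 : rat σ D P N (⊥ : Subgroup Y) = 1 := by
    unfold rat
    rw [cnt_bot, cnt_bot, div_one]
  have e6 : ∀ {r : ℕ} (P : Fin r → Subgroup 𝔾), Good p K P →
      cn β (fun i => P i ⊓ D') = cn β (fun i => P i ⊓ D) := by
    intro r P hP
    refine Finset.prod_congr rfl fun i _ => ?_
    rw [fx_layer hp.out hKn hD'n hD'i hDD hX4 (hP i)]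
  rw [e6 P hPg, e6 N hNg] at e1
  rw [e5] at e4
  have hfil0 : fil U φ 0 = ⊤ := rfl
  rw [hfil0, e1] at e2
  have hrq := rat_pos (D' := D') ρ P N (fil U φ q)
  have e7 : (cn b P / cn b N) ^ q ≤ cn β (fun i => P i ⊓ D) / cn β (fun j => N j ⊓ D) :=
    le_of_mul_le_mul_left e2 hrq
  have hβ : 0 < cn β (fun i => P i ⊓ D) / cn β (fun j => N j ⊓ D) :=
    div_pos (cn_pos _ _) (cn_pos _ _)
  have e8 : (cn b P / cn b N) ^ q ≤ rat σ D P N (⊤ : Subgroup Y) := by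
    rw [e3]
    calc (cn b P / cn b N) ^ q ≤ cn β (fun i => P i ⊓ D) / cn β (fun j => N j ⊓ D) := e7
      _ = 1 * (cn β (fun i => P i ⊓ D) / cn β (fun j => N j ⊓ D)) := (one_mul _).symm
      _ ≤ _ := mul_le_mul_of_nonneg_right e4 hβ.le
  have e9 : cnt σ D P (⊤ : Subgroup Y) ≤ ∏ i, (C i : ℝ) := by
    rw [cnt_top]
    refine Finset.prod_le_prod (fun i _ => Nat.cast_nonneg _) fun i _ => ?_
    exact_mod_cast hup (P i) (hP i).1 (hP i).2.1 (C i) (hP i).2.2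
  have e10 : ∏ j, (c j : ℝ) ≤ cnt σ D N (⊤ : Subgroup Y) := by
    rw [cnt_top]
    refine Finset.prod_le_prod (fun i _ => Nat.cast_nonneg _) fun j _ => ?_
    exact_mod_cast (hM5 j).trans (hlow (N j) (hNc j).1 (hNc j).2.1 (M j) (hM1 j) (hM3 j) (hM4 j)
      fun x hx => (hRW hx).2.2 j)
  have hbP := cn_pos b P
  have hbN := cn_pos b N
  have e11 : (∏ j, (c j : ℝ)) * cn b P ^ q ≤ (∏ i, (C i : ℝ)) * cn b N ^ q := by
    have h3 : cn b P ^ q = (cn b P / cn b N) ^ q * cn b N ^ q := by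
      rw [div_pow, div_mul_cancel₀ _ (pow_pos hbN q).ne']
    have h4 : cnt σ D P (⊤ : Subgroup Y) =
        rat σ D P N (⊤ : Subgroup Y) * cnt σ D N (⊤ : Subgroup Y) := by
      unfold rat
      rw [div_mul_cancel₀ _ (cnt_pos σ N (⊤ : Subgroup Y)).ne']
    calc (∏ j, (c j : ℝ)) * cn b P ^ q = (∏ j, (c j : ℝ)) * (cn b P / cn b N) ^ q * cn b N ^ q := by
          rw [h3, mul_assoc]
      _ ≤ cnt σ D N (⊤ : Subgroup Y) * rat σ D P N (⊤ : Subgroup Y) * cn b N ^ q := by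
          have h5 : 0 ≤ (cn b P / cn b N) ^ q := (pow_pos (div_pos hbP hbN) q).le
          have h6 : 0 ≤ cnt σ D N (⊤ : Subgroup Y) := (cnt_pos σ N (⊤ : Subgroup Y)).le
          exact mul_le_mul_of_nonneg_right (mul_le_mul e10 e8 h5 h6) (pow_pos hbN q).le
      _ = cnt σ D P (⊤ : Subgroup Y) * cn b N ^ q := by rw [h4, mul_comm (cnt σ D N ⊤)]
      _ ≤ _ := mul_le_mul_of_nonneg_right e9 (pow_pos hbN q).le
  have e12 : (∏ i, (C i : ℝ)) * cn b N ^ q < (∏ j, (c j : ℝ)) * cn b P ^ q := by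
    unfold cn
    exact_mod_cast hlt'
  exact absurd e12 (not_lt.2 e11)

end Pool.Agent.J6H14.DMu
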