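import Pool.Agent.J6H14.DMu.Count
import Pool.Agent.J6H14.DMu.Ext

/-!
# The module of a layer
-/

set_option autoImplicit false

namespace Pool.Agent.J6H14.DMu

open Subgroup Pool.Agent.Q60.MU Pool.Agent.W5h77.MB Pool.Agent.W5h33.DF
open scoped commutatorElement

variable {𝔾 : Type} [Group 𝔾]

/-- The structure of a commutative group. -/
theorem VV_comm {𝒦 Q : Subgroup 𝔾} [Q.Normal] (hg : ∀ a ∈ 𝒦, ∀ b ∈ 𝒦, ⁅a, b⁆ ∈ Q) :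
    ∀ u v : VV 𝒦 Q, u * v = v * u := by
  intro u v
  obtain ⟨x, rfl⟩ := th_surj 𝒦 Q u
  obtain ⟨y, rfl⟩ := th_surj 𝒦 Q v
  have h3 : th 𝒦 Q ⁅x, y⁆ = 1 := by
    rw [th_eq_one]
    exact hg x x.2 y y.2
  rw [map_commutatorElement, commutatorElement_eq_one_iff_mul_comm] at h3
  exact h3

theorem act_comm {𝒦 Q : Subgroup 𝔾} [Q.Normal] [h𝒦 : 𝒦.Normal] (g : 𝔾) (x : 𝒦)
    (h : ⁅g, (x : 𝔾)⁆ ∈ 𝒦) :
    act 𝒦 Q g (th 𝒦 Q x) * (th 𝒦 Q x)⁻¹ = th 𝒦 Q ⟨⁅g, (x : 𝔾)⁆, h⟩ := by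
  rw [act_th, ← map_inv, ← map_mul]
  rfl

theorem act_triv {𝒦 Q : Subgroup 𝔾} [Q.Normal] [h𝒦 : 𝒦.Normal]
    (hg : ∀ a ∈ 𝒦, ∀ b ∈ 𝒦, ⁅a, b⁆ ∈ Q) : ∀ x ∈ 𝒦, act 𝒦 Q x = 1 := by
  intro x hx
  ext1 v
  obtain ⟨y, rfl⟩ := th_surj 𝒦 Q v
  have h1 : ⁅x, (y : 𝔾)⁆ ∈ 𝒦 := by
    rw [commutatorElement_def]
    exact 𝒦.mul_mem (h𝒦.conj_mem y y.2 x) (𝒦.inv_mem y.2)
  rw [MulAut.one_apply, ← mul_inv_eq_one, act_comm x y h1, th_eq_one]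
  exact hg x hx y y.2

/-- The vectors fixed by the two layers. -/
theorem fx_layer {K D D' : Subgroup 𝔾} {p m' : ℕ} (hp : p.Prime) (hKn : K.Normal)
    (hD'n : D'.Normal) (hD'i : D'.index = p ^ m') (hDD : D' ≤ D)
    {V : Type} [CommGroup V] {ρ : 𝔾 →* MulAut V} (htriv : ∀ x ∈ K ⊓ D, ρ x = 1)
    {L : Subgroup 𝔾} (hKL : ¬ p ∣ K.relIndex L) : fx ρ (L ⊓ D') = fx ρ (L ⊓ D) := by
  ext s
  constructor
  · rintro h l ⟨hl, hlD⟩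
    obtain ⟨e, he1, he2⟩ := exists_pow hp hKn hD'n hD'i hKL hl
    have h3 : l⁻¹ * l ^ e ∈ K ⊓ D := ⟨he2, D.mul_mem (D.inv_mem hlD) (D.pow_mem hlD e)⟩
    have h1 : l ^ e = l * (l⁻¹ * l ^ e) := by group
    have h4 : ρ (l ^ e) = ρ l := by rw [h1, map_mul, htriv _ h3, mul_one]
    rw [← h4]
    exact h _ ⟨L.pow_mem hl e, he1⟩
  · exact fun h l hl => h l ⟨hl.1, hDD hl.2⟩

/-- The module attached to a normal subgroup `Q` of `K ∩ D`. -/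
theorem exists_module [TopologicalSpace 𝔾] [ContinuousMul 𝔾] {p : ℕ} [hp : Fact p.Prime] {Ω : Type}
    {I : Ω → Subgroup 𝔾} {K D Q : Subgroup 𝔾} (hKn : K.Normal) (hDn : D.Normal) (hQn : Q.Normal)
    (hQ : Q ≤ K ⊓ D) (hQo : IsOpen (Q : Set 𝔾)) (hQf : Q.relIndex (K ⊓ D) ≠ 0)
    (hg : gens p I (K ⊓ D) ⊆ Q) :
    ∃ (V : Type) (_ : CommGroup V) (ρ : 𝔾 →* MulAut V) (θ : ↥(K ⊓ D) →* V), Finite V ∧
      (∀ v : V, v ^ p = 1) ∧ Function.Surjective θ ∧ (∀ x, θ x = 1 ↔ (x : 𝔾) ∈ Q) ∧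
      (∀ (g : 𝔾) (x : ↥(K ⊓ D)) (h : g * x * g⁻¹ ∈ K ⊓ D), ρ g (θ x) = θ ⟨g * x * g⁻¹, h⟩) ∧
      (∀ x ∈ K ⊓ D, ρ x = 1) ∧ Nat.card V = Q.relIndex (K ⊓ D) ∧
      (∀ L : Subgroup 𝔾, K ≤ L → ¬ p ∣ K.relIndex L → ∀ C, RankLe p I (L ⊓ D) C → Nat.card (fx ρ (L ⊓ D)) ≤ C) ∧
      (∀ L : Subgroup 𝔾, K ≤ L → ¬ p ∣ K.relIndex L → ∀ M : Subgroup 𝔾, M ≤ L ⊓ D → M.relIndex (L ⊓ D) ≠ 0 →
        gens p I (L ⊓ D) ⊆ M → Q ≤ M → M.relIndex (L ⊓ D) ≤ Nat.card (fx ρ (L ⊓ D))) := by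
  classical
  have h𝒦 : (K ⊓ D).Normal := normal_inf_normal K D
  set 𝒦 : Subgroup 𝔾 := K ⊓ D with h𝒦def
  have hcommQ : ∀ a ∈ 𝒦, ∀ b ∈ 𝒦, ⁅a, b⁆ ∈ Q := fun a ha b hb =>
    hg (Or.inl (Or.inr ⟨a, ha, b, hb, rfl⟩))
  have hfin : Finite (VV 𝒦 Q) := by
    apply Nat.finite_of_card_ne_zero
    rw [card_VV]
    exact hQf
  have hcomm := VV_comm hcommQ
  let _ : CommGroup (VV 𝒦 Q) := { (inferInstance : Group (VV 𝒦 Q)) with mul_comm := hcomm }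
  have hpow : ∀ v : VV 𝒦 Q, v ^ p = 1 := by
    intro v
    obtain ⟨x, rfl⟩ := th_surj 𝒦 Q v
    rw [← map_pow, th_eq_one]
    exact hg (Or.inl (Or.inl ⟨x, x.2, rfl⟩))
  have htriv : ∀ x ∈ 𝒦, act 𝒦 Q x = 1 := act_triv hcommQ
  have hcop : ∀ L : Subgroup 𝔾, ¬ p ∣ K.relIndex L → ¬ p ∣ Nat.card ((L ⊓ D).map (act 𝒦 Q)) :=
    fun L hL => card_map_cop hKn hL (act 𝒦 Q) htriv inf_le_left inf_le_right
  refine ⟨VV 𝒦 Q, inferInstance, act 𝒦 Q, th 𝒦 Q, hfin, hpow, th_surj 𝒦 Q, fun x => th_eq_one 𝒦 Q,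
    fun g x h => act_th 𝒦 Q g x, htriv, card_VV 𝒦 Q, ?_, ?_⟩
  · intro L hKL hLp C hC
    rw [fx_eq]
    refine (card_fix_le hp.out hpow ((L ⊓ D).map (act 𝒦 Q)) (hcop L hLp)
      (fixS ((L ⊓ D).map (act 𝒦 Q))) fun v hv δ hδ => hv δ hδ).trans ?_
    refine step 𝒦 Q (S := (nu ((L ⊓ D).map (act 𝒦 Q))).ker) (inf_le_inf_right D hKL) ?_ hQ hQo hQf hg
      ?_ hC
    · intro h
      rw [h𝒦def, rel_inf inf_le_right] at h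
      exact hLp (h.trans (rel_dvd hKn inf_le_left))
    · intro l hl v
      rw [MonoidHom.mem_ker, map_mul, map_inv, nu_act ((L ⊓ D).map (act 𝒦 Q)) ⟨l, hl, rfl⟩,
        mul_inv_cancel]
  · intro L hKL hLp M hML hMf hMg hQM
    set Δ := (L ⊓ D).map (act 𝒦 Q) with hΔ
    have h𝒦L : 𝒦 ≤ L ⊓ D := inf_le_inf_right D hKL
    have hKr : ¬ p ∣ 𝒦.relIndex (L ⊓ D) := by
      intro h
      rw [h𝒦def, rel_inf inf_le_right] at h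
      exact hLp (h.trans (rel_dvd hKn inf_le_left))
    -- `L ∩ D` is generated by `𝒦` and `M`
    have hsup : ∀ l ∈ L ⊓ D, ∃ w ∈ 𝒦, ∃ m ∈ M, l = w * m := by
      intro l hl
      have h1 : l ∈ 𝒦 ⊔ M := by
        refine mem_of_cop (𝒦 ⊔ M) hp.out hKr ?_ ?_
        · have hn : (𝒦.subgroupOf (L ⊓ D)).Normal := h𝒦.subgroupOf _
          exact mem_sup_left ((𝒦.subgroupOf (L ⊓ D)).pow_index_mem (⟨l, hl⟩ : ↥(L ⊓ D)))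
        · exact mem_sup_right (hMg (Or.inl (Or.inl ⟨l, hl, rfl⟩)))
      rw [← SetLike.mem_coe, Subgroup.normal_mul] at h1
      obtain ⟨w, hw, m, hm, rfl⟩ := h1
      exact ⟨w, hw, m, hm, rfl⟩
    have hM𝒦 : M.relIndex 𝒦 ≠ 0 := fun h => hMf (relIndex_eq_zero_of_le_right h𝒦L h)
    have h1 : M.relIndex (L ⊓ D) ≤ M.relIndex 𝒦 := relIndex_le_of_mul h𝒦L hM𝒦 hsup
    refine h1.trans ?_
    let NM : Subgroup (VV 𝒦 Q) := (M.subgroupOf 𝒦).map (th 𝒦 Q)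
    have h2 : NM.index = M.relIndex 𝒦 := by
      show ((M.subgroupOf 𝒦).map (th 𝒦 Q)).index = (M.subgroupOf 𝒦).index
      have h3 : (th 𝒦 Q).ker ≤ M.subgroupOf 𝒦 := by
        rw [th_ker]
        exact fun x hx => hQM hx
      rw [index_map, sup_eq_left.2 h3, MonoidHom.range_eq_top.2 (th_surj 𝒦 Q), index_top, mul_one]
    rw [← h2, fx_eq]
    have h3 : fixS Δ ⊔ NM = ⊤ := by
      rw [eq_top_iff]
      intro v _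
      refine mem_of_cop _ hp.out (hcop L hLp) ?_ (by rw [hpow]; exact one_mem _)
      have h4 : nu Δ v * (v ^ Nat.card Δ)⁻¹ ∈ NM := by
        apply nu_rel
        rintro _ ⟨l, hl, rfl⟩
        obtain ⟨x, rfl⟩ := th_surj 𝒦 Q v
        have h5 : ⁅l, (x : 𝔾)⁆ ∈ 𝒦 := by
          rw [commutatorElement_def]
          exact 𝒦.mul_mem (h𝒦.conj_mem x x.2 l) (𝒦.inv_mem x.2)
        rw [act_comm l x h5]
        exact ⟨_, hMg (Or.inl (Or.inr ⟨l, hl, x, h𝒦L x.2, rfl⟩)), rfl⟩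
      have h5 : nu Δ v ∈ fixS Δ := fun δ hδ => nu_fix Δ hδ v
      have h6 : v ^ Nat.card Δ = nu Δ v * (nu Δ v * (v ^ Nat.card Δ)⁻¹)⁻¹ := by
        rw [mul_inv_rev, inv_inv, mul_comm (v ^ Nat.card Δ), mul_inv_cancel_left]
      rw [h6]
      exact mul_mem (mem_sup_left h5) (mem_sup_right (inv_mem h4))
    have h4 : NM.index = NM.relIndex (fixS Δ) := by
      rw [← relIndex_top_right, ← h3, relIndex_sup_right]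
    rw [h4]
    show Nat.card (fixS Δ ⧸ NM.subgroupOf (fixS Δ)) ≤ _
    exact Nat.card_le_card_of_surjective QuotientGroup.mk QuotientGroup.mk_surjective

end Pool.Agent.J6H14.DMu
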