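import Pool.Agent.J6H14.DMu.Grp

/-!
# A common layer for all simple modules
-/

set_option autoImplicit false

namespace Pool.Agent.J6H14.DMu

open Subgroup Pool.Agent.Q60.MU Pool.Agent.W5h77.MB Pool.Agent.W5h33.DF
open scoped commutatorElement

variable {𝔾 : Type} [Group 𝔾]

/-- A bound for the number of elements of a simple module. -/
theorem card_simp_le {p : ℕ} (hp : p.Prime) {K : Subgroup 𝔾} (hK0 : K.index ≠ 0) {S : Type}
    [CommGroup S] {b : 𝔾 →* MulAut S} (hS : Simp p K b) : Nat.card S ≤ p ^ K.index := by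
  classical
  obtain ⟨hn, hSp, hbK, hsimp⟩ := hS
  obtain ⟨v, hv⟩ := exists_ne (1 : S)
  have hfi : K.FiniteIndex := ⟨hK0⟩
  have : Fintype (𝔾 ⧸ K) := Fintype.ofFinite _
  let w : 𝔾 ⧸ K → S := fun q => b q.out v
  have hw : ∀ g, b g v = w g := by
    intro g
    obtain ⟨k, hk⟩ := QuotientGroup.mk_out_eq_mul K g
    show b g v = b ((g : 𝔾 ⧸ K).out) v
    rw [hk, map_mul, hbK _ k.2, mul_one]
  have htop : closure (Set.range w) = ⊤ := by
    rcases hsimp (closure (Set.range w)) (by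
      intro g
      have h1 : closure (Set.range w) ≤ (closure (Set.range w)).comap (b g).toMonoidHom := by
        rw [closure_le]
        rintro _ ⟨q, rfl⟩
        show b g (b q.out v) ∈ closure (Set.range w)
        rw [← MulAut.mul_apply, ← map_mul, hw]
        exact subset_closure ⟨_, rfl⟩
      exact fun s hs => h1 hs) with h | h
    · exfalso
      apply hv
      have h1 : w (1 : 𝔾) ∈ closure (Set.range w) := subset_closure ⟨_, rfl⟩
      rw [h, mem_bot, ← hw, map_one, MulAut.one_apply] at h1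
      exact h1
    · exact h
  have hex : ∀ s : S, ∃ a : 𝔾 ⧸ K → ℤ, s = ∏ q, w q ^ a q := by
    intro s
    have hs : s ∈ closure (Set.range w) := by
      rw [htop]
      exact mem_top s
    induction hs using closure_induction with
    | mem x hx =>
      obtain ⟨q, rfl⟩ := hx
      refine ⟨Pi.single q 1, ?_⟩
      rw [Finset.prod_eq_single q]
      · rw [Pi.single_eq_same, zpow_one]
      · intro q' _ hq'
        rw [Pi.single_eq_of_ne hq', zpow_zero]
      · exact fun h => absurd (Finset.mem_univ q) h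
    | one => exact ⟨0, by simp⟩
    | mul x y _ _ hx hy =>
      obtain ⟨a, ha⟩ := hx
      obtain ⟨a', ha'⟩ := hy
      refine ⟨a + a', ?_⟩
      rw [ha, ha', ← Finset.prod_mul_distrib]
      exact Finset.prod_congr rfl fun q _ => by rw [Pi.add_apply, zpow_add]
    | inv x _ hx =>
      obtain ⟨a, ha⟩ := hx
      refine ⟨-a, ?_⟩
      rw [ha, ← Finset.prod_inv_distrib]
      exact Finset.prod_congr rfl fun q _ => by rw [Pi.neg_apply, zpow_neg]
  let Ψ : (𝔾 ⧸ K → Fin p) → S := fun e => ∏ q, w q ^ (e q : ℕ)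
  have hΨ : Function.Surjective Ψ := by
    intro s
    obtain ⟨a, ha⟩ := hex s
    have hp0 : (p : ℤ) ≠ 0 := by exact_mod_cast hp.ne_zero
    have hpp : (0 : ℤ) < p := by exact_mod_cast hp.pos
    refine ⟨fun q => ⟨(a q % p).toNat, ?_⟩, ?_⟩
    · have h1 := Int.emod_lt_of_pos (a q) hpp
      have h2 := Int.emod_nonneg (a q) hp0
      omega
    · rw [ha]
      refine Finset.prod_congr rfl fun q _ => ?_
      show w q ^ (a q % p).toNat = w q ^ a q
      have h2 := Int.emod_nonneg (a q) hp0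
      rw [← zpow_natCast, Int.toNat_of_nonneg h2]
      conv_rhs => rw [← Int.mul_ediv_add_emod (a q) p, zpow_add, zpow_mul, zpow_natCast, hSp,
        one_zpow, one_mul]
  have h1 := Nat.card_le_card_of_surjective Ψ hΨ
  rw [Nat.card_fun, Nat.card_eq_fintype_card (α := Fin p), Fintype.card_fin] at h1
  exact h1

/-- The criterion depends only on the numbers of fixed vectors. -/
theorem Crit.congr [TopologicalSpace 𝔾] {p : ℕ} {Ω : Type} {I : Ω → Subgroup 𝔾} {K D : Subgroup 𝔾}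
    {S S' : Type} [CommGroup S] [CommGroup S'] {b : 𝔾 →* MulAut S} {b' : 𝔾 →* MulAut S'}
    (h : ∀ L, K ≤ L → Nat.card (fx b L) = Nat.card (fx b' L)) (hc : Crit p I K D b) :
    Crit p I K D b' := by
  obtain ⟨r, s, P, N, C, c, hP, hN, hPN, hlt⟩ := hc
  refine ⟨r, s, P, N, C, c, hP, hN, hPN, ?_⟩
  rw [← Finset.prod_congr rfl fun i _ => h (P i) (hP i).1,
    ← Finset.prod_congr rfl fun j _ => h (N j) (hN j).1]
  exact hlt

theorem exists_level [TopologicalSpace 𝔾] {p : ℕ} (hp : p.Prime) {Ω : Type} {I : Ω → Subgroup 𝔾}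
    {K : Subgroup 𝔾} (hKn : K.Normal) (hK0 : K.index ≠ 0)
    (𝒬 : ∀ (S : Type) [CommGroup S], (𝔾 →* MulAut S) → Prop)
    (𝓓 : Set (Subgroup 𝔾)) (hne : 𝓓.Nonempty) (hinf : ∀ D ∈ 𝓓, ∀ D' ∈ 𝓓, D ⊓ D' ∈ 𝓓)
    (h : ∀ (S : Type) [CommGroup S] [Finite S] (b : 𝔾 →* MulAut S), Simp p K b →
      𝒬 S b → ∃ D ∈ 𝓓, Crit p I K D b) :
    ∃ D₀ ∈ 𝓓, ∀ (S : Type) [CommGroup S] [Finite S] (b : 𝔾 →* MulAut S), Simp p K b →
      𝒬 S b → ∃ D ∈ 𝓓, D₀ ≤ D ∧ Crit p I K D b := by
  classical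
  obtain ⟨D₁, hD₁⟩ := hne
  have hfin : Finite {L : Subgroup 𝔾 // K ≤ L} := (finite_ge hKn hK0).to_subtype
  have : Fintype {L : Subgroup 𝔾 // K ≤ L} := Fintype.ofFinite _
  let T := {L : Subgroup 𝔾 // K ≤ L} → Fin (p ^ K.index + 1)
  let P : T → Subgroup 𝔾 → Prop := fun f D => D ∈ 𝓓 ∧ ∃ (S : Type) (_ : CommGroup S)
    (b : 𝔾 →* MulAut S), (∀ L, (f L : ℕ) = Nat.card (fx b L.1)) ∧ Crit p I K D b
  let d : T → Subgroup 𝔾 := fun f => if hf : ∃ D, P f D then hf.choose else D₁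
  have hd : ∀ f, d f ∈ 𝓓 := by
    intro f
    show (if hf : ∃ D, P f D then hf.choose else D₁) ∈ 𝓓
    split_ifs with hf
    · exact hf.choose_spec.1
    · exact hD₁
  have hd2 : ∀ f, (∃ D, P f D) → P f (d f) := by
    intro f hf
    have h1 : d f = hf.choose := dif_pos hf
    rw [h1]
    exact hf.choose_spec
  have hI : ∀ s : Finset T, ∃ D₀ ∈ 𝓓, ∀ f ∈ s, D₀ ≤ d f := by
    intro s
    induction s using Finset.induction_on with
    | empty => exact ⟨D₁, hD₁, by simp⟩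
    | insert a s _ ih =>
      obtain ⟨D₀, hD₀, h0⟩ := ih
      refine ⟨d a ⊓ D₀, hinf _ (hd a) _ hD₀, fun f hf => ?_⟩
      rcases Finset.mem_insert.1 hf with rfl | hf
      · exact inf_le_left
      · exact inf_le_right.trans (h0 f hf)
  obtain ⟨D₀, hD₀, h0⟩ := hI Finset.univ
  refine ⟨D₀, hD₀, fun S _ _ b hS hE => ?_⟩
  obtain ⟨D, hD, hcr⟩ := h S b hS hE
  have hle : ∀ L : Subgroup 𝔾, Nat.card (fx b L) < p ^ K.index + 1 := fun L =>
    Nat.lt_succ_of_le ((Nat.card_le_card_of_injective _ Subtype.val_injective).trans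
      (card_simp_le hp hK0 hS))
  let f : T := fun L => ⟨Nat.card (fx b L.1), hle L.1⟩
  have hf : P f (d f) := hd2 f ⟨D, hD, S, inferInstance, b, fun _ => rfl, hcr⟩
  obtain ⟨h1, S', iS', b', h2, h3⟩ := hf
  refine ⟨d f, h1, h0 f (Finset.mem_univ f), ?_⟩
  exact Crit.congr (fun L hL => (h2 ⟨L, hL⟩).symm) h3

end Pool.Agent.J6H14.DMu
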