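import Pool.Agent.J6H14.DMu.Grp
import Pool.Agent.J6H14.DMu.Def
import Pool.Agent.W5h33.DF.Field

/-!
# Local conditions, and the translation to fields
-/

set_option autoImplicit false

namespace Pool.Agent.J6H14.DMu

open IntermediateField Module Pool.Agent.Q60.MU Pool.Agent.W5h77.MB Pool.Agent.W5h33.DF NumberField
open scoped Pointwise commutatorElement

/-- The group at a finite prime `A` of the field of algebraic numbers: the inertia group, and for
`s = true` and a prime above `p` the decomposition group. -/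
noncomputable def locFin (p : ℕ) (s : Bool) (A : ValuationSubring Qb) : Subgroup Gal(Qb/ℚ) :=
  open Classical in
  if s = true ∧ (p : Qb) ∈ A.nonunits then MulAction.stabilizer Gal(Qb/ℚ) A else inertia A

/-- The groups at the finite primes and at the infinite places (generated by the complex
conjugations). -/
noncomputable def loc (p : ℕ) (s : Bool) :
    ValuationSubring Qb ⊕ InfinitePlace Qb → Subgroup Gal(Qb/ℚ)
  | .inl A => locFin p s A
  | .inr w => MulAction.stabilizer Gal(Qb/ℚ) w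

theorem natCast_mem_nonunits_smul {p : ℕ} (g : Gal(Qb/ℚ)) {A : ValuationSubring Qb} :
    (p : Qb) ∈ (g • A).nonunits ↔ (p : Qb) ∈ A.nonunits := by
  have h : ∀ (g : Gal(Qb/ℚ)) (A : ValuationSubring Qb), (p : Qb) ∈ A.nonunits →
      (p : Qb) ∈ (g • A).nonunits := by
    intro g A hA
    rw [ValuationSubring.mem_nonunits_iff_or] at hA ⊢
    rcases hA with h | h
    · exact Or.inl h
    · right
      intro h7
      apply h
      have h8 : ((p : Qb))⁻¹ = g • ((p : Qb))⁻¹ := by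
        show ((p : Qb))⁻¹ = g ((p : Qb))⁻¹
        rw [map_inv₀, map_natCast]
      rw [h8] at h7
      exact ValuationSubring.smul_mem_pointwise_smul_iff.1 h7
  refine ⟨fun h1 => ?_, h g A⟩
  have h2 := h g⁻¹ (g • A) h1
  rwa [inv_smul_smul] at h2

theorem stab_conj {Ω : Type} [MulAction Gal(Qb/ℚ) Ω] (g : Gal(Qb/ℚ)) (w : Ω) :
    ∀ σ ∈ MulAction.stabilizer Gal(Qb/ℚ) w, g * σ * g⁻¹ ∈ MulAction.stabilizer Gal(Qb/ℚ) (g • w) := by
  intro σ hσ
  rw [MulAction.mem_stabilizer_iff] at hσ ⊢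
  rw [mul_smul, mul_smul, inv_smul_smul, hσ]

theorem loc_conj (p : ℕ) (s : Bool) (g : Gal(Qb/ℚ)) (w : ValuationSubring Qb ⊕ InfinitePlace Qb) :
    ∀ σ ∈ loc p s w, g * σ * g⁻¹ ∈ loc p s (g • w) := by
  intro σ hσ
  rcases w with A | w
  · show g * σ * g⁻¹ ∈ locFin p s (g • A)
    have h1 : σ ∈ locFin p s A := hσ
    unfold locFin at h1 ⊢
    rw [natCast_mem_nonunits_smul]
    split_ifs at h1 ⊢ with h
    · exact stab_conj g A σ h1
    · exact inertia_conj g A σ h1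
  · exact stab_conj g w σ hσ

theorem stab_iff {A : ValuationSubring Qb} {σ : Gal(Qb/ℚ)} : Stab A σ ↔ σ • A = A := by
  constructor
  · intro h
    ext z
    rw [ValuationSubring.mem_pointwise_smul_iff_inv_smul_mem]
    show σ⁻¹ z ∈ A ↔ z ∈ A
    rw [← h (σ⁻¹ z)]
    have h3 : im σ (σ⁻¹ z) = z := by
      show (σ * σ⁻¹) z = z
      rw [mul_inv_cancel]
      rfl
    rw [h3]
  · intro h z
    have h1 : σ • z ∈ σ • A ↔ z ∈ A := ValuationSubring.smul_mem_pointwise_smul_iff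
    rw [h] at h1
    exact h1

theorem localAt_iff {p : ℕ} {s : Bool} {A : ValuationSubring Qb} {σ : Gal(Qb/ℚ)} :
    LocalAt p s A σ ↔ σ ∈ locFin p s A := by
  unfold LocalAt locFin
  rw [stab_iff]
  split_ifs with h
  · exact ⟨fun h1 => h1.1, fun h1 => ⟨h1, Or.inl h⟩⟩
  · exact ⟨fun h1 => ⟨h1.1, h1.2.resolve_left h⟩, fun h1 => ⟨h1.1, Or.inr h1.2⟩⟩

theorem place_iff {w : InfinitePlace Qb} {σ : Gal(Qb/ℚ)} :
    (∀ x, w (σ x) = w x) ↔ σ ∈ MulAction.stabilizer Gal(Qb/ℚ) w := by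
  rw [MulAction.mem_stabilizer_iff]
  constructor
  · intro h
    ext x
    rw [InfinitePlace.smul_apply]
    conv_rhs => rw [← σ.apply_symm_apply x]
    exact (h (σ.symm x)).symm
  · intro h x
    conv_lhs => rw [← h]
    rw [InfinitePlace.smul_apply, σ.symm_apply_apply]

theorem rkLe_iff {p : ℕ} {s : Bool} (E : IntermediateField ℚ Qb) [FiniteDimensional ℚ E] (C : ℕ) :
    RankLe p (loc p s) E.fixingSubgroup C ↔ RkLe p s E C := by
  have hK0 := index_ne_zero' E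
  constructor
  · intro h M hEM hM h1 h2 h3 h4 h4'
    have hWK : M.fixingSubgroup ≤ E.fixingSubgroup := fixingSubgroup_le hEM
    have hmul := Subgroup.relIndex_mul_index hWK
    have hW0 := index_ne_zero' M
    have h5 := h M.fixingSubgroup hWK M.fixingSubgroup_isOpen (by
      intro h0
      rw [h0, zero_mul] at hmul
      exact hW0 hmul.symm) (by
      rintro x ((⟨a, ha, rfl⟩ | ⟨a, ha, b, hb, rfl⟩) | ⟨hx, w, hw⟩)
      · exact (mem_fixingSubgroup_iff _ _).2 fun x hx => h3 a ha x hx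
      · refine (mem_fixingSubgroup_iff _ _).2 fun x hx => ?_
        have hb' : b⁻¹ x ∈ M := h1 _ (inv_mem hb) x hx
        have ha' : a⁻¹ (b⁻¹ x) ∈ M := h1 _ (inv_mem ha) _ hb'
        have h6 : a (b (a⁻¹ (b⁻¹ x))) = b (a (a⁻¹ (b⁻¹ x))) := h2 a ha b hb _ ha'
        show ⁅a, b⁆ x = x
        have h7 : ⁅a, b⁆ x = a (b (a⁻¹ (b⁻¹ x))) := rfl
        have h8 : a (a⁻¹ (b⁻¹ x)) = b⁻¹ x := by
          rw [← AlgEquiv.mul_apply, mul_inv_cancel, AlgEquiv.one_apply]
        have h9 : b (b⁻¹ x) = x := by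
          rw [← AlgEquiv.mul_apply, mul_inv_cancel, AlgEquiv.one_apply]
        rw [h7, h6, h8, h9]
      · rcases w with A | w
        · exact (mem_fixingSubgroup_iff _ _).2 fun y hy => h4 A x hx (localAt_iff.2 hw) y hy
        · exact (mem_fixingSubgroup_iff _ _).2 fun y hy => h4' w x hx (place_iff.2 hw) y hy)
    show finrank ℚ M ≤ C * finrank ℚ E
    rw [finrank_eq_fixingSubgroup_index, finrank_eq_fixingSubgroup_index, ← hmul]
    exact Nat.mul_le_mul_right _ h5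
  · intro h W hWK hWo hWf hg
    have hmul := Subgroup.relIndex_mul_index hWK
    have hW0 : W.index ≠ 0 := by
      rw [← hmul]
      exact mul_ne_zero hWf hK0
    have hfix := fix_fixed hWo
    have hEM : E ≤ fixedField W := (le_iff_le _ _).2 hWK
    have hfd := finite_fixed hWo hW0
    have hmem : ∀ x, x ∈ fixedField W ↔ ∀ w ∈ W, w x = x := fun x => mem_fixedField_iff _ _
    have h5 := h (fixedField W) hEM hfd (by
      intro σ hσ x hx
      rw [hmem] at hx ⊢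
      intro w hw
      have h1 : ⁅σ⁻¹, w⁆ ∈ W := hg (Or.inl (Or.inr ⟨σ⁻¹, inv_mem hσ, w, hWK hw, rfl⟩))
      have h2 : w (σ x) = σ ((⁅σ⁻¹, w⁆ * w) x) := by
        rw [← AlgEquiv.mul_apply, ← AlgEquiv.mul_apply]
        congr 1
        rw [commutatorElement_def]
        group
      rw [h2, hx _ (W.mul_mem h1 hw)]) (by
      intro σ hσ τ hτ x hx
      rw [hmem] at hx
      have h1 : ⁅σ⁻¹, τ⁻¹⁆ ∈ W := hg (Or.inl (Or.inr ⟨σ⁻¹, inv_mem hσ, τ⁻¹, inv_mem hτ, rfl⟩))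
      have h2 : σ (τ x) = τ (σ (⁅σ⁻¹, τ⁻¹⁆ x)) := by
        rw [← AlgEquiv.mul_apply, ← AlgEquiv.mul_apply, ← AlgEquiv.mul_apply]
        congr 1
        rw [commutatorElement_def]
        group
      show σ (τ x) = τ (σ x)
      rw [h2, hx _ h1]) (by
      intro σ hσ x hx
      rw [hmem] at hx
      exact hx _ (hg (Or.inl (Or.inl ⟨σ, hσ, rfl⟩)))) (by
      intro A σ hσ hσA x hx
      rw [hmem] at hx
      exact hx _ (hg (Or.inr ⟨hσ, Sum.inl A, localAt_iff.1 hσA⟩))) (by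
      intro w σ hσ hσw x hx
      rw [hmem] at hx
      exact hx _ (hg (Or.inr ⟨hσ, Sum.inr w, place_iff.1 hσw⟩)))
    change finrank ℚ (fixedField W) ≤ C * finrank ℚ E at h5
    rw [finrank_eq_fixingSubgroup_index, finrank_eq_fixingSubgroup_index, hfix, ← hmul] at h5
    exact Nat.le_of_mul_le_mul_right h5 (Nat.pos_of_ne_zero hK0)

/-- Passage to an open subgroup. -/
theorem rankLe_sub {𝔾 : Type} [Group 𝔾] [TopologicalSpace 𝔾] {p : ℕ} {Ω : Type}
    {I : Ω → Subgroup 𝔾} {Λ H : Subgroup 𝔾} (hΛ : IsOpen (Λ : Set 𝔾)) (hH : H ≤ Λ) (C : ℕ) :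
    RankLe p (fun w => (I w).subgroupOf Λ) (H.subgroupOf Λ) C ↔ RankLe p I H C := by
  constructor
  · intro h W hWH hWo hWf hg
    have h1 := h (W.subgroupOf Λ) (fun x hx => hWH hx) (hWo.preimage continuous_subtype_val)
      (by rwa [Subgroup.relIndex_subgroupOf hH]) (by
      rintro x ((⟨a, ha, rfl⟩ | ⟨a, ha, b, hb, rfl⟩) | ⟨hx, w, hw⟩)
      · exact hg (Or.inl (Or.inl ⟨a, ha, rfl⟩))
      · exact hg (Or.inl (Or.inr ⟨a, ha, b, hb, rfl⟩))
      · exact hg (Or.inr ⟨hx, w, hw⟩))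
    rwa [Subgroup.relIndex_subgroupOf hH] at h1
  · intro h W hWH hWo hWf hg
    have h0 : (W.map Λ.subtype).subgroupOf Λ = W :=
      Subgroup.comap_map_eq_self_of_injective Λ.subtype_injective W
    have h1 : W.map Λ.subtype ≤ H := by
      rintro _ ⟨x, hx, rfl⟩
      exact hWH hx
    have h2 : (W.map Λ.subtype).relIndex H = W.relIndex (H.subgroupOf Λ) := by
      rw [← Subgroup.relIndex_subgroupOf hH, h0]
    rw [← h2]
    refine h _ h1 ?_ (by rwa [h2]) ?_
    · rw [Subgroup.coe_map]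
      exact hΛ.isOpenMap_subtype_val _ hWo
    · rintro x ((⟨a, ha, rfl⟩ | ⟨a, ha, b, hb, rfl⟩) | ⟨hx, w, hw⟩)
      · exact ⟨(⟨a, hH ha⟩ : Λ) ^ p, hg (Or.inl (Or.inl ⟨⟨a, hH ha⟩, ha, rfl⟩)), rfl⟩
      · exact ⟨⁅(⟨a, hH ha⟩ : Λ), (⟨b, hH hb⟩ : Λ)⁆,
          hg (Or.inl (Or.inr ⟨⟨a, hH ha⟩, ha, ⟨b, hH hb⟩, hb, rfl⟩)), rfl⟩
      · exact ⟨⟨x, hH hx⟩, hg (Or.inr ⟨hx, w, hw⟩), rfl⟩

end Pool.Agent.J6H14.DMu
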