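import Pool.Agent.J6H14.DMu.Dec3

/-!
# The theorem of Minkowski, and the class numbers of the layers of `ℚ`
-/

set_option autoImplicit false

namespace Pool.Agent.J6H14.DMu

open IntermediateField Module Pool.Agent.Q60.MU Pool.Agent.W5h77.MB Pool.Agent.W5h33.DF NumberField
open scoped Pointwise commutatorElement ComplexConjugate

/-- Some prime is ramified: there is a nontrivial inertia group. -/
theorem exists_inertia_int (N : Type) [Field N] [NumberField N] [IsGalois ℚ N]
    (h : finrank ℚ N ≠ 1) : ∃ (P : Ideal (𝓞 N)), P.IsMaximal ∧ P ≠ ⊥ ∧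
      ∃ g : Gal(N/ℚ), g ≠ 1 ∧ ∀ a : 𝓞 N, g • a - a ∈ P := by
  obtain ⟨P, hP, hP'⟩ := NumberField.exists_not_isUnramifiedAt_int (𝒪 := 𝓞 N) h
  refine ⟨P, hP, Ideal.IsMaximal.ne_bot_of_isIntegral_int P, ?_⟩
  have hg : IsGaloisGroup Gal(N/ℚ) ℤ (𝓞 N) := IsGaloisGroup.of_isFractionRing Gal(N/ℚ) ℤ (𝓞 N) ℚ N
  have hperf : PerfectField (P.under ℤ).ResidueField := inferInstance
  have h1 := Ideal.card_inertia_eq_ramificationIdxIn (G := Gal(N/ℚ)) (P.under ℤ) P
  rw [Ideal.ramificationIdxIn_eq_ramificationIdx (P.under ℤ) P Gal(N/ℚ)] at h1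
  have h2 : P.ramificationIdx ℤ ≠ 1 := by
    rw [Ne, Ideal.ramificationIdx_eq_one_iff]
    exact hP'
  rw [← h1] at h2
  by_contra hcon
  push Not at hcon
  apply h2
  rw [Nat.card_eq_one_iff_unique]
  refine ⟨⟨fun x y => ?_⟩, ⟨1⟩⟩
  have h3 : ∀ x : P.inertia Gal(N/ℚ), x = 1 := by
    intro x
    by_contra hx
    obtain ⟨a, ha⟩ := hcon x (fun h => hx (Subtype.ext h))
    exact ha (x.2 a)
  rw [h3 x, h3 y]

/-- The only unramified Galois extension of `ℚ` is `ℚ`. -/
theorem eq_bot_of_unram {N : IntermediateField ℚ Qb} [FiniteDimensional ℚ N] [IsGalois ℚ N]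
    (h : ∀ A : ValuationSubring Qb, inertia A ≤ N.fixingSubgroup) : N = ⊥ := by
  rw [← IntermediateField.finrank_eq_one_iff]
  by_contra hcon
  have hnf : NumberField N := ⟨⟩
  obtain ⟨P, hP, hP0, g, hg1, hg⟩ := exists_inertia_int N hcon
  let φ : 𝓞 N →+* Qb := (algebraMap N Qb).comp (algebraMap (𝓞 N) N)
  have hφ : Function.Injective φ := (algebraMap N Qb).injective.comp
    (RingOfIntegers.coe_injective)
  let P' : Ideal φ.range := P.map φ.rangeRestrict
  have hP' : P' ≠ ⊤ := by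
    intro h1
    have h2 := Ideal.comap_map_of_surjective φ.rangeRestrict φ.rangeRestrict_surjective P
    have h3 : Ideal.comap φ.rangeRestrict ⊥ = ⊥ := by
      rw [← RingHom.ker_eq_comap_bot]
      refine (RingHom.injective_iff_ker_eq_bot _).1 fun x y hxy => ?_
      exact hφ (congrArg (fun y : φ.range => (y : Qb)) hxy)
    have h4 : P.map φ.rangeRestrict = ⊤ := h1
    rw [h4, Ideal.comap_top, h3, sup_bot_eq] at h2
    exact hP.ne_top h2.symm
  obtain ⟨B, -, hB⟩ := Ideal.image_subset_nonunits_valuationSubring P' hP'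
  have hPB : ∀ a ∈ P, φ a ∈ B.nonunits := by
    intro a ha
    exact hB ⟨φ.rangeRestrict a, Ideal.mem_map_of_mem _ ha, rfl⟩
  have hne : B.comap (algebraMap ℚ Qb) ≠ ⊤ := by
    intro htop
    have hn0 : Ideal.absNorm P ≠ 0 := fun h0 => hP0 (Ideal.absNorm_eq_zero_iff.1 h0)
    have h1 := hPB _ (Ideal.absNorm_mem P)
    rw [map_natCast] at h1
    have h2 : ((Ideal.absNorm P : ℚ))⁻¹ ∈ B.comap (algebraMap ℚ Qb) := by rw [htop]; trivial
    rw [ValuationSubring.mem_comap, map_inv₀, map_natCast] at h2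
    rw [ValuationSubring.mem_nonunits_iff_or] at h1
    rcases h1 with h3 | h3
    · exact hn0 (by exact_mod_cast h3)
    · exact h3 h2
  have hAint : ∀ a : ℤ, algebraMap ℤ Qb a ∈ B := fun a => integral_mem B isIntegral_algebraMap
  let ρ : Gal(Qb/ℚ) := g.liftNormal Qb
  have hρ : ∀ x : N, ρ (algebraMap N Qb x) = algebraMap N Qb (g x) := fun x =>
    AlgEquiv.liftNormal_commutes g Qb x
  obtain ⟨θ, h1, h2, h3⟩ := inertia_of_triv (K := ℚ) (A := ℤ) B hAint hne N ρ (by
    intro r hr hint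
    have hint' : IsIntegral ℤ (⟨r, hr⟩ : N) := by
      have h1 : IsIntegral ℤ (algebraMap N Qb ⟨r, hr⟩) := hint
      exact (isIntegral_algebraMap_iff (algebraMap N Qb).injective).1 h1
    let a : 𝓞 N := ⟨⟨r, hr⟩, hint'⟩
    have h1 := hPB _ (hg a)
    rw [ValuationSubring.mem_nonunits_iff] at h1
    have h2 : φ (g • a - a) = ρ r - r := by
      rw [map_sub]
      have h3 := hρ ⟨r, hr⟩
      have h4 : φ (g • a) = algebraMap N Qb (g ⟨r, hr⟩) := rfl
      rw [h4, ← h3]
      rfl
    rwa [h2] at h1)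
  have h4 : θ ∈ inertia B := by
    refine ⟨stab_iff.1 fun z => (h1 z).symm, fun x hx => ?_⟩
    exact (ValuationSubring.mem_nonunits_iff B).2 (h2 x hx)
  have h5 := h B h4
  rw [IntermediateField.mem_fixingSubgroup_iff] at h5
  apply hg1
  ext x
  show ((g x : N) : Qb) = x
  have h6 := hρ x
  have h7 : ρ (x : Qb) = x := by
    rw [← h3 x x.2]
    exact h5 x x.2
  exact h6.symm.trans h7

section
variable {p : ℕ} [hp : Fact p.Prime] {s : Bool}

/-- The local groups without the infinite places. -/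
noncomputable def loc₀ (p : ℕ) (s : Bool) :
    ValuationSubring Qb ⊕ InfinitePlace Qb → Subgroup Gal(Qb/ℚ)
  | .inl A => locFin p s A
  | .inr _ => ⊥

omit hp in
theorem loc₀_conj (g : Gal(Qb/ℚ)) (w : ValuationSubring Qb ⊕ InfinitePlace Qb) :
    ∀ σ ∈ loc₀ p s w, g * σ * g⁻¹ ∈ loc₀ p s (g • w) := by
  intro σ hσ
  rcases w with A | w
  · exact loc_conj p s g (.inl A) σ hσ
  · have h1 : σ ∈ (⊥ : Subgroup Gal(Qb/ℚ)) := hσ
    show g * σ * g⁻¹ ∈ (⊥ : Subgroup Gal(Qb/ℚ))
    rw [Subgroup.mem_bot] at h1 ⊢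
    rw [h1, mul_one, mul_inv_cancel]

omit hp in
theorem rank_top : RankLe p (loc₀ p s) ⊤ 1 := by
  intro W _ hWo hWf hg
  rw [Subgroup.relIndex_top_right] at hWf ⊢
  have hWn : W.Normal := by
    apply normal_of_comm
    rw [commutator_def, Subgroup.commutator_le]
    intro a ha b hb
    exact hg (Or.inl (Or.inr ⟨a, ha, b, hb, rfl⟩))
  have hfix : (fixedField W).fixingSubgroup = W := fix_fixed hWo
  have hfd := finite_fixed hWo hWf
  have hgal : IsGalois ℚ (fixedField W) :=
    (InfiniteGalois.normal_iff_isGalois (fixedField W)).1 (by rw [hfix]; exact hWn)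
  have h1 : fixedField W = ⊥ := eq_bot_of_unram fun A x hx => by
    rw [hfix]
    exact hg (Or.inr ⟨Subgroup.mem_top _, .inl A, inertia_le_locFin p s A hx⟩)
  rw [← hfix, h1, ← finrank_eq_fixingSubgroup_index, IntermediateField.finrank_bot]

/-- The class numbers of the layers are not divisible by `p`. -/
theorem rk_isLayer {m : ℕ} {E : IntermediateField ℚ Qb} (hE : IsLayer p m E) : RkLe p s E 1 := by
  have hfE := layer_fd hp.out hE
  have hidx : E.fixingSubgroup.index = p ^ m := by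
    rw [← hE.1, finrank_eq_fixingSubgroup_index Qb E]
  obtain ⟨A₀, hA₀⟩ := exists_above hp.out
  have h1 := crit (p := p) loc₀_conj (layer_normal hp.out hE) hidx (Sum.inl A₀) (fun w => ?_)
    (rank_top (p := p) (s := s))
  · rw [top_inf_eq] at h1
    rw [← rkLe_iff]
    intro W hW hWo hWf hg
    refine h1 W hW hWo hWf fun x hx => hg ?_
    rcases hx with (h | h) | ⟨hx, w, hw⟩
    · exact Or.inl (Or.inl h)
    · exact Or.inl (Or.inr h)
    · rcases w with A | w
      · exact Or.inr ⟨hx, .inl A, hw⟩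
      · have h2 : x ∈ (⊥ : Subgroup Gal(Qb/ℚ)) := hw
        rw [Subgroup.mem_bot] at h2
        rw [h2]
        exact Or.inl (Or.inl ⟨1, one_mem _, (one_pow p).symm⟩)
  · rcases w with A | w
    · by_cases hpA : (p : Qb) ∈ A.nonunits
      · right
        obtain ⟨g, -, hg⟩ := conj_of_one hp.out ⊥ (onePrime_bot hp.out) hpA hA₀
        exact ⟨g, Subgroup.mem_top _, by rw [hg]; rfl⟩
      · left
        intro x hx
        have h4 : x ∈ locFin p s A := hx.1
        unfold locFin at h4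
        rw [if_neg (fun h => hpA h.2)] at h4
        exact inertia_le_layer hp.out hE hpA h4
    · left
      intro x hx
      have h2 : x ∈ (⊥ : Subgroup Gal(Qb/ℚ)) := hx.1
      rw [Subgroup.mem_bot] at h2
      rw [h2]
      exact one_mem _

end

end Pool.Agent.J6H14.DMu
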