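import Pool.Agent.W5h33.DF.Main

/-!
# Fixed vectors
-/

set_option autoImplicit false

namespace Pool.Agent.J6H14.DMu

open Subgroup Pool.Agent.W5h77.MB Pool.Agent.W5h33.DF
open Pool.Agent.X310.Mu (nm nm_eq nm_of_fix nm_fix eq_one_of_cop)

/-- The elements fixed by a subgroup. -/
def fx {Λ S : Type} [Group Λ] [CommGroup S] (b : Λ →* MulAut S) (H : Subgroup Λ) : Subgroup S where
  carrier := {s | ∀ h ∈ H, b h s = s}
  mul_mem' := by
    intro x y hx hy h hh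
    rw [map_mul, hx h hh, hy h hh]
  one_mem' := fun h _ => map_one _
  inv_mem' := by
    intro x hx h hh
    rw [map_inv, hx h hh]

theorem mem_fx {Λ S : Type} [Group Λ] [CommGroup S] {b : Λ →* MulAut S} {H : Subgroup Λ} {s : S} :
    s ∈ fx b H ↔ ∀ h ∈ H, b h s = s := Iff.rfl

theorem fx_eq {Λ S : Type} [Group Λ] [CommGroup S] (b : Λ →* MulAut S) (H : Subgroup Λ) :
    fx b H = fixS (H.map b) := by
  ext s
  rw [mem_fx, mem_fixS]
  constructor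
  · rintro h _ ⟨x, hx, rfl⟩
    exact h x hx
  · intro h x hx
    exact h _ ⟨x, hx, rfl⟩

/-- A nonzero module without nontrivial stable subgroups, on which `K` acts trivially. -/
def Simp (p : ℕ) {Λ S : Type} [Group Λ] [CommGroup S] (K : Subgroup Λ) (b : Λ →* MulAut S) : Prop :=
  Nontrivial S ∧ (∀ s : S, s ^ p = 1) ∧ (∀ x ∈ K, b x = 1) ∧
    ∀ T : Subgroup S, (∀ g, ∀ s ∈ T, b g s ∈ T) → T = ⊥ ∨ T = ⊤

section lift
variable {Λ : Type} [Group Λ] {V S : Type} [CommGroup V] [Finite V] [CommGroup S]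

/-- Fixed vectors can be lifted. -/
theorem lift_fix {p : ℕ} (hp : p.Prime) (ρ : Λ →* MulAut V) (b : Λ →* MulAut S) (H : Subgroup Λ)
    (hH : ¬ p ∣ Nat.card (H.map ρ)) {T : Subgroup V} (hT : ∀ h ∈ H, ∀ v ∈ T, ρ h v ∈ T)
    (f : T →* S) (hf : ∀ h ∈ H, ∀ (v : T) (hv : ρ h v ∈ T), f ⟨ρ h v, hv⟩ = b h (f v))
    (hS : ∀ s : S, s ^ p = 1) {s : S} (hs : s ∈ fx b H) {v : V} (hv : v ∈ T)
    (hfv : f ⟨v, hv⟩ = s) : ∃ (u : V) (hu : u ∈ T), u ∈ fx ρ H ∧ f ⟨u, hu⟩ = s := by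
  classical
  set Δ := H.map ρ with hΔ
  have : Fintype Δ := Fintype.ofFinite Δ
  have hmem : ∀ δ ∈ Δ, ∀ v ∈ T, δ v ∈ T := by
    rintro _ ⟨h, hh, rfl⟩ v hv
    exact hT h hh v hv
  have h1 : nu Δ v = ∏ δ : Δ, (δ : MulAut V) v := nm_eq _ _ _
  have hnT : nu Δ v ∈ T := by
    rw [h1]
    exact prod_mem fun δ _ => hmem δ δ.2 v hv
  have hnF : nu Δ v ∈ fx ρ H := by
    rw [fx_eq]
    exact fun δ hδ => nu_fix Δ hδ v
  have hfn : f ⟨nu Δ v, hnT⟩ = s ^ Nat.card Δ := by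
    have h2 : (⟨nu Δ v, hnT⟩ : T) = ∏ δ : Δ, ⟨(δ : MulAut V) v, hmem δ δ.2 v hv⟩ := by
      apply Subtype.ext
      rw [Subgroup.val_finsetProd]
      exact h1
    rw [h2, map_prod]
    have h3 : ∀ δ : Δ, f ⟨(δ : MulAut V) v, hmem δ δ.2 v hv⟩ = s := by
      rintro ⟨_, h, hh, rfl⟩
      rw [hf h hh ⟨v, hv⟩, hfv]
      exact hs h hh
    rw [Finset.prod_congr rfl fun δ _ => h3 δ, Finset.prod_const, Finset.card_univ,
      Nat.card_eq_fintype_card]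
  have hcop : Nat.Coprime (Nat.card Δ) p := ((Nat.Prime.coprime_iff_not_dvd hp).2 hH).symm
  obtain ⟨m, -, hm⟩ := Nat.exists_mul_mod_eq_one_of_coprime hcop hp.one_lt
  refine ⟨nu Δ v ^ m, T.pow_mem hnT m, pow_mem hnF m, ?_⟩
  have h4 : (⟨nu Δ v ^ m, T.pow_mem hnT m⟩ : T) = ⟨nu Δ v, hnT⟩ ^ m := rfl
  rw [h4, map_pow, hfn, ← pow_mul, ← Nat.div_add_mod (Nat.card Δ * m) p, hm, pow_add, pow_mul, hS,
    one_pow, one_mul, pow_one]

/-- The number of fixed vectors is multiplicative. -/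
theorem card_fx_mul {p : ℕ} (hp : p.Prime) (ρ : Λ →* MulAut V) (b : Λ →* MulAut S) (H : Subgroup Λ)
    (hH : ¬ p ∣ Nat.card (H.map ρ)) {T T' : Subgroup V} (hT : ∀ h ∈ H, ∀ v ∈ T, ρ h v ∈ T)
    (hT' : T' ≤ T) (f : T →* S)
    (hf : ∀ h ∈ H, ∀ (v : T) (hv : ρ h v ∈ T), f ⟨ρ h v, hv⟩ = b h (f v))
    (hS : ∀ s : S, s ^ p = 1) (hsurj : Function.Surjective f)
    (hker : ∀ v : T, f v = 1 ↔ (v : V) ∈ T') :
    Nat.card (T ⊓ fx ρ H : Subgroup V) = Nat.card (T' ⊓ fx ρ H : Subgroup V) * Nat.card (fx b H) := by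
  classical
  have hle : T ⊓ fx ρ H ≤ T := inf_le_left
  have hmem : ∀ v : (T ⊓ fx ρ H : Subgroup V), f (inclusion hle v) ∈ fx b H := by
    intro v h hh
    have h1 : ρ h (v : V) = v := v.2.2 h hh
    have h2 := hf h hh (inclusion hle v) (by
      show ρ h (v : V) ∈ T
      rw [h1]
      exact v.2.1)
    rw [← h2]
    congr 1
    exact Subtype.ext h1
  let g : (T ⊓ fx ρ H : Subgroup V) →* fx b H := (f.comp (inclusion hle)).codRestrict (fx b H) hmem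
  have hg : Function.Surjective g := by
    rintro ⟨s, hs⟩
    obtain ⟨⟨v, hv⟩, hfv⟩ := hsurj s
    obtain ⟨u, hu, hu1, hu2⟩ := lift_fix hp ρ b H hH hT f hf hS hs hv hfv
    exact ⟨⟨u, hu, hu1⟩, Subtype.ext hu2⟩
  have h1 := g.ker.card_mul_index
  rw [index_ker, MonoidHom.range_eq_top.2 hg, card_top] at h1
  rw [← h1]
  congr 1
  have h2 : g.ker.map (T ⊓ fx ρ H).subtype = T' ⊓ fx ρ H := by
    ext v
    constructor
    · rintro ⟨w, hw, rfl⟩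
      refine ⟨?_, w.2.2⟩
      have h3 : f (inclusion hle w) = 1 := congrArg Subtype.val hw
      exact (hker _).1 h3
    · rintro ⟨hv1, hv2⟩
      refine ⟨⟨v, hT' hv1, hv2⟩, ?_, rfl⟩
      exact Subtype.ext ((hker ⟨v, hT' hv1⟩).2 hv1)
  rw [← h2]
  exact (Nat.card_congr (g.ker.equivMapOfInjective _ (T ⊓ fx ρ H).subtype_injective).toEquiv)

end lift

end Pool.Agent.J6H14.DMu
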