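import Pool.Agent.J6H14.DMu.Tot

/-!
# The relative criterion: equivalence
-/

set_option autoImplicit false

namespace Pool.Agent.J6H14.DMu

open IntermediateField Module Pool.Agent.Q60.MU Pool.Agent.W5h77.MB Pool.Agent.W5h33.DF NumberField
open scoped Pointwise commutatorElement

section
variable {p : ℕ} [hp : Fact p.Prime] {s : Bool} {E F : IntermediateField ℚ Qb}

omit hp in
theorem rkLe_mono {L : IntermediateField ℚ Qb} {C C' : ℕ} (h : RkLe p s L C) (hle : C ≤ C') :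
    RkLe p s L C' := fun M h1 h2 h3 h4 h5 h6 h7 =>
  (h M h1 h2 h3 h4 h5 h6 h7).trans (Nat.mul_le_mul_right _ hle)

/-- The vanishing passes to subfields. -/
theorem mu_sub [FiniteDimensional ℚ F] (hEF : E ≤ F) (h : MuVanishes p s F) :
    MuVanishes p s E := by
  obtain ⟨C, hC⟩ := h
  have hfE : FiniteDimensional ℚ E := fd_of_le hEF
  refine ⟨C * F.fixingSubgroup.index, fun m R hR => ?_⟩
  have hfR := layer_fd hp.out hR.1
  have h0 := hC m R hR
  rw [← rkLe_iff] at h0 ⊢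
  have h1 : (F ⊔ R).fixingSubgroup = F.fixingSubgroup ⊓ (E ⊔ R).fixingSubgroup := by
    rw [← fixingSubgroup_sup, ← sup_assoc, sup_eq_left.2 hEF]
  have h2 : (F ⊔ R).fixingSubgroup.relIndex (E ⊔ R).fixingSubgroup ≤ F.fixingSubgroup.index := by
    rw [h1, Subgroup.inf_relIndex_right]
    have h3 := Subgroup.relIndex_le_of_le_right (le_top : (E ⊔ R).fixingSubgroup ≤ ⊤)
      (H := F.fixingSubgroup) (by
      rw [Subgroup.relIndex_top_right]
      exact index_ne_zero' F)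
    rwa [Subgroup.relIndex_top_right] at h3
  refine (RankLe.of_le (fixingSubgroup_le (sup_le_sup_right hEF R))
    (F ⊔ R).fixingSubgroup_isOpen ?_ h0).mono (Nat.mul_le_mul_left _ h2)
  intro h
  have h3 := Subgroup.relIndex_eq_zero_of_le_right (le_top : (E ⊔ R).fixingSubgroup ≤ ⊤) h
  rw [Subgroup.relIndex_top_right] at h3
  exact index_ne_zero' (F ⊔ R) h3

/-- **The relative criterion.** -/
theorem mu_rel [FiniteDimensional ℚ F] (hEF : E ≤ F) (hpF : ¬ p ∣ rdeg E F) {δ : ℕ}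
    (hδ : Adm p s E F δ) : MuVanishes p s F ↔ MuVanishes p s E ∧
      ∃ (m : ℕ) (R : IntermediateField ℚ Qb), Layer p m R ∧ Small p s E F δ R := by
  have hfE : FiniteDimensional ℚ E := fd_of_le hEF
  constructor
  · intro h
    refine ⟨mu_sub hEF h, ?_⟩
    obtain ⟨C, hC⟩ := h
    obtain ⟨R, hR⟩ := exists_layer hp.out (finrank ℚ F * (C + δ))
    have hfR := layer_fd hp.out hR.1
    refine ⟨_, R, hR, ?_⟩
    have h1 : C + δ ≤ rdeg F (F ⊔ R) := by
      show C + δ ≤ finrank ℚ ↥(F ⊔ R) / finrank ℚ F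
      rw [Nat.le_div_iff_mul_le finrank_pos]
      have h2 : finrank ℚ R ≤ finrank ℚ ↥(F ⊔ R) :=
        IntermediateField.finrank_le_of_le_right le_sup_right
      have h0 : finrank ℚ R = p ^ (finrank ℚ F * (C + δ)) := hR.1.1
      rw [h0] at h2
      have h3 : finrank ℚ F * (C + δ) < p ^ (finrank ℚ F * (C + δ)) :=
        Nat.lt_pow_self hp.out.one_lt
      calc (C + δ) * finrank ℚ F = finrank ℚ F * (C + δ) := mul_comm _ _
        _ ≤ _ := h3.le.trans h2
    have h2 : dCl p s (F ⊔ R) ≤ C := dCl_le (hC _ R hR)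
    have h3 : C < p ^ (rdeg F (F ⊔ R) - δ) :=
      (Nat.lt_pow_self hp.out.one_lt).trans_le (Nat.pow_le_pow_right hp.out.pos (by omega))
    have h4 := one_le_dCl (p := p) s (E ⊔ R)
    show dCl p s (F ⊔ R) < p ^ (rdeg F (F ⊔ R) - δ) * dCl p s (E ⊔ R)
    calc dCl p s (F ⊔ R) ≤ C := h2
      _ < p ^ (rdeg F (F ⊔ R) - δ) := h3
      _ ≤ _ := Nat.le_mul_of_pos_right _ h4
  · rintro ⟨⟨C, hC⟩, m, R, hR, hsm⟩
    have hfR := layer_fd hp.out hR.1
    refine mu_above hR ⟨dCl p s (F ⊔ R) * C, fun m' R' hR' hRR => ?_⟩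
    have hfR' := layer_fd hp.out hR'.1
    refine rkLe_mono (dCl_spec s (F ⊔ R')) ?_
    have h1 := rel_fields hEF hpF hδ hR hR' hRR hsm
    have h2 := one_le_dCl (p := p) s (E ⊔ R)
    calc dCl p s (F ⊔ R') ≤ dCl p s (F ⊔ R') * dCl p s (E ⊔ R) := Nat.le_mul_of_pos_right _ h2
      _ ≤ dCl p s (F ⊔ R) * dCl p s (E ⊔ R') := h1
      _ ≤ _ := Nat.mul_le_mul_left _ (dCl_le (hC _ R' hR'))

end

end Pool.Agent.J6H14.DMu
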