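import Pool.Agent.J6H14.DMu.Min
import Pool.Agent.J6H14.DMu.Rel7

/-!
# The modular criterion for arbitrary Galois extensions
-/

set_option autoImplicit false

namespace Pool.Agent.J6H14.DMu

open IntermediateField Module Pool.Agent.Q60.MU Pool.Agent.W5h77.MB Pool.Agent.W5h33.DF NumberField
open scoped Pointwise commutatorElement ComplexConjugate

/-- `F` is the fixed field of a Sylow subgroup of `Gal(K/k)`. -/
def SylowField (p : ℕ) (k K F : Fl) : Prop :=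
  k ≤ F ∧ F ≤ K ∧ ¬ p ∣ rdeg k F ∧ ∃ a : ℕ, rdeg F K = p ^ a

section
variable {p : ℕ} [hp : Fact p.Prime] {s : Bool} {k : IntermediateField ℚ Qb}

/-- Fields of `p`-power codegree contain fixed vectors. -/
theorem nfix_ne_one {F K : IntermediateField ℚ Qb} [FiniteDimensional ℚ K] (hkF : k ≤ F)
    (hFK : F ≤ K) (hKn : ∀ σ ∈ k.fixingSubgroup, ∀ x ∈ K, σ x ∈ K) {a : ℕ}
    (hpow : rdeg F K = p ^ a) {S : Type} [AddCommGroup S] [Module (ZMod p) S]
    [Module.Finite (ZMod p) S] (τ : Rp p k S) (hτ : SimpleMod K τ) : nfix τ F ≠ 1 := by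
  intro hcon
  have hnt : Nontrivial S := hτ.1.1
  have hK : (sb k K).Normal := sb_normal hKn
  let P : Subgroup (k.fixingSubgroup ⧸ sb k K) := (sb k F).map (QuotientGroup.mk' (sb k K))
  have hP : Nat.card P = p ^ a := by
    have h2 : ((QuotientGroup.mk' (sb k K)).ker).relIndex (sb k F) = Nat.card P :=
      Subgroup.relIndex_ker _ _
    rw [← h2, QuotientGroup.ker_mk', rel_sb hkF hFK, hpow]
  let τ' : (k.fixingSubgroup ⧸ sb k K) →* Module.End (ZMod p) S :=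
    QuotientGroup.lift (sb k K) τ (fun g hg => by
      apply LinearMap.ext
      intro x
      exact hτ.2 x g (mem_sb.1 hg))
  let ρ : Representation (ZMod p) P S := τ'.comp P.subtype
  obtain ⟨v, hv, hvfix⟩ := exists_fixed (IsPGroup.of_card hP) ρ
  have hvF : FixedBy τ F v := by
    intro g hg
    exact hvfix ⟨QuotientGroup.mk' (sb k K) g, Subgroup.mem_map_of_mem _ (mem_sb.2 hg)⟩
  have h4 := (Nat.card_eq_one_iff_unique.1 hcon).1
  have h5 := @Subsingleton.elim _ h4 (⟨v, hvF⟩ : {v : S // FixedBy τ F v})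
    ⟨0, fun g _ => map_zero _⟩
  exact hv (congrArg Subtype.val h5)

/-- There are admissible numbers. -/
theorem exists_adm (s : Bool) (E F : IntermediateField ℚ Qb) [FiniteDimensional ℚ F] :
    ∃ δ, Adm p s E F δ := by
  obtain ⟨R₁, hR₁⟩ := exists_layer hp.out (finrank ℚ F)
  refine ⟨_, Or.inr ⟨_, R₁, hR₁, totAbove_of_deg s hR₁ ?_, rfl⟩⟩
  rw [show finrank ℚ R₁ = p ^ finrank ℚ F from hR₁.1.1]
  exact (Nat.lt_pow_self hp.out.one_lt).le

/-- **The modular criterion.** -/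
theorem mod_crit {K : IntermediateField ℚ Qb} [FiniteDimensional ℚ K] (hK : GalInf p k K)
    (𝓔 : Set Fl) (hne : 𝓔.Nonempty) (h𝓔 : ∀ E ∈ 𝓔, k ≤ E ∧ E ≤ K) :
    MuVanishes p s K ↔ (∀ E ∈ 𝓔, MuVanishes p s E) ∧ ∀ (S : Type) [AddCommGroup S]
      [Module (ZMod p) S] [Module.Finite (ZMod p) S] (τ : Rp p k S), SimpleMod K τ →
      (∀ E ∈ 𝓔, nfix τ E = 1) →
      ∃ E ∈ 𝓔, ∃ (F R : Fl) (δ m : ℕ), E ≤ F ∧ F ≤ K ∧ ¬ p ∣ rdeg E F ∧ nfix τ F ≠ 1 ∧
        Adm p s E F δ ∧ Layer p m R ∧ Small p s E F δ R := by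
  obtain ⟨hkK, hKn, hinf⟩ := hK
  constructor
  · intro h
    refine ⟨fun E hE => mu_sub (h𝓔 E hE).2 h, fun S _ _ _ τ hτ _ => ?_⟩
    obtain ⟨E, hE⟩ := hne
    obtain ⟨hkE, hEK⟩ := h𝓔 E hE
    obtain ⟨F, hEF, hFK, hpF, ⟨a, ha⟩, -⟩ := exists_sylow (p := p) hEK
      (fun σ hσ x hx => hKn σ (fixingSubgroup_le hkE hσ) x hx)
    have hfF : FiniteDimensional ℚ F := fd_of_le hFK
    obtain ⟨δ, hδ⟩ := exists_adm (p := p) s E F
    obtain ⟨-, m, R, hR, hsm⟩ := (mu_rel hEF hpF hδ).1 (mu_sub hFK h)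
    exact ⟨E, hE, F, R, δ, m, hEF, hFK, hpF, nfix_ne_one (hkE.trans hEF) hFK hKn ha τ hτ, hδ, hR,
      hsm⟩
  · rintro ⟨hmu, h⟩
    refine mu_mod hkK hKn hinf fun S _ _ _ τ hτ => ?_
    by_cases hcase : ∀ E ∈ 𝓔, nfix τ E = 1
    · obtain ⟨E, hE, F, R, δ, m, hEF, hFK, hpF, hfix, hδ, hR, hsm⟩ := h S τ hτ hcase
      have hfF : FiniteDimensional ℚ F := fd_of_le hFK
      exact ⟨F, (h𝓔 E hE).1.trans hEF, hFK, hfix, (mu_rel hEF hpF hδ).2 ⟨hmu E hE, m, R, hR, hsm⟩⟩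
    · push Not at hcase
      obtain ⟨E, hE, hfix⟩ := hcase
      exact ⟨E, (h𝓔 E hE).1, (h𝓔 E hE).2, hfix, hmu E hE⟩

/-- **The criterion for the field of a Sylow subgroup.** -/
theorem sylow_crit {F K : IntermediateField ℚ Qb} [FiniteDimensional ℚ K] (hK : GalInf p k K)
    (hF : SylowField p k K F) {δ : ℕ} (hδ : Adm p s k F δ) :
    MuVanishes p s K ↔ MuVanishes p s k ∧ ∃ (m : ℕ) (R : Fl), Layer p m R ∧
      Small p s k F δ R := by
  obtain ⟨hkK, hKn, hinf⟩ := hK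
  obtain ⟨hkF, hFK, hpF, a, ha⟩ := hF
  have hfF : FiniteDimensional ℚ F := fd_of_le hFK
  rw [← mu_rel hkF hpF hδ]
  refine ⟨mu_sub hFK, fun h => ?_⟩
  exact mu_mod hkK hKn hinf fun S _ _ _ τ hτ =>
    ⟨F, hkF, hFK, nfix_ne_one hkF hFK hKn ha τ hτ, h⟩

theorem exists_sylowField {K : IntermediateField ℚ Qb} [FiniteDimensional ℚ K]
    (hK : GalInf p k K) : ∃ F, SylowField p k K F := by
  obtain ⟨F, h1, h2, h3, h4, -⟩ := exists_sylow (p := p) hK.1 hK.2.1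
  exact ⟨F, h1, h2, h3, h4⟩

theorem isLayer_Bs : ∃ m, IsLayer p m (Bs p) := by
  by_cases hp2 : p = 2
  · subst hp2
    refine ⟨1, ?_⟩
    have h0 : Bs 2 = adjoin ℚ {z : Qb | z ^ 2 ^ 2 = 1} := rfl
    rw [h0]
    refine ⟨?_, 2, le_rfl⟩
    have hpn : NeZero (2 ^ 2) := ⟨by norm_num⟩
    have hpQ : NeZero ((2 ^ 2 : ℕ) : Qb) := ⟨by norm_num⟩
    obtain ⟨ζ, hζ⟩ := HasEnoughRootsOfUnity.exists_primitiveRoot Qb (2 ^ 2)
    have hE : adjoin ℚ {z : Qb | z ^ 2 ^ 2 = 1} = ℚ⟮ζ⟯ := by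
      apply le_antisymm
      · rw [adjoin_le_iff]
        intro z hz
        obtain ⟨i, -, rfl⟩ := hζ.eq_pow_of_pow_eq_one hz
        exact pow_mem (mem_adjoin_simple_self ℚ ζ) i
      · rw [adjoin_le_iff]
        rintro _ rfl
        exact subset_adjoin ℚ _ hζ.pow_eq_one
    have hcyc : IsCyclotomicExtension {2 ^ 2} ℚ ℚ⟮ζ⟯ :=
      hζ.intermediateField_adjoin_isCyclotomicExtension ℚ
    have hfr : finrank ℚ ℚ⟮ζ⟯ = (2 ^ 2).totient :=
      IsCyclotomicExtension.finrank ℚ⟮ζ⟯ (Polynomial.cyclotomic.irreducible_rat (by norm_num))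
    rw [hE, hfr, Nat.totient_prime_pow Nat.prime_two (by norm_num)]
    norm_num
  · refine ⟨0, ?_⟩
    have h0 : Bs p = ⊥ := by
      unfold Bs
      rw [if_neg hp2]
    rw [h0]
    exact layer_bot

theorem rk_Bs {m : ℕ} {R : IntermediateField ℚ Qb} (hR : Layer p m R) : RkLe p s (Bs p ⊔ R) 1 := by
  obtain ⟨a, ha⟩ := isLayer_Bs (p := p)
  obtain ⟨b, hb⟩ := layer_sup ha hR.1
  exact rk_isLayer hb

instance fd_Bs : FiniteDimensional ℚ (Bs p) := by
  obtain ⟨a, ha⟩ := isLayer_Bs (p := p)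
  exact layer_fd hp.out ha

theorem dCl_Bs {m : ℕ} {R : IntermediateField ℚ Qb} (hR : Layer p m R) :
    dCl p s (Bs p ⊔ R) = 1 := by
  have hfR := layer_fd hp.out hR.1
  exact le_antisymm (dCl_le (rk_Bs hR)) (one_le_dCl s _)

theorem mu_Bs : MuVanishes p s (Bs p) := ⟨1, fun _ _ hR => rk_Bs hR⟩

omit hp in
theorem infOk_Bs (K : IntermediateField ℚ Qb) : InfOk p (Bs p) K := by
  by_cases hp2 : p = 2
  · right
    intro w σ hσ hw
    have hσ' : σ ∈ MulAction.stabilizer Gal(Qb/ℚ) w := place_iff.1 hw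
    rw [MulAction.mem_stabilizer_iff] at hσ'
    have h1 : InfinitePlace.mk (w.embedding.comp (σ.symm : Qb →+* Qb)) = InfinitePlace.mk w.embedding := by
      have h2 : σ • InfinitePlace.mk w.embedding = InfinitePlace.mk w.embedding := by
        rw [InfinitePlace.mk_embedding, hσ']
      exact h2
    rw [InfinitePlace.mk_eq_iff] at h1
    rcases h1 with h | h
    · have h2 : σ = 1 := by
        ext x
        show σ x = x
        have h3 : w.embedding (σ.symm (σ x)) = w.embedding (σ x) := RingHom.congr_fun h _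
        rw [σ.symm_apply_apply] at h3
        exact (w.embedding.injective h3).symm
      rw [h2]
      exact one_mem _
    · exfalso
      have hI : IsAlgClosed Qb := AlgebraicClosure.isAlgClosed ℚ
      obtain ⟨z, hz⟩ := IsAlgClosed.exists_pow_nat_eq (-1 : Qb) (n := 2) (by norm_num)
      have hzB : z ∈ Bs p := by
        unfold Bs
        rw [if_pos hp2]
        refine subset_adjoin ℚ _ ?_
        show z ^ 4 = 1
        have h2 : z ^ 4 = (z ^ 2) ^ 2 := by ring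
        rw [h2, hz]
        norm_num
      have h2 : σ z = z := (IntermediateField.mem_fixingSubgroup_iff _ _).1 hσ z hzB
      have h3 : σ.symm z = z := by
        conv_lhs => rw [← h2]
        exact σ.symm_apply_apply z
      have h4 : conj (w.embedding (σ.symm z)) = w.embedding z := RingHom.congr_fun h z
      rw [h3] at h4
      have h5 : (w.embedding z) ^ 2 = -1 := by rw [← map_pow, hz, map_neg, map_one]
      obtain ⟨r, hr⟩ := Complex.conj_eq_iff_real.1 h4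
      rw [hr] at h5
      have h6 : r ^ 2 = -1 := by exact_mod_cast h5
      nlinarith [sq_nonneg r]
  · exact Or.inl hp2

/-- The normal closure. -/
theorem exists_closure (K : IntermediateField ℚ Qb) [FiniteDimensional ℚ K] :
    ∃ N : IntermediateField ℚ Qb, FiniteDimensional ℚ N ∧ K ≤ N ∧ ∀ σ : Gal(Qb/ℚ), ∀ x ∈ N,
      σ x ∈ N := by
  have hUf : K.fixingSubgroup.FiniteIndex := ⟨index_ne_zero' K⟩
  set C := K.fixingSubgroup.normalCore with hC
  have hCn : C.Normal := Subgroup.normalCore_normal _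
  have hCo : IsOpen (C : Set Gal(Qb/ℚ)) :=
    isOpen_normalCore K.fixingSubgroup_isOpen (index_ne_zero' K)
  have hCf : C.index ≠ 0 := by
    have : C.FiniteIndex := K.fixingSubgroup.finiteIndex_normalCore
    exact Subgroup.FiniteIndex.index_ne_zero
  refine ⟨fixedField C, finite_fixed hCo hCf, (le_iff_le _ _).2 (Subgroup.normalCore_le _), ?_⟩
  intro σ x hx
  rw [mem_fixedField_iff] at hx ⊢
  intro w hw
  have h1 := hx _ (hCn.conj_mem w hw σ⁻¹)
  have h2 : w (σ x) = σ ((σ⁻¹ * w * σ⁻¹⁻¹) x) := by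
    show (w * σ) x = (σ * (σ⁻¹ * w * σ⁻¹⁻¹)) x
    congr 1
    group
  rw [h2, h1]

/-- The field generated by a vector. -/
theorem exists_vecField {N : IntermediateField ℚ Qb} [FiniteDimensional ℚ N] (hkN : k ≤ N)
    {S : Type} [AddCommGroup S] [Module (ZMod p) S] (τ : Rp p k S) (v : S) (hv : FixedBy τ N v) :
    ∃ F, k ≤ F ∧ F ≤ N ∧ FixedBy τ F v ∧ ∀ E : IntermediateField ℚ Qb, k ≤ E → FixedBy τ E v →
      F ≤ E := by
  let G₀ : Subgroup Gal(Qb/ℚ) := (stab τ v).map k.fixingSubgroup.subtype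
  have hle : ∀ E : IntermediateField ℚ Qb, k ≤ E → FixedBy τ E v → E.fixingSubgroup ≤ G₀ := by
    intro E hkE hE x hx
    exact ⟨⟨x, fixingSubgroup_le hkE hx⟩, hE _ hx, rfl⟩
  have hGo : IsOpen (G₀ : Set Gal(Qb/ℚ)) := Subgroup.isOpen_mono (hle N hkN hv) N.fixingSubgroup_isOpen
  have hfix : (fixedField G₀).fixingSubgroup = G₀ := fix_fixed hGo
  have hmin : ∀ E : IntermediateField ℚ Qb, k ≤ E → FixedBy τ E v → fixedField G₀ ≤ E := by
    intro E hkE hE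
    rw [← InfiniteGalois.fixedField_fixingSubgroup E]
    exact fixedField_antitone (hle E hkE hE)
  refine ⟨fixedField G₀, ?_, hmin N hkN hv, ?_, hmin⟩
  · rw [le_iff_le]
    rintro _ ⟨x, -, rfl⟩
    exact x.2
  · intro g hg
    have h1 : (g : Gal(Qb/ℚ)) ∈ G₀ := by
      rw [← hfix]
      exact hg
    obtain ⟨y, hy, hyg⟩ := h1
    rw [← Subtype.ext hyg]
    exact hy

/-- The inequality at some layer, relative to the base field. -/
def Ineq (p : ℕ) (s : Bool) (F : Fl) (δ : ℕ) : Prop :=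
  ∃ (m : ℕ) (R : Fl), Layer p m R ∧ dCl p s (F ⊔ R) < p ^ (rdeg F (F ⊔ R) - δ)

/-- `F` is a finite extension of the base field of degree prime to `p`. -/
def PrimeToP (p : ℕ) (F : Fl) : Prop := FiniteDimensional ℚ F ∧ Bs p ≤ F ∧ ¬ p ∣ rdeg (Bs p) F

/-- **The conjecture at finite level.** -/
theorem all_fields (p : ℕ) [hp : Fact p.Prime] (s : Bool) : List.TFAE [
    ∀ K : Fl, FiniteDimensional ℚ K → MuVanishes p s K,
    ∀ F : Fl, PrimeToP p F → MuVanishes p s F,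
    ∀ (F : Fl) (δ : ℕ), PrimeToP p F → Adm p s (Bs p) F δ → Ineq p s F δ,
    ∀ (S : Type) [AddCommGroup S] [Module (ZMod p) S] [Module.Finite (ZMod p) S]
      (τ : Rp p (Bs p) S), (∃ K : Fl, FiniteDimensional ℚ K ∧ SimpleMod K τ) →
      ∃ (F : Fl) (δ : ℕ), PrimeToP p F ∧ nfix τ F ≠ 1 ∧ Adm p s (Bs p) F δ ∧ Ineq p s F δ] := by
  have hsm : ∀ {F R : IntermediateField ℚ Qb} {δ m : ℕ}, Layer p m R →
      (Small p s (Bs p) F δ R ↔ dCl p s (F ⊔ R) < p ^ (rdeg F (F ⊔ R) - δ)) := by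
    intro F R δ m hR
    unfold Small
    rw [dCl_Bs hR, mul_one]
  tfae_have 1 → 2 := fun h F hF => h F hF.1
  tfae_have 2 → 3 := by
    intro h F δ hF hδ
    obtain ⟨hfF, hBF, hpF⟩ := hF
    obtain ⟨-, m, R, hR, h1⟩ := (mu_rel hBF hpF hδ).1 (h F ⟨hfF, hBF, hpF⟩)
    exact ⟨m, R, hR, (hsm hR).1 h1⟩
  tfae_have 3 → 4 := by
    rintro h S _ _ _ τ ⟨K, hK, hτ⟩
    obtain ⟨N, hN, hKN, hNn⟩ := exists_closure (K ⊔ Bs p)
    have hτN : SimpleMod N τ := ⟨hτ.1, fun v g hg =>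
      hτ.2 v g (fixingSubgroup_le (le_sup_left.trans hKN) hg)⟩
    obtain ⟨F, hBF, hFN, hpF, -, hfix⟩ := exists_sylow (p := p) (le_sup_right.trans hKN)
      (fun σ _ x hx => hNn σ x hx)
    have hfF : FiniteDimensional ℚ F := fd_of_le hFN
    obtain ⟨δ, hδ⟩ := exists_adm (p := p) s (Bs p) F
    exact ⟨F, δ, ⟨hfF, hBF, hpF⟩, hfix S τ hτN, hδ, h F δ ⟨hfF, hBF, hpF⟩ hδ⟩
  tfae_have 4 → 1 := by
    intro h K hK
    obtain ⟨N, hN, hKN, hNn⟩ := exists_closure (K ⊔ Bs p)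
    have hBN : Bs p ≤ N := le_sup_right.trans hKN
    refine mu_sub (le_sup_left.trans hKN) (mu_mod hBN (fun σ _ x hx => hNn σ x hx) (infOk_Bs N) ?_)
    intro S _ _ _ τ hτ
    obtain ⟨F, δ, ⟨hfF, hBF, hpF⟩, hfix, hδ, m, R, hR, h1⟩ := h S τ ⟨N, hN, hτ⟩
    have hmu : MuVanishes p s F := (mu_rel hBF hpF hδ).2 ⟨mu_Bs, m, R, hR, (hsm hR).2 h1⟩
    have hfin : Finite S := Module.finite_of_finite (ZMod p)
    have hex : ∃ v : S, v ≠ 0 ∧ FixedBy τ F v := by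
      by_contra hcon
      push Not at hcon
      apply hfix
      rw [nfix, Nat.card_eq_one_iff_unique]
      refine ⟨⟨fun v w => ?_⟩, ⟨⟨0, fun g _ => map_zero _⟩⟩⟩
      have h0 : ∀ v : {v : S // FixedBy τ F v}, v.1 = 0 := by
        intro v
        by_contra hv
        exact hcon v.1 hv v.2
      exact Subtype.ext ((h0 v).trans (h0 w).symm)
    obtain ⟨v, hv, hvF⟩ := hex
    obtain ⟨F', hBF', hFN', hvF', hmin⟩ := exists_vecField hBN τ v (hτ.2 v)
    refine ⟨F', hBF', hFN', ?_, mu_sub (hmin F hBF hvF) hmu⟩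
    intro hcon
    have h4 := (Nat.card_eq_one_iff_unique.1 hcon).1
    have h5 := @Subsingleton.elim _ h4 (⟨v, hvF'⟩ : {v : S // FixedBy τ F' v})
      ⟨0, fun g _ => map_zero _⟩
    exact hv (congrArg Subtype.val h5)
  tfae_finish

/-- The conjecture for `p` and one inequality for each simple representation. -/
theorem all_simple (p : ℕ) [hp : Fact p.Prime] (s : Bool) :
    (∀ K : Fl, FiniteDimensional ℚ K → MuVanishes p s K) ↔
    ∀ (S : Type) [AddCommGroup S] [Module (ZMod p) S] [Module.Finite (ZMod p) S]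
      (τ : Rp p (Bs p) S), (∃ K : Fl, FiniteDimensional ℚ K ∧ SimpleMod K τ) →
      ∃ (F R : Fl) (δ m : ℕ), FiniteDimensional ℚ F ∧ Bs p ≤ F ∧ ¬ p ∣ rdeg (Bs p) F ∧
        nfix τ F ≠ 1 ∧ Adm p s (Bs p) F δ ∧ Layer p m R ∧
        dCl p s (F ⊔ R) < p ^ (rdeg F (F ⊔ R) - δ) := by
  refine ((all_fields p s).out 0 3).trans ?_
  constructor
  · intro h S _ _ _ τ hτ
    obtain ⟨F, δ, ⟨h1, h2, h3⟩, h4, h5, m, R, h6, h7⟩ := h S τ hτ
    exact ⟨F, R, δ, m, h1, h2, h3, h4, h5, h6, h7⟩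
  · intro h S _ _ _ τ hτ
    obtain ⟨F, R, δ, m, h1, h2, h3, h4, h5, h6, h7⟩ := h S τ hτ
    exact ⟨F, δ, ⟨h1, h2, h3⟩, h4, h5, m, R, h6, h7⟩

end

end Pool.Agent.J6H14.DMu
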