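import Pool.Agent.J6H14.DMu.Mod

/-!
# Subquotients
-/

set_option autoImplicit false

namespace Pool.Agent.J6H14.DMu

open Subgroup Pool.Agent.W5h77.MB Pool.Agent.W5h33.DF

section
variable {𝔾 : Type} [Group 𝔾] {K D' : Subgroup 𝔾}

theorem rel_dvd (hKn : K.Normal) {H L : Subgroup 𝔾} (hH : H ≤ L) : K.relIndex H ∣ K.relIndex L := by
  have h4 : (K.subgroupOf L).Normal := hKn.subgroupOf L
  have h5 := relIndex_dvd_index_of_normal (K.subgroupOf L) (H.subgroupOf L)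
  rw [relIndex_subgroupOf hH] at h5
  exact h5

/-- Elements of `D'` in a class modulo `K`. -/
theorem exists_pow {p m' : ℕ} (hp : p.Prime) (hKn : K.Normal) (hD'n : D'.Normal)
    (hD'i : D'.index = p ^ m') {B : Subgroup 𝔾} (hKB : ¬ p ∣ K.relIndex B) {z : 𝔾} (hz : z ∈ B) :
    ∃ e : ℕ, z ^ e ∈ D' ∧ z⁻¹ * z ^ e ∈ K := by
  have hc : Nat.Coprime (K.relIndex B) (p ^ m') :=
    Nat.Coprime.pow_right m' (((Nat.Prime.coprime_iff_not_dvd hp).2 hKB).symm)
  obtain ⟨e, he1, he2⟩ := Nat.chineseRemainder hc 1 0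
  refine ⟨e, ?_, ?_⟩
  · obtain ⟨j, rfl⟩ := (Nat.modEq_zero_iff_dvd).1 he2
    rw [pow_mul, ← hD'i]
    exact D'.pow_mem (D'.pow_index_mem z) j
  · have h1 : (z : 𝔾 ⧸ K) ^ K.relIndex B = 1 := by
      rw [← QuotientGroup.mk_pow, QuotientGroup.eq_one_iff]
      have hn : (K.subgroupOf B).Normal := hKn.subgroupOf B
      exact (K.subgroupOf B).pow_index_mem (⟨z, hz⟩ : B)
    have h2 : (z : 𝔾 ⧸ K) ^ e = (z : 𝔾 ⧸ K) ^ 1 := by
      rw [pow_eq_pow_iff_modEq]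
      exact he1.of_dvd (orderOf_dvd_of_pow_eq_one h1)
    rw [← QuotientGroup.eq, QuotientGroup.mk_pow, h2, pow_one]

/-- A group of order prime to `p` does not see the layers. -/
theorem fx_sub {p m' : ℕ} (hp : p.Prime) (hKn : K.Normal) (hD'n : D'.Normal)
    (hD'i : D'.index = p ^ m') {B : Subgroup 𝔾} (hKB : ¬ p ∣ K.relIndex B) {S : Type} [CommGroup S]
    {b : 𝔾 →* MulAut S} (hbK : ∀ x ∈ K, b x = 1) {Z : Subgroup 𝔾} (hZB : Z ≤ B) :
    fx b (Z ⊓ D') = fx b Z := by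
  ext s
  constructor
  · intro h z hz
    obtain ⟨e, he1, he2⟩ := exists_pow hp hKn hD'n hD'i hKB (hZB hz)
    have h3 : b (z ^ e) = b z := by
      have h4 : z ^ e = z * (z⁻¹ * z ^ e) := by group
      rw [h4, map_mul, hbK _ he2, mul_one]
    rw [← h3]
    exact h _ ⟨Z.pow_mem hz e, he1⟩
  · exact fun h z hz => h z hz.1

theorem card_map_cop {p : ℕ} (hKn : K.Normal) {L : Subgroup 𝔾} (hKL : ¬ p ∣ K.relIndex L)
    {V : Type} [CommGroup V] (ρ : 𝔾 →* MulAut V) (htriv : ∀ x ∈ K ⊓ D', ρ x = 1) {H : Subgroup 𝔾}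
    (hHL : H ≤ L) (hHD : H ≤ D') : ¬ p ∣ Nat.card (H.map ρ) := by
  intro h
  apply hKL
  refine h.trans ?_
  have h3 : H.map ρ = (ρ.comp H.subtype).range := by
    ext δ
    constructor
    · rintro ⟨l, hl, rfl⟩
      exact ⟨⟨l, hl⟩, rfl⟩
    · rintro ⟨l, rfl⟩
      exact ⟨l, l.2, rfl⟩
  rw [h3, ← index_ker]
  have h4 : (ρ.comp H.subtype).ker.index ∣ K.relIndex H := by
    show _ ∣ (K.subgroupOf H).index
    apply index_dvd_of_le
    intro x hx
    exact htriv _ ⟨hx, hHD x.2⟩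
  exact h4.trans (rel_dvd hKn hHL)

/-- The quotient of two stable subgroups. -/
theorem exists_quo {V : Type} [CommGroup V] (ρ : 𝔾 →* MulAut V) {T T' : Subgroup V}
    (hT : ∀ g, ∀ v ∈ T, ρ g v ∈ T) (hT' : ∀ g, ∀ v ∈ T', ρ g v ∈ T') :
    ∃ (S : Type) (_ : CommGroup S) (β : 𝔾 →* MulAut S) (f : T →* S), Function.Surjective f ∧
      (∀ v, f v = 1 ↔ (v : V) ∈ T') ∧
      ∀ g (v : T) (hv : ρ g v ∈ T), f ⟨ρ g v, hv⟩ = β g (f v) := by
  classical
  let res : 𝔾 → (T →* T) := fun g =>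
    { toFun := fun v => ⟨ρ g v, hT g v v.2⟩
      map_one' := Subtype.ext (map_one _)
      map_mul' := fun u v => Subtype.ext (map_mul (ρ g) (u : V) v) }
  have hres : ∀ g, T'.subgroupOf T ≤ (T'.subgroupOf T).comap (res g) := fun g v hv => hT' g v hv
  let e : 𝔾 → (T ⧸ T'.subgroupOf T →* T ⧸ T'.subgroupOf T) := fun g =>
    QuotientGroup.map _ _ (res g) (hres g)
  have he1 : ∀ q, e 1 q = q := by
    intro q
    obtain ⟨v, rfl⟩ := QuotientGroup.mk_surjective q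
    show ((res 1 v : T) : T ⧸ T'.subgroupOf T) = v
    congr 1
    apply Subtype.ext
    show ρ 1 (v : V) = v
    rw [map_one, MulAut.one_apply]
  have he2 : ∀ g h q, e (g * h) q = e g (e h q) := by
    intro g h q
    obtain ⟨v, rfl⟩ := QuotientGroup.mk_surjective q
    show ((res (g * h) v : T) : T ⧸ T'.subgroupOf T) = ((res g (res h v) : T) : T ⧸ T'.subgroupOf T)
    congr 1
    apply Subtype.ext
    show ρ (g * h) (v : V) = ρ g (ρ h v)
    rw [map_mul, MulAut.mul_apply]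
  let β : 𝔾 →* MulAut (T ⧸ T'.subgroupOf T) :=
    { toFun := fun g =>
        { toFun := e g
          invFun := e g⁻¹
          left_inv := fun q => by rw [← he2, inv_mul_cancel, he1]
          right_inv := fun q => by rw [← he2, mul_inv_cancel, he1]
          map_mul' := map_mul (e g) }
      map_one' := by
        ext q
        exact he1 q
      map_mul' := by
        intro g h
        ext q
        exact he2 g h q }
  refine ⟨T ⧸ T'.subgroupOf T, inferInstance, β, QuotientGroup.mk' _, QuotientGroup.mk'_surjective _,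
    ?_, fun g v _ => rfl⟩
  intro v
  rw [QuotientGroup.mk'_apply, QuotientGroup.eq_one_iff, mem_subgroupOf]

/-- A normal subgroup which acts through a `p`-group acts trivially on a simple module. -/
theorem triv_of_simple {p m' : ℕ} (hp : p.Prime) (hKn : K.Normal) (hD'n : D'.Normal)
    (hD'i : D'.index = p ^ m') {S : Type} [CommGroup S] [Finite S] [Nontrivial S]
    (hSp : ∀ s : S, s ^ p = 1) (b : 𝔾 →* MulAut S) (htriv : ∀ x ∈ K ⊓ D', b x = 1)
    (hS : ∀ T : Subgroup S, (∀ g, ∀ s ∈ T, b g s ∈ T) → T = ⊥ ∨ T = ⊤) : ∀ x ∈ K, b x = 1 := by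
  classical
  have hpf : Fact p.Prime := ⟨hp⟩
  have hP : IsPGroup p (K.map b) := by
    rintro ⟨_, x, hx, rfl⟩
    refine ⟨m', ?_⟩
    apply Subtype.ext
    show (b x) ^ p ^ m' = 1
    rw [← map_pow]
    refine htriv _ ⟨K.pow_mem hx _, ?_⟩
    rw [← hD'i]
    exact D'.pow_index_mem x
  have hSP : IsPGroup p S := fun s => ⟨1, by rw [pow_one]; exact hSp s⟩
  have hcard : p ∣ Nat.card S := by
    obtain ⟨n, hn⟩ := IsPGroup.iff_card.1 hSP
    rw [hn]
    refine dvd_pow_self p ?_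
    rintro rfl
    rw [pow_zero] at hn
    have h1 := Finite.one_lt_card (α := S)
    omega
  let act : MulAction (K.map b) S :=
    { smul := fun g s => (g : MulAut S) s
      one_smul := fun s => rfl
      mul_smul := fun g h s => rfl }
  have h0 : (1 : S) ∈ MulAction.fixedPoints (K.map b) S := fun g => map_one (g : MulAut S)
  obtain ⟨s, hs, hs0⟩ := hP.exists_fixed_point_of_prime_dvd_card_of_fixed_point S hcard h0
  have hsf : s ∈ fx b K := fun x hx => hs ⟨b x, x, hx, rfl⟩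
  have htop : fx b K = ⊤ := by
    rcases hS (fx b K) (by
      intro g s hs x hx
      have h1 : x * g = g * (g⁻¹ * x * g⁻¹⁻¹) := by group
      rw [← MulAut.mul_apply, ← map_mul, h1, map_mul, MulAut.mul_apply,
        hs _ (hKn.conj_mem x hx g⁻¹)]) with h | h
    · exfalso
      rw [h, mem_bot] at hsf
      exact hs0 hsf.symm
    · exact h
  intro x hx
  ext s
  have h1 : s ∈ fx b K := by
    rw [htop]
    exact mem_top s
  exact h1 x hx

/-- If there is no stable subgroup in between, then the quotient is simple. -/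
theorem exists_simple {p m' : ℕ} (hp : p.Prime) (hKn : K.Normal) (hD'n : D'.Normal)
    (hD'i : D'.index = p ^ m') {V : Type}
    [CommGroup V] [Finite V] (hV : ∀ v : V, v ^ p = 1)
    (ρ : 𝔾 →* MulAut V) (htriv : ∀ x ∈ K ⊓ D', ρ x = 1) {T T' : Subgroup V}
    (hT : ∀ g, ∀ v ∈ T, ρ g v ∈ T) (hT' : ∀ g, ∀ v ∈ T', ρ g v ∈ T') (hlt : T' < T)
    (hmax : ∀ M : Subgroup V, (∀ g, ∀ v ∈ M, ρ g v ∈ M) → T' ≤ M → M ≤ T → M = T' ∨ M = T) :
    ∃ (S : Type) (_ : CommGroup S) (b : 𝔾 →* MulAut S) (f : T →* S), Finite S ∧ Simp p K b ∧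
      Function.Surjective f ∧ (∀ v, f v = 1 ↔ (v : V) ∈ T') ∧
      ∀ g (v : T) (hv : ρ g v ∈ T), f ⟨ρ g v, hv⟩ = b g (f v) := by
  obtain ⟨S, iS, b, f, h1, h2, h4⟩ := exists_quo ρ hT hT'
  have hSfin : Finite S := Finite.of_surjective f h1
  have hnt : Nontrivial S := by
    obtain ⟨v, hv, hv'⟩ := SetLike.exists_of_lt hlt
    refine ⟨f ⟨v, hv⟩, 1, fun h => hv' ?_⟩
    exact (h2 ⟨v, hv⟩).1 h
  have hSp : ∀ s : S, s ^ p = 1 := by
    intro s
    obtain ⟨v, rfl⟩ := h1 s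
    rw [← map_pow]
    have h5 : v ^ p = 1 := Subtype.ext (hV v)
    rw [h5, map_one]
  have hsimp : ∀ R : Subgroup S, (∀ g, ∀ s ∈ R, b g s ∈ R) → R = ⊥ ∨ R = ⊤ := by
    intro R hR
    have h5 := hmax ((R.comap f).map T.subtype) (by
      rintro g _ ⟨v, hv, rfl⟩
      refine ⟨⟨ρ g v, hT g v v.2⟩, ?_, rfl⟩
      show f _ ∈ R
      rw [h4 g v]
      exact hR g _ hv) (by
      intro v hv
      refine ⟨⟨v, hlt.le hv⟩, ?_, rfl⟩
      show f _ ∈ R
      rw [(h2 ⟨v, hlt.le hv⟩).2 hv]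
      exact R.one_mem) (by
      rintro _ ⟨v, -, rfl⟩
      exact v.2)
    rcases h5 with h5 | h5
    · left
      rw [eq_bot_iff]
      intro s hs
      obtain ⟨v, rfl⟩ := h1 s
      rw [mem_bot, h2, ← h5]
      exact ⟨v, hs, rfl⟩
    · right
      rw [eq_top_iff]
      intro s _
      obtain ⟨v, rfl⟩ := h1 s
      have h6 : (v : V) ∈ (R.comap f).map T.subtype := by
        rw [h5]
        exact v.2
      obtain ⟨w, hw, hwv⟩ := h6
      have h7 : w = v := Subtype.ext hwv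
      rw [← h7]
      exact hw
  refine ⟨S, iS, b, f, hSfin, ⟨hnt, hSp, ?_, hsimp⟩, h1, h2, h4⟩
  refine triv_of_simple hp hKn hD'n hD'i hSp b ?_ hsimp
  intro x hx
  ext s
  obtain ⟨v, rfl⟩ := h1 s
  have h5 : ρ x (v : V) = v := by rw [htriv x hx, MulAut.one_apply]
  rw [← h4 x v (by rw [h5]; exact v.2), MulAut.one_apply]
  congr 1
  exact Subtype.ext h5

/-- A simple factor which sees a given element outside of a stable subgroup. -/
theorem exists_factor {V : Type} [CommGroup V] [Finite V] (ρ : 𝔾 →* MulAut V) {T : Subgroup V}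
    (hT : ∀ g, ∀ v ∈ T, ρ g v ∈ T) {x : V} (hx : x ∉ T) :
    ∃ T₁ T₂ : Subgroup V, (∀ g, ∀ v ∈ T₁, ρ g v ∈ T₁) ∧ (∀ g, ∀ v ∈ T₂, ρ g v ∈ T₂) ∧ T ≤ T₂ ∧
      T₂ < T₁ ∧ x ∈ T₁ ∧ x ∉ T₂ ∧
      ∀ M : Subgroup V, (∀ g, ∀ v ∈ M, ρ g v ∈ M) → T₂ ≤ M → M ≤ T₁ → M = T₂ ∨ M = T₁ := by
  classical
  let 𝒮 : Set (Subgroup V) := {M | (∀ g, ∀ v ∈ M, ρ g v ∈ M) ∧ x ∉ M}
  have hfin : 𝒮.Finite := Set.toFinite _
  obtain ⟨T₂, hT2, hM⟩ := hfin.exists_le_maximal (show T ∈ 𝒮 from ⟨hT, hx⟩)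
  obtain ⟨⟨h1, h2⟩, h3⟩ := hM
  let 𝒯 : Set (Subgroup V) := {M | (∀ g, ∀ v ∈ M, ρ g v ∈ M) ∧ T₂ < M}
  have hfin2 : 𝒯.Finite := Set.toFinite _
  obtain ⟨T₁, -, hM'⟩ := hfin2.exists_le_minimal (show (⊤ : Subgroup V) ∈ 𝒯 from
    ⟨fun _ _ _ => mem_top _, lt_top_iff_ne_top.2 fun h => h2 (h ▸ mem_top x)⟩)
  obtain ⟨⟨h4, h5⟩, h6⟩ := hM'
  have hxT : ∀ M : Subgroup V, (∀ g, ∀ v ∈ M, ρ g v ∈ M) → T₂ < M → x ∈ M := by
    intro M hM hlt
    by_contra hcon
    exact absurd (h3 (show M ∈ 𝒮 from ⟨hM, hcon⟩) hlt.le) (not_le_of_gt hlt)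
  refine ⟨T₁, T₂, h4, h1, hT2, h5, hxT T₁ h4 h5, h2, ?_⟩
  intro M hM hle1 hle2
  by_cases heq : M = T₂
  · exact Or.inl heq
  · right
    exact le_antisymm hle2 (h6 (show M ∈ 𝒯 from ⟨hM, lt_of_le_of_ne hle1 (Ne.symm heq)⟩) hle2)

end

end Pool.Agent.J6H14.DMu
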