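import Pool.Agent.J6H14.DMu.Tr

/-!
# The relative module of an extension of degree prime to `p`
-/

set_option autoImplicit false

namespace Pool.Agent.J6H14.DMu

open Subgroup Pool.Agent.Q60.MU Pool.Agent.W5h77.MB Pool.Agent.W5h33.DF
open scoped commutatorElement

variable {𝔾 : Type} [Group 𝔾]

/-- The smallest subgroup which is admissible for the rank of `L`. -/
def IsMin [TopologicalSpace 𝔾] (p : ℕ) {Ω : Type} (I : Ω → Subgroup 𝔾) (L Q : Subgroup 𝔾) : Prop :=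
  Q ≤ L ∧ IsOpen (Q : Set 𝔾) ∧ Q.relIndex L ≠ 0 ∧ gens p I L ⊆ Q ∧
    ∀ W ≤ L, IsOpen (W : Set 𝔾) → W.relIndex L ≠ 0 → gens p I L ⊆ W → Q ≤ W

theorem exists_min [TopologicalSpace 𝔾] {p : ℕ} {Ω : Type} {I : Ω → Subgroup 𝔾} {L : Subgroup 𝔾}
    (hLo : IsOpen (L : Set 𝔾)) {C : ℕ} (hC : RankLe p I L C) : ∃ Q, IsMin p I L Q := by
  classical
  let S : Set ℕ := {n | ∃ W : Subgroup 𝔾, W ≤ L ∧ IsOpen (W : Set 𝔾) ∧ W.relIndex L ≠ 0 ∧
    gens p I L ⊆ W ∧ W.relIndex L = n}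
  have hS : S.Finite := (Set.finite_Iic C).subset (by
    rintro n ⟨W, h1, h2, h3, h4, rfl⟩
    exact hC W h1 h2 h3 h4)
  have hne : S.Nonempty := ⟨_, L, le_rfl, hLo, by rw [relIndex_self]; exact one_ne_zero, gens_subset,
    rfl⟩
  obtain ⟨n, ⟨Q, h1, h2, h3, h4, h5⟩, hmax⟩ := Set.exists_max_image S id hS hne
  refine ⟨Q, h1, h2, h3, h4, fun W hW1 hW2 hW3 hW4 => ?_⟩
  have h6 : (W ⊓ Q).relIndex L ≠ 0 := relIndex_inf_ne_zero hW3 h3
  have h7 := hmax _ ⟨W ⊓ Q, inf_le_right.trans h1, by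
    rw [coe_inf]
    exact hW2.inter h2, h6, fun x hx => ⟨hW4 hx, h4 hx⟩, rfl⟩
  have h8 : (W ⊓ Q).relIndex Q * Q.relIndex L = (W ⊓ Q).relIndex L :=
    relIndex_mul_relIndex _ _ _ inf_le_right h1
  have h9 : (W ⊓ Q).relIndex Q = 1 := by
    have h10 : (W ⊓ Q).relIndex L ≤ Q.relIndex L := by
      rw [h5]
      exact h7
    rw [← h8] at h10 h6
    have h11 : 0 < Q.relIndex L := Nat.pos_of_ne_zero h3
    have h12 : (W ⊓ Q).relIndex Q ≤ 1 := by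
      by_contra hcon
      have h13 : 2 * Q.relIndex L ≤ (W ⊓ Q).relIndex Q * Q.relIndex L :=
        Nat.mul_le_mul_right _ (by omega)
      omega
    have h14 : (W ⊓ Q).relIndex Q ≠ 0 := fun h => h6 (by rw [h, zero_mul])
    omega
  have h10 : Q ≤ W ⊓ Q := relIndex_eq_one.1 h9
  exact h10.trans inf_le_left

theorem IsMin.relIndex_le [TopologicalSpace 𝔾] {p : ℕ} {Ω : Type} {I : Ω → Subgroup 𝔾}
    {L Q : Subgroup 𝔾} (hQ : IsMin p I L Q) : RankLe p I L (Q.relIndex L) := by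
  intro W h1 h2 h3 h4
  exact relIndex_le_of_le_left (hQ.2.2.2.2 W h1 h2 h3 h4) hQ.2.2.1

theorem IsMin.conj [TopologicalSpace 𝔾] [ContinuousMul 𝔾] {p : ℕ} {Ω : Type} [MulAction 𝔾 Ω]
    {I : Ω → Subgroup 𝔾} (hI : ∀ (g : 𝔾) (w : Ω), ∀ x ∈ I w, g * x * g⁻¹ ∈ I (g • w))
    {L Q : Subgroup 𝔾} (hQ : IsMin p I L Q) {g : 𝔾} (hg : ∀ x ∈ L, g * x * g⁻¹ ∈ L)
    (hg' : ∀ x ∈ L, g⁻¹ * x * g ∈ L) : ∀ x ∈ Q, g * x * g⁻¹ ∈ Q := by
  obtain ⟨h1, h2, h3, h4, h5⟩ := hQ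
  have hc : ∀ x, (MulAut.conj g).toMonoidHom x = g * x * g⁻¹ := fun x => rfl
  have h6 := h5 (Q.comap (MulAut.conj g).toMonoidHom) (by
    intro x hx
    have h7 := hg' _ (h1 hx)
    rw [hc] at h7
    have h8 : g⁻¹ * (g * x * g⁻¹) * g = x := by group
    rwa [h8] at h7) (h2.preimage ((continuous_const.mul continuous_id).mul continuous_const)) (by
    rw [relIndex_comap]
    have h7 : L.map (MulAut.conj g).toMonoidHom = L := by
      apply le_antisymm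
      · rintro _ ⟨x, hx, rfl⟩
        exact hg x hx
      · intro x hx
        refine ⟨g⁻¹ * x * g, hg' x hx, ?_⟩
        rw [hc]
        group
    rw [h7]
    exact h3) (by
    intro y hy
    exact h4 (gens_conj hI hg hy))
  exact fun x hx => h6 hx

section
variable [TopologicalSpace 𝔾] [ContinuousMul 𝔾] {p : ℕ} {Ω : Type}
  {I : Ω → Subgroup 𝔾}
  {H D' QF QE : Subgroup 𝔾}

theorem sec_exists {p m' : ℕ} (hp : p.Prime) (hD'n : D'.Normal) (hD'i : D'.index = p ^ m')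
    (hpH : ¬ p ∣ H.index) : ∃ s : 𝔾 ⧸ H → 𝔾, Sec D' s := by
  classical
  have hH0 : H.index ≠ 0 := by
    intro h
    rw [h] at hpH
    exact hpH (dvd_zero p)
  -- `H D' = 𝔾`
  have hsup : H ⊔ D' = ⊤ := by
    rw [← index_eq_one]
    have h1 : (H ⊔ D').index ∣ H.index := index_dvd_of_le le_sup_left
    have h2 : (H ⊔ D').index ∣ p ^ m' := hD'i ▸ index_dvd_of_le le_sup_right
    have h3 : Nat.Coprime H.index (p ^ m') :=
      Nat.Coprime.pow_right m' (((Nat.Prime.coprime_iff_not_dvd hp).2 hpH).symm)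
    exact Nat.dvd_one.1 (h3 ▸ Nat.dvd_gcd h1 h2)
  have h1 : ∀ q : 𝔾 ⧸ H, ∃ x : 𝔾, (x : 𝔾 ⧸ H) = q ∧ x ∈ D' := by
    intro q
    obtain ⟨g, rfl⟩ := QuotientGroup.mk_surjective q
    have hg : g ∈ D' ⊔ H := by
      rw [sup_comm, hsup]
      exact mem_top g
    rw [← SetLike.mem_coe, Subgroup.normal_mul] at hg
    obtain ⟨d, hd, h, hh, rfl⟩ := hg
    refine ⟨d, ?_, hd⟩
    rw [QuotientGroup.eq, inv_mul_cancel_left]
    exact hh
  choose s hs using h1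
  exact ⟨s, hs⟩

variable [MulAction 𝔾 Ω]

/-- The transfer is trivial on the smallest admissible subgroup. -/
theorem kill_tr (hI : ∀ (g : 𝔾) (w : Ω), ∀ x ∈ I w, g * x * g⁻¹ ∈ I (g • w)) (hH0 : H.index ≠ 0)
    (hD'o : IsOpen (D' : Set 𝔾)) (hD'n : D'.Normal)
    (hD'0 : D'.index ≠ 0) (hF : IsMin p I (H ⊓ D') QF) (hE : IsMin p I D' QE) [Fintype (𝔾 ⧸ H)]
    {s : 𝔾 ⧸ H → 𝔾} (hs : Sec D' s) {B : Type} [CommGroup B] {β : 𝔾 → B}
    (hβ : HomOn (H ⊓ D') β) (hk : ∀ x ∈ QF, β x = 1) : ∀ x ∈ QE, tr s β x = 1 := by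
  classical
  have htr := tr_homOn hs hβ
  have hQ0 : QF.index ≠ 0 := by
    rw [← relIndex_mul_index hF.1]
    exact mul_ne_zero hF.2.2.1 (index_inf_ne_zero hH0 hD'0)
  let f : 𝔾 ⧸ H → (𝔾 →* 𝔾) := fun q => (MulAut.conj (s q)⁻¹).toMonoidHom
  let Q₁ : Subgroup 𝔾 := D' ⊓ ⨅ q, QF.comap (f q)
  have hmem : ∀ x, x ∈ (⨅ q, QF.comap (f q) : Subgroup 𝔾) → ∀ q, (s q)⁻¹ * x * s q ∈ QF := by
    intro x hx q
    have h1 : (s q)⁻¹ * x * ((s q)⁻¹)⁻¹ ∈ QF := (mem_iInf.1 hx) q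
    rwa [inv_inv] at h1
  have hQ1 : Q₁ ≤ htr.pre ⊥ := by
    rintro x ⟨hx1, hx2⟩
    refine ⟨hx1, ?_⟩
    rw [mem_bot]
    exact tr_one (fun q => (hs q).1) (hF.1.trans inf_le_left) hk (hmem x hx2)
  have hQ1o : IsOpen (Q₁ : Set 𝔾) := by
    rw [coe_inf, coe_iInf]
    refine hD'o.inter (isOpen_iInter_of_finite fun q => ?_)
    exact hF.2.1.preimage ((continuous_const.mul continuous_id).mul continuous_const)
  have hQ1i : Q₁.index ≠ 0 := by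
    refine index_inf_ne_zero hD'0 (index_iInf_ne_zero fun q => ?_)
    rw [index_comap_of_surjective]
    · exact hQ0
    · exact (MulAut.conj (s q)⁻¹).surjective
  have h1 := hE.2.2.2.2 (htr.pre ⊥) (fun x hx => hx.1) (Subgroup.isOpen_mono hQ1 hQ1o) (by
    intro h
    have h2 : (htr.pre ⊥).index ≠ 0 := by
      intro h3
      have h4 := index_dvd_of_le hQ1
      rw [h3] at h4
      exact hQ1i (Nat.eq_zero_of_zero_dvd h4)
    apply h2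
    rw [← relIndex_mul_index (fun x hx => hx.1 : htr.pre ⊥ ≤ D'), h, zero_mul]) (by
    intro x hx
    refine ⟨gens_subset hx, ?_⟩
    rcases hx with (⟨a, ha, rfl⟩ | ⟨a, ha, b, hb, rfl⟩) | ⟨hx, w, hw⟩
    · rw [htr.pow ha, mem_bot]
      unfold tr
      rw [← Finset.prod_pow]
      refine Finset.prod_eq_one fun q _ => ?_
      rw [← hβ.pow (zf_mem hs ha q)]
      exact hk _ (hF.2.2.2.1 (Or.inl (Or.inl ⟨_, zf_mem hs ha q, rfl⟩)))
    · rw [htr.comm ha hb]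
      exact one_mem _
    · refine tr_local hs hβ (𝒥 := I w ⊓ D') inf_le_right ⊥ ?_ ⟨hw, hx⟩
      rintro b hb y ⟨hy1, hy2⟩ hH
      rw [mem_bot]
      apply hk
      apply hF.2.2.2.1
      have h2 := hI b⁻¹ w y hy1
      rw [inv_inv] at h2
      have h3 := hD'n.conj_mem y hy2 b⁻¹
      rw [inv_inv] at h3
      exact Or.inr ⟨⟨hH, h3⟩, _, h2⟩)
  intro x hx
  have h2 := (h1 hx).2
  rwa [mem_bot] at h2

end

/-- The module of the field `F`, with the action of a generator `γ`. -/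
theorem exists_V [TopologicalSpace 𝔾] [ContinuousMul 𝔾] {p : ℕ} [hp : Fact p.Prime] {Ω : Type}
    [MulAction 𝔾 Ω]
    {I : Ω → Subgroup 𝔾} (hI : ∀ (g : 𝔾) (w : Ω), ∀ x ∈ I w, g * x * g⁻¹ ∈ I (g • w))
    {H D' QF : Subgroup 𝔾} (hD'n : D'.Normal) (hF : IsMin p I (H ⊓ D') QF) {γ : 𝔾} (hγH : γ ∈ H) :
    ∃ (V : Type) (_ : CommGroup V) (ψ : 𝔾 → V) (φ G : V →* V), Finite V ∧ (∀ v : V, v ^ p = 1) ∧
      HomOn (H ⊓ D') ψ ∧ (∀ x ∈ H ⊓ D', ψ x = 1 ↔ x ∈ QF) ∧ (∀ v, ∃ x ∈ H ⊓ D', ψ x = v) ∧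
      Nat.card V = QF.relIndex (H ⊓ D') ∧ (∀ v, φ v = G v * v⁻¹) ∧
      (∀ x ∈ H ⊓ D', G (ψ x) = ψ (γ * x * γ⁻¹)) ∧
      ∀ b, ∀ x ∈ H ⊓ D', φ^[p ^ b] (ψ x) = ψ (γ ^ p ^ b * x * (γ ^ p ^ b)⁻¹) * (ψ x)⁻¹ := by
  classical
  obtain ⟨hF1, hF2, hF3, hF4, hF5⟩ := id hF
  obtain ⟨V, iV, ψ, hψ, hψ1, hψs, hcard⟩ := exists_ab (L := H ⊓ D') (T := QF)
    (fun x hx y hy => hF4 (Or.inl (Or.inr ⟨x, hx, y, hy, rfl⟩)))
  have hfin : Finite V := by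
    apply Nat.finite_of_card_ne_zero
    rw [hcard]
    exact hF3
  have hV : ∀ v : V, v ^ p = 1 := by
    intro v
    obtain ⟨x, hx, rfl⟩ := hψs v
    rw [← hψ.pow hx]
    exact (hψ1 _ (pow_mem hx p)).2 (hF4 (Or.inl (Or.inl ⟨x, hx, rfl⟩)))
  have hcj : ∀ g ∈ H, ∀ x ∈ H ⊓ D', g * x * g⁻¹ ∈ H ⊓ D' := fun g hg x hx =>
    ⟨H.mul_mem (H.mul_mem hg hx.1) (H.inv_mem hg), hD'n.conj_mem x hx.2 g⟩
  have hcj' : ∀ g ∈ H, ∀ x ∈ H ⊓ D', g⁻¹ * x * g ∈ H ⊓ D' := by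
    intro g hg x hx
    have h1 := hcj g⁻¹ (H.inv_mem hg) x hx
    rwa [inv_inv] at h1
  have hQ : ∀ g ∈ H, ∀ x ∈ QF, g * x * g⁻¹ ∈ QF := fun g hg =>
    hF.conj hI (hcj g hg) (hcj' g hg)
  have hex : ∀ g ∈ H, ∃ G : V →* V, ∀ x ∈ H ⊓ D', G (ψ x) = ψ (g * x * g⁻¹) := by
    intro g hg
    refine hψ.exists_fac hψs (χ := fun x => ψ (g * x * g⁻¹)) ?_ ?_
    · intro u hu v hv
      show ψ (g * (u * v) * g⁻¹) = _
      rw [← hψ _ (hcj g hg u hu) _ (hcj g hg v hv)]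
      congr 1
      group
    · intro x hx h1
      exact (hψ1 _ (hcj g hg x hx)).2 (hQ g hg x ((hψ1 x hx).1 h1))
  obtain ⟨G, hG⟩ := hex γ hγH
  obtain ⟨G', hG'⟩ := hex γ⁻¹ (H.inv_mem hγH)
  have e1 : ∀ v, G (G' v) = v := by
    intro v
    obtain ⟨x, hx, rfl⟩ := hψs v
    rw [hG' x hx, hG _ (hcj _ (H.inv_mem hγH) x hx)]
    congr 1
    group
  have e2 : ∀ v, G' (G v) = v := by
    intro v
    obtain ⟨x, hx, rfl⟩ := hψs v
    rw [hG x hx, hG' _ (hcj _ hγH x hx)]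
    congr 1
    group
  let g : MulAut V := { toFun := G, invFun := G', left_inv := e2, right_inv := e1,
                        map_mul' := map_mul G }
  have hg : ∀ v, g v = G v := fun _ => rfl
  have hgk : ∀ k : ℕ, ∀ x ∈ H ⊓ D', (g ^ k) (ψ x) = ψ (γ ^ k * x * (γ ^ k)⁻¹) := by
    intro k
    induction k with
    | zero =>
      intro x _
      rw [pow_zero, pow_zero, MulAut.one_apply, inv_one, mul_one, one_mul]
    | succ k ih =>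
      intro x hx
      rw [pow_succ', MulAut.mul_apply, ih x hx, hg, hG _ (hcj _ (H.pow_mem hγH k) x hx)]
      congr 1
      rw [pow_succ']
      group
  let φ : V →* V :=
    { toFun := fun v => G v * v⁻¹
      map_one' := by rw [map_one, inv_one, mul_one]
      map_mul' := fun u v => by rw [map_mul, mul_inv, mul_mul_mul_comm] }
  refine ⟨V, iV, ψ, φ, G, hfin, hV, hψ, hψ1, hψs, hcard, fun _ => rfl, hG, ?_⟩
  intro b x hx
  rw [frob hV g φ (fun _ => rfl) b (ψ x), hgk _ x hx]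

/-- The relative part is a direct factor. -/
theorem Y_split [TopologicalSpace 𝔾] [ContinuousMul 𝔾] {p : ℕ} [hp : Fact p.Prime] {Ω : Type}
    [MulAction 𝔾 Ω]
    {I : Ω → Subgroup 𝔾} (hI : ∀ (g : 𝔾) (w : Ω), ∀ x ∈ I w, g * x * g⁻¹ ∈ I (g • w))
    {H D' QF QE : Subgroup 𝔾} (hpH : ¬ p ∣ H.index) (hD'n : D'.Normal)
    (hD'o : IsOpen (D' : Set 𝔾)) {m' : ℕ} (hD'i : D'.index = p ^ m')
    (hF : IsMin p I (H ⊓ D') QF) (hE : IsMin p I D' QE)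
    {γ : 𝔾} (hγH : γ ∈ H) {V : Type} [CommGroup V] {ψ : 𝔾 → V} {φ G : V →* V}
    (hV : ∀ v : V, v ^ p = 1) (hψ : HomOn (H ⊓ D') ψ) (hψ1 : ∀ x ∈ H ⊓ D', ψ x = 1 ↔ x ∈ QF)
    (hψs : ∀ v, ∃ x ∈ H ⊓ D', ψ x = v) (hφ : ∀ v, φ v = G v * v⁻¹)
    (hG : ∀ x ∈ H ⊓ D', G (ψ x) = ψ (γ * x * γ⁻¹)) {Y : Subgroup V}
    (hY : ∀ x ∈ H ⊓ D', ψ x ∈ Y ↔ x ∈ QE) :
    ∀ (j : ℕ) (v : V), φ^[j] v ∈ Y → ∃ y ∈ Y, φ^[j] v = φ^[j] y := by
  classical
  have hH0 : H.index ≠ 0 := by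
    intro h
    rw [h] at hpH
    exact hpH (dvd_zero p)
  have hD'0 : D'.index ≠ 0 := by
    rw [hD'i]
    exact (pow_pos hp.out.pos m').ne'
  have hfi : H.FiniteIndex := ⟨hH0⟩
  have : Fintype (𝔾 ⧸ H) := Fintype.ofFinite _
  obtain ⟨s, hs⟩ := sec_exists hp.out hD'n hD'i hpH
  have hcj : ∀ x ∈ H ⊓ D', γ * x * γ⁻¹ ∈ H ⊓ D' := fun x hx =>
    ⟨H.mul_mem (H.mul_mem hγH hx.1) (H.inv_mem hγH), hD'n.conj_mem x hx.2 γ⟩
  have hQFE : QF ≤ QE := by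
    have h1 := hF.2.2.2.2 (H ⊓ QE) (inf_le_inf_left H hE.1)
    have h2 : IsOpen ((H ⊓ D' : Subgroup 𝔾) : Set 𝔾) := Subgroup.isOpen_mono hF.1 hF.2.1
    have h3 : H ⊓ QE = (H ⊓ D') ⊓ QE := by
      rw [inf_assoc, inf_eq_right.2 hE.1]
    refine (h1 ?_ ?_ ?_).trans inf_le_right
    · rw [h3, coe_inf]
      exact h2.inter hE.2.1
    · rw [h3, inf_relIndex_left]
      exact fun h => hE.2.2.1 (relIndex_eq_zero_of_le_right inf_le_right h)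
    · intro x hx
      exact ⟨(gens_subset hx).1, hE.2.2.2.1 (gens_mono inf_le_right hx)⟩
  have hkill := kill_tr hI hH0 hD'o hD'n hD'0 hF hE hs hψ
    (fun x hx => (hψ1 x (hF.1 hx)).2 hx)
  have htr := tr_homOn hs hψ
  -- the projection
  obtain ⟨π, hπ⟩ := hψ.exists_fac hψs (χ := fun x => ψ x ^ H.index * (tr s ψ x)⁻¹) (by
    intro u hu v hv
    show ψ (u * v) ^ H.index * (tr s ψ (u * v))⁻¹ = _
    rw [hψ u hu v hv, htr u hu.2 v hv.2, mul_pow, mul_inv, mul_mul_mul_comm]) (by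
    intro x hx h1
    show ψ x ^ H.index * (tr s ψ x)⁻¹ = 1
    rw [h1, one_pow, one_mul, hkill x (hQFE ((hψ1 x hx).1 h1)), inv_one])
  have hGtr : ∀ x ∈ D', tr s ψ (γ * x * γ⁻¹) = G (tr s ψ x) := by
    intro x hx
    rw [tr_conj hD'n hs hψ hγH hx]
    unfold tr
    rw [map_prod]
    exact Finset.prod_congr rfl fun q _ => (hG _ (zf_mem hs hx q)).symm
  have hπG : ∀ v, π (G v) = G (π v) := by
    intro v
    obtain ⟨x, hx, rfl⟩ := hψs v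
    rw [hG x hx, hπ _ (hcj x hx), hπ x hx, hGtr x hx.2, map_mul, map_inv, map_pow, hG x hx]
  have hπφ : ∀ v, π (φ v) = φ (π v) := by
    intro v
    rw [hφ, hφ, map_mul, map_inv, hπG]
  have hπj : ∀ (j : ℕ) v, π (φ^[j] v) = φ^[j] (π v) := by
    intro j
    induction j with
    | zero => intro v; rfl
    | succ j ih =>
      intro v
      rw [Function.iterate_succ_apply, Function.iterate_succ_apply, ih, hπφ]
  -- the image of the projection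
  obtain ⟨VE, iVE, ψE, hψE, hψE1, hψEs, -⟩ := exists_ab (L := D') (T := QE)
    (fun x hx y hy => hE.2.2.2.1 (Or.inl (Or.inr ⟨x, hx, y, hy, rfl⟩)))
  obtain ⟨r, hr⟩ := hψ.exists_fac hψs (hψE.mono inf_le_right) (by
    intro x hx h1
    exact (hψE1 x hx.2).2 (hQFE ((hψ1 x hx).1 h1)))
  have hπY : ∀ v, π v ∈ Y := by
    intro v
    obtain ⟨x, hx, rfl⟩ := hψs v
    obtain ⟨z, hz, hzv⟩ := hψs (π (ψ x))
    rw [← hzv, hY z hz, ← hψE1 z hz.2, ← hr z hz, hzv, hπ x hx, map_mul, map_inv, map_pow, hr x hx]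
    have h1 : r (tr s ψ x) = tr s ψE x := by
      unfold tr
      rw [map_prod]
      exact Finset.prod_congr rfl fun q _ => hr _ (zf_mem hs hx.2 q)
    rw [h1, tr_res hs hψE hx.2, mul_inv_cancel]
  have hπ2 : ∀ v ∈ Y, π v = v ^ H.index := by
    intro v hv
    obtain ⟨x, hx, rfl⟩ := hψs v
    rw [hπ x hx, hkill x ((hY x hx).1 hv), inv_one, mul_one]
  intro j v hv
  -- raise to a power
  have hcop : Nat.Coprime H.index p := ((Nat.Prime.coprime_iff_not_dvd hp.out).2 hpH).symm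
  obtain ⟨m, -, hm⟩ := Nat.exists_mul_mod_eq_one_of_coprime hcop hp.out.one_lt
  refine ⟨π v ^ m, pow_mem (hπY v) m, ?_⟩
  rw [iterate_map_pow, ← hπj, hπ2 _ hv, ← pow_mul, ← Nat.div_add_mod (H.index * m) p, hm, pow_add,
    pow_mul, hV, one_pow, one_mul, pow_one]

end Pool.Agent.J6H14.DMu
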