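import Pool.Agent.J6H14.DMu.Rel1

/-!
# Counting in the relative module
-/

set_option autoImplicit false

namespace Pool.Agent.J6H14.DMu

open Subgroup Pool.Agent.Q60.MU Pool.Agent.W5h77.MB Pool.Agent.W5h33.DF
open scoped commutatorElement

variable {𝔾 : Type} [Group 𝔾]

/-- The lower layer is commutative modulo `T`. -/
theorem level_comm {H D D' : Subgroup 𝔾} (hDn : D.Normal) (hD'n : D'.Normal) (hDD : D' ≤ D)
    {γ : 𝔾} (hγH : γ ∈ H)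
    (hγ : ∀ τ ∈ H, ∃ i : ℤ, τ * (γ ^ i)⁻¹ ∈ D') {V : Type} [CommGroup V] {ψ : 𝔾 → V}
    (hψ : HomOn (H ⊓ D') ψ) {T : Subgroup V}
    (hη : ∀ x ∈ H ⊓ D', ψ (γ ^ D.relIndex H * x * (γ ^ D.relIndex H)⁻¹) * (ψ x)⁻¹ ∈ T) :
    ∀ x ∈ H ⊓ D, ∀ y ∈ H ⊓ D, ⁅x, y⁆ ∈ hψ.pre T := by
  have hcj : ∀ g ∈ H, ∀ x ∈ H ⊓ D', g * x * g⁻¹ ∈ H ⊓ D' := fun g hg x hx =>
    ⟨H.mul_mem (H.mul_mem hg hx.1) (H.inv_mem hg), hD'n.conj_mem x hx.2 g⟩
  let Cz : Subgroup 𝔾 :=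
    { carrier := {x | x ∈ H ∧ ∀ u ∈ H ⊓ D', ψ (x * u * x⁻¹) * (ψ u)⁻¹ ∈ T}
      mul_mem' := by
        rintro x y ⟨hx1, hx2⟩ ⟨hy1, hy2⟩
        refine ⟨H.mul_mem hx1 hy1, fun u hu => ?_⟩
        have h1 := T.mul_mem (hx2 _ (hcj y hy1 u hu)) (hy2 u hu)
        have h2 : x * y * u * (x * y)⁻¹ = x * (y * u * y⁻¹) * x⁻¹ := by group
        rw [h2]
        rwa [mul_assoc, inv_mul_cancel_left] at h1
      one_mem' := by
        refine ⟨H.one_mem, fun u _ => ?_⟩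
        rw [one_mul, inv_one, mul_one, mul_inv_cancel]
        exact T.one_mem
      inv_mem' := by
        rintro x ⟨hx1, hx2⟩
        refine ⟨H.inv_mem hx1, fun u hu => ?_⟩
        have h1 := T.inv_mem (hx2 _ (hcj x⁻¹ (H.inv_mem hx1) u hu))
        have h2 : x * (x⁻¹ * u * x⁻¹⁻¹) * x⁻¹ = u := by group
        rw [h2, mul_inv_rev, inv_inv] at h1
        exact h1 }
  have hL'C : H ⊓ D' ≤ Cz := by
    intro x hx
    refine ⟨hx.1, fun u hu => ?_⟩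
    rw [hψ _ (mul_mem hx hu) _ (inv_mem hx), hψ x hx u hu, hψ.inv hx, mul_right_comm,
      mul_inv_cancel_right, mul_inv_cancel]
    exact T.one_mem
  have hηC : γ ^ D.relIndex H ∈ Cz := ⟨H.pow_mem hγH _, hη⟩
  have hηH : γ ^ D.relIndex H ∈ H := H.pow_mem hγH _
  have hdec : ∀ x ∈ H ⊓ D, ∃ j : ℤ, x * ((γ ^ D.relIndex H) ^ j)⁻¹ ∈ H ⊓ D' := by
    rintro x ⟨hx1, hx2⟩
    obtain ⟨j, hj⟩ := mod_gamma hDD hγH hγ hx1 hx2
    exact ⟨j, H.mul_mem hx1 (H.inv_mem (H.zpow_mem hηH j)), hj⟩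
  have hLC : H ⊓ D ≤ Cz := by
    intro x hx
    obtain ⟨j, hj⟩ := hdec x hx
    have h1 := Cz.mul_mem (hL'C hj) (Cz.zpow_mem hηC j)
    rwa [inv_mul_cancel_right] at h1
  have hcu : ∀ x ∈ Cz, ∀ u ∈ H ⊓ D', ⁅x, u⁆ ∈ H ⊓ D' ∧ ψ ⁅x, u⁆ ∈ T := by
    rintro x ⟨hx1, hx2⟩ u hu
    have h1 := hcj x hx1 u hu
    refine ⟨?_, ?_⟩
    · rw [commutatorElement_def]
      exact mul_mem h1 (inv_mem hu)
    · rw [commutatorElement_def, hψ _ h1 _ (inv_mem hu), hψ.inv hu]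
      exact hx2 u hu
  intro x hx y hy
  obtain ⟨i, hi⟩ := hdec x hx
  obtain ⟨j, hj⟩ := hdec y hy
  set η := γ ^ D.relIndex H with hηdef
  set a := x * (η ^ i)⁻¹ with ha
  set b := y * (η ^ j)⁻¹ with hb
  obtain ⟨c1, c2⟩ := hcu (η ^ i) (Cz.zpow_mem hηC i) b hj
  obtain ⟨d1, d2⟩ := hcu (η ^ j) (Cz.zpow_mem hηC j) a⁻¹ (inv_mem hi)
  have h1 : ⁅x, y⁆ = a * ⁅η ^ i, b⁆ * (b * ⁅η ^ j, a⁻¹⁆) * (a⁻¹ * b⁻¹) := by
    have hx' : x = a * η ^ i := by rw [ha, inv_mul_cancel_right]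
    have hy' : y = b * η ^ j := by rw [hb, inv_mul_cancel_right]
    have hc : η ^ i * η ^ j = η ^ j * η ^ i := by rw [← zpow_add, ← zpow_add, add_comm]
    rw [hx', hy', commutatorElement_def, commutatorElement_def, commutatorElement_def]
    have hc' : η ^ j * (η ^ i)⁻¹ = (η ^ i)⁻¹ * η ^ j := by
      rw [mul_inv_eq_iff_eq_mul, mul_assoc, ← hc, inv_mul_cancel_left]
    calc a * η ^ i * (b * η ^ j) * (a * η ^ i)⁻¹ * (b * η ^ j)⁻¹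
        = a * (η ^ i * b * (η ^ j * (η ^ i)⁻¹)) * (a⁻¹ * (η ^ j)⁻¹ * b⁻¹) := by group
      _ = a * (η ^ i * b * ((η ^ i)⁻¹ * η ^ j)) * (a⁻¹ * (η ^ j)⁻¹ * b⁻¹) := by rw [hc']
      _ = _ := by group
  rw [h1]
  refine ⟨mul_mem (mul_mem (mul_mem hi c1) (mul_mem hj d1)) (mul_mem (inv_mem hi) (inv_mem hj)), ?_⟩
  rw [hψ _ (mul_mem (mul_mem hi c1) (mul_mem hj d1)) _ (mul_mem (inv_mem hi) (inv_mem hj)),
    hψ _ (mul_mem hi c1) _ (mul_mem hj d1), hψ _ hi _ c1, hψ _ hj _ d1, hψ _ (inv_mem hi) _ (inv_mem hj),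
    hψ.inv hi, hψ.inv hj]
  have h2 : ψ a * ψ ⁅η ^ i, b⁆ * (ψ b * ψ ⁅η ^ j, a⁻¹⁆) * ((ψ a)⁻¹ * (ψ b)⁻¹) =
      ψ ⁅η ^ i, b⁆ * ψ ⁅η ^ j, a⁻¹⁆ := by
    rw [mul_mul_mul_comm (ψ a), ← mul_inv, mul_right_comm, mul_inv_cancel, one_mul]
  rw [h2]
  exact T.mul_mem c2 d2

/-- A chain of images. -/
theorem chain_bound {p : ℕ} (hp : p.Prime) {V : Type} [CommGroup V] [Finite V]
    (hV : ∀ v : V, v ^ p = 1) (φ : V →* V) (hnil : ∃ N, ∀ v, φ^[N] v = 1) {Y : Subgroup V}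
    (hYφ : ∀ y ∈ Y, φ y ∈ Y)
    (hsp : ∀ (j : ℕ) (v : V), φ^[j] v ∈ Y → ∃ y ∈ Y, φ^[j] v = φ^[j] y)
    {e : ℕ} (hne : (iter φ e).range ⊓ Y ≠ ⊥) : p ^ e * Nat.card ↥((iter φ e).range ⊓ Y) ≤ Nat.card Y := by
  classical
  have hpf : Fact p.Prime := ⟨hp⟩
  have hpow : ∀ S : Subgroup V, ∃ a, Nat.card S = p ^ a := by
    intro S
    have h1 : IsPGroup p S := by
      intro x
      exact ⟨1, Subtype.ext (by
        rw [pow_one]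
        exact hV x)⟩
    exact IsPGroup.iff_card.1 h1
  let R : ℕ → Subgroup V := fun j => Y.map (iter φ j)
  have hYj : ∀ j, ∀ y ∈ Y, φ^[j] y ∈ Y := by
    intro j
    induction j with
    | zero => exact fun y hy => hy
    | succ j ih =>
      intro y hy
      rw [Function.iterate_succ_apply]
      exact ih _ (hYφ y hy)
  have hR : ∀ j, (iter φ j).range ⊓ Y = R j := by
    intro j
    ext x
    constructor
    · rintro ⟨⟨v, rfl⟩, hY⟩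
      obtain ⟨y, hy, hyv⟩ := hsp j v hY
      exact ⟨y, hy, hyv.symm⟩
    · rintro ⟨y, hy, rfl⟩
      exact ⟨⟨y, rfl⟩, hYj j y hy⟩
  have hsucc : ∀ j, R (j + 1) = (R j).map φ := by
    intro j
    show Y.map (iter φ (j + 1)) = (Y.map (iter φ j)).map φ
    rw [Subgroup.map_map]
    congr 1
    ext v
    exact Function.iterate_succ_apply' φ j v
  have hanti : ∀ j, R (j + 1) ≤ R j := by
    rintro j _ ⟨y, hy, rfl⟩
    exact ⟨φ y, hYφ y hy, (Function.iterate_succ_apply φ j y).symm⟩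
  have hanti' : ∀ j i, R (j + i) ≤ R j := by
    intro j i
    induction i with
    | zero => exact le_rfl
    | succ i ih => exact (hanti (j + i)).trans ih
  have hstep : ∀ j, R (j + 1) = R j → R j = ⊥ := by
    intro j hj
    have h1 : ∀ i, ∀ x ∈ R j, ∃ y ∈ R j, x = φ^[i] y := by
      intro i
      induction i with
      | zero => exact fun x hx => ⟨x, hx, rfl⟩
      | succ i ih =>
        intro x hx
        obtain ⟨y, hy, rfl⟩ := ih x hx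
        rw [← hj, hsucc] at hy
        obtain ⟨z, hz, rfl⟩ := hy
        exact ⟨z, hz, (Function.iterate_succ_apply φ i z).symm⟩
    obtain ⟨N, hN⟩ := hnil
    rw [eq_bot_iff]
    intro x hx
    obtain ⟨y, -, rfl⟩ := h1 N x hx
    rw [hN]
    exact one_mem _
  rw [hR] at hne ⊢
  have hmain : ∀ j, R j ≠ ⊥ → p ^ j * Nat.card (R j) ≤ Nat.card Y := by
    intro j
    induction j with
    | zero =>
      intro _
      rw [pow_zero, one_mul]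
      have h1 : R 0 = Y := by
        ext x
        constructor
        · rintro ⟨y, hy, rfl⟩
          exact hy
        · exact fun hx => ⟨x, hx, rfl⟩
      rw [h1]
    | succ j ih =>
      intro h
      have h1 : R j ≠ ⊥ := fun h0 => h (by
        rw [eq_bot_iff, ← h0]
        exact hanti j)
      have h2 : R (j + 1) < R j := lt_of_le_of_ne (hanti j) fun h3 => h1 (hstep j h3)
      obtain ⟨a, ha⟩ := hpow (R (j + 1))
      obtain ⟨b, hb⟩ := hpow (R j)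
      have h3 : Nat.card (R (j + 1)) < Nat.card (R j) := by
        refine lt_of_le_of_ne (card_le_of_le h2.le) fun h4 => ?_
        exact h2.ne (Subgroup.eq_of_le_of_card_ge h2.le h4.ge)
      have h4 : p * Nat.card (R (j + 1)) ≤ Nat.card (R j) := by
        rw [ha, hb] at h3 ⊢
        have h5 : a < b := (Nat.pow_lt_pow_iff_right hp.one_lt).1 h3
        rw [← pow_succ']
        exact Nat.pow_le_pow_right hp.pos h5
      calc p ^ (j + 1) * Nat.card (R (j + 1)) = p ^ j * (p * Nat.card (R (j + 1))) := by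
            rw [pow_succ, mul_assoc]
        _ ≤ p ^ j * Nat.card (R j) := Nat.mul_le_mul_left _ h4
        _ ≤ _ := ih h1
  exact hmain e hne

/-- The lower bound for the rank of the lower layer. -/
theorem rel_count [TopologicalSpace 𝔾] [ContinuousMul 𝔾] {p : ℕ} [hp : Fact p.Prime] {Ω : Type} {I : Ω → Subgroup 𝔾}
    {H D QE W₀ T' : Subgroup 𝔾} (hpH : ¬ p ∣ H.index) {s : 𝔾 ⧸ H → 𝔾} (hs : Sec D s)
    {A : Type} [CommGroup A] {α Ψ : 𝔾 → A} (hα : HomOn (H ⊓ D) α)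
    (hαT : ∀ x ∈ H ⊓ D, α x = 1 ↔ x ∈ T') (hΨ : HomOn (H ⊓ D) Ψ)
    (h1 : ∀ x ∈ H ⊓ D, Ψ x ^ p = 1) (h2 : ∀ w, ∀ x ∈ H ⊓ D, x ∈ I w → Ψ x = 1) {k : ℕ}
    (hk : ¬ p ∣ k) (h3 : ∀ x ∈ H ⊓ QE, Ψ x = α x ^ k) (h3' : ∀ x ∈ H ⊓ QE, α x ^ p = 1)
    (h4 : ∃ Q₀ ≤ H ⊓ D, IsOpen (Q₀ : Set 𝔾) ∧ Q₀.index ≠ 0 ∧ ∀ x ∈ Q₀, Ψ x = 1) {C : ℕ}
    (hC : RankLe p I (H ⊓ D) C) (hW₀D : W₀ ≤ D) (hW₀o : IsOpen (W₀ : Set 𝔾))
    (hW₀f : W₀.relIndex D ≠ 0) (hW₀g : gens p I D ⊆ W₀) (hQW : QE ≤ W₀) :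
    W₀.relIndex D * T'.relIndex (H ⊓ QE) ≤ C := by
  classical
  have hH0 : H.index ≠ 0 := by
    intro h
    rw [h] at hpH
    exact hpH (dvd_zero p)
  have hfi : H.FiniteIndex := ⟨hH0⟩
  have : Fintype (𝔾 ⧸ H) := Fintype.ofFinite _
  obtain ⟨Q₀, hQ1, hQ2, hQ3, hQ4⟩ := h4
  -- `D = (H ∩ D) W₀`
  have hdec : ∀ d ∈ D, ∃ w ∈ H ⊓ D, ∃ m ∈ W₀, d = w * m := by
    intro d hd
    obtain ⟨B, iB, θ, hθ, hθ1, hθs, -⟩ := exists_ab (L := D) (T := W₀)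
      (fun x hx y hy => hW₀g (Or.inl (Or.inr ⟨x, hx, y, hy, rfl⟩)))
    have h5 : θ d ^ H.index ∈ hθ.img (inf_le_right : H ⊓ D ≤ D) := by
      rw [← tr_res hs hθ hd]
      unfold tr
      exact Subgroup.prod_mem _ fun q _ => ⟨_, zf_mem hs hd q, rfl⟩
    have h6 : θ d ^ p ∈ hθ.img (inf_le_right : H ⊓ D ≤ D) := by
      rw [← hθ.pow hd, (hθ1 _ (pow_mem hd p)).2 (hW₀g (Or.inl (Or.inl ⟨d, hd, rfl⟩)))]
      exact one_mem _
    obtain ⟨l, hl, hld⟩ := mem_of_cop _ hp.out hpH h5 h6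
    refine ⟨l, hl, l⁻¹ * d, ?_, by rw [mul_inv_cancel_left]⟩
    rw [← hθ1 _ (mul_mem (inv_mem hl.2) hd), hθ _ (inv_mem hl.2) _ hd, hθ.inv hl.2, hld,
      inv_mul_cancel]
  have hW₀L : W₀.relIndex (H ⊓ D) ≠ 0 := fun h =>
    hW₀f (relIndex_eq_zero_of_le_right inf_le_right h)
  have h5 : W₀.relIndex D ≤ W₀.relIndex (H ⊓ D) := relIndex_le_of_mul inf_le_right hW₀L hdec
  -- the subgroup
  let W : Subgroup 𝔾 := hΨ.pre ⊥ ⊓ W₀
  have hWmem : ∀ x, x ∈ W ↔ (x ∈ H ⊓ D ∧ Ψ x = 1) ∧ x ∈ W₀ := by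
    intro x
    show (x ∈ H ⊓ D ∧ Ψ x ∈ (⊥ : Subgroup A)) ∧ x ∈ W₀ ↔ _
    rw [mem_bot]
  have hWL : W ≤ H ⊓ D := fun x hx => hx.1.1
  have hQW' : Q₀ ⊓ W₀ ≤ W := fun x hx => (hWmem x).2 ⟨⟨hQ1 hx.1, hQ4 x hx.1⟩, hx.2⟩
  have hWo : IsOpen (W : Set 𝔾) := Subgroup.isOpen_mono hQW' (by
    rw [coe_inf]
    exact hQ2.inter hW₀o)
  have hWf : W.relIndex (H ⊓ D) ≠ 0 := by
    have h6 : (Q₀ ⊓ W₀).relIndex (H ⊓ D) ≠ 0 := by
      refine relIndex_inf_ne_zero ?_ hW₀L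
      intro h
      have h7 := relIndex_mul_index hQ1
      rw [h, zero_mul] at h7
      exact hQ3 h7.symm
    exact fun h => h6 (relIndex_eq_zero_of_le_left hQW' h)
  have hWg : gens p I (H ⊓ D) ⊆ W := by
    intro x hx
    rw [SetLike.mem_coe, hWmem]
    refine ⟨⟨gens_subset hx, ?_⟩, hW₀g (gens_mono inf_le_right hx)⟩
    rcases hx with (⟨a, ha, rfl⟩ | ⟨a, ha, b, hb, rfl⟩) | ⟨hx, w, hw⟩
    · rw [hΨ.pow ha, h1 a ha]
    · exact hΨ.comm ha hb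
    · exact h2 w x hx hw
  have h6 := hC W hWL hWo hWf hWg
  have h7 : W.relIndex (H ⊓ D ⊓ W₀) * (H ⊓ D ⊓ W₀).relIndex (H ⊓ D) = W.relIndex (H ⊓ D) :=
    relIndex_mul_relIndex _ _ _ (fun x hx => ⟨hWL hx, hx.2⟩) inf_le_left
  have h8 : (H ⊓ D ⊓ W₀).relIndex (H ⊓ D) = W₀.relIndex (H ⊓ D) := inf_relIndex_left _ _
  have hle : H ⊓ QE ≤ H ⊓ D ⊓ W₀ := fun x hx => ⟨⟨hx.1, hW₀D (hQW hx.2)⟩, hQW hx.2⟩
  have h9 : W.relIndex (H ⊓ QE) ≤ W.relIndex (H ⊓ D ⊓ W₀) := by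
    refine relIndex_le_of_le_right hle ?_
    intro h
    rw [← h7, h, zero_mul] at hWf
    exact hWf rfl
  have h10 : W.relIndex (H ⊓ QE) = T'.relIndex (H ⊓ QE) := by
    rw [← inf_relIndex_right W, ← inf_relIndex_right T']
    congr 1
    ext x
    constructor
    · rintro ⟨hx1, hx2⟩
      have hxD : x ∈ H ⊓ D := ⟨hx2.1, hW₀D (hQW hx2.2)⟩
      refine ⟨(hαT x hxD).1 ?_, hx2⟩
      have h11 := ((hWmem x).1 hx1).1.2
      rw [h3 x hx2] at h11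
      have h12 : α x ∈ (⊥ : Subgroup A) := mem_of_cop _ hp.out hk (by
        rw [h11]
        exact one_mem _) (by
        rw [h3' x hx2]
        exact one_mem _)
      rwa [mem_bot] at h12
    · rintro ⟨hx1, hx2⟩
      have hxD : x ∈ H ⊓ D := ⟨hx2.1, hW₀D (hQW hx2.2)⟩
      refine ⟨(hWmem x).2 ⟨⟨hxD, ?_⟩, hQW hx2.2⟩, hx2⟩
      rw [h3 x hx2, (hαT x hxD).2 hx1, one_pow]
  calc W₀.relIndex D * T'.relIndex (H ⊓ QE) ≤ W₀.relIndex (H ⊓ D) * W.relIndex (H ⊓ D ⊓ W₀) := by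
        rw [← h10]
        exact Nat.mul_le_mul h5 h9
    _ = W.relIndex (H ⊓ D) := by rw [← h7, h8, mul_comm]
    _ ≤ C := h6

end Pool.Agent.J6H14.DMu
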