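import Pool.Agent.J6H14.DMu.Rel2

/-!
# The bound for the relative module
-/

set_option autoImplicit false

namespace Pool.Agent.J6H14.DMu

open Subgroup Pool.Agent.Q60.MU Pool.Agent.W5h77.MB Pool.Agent.W5h33.DF
open scoped commutatorElement

variable {𝔾 : Type} [Group 𝔾]

theorem poly_norm (p : ℕ) [hp : Fact p.Prime] (a b : ℕ) :
    ∑ j ∈ Finset.range (p ^ a), (Polynomial.X : Polynomial (ZMod p)) ^ (p ^ b * j) =
      (Polynomial.X - 1) ^ (p ^ b * (p ^ a - 1)) := by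
  have h0 : (Polynomial.X - 1 : Polynomial (ZMod p)) ≠ 0 := by
    have h1 := Polynomial.X_sub_C_ne_zero (1 : ZMod p)
    rwa [map_one] at h1
  have h1 : (Polynomial.X - 1 : Polynomial (ZMod p)) ^ p ^ b = Polynomial.X ^ p ^ b - 1 := by
    rw [sub_pow_char_pow, one_pow]
  have h2 : ∑ j ∈ Finset.range (p ^ a), (Polynomial.X : Polynomial (ZMod p)) ^ (p ^ b * j) =
      ∑ j ∈ Finset.range (p ^ a), (Polynomial.X ^ p ^ b) ^ j :=
    Finset.sum_congr rfl fun j _ => by rw [pow_mul]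
  have h3 := mul_geom_sum ((Polynomial.X : Polynomial (ZMod p)) ^ p ^ b) (p ^ a)
  rw [← h1] at h3
  have h4 : ((Polynomial.X : Polynomial (ZMod p)) ^ p ^ b) ^ p ^ a - 1 =
      (Polynomial.X - 1) ^ p ^ b * (Polynomial.X - 1) ^ (p ^ b * (p ^ a - 1)) := by
    rw [← pow_add, ← pow_mul, ← pow_add]
    have h5 : p ^ b + p ^ b * (p ^ a - 1) = p ^ (b + a) := by
      have h6 : 1 ≤ p ^ a := Nat.one_le_pow _ _ hp.out.pos
      calc p ^ b + p ^ b * (p ^ a - 1) = p ^ b * (1 + (p ^ a - 1)) := by ring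
        _ = p ^ b * p ^ a := by rw [Nat.add_sub_cancel' h6]
        _ = p ^ (b + a) := by rw [pow_add]
    rw [h5, sub_pow_char_pow, one_pow]
  rw [h4] at h3
  rw [h2]
  exact mul_left_cancel₀ (pow_ne_zero _ h0) h3

theorem norm_pow {p : ℕ} [hp : Fact p.Prime] {V : Type} [CommGroup V] (hV : ∀ v : V, v ^ p = 1)
    (G φ : V →* V) (hφ : ∀ v, φ v = G v * v⁻¹) (a b : ℕ) (v : V) :
    ∏ j ∈ Finset.range (p ^ a), G^[p ^ b * j] v = φ^[p ^ b * (p ^ a - 1)] v := by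
  classical
  let M : Module (ZMod p) (Additive V) := AddCommGroup.zmodModule (n := p) (fun x => hV x.toMul)
  let g : Module.End (ZMod p) (Additive V) := AddMonoidHom.toZModLinearMap p (MonoidHom.toAdditive G)
  have hg : ∀ v : V, g (Additive.ofMul v) = Additive.ofMul (G v) := fun _ => rfl
  have hgk : ∀ (k : ℕ) (v : V), (g ^ k) (Additive.ofMul v) = Additive.ofMul (G^[k] v) := by
    intro k
    induction k with
    | zero => intro v; rfl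
    | succ k ih =>
      intro v
      rw [pow_succ, Module.End.mul_apply, hg, ih, Function.iterate_succ_apply]
  have hf : ∀ v : V, (g - 1) (Additive.ofMul v) = Additive.ofMul (φ v) := by
    intro v
    rw [LinearMap.sub_apply, hg, Module.End.one_apply, hφ, ← div_eq_mul_inv]
    rfl
  have hfk : ∀ (k : ℕ) (v : V), ((g - 1) ^ k) (Additive.ofMul v) = Additive.ofMul (φ^[k] v) := by
    intro k
    induction k with
    | zero => intro v; rfl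
    | succ k ih =>
      intro v
      rw [pow_succ, Module.End.mul_apply, hf, ih, Function.iterate_succ_apply]
  have h1 := congrArg (Polynomial.aeval g) (poly_norm p a b)
  rw [map_sum, map_pow, map_sub, Polynomial.aeval_X, map_one] at h1
  have h2 := LinearMap.congr_fun h1 (Additive.ofMul v)
  rw [hfk, LinearMap.sum_apply] at h2
  have h3 : ∑ j ∈ Finset.range (p ^ a), (Polynomial.aeval g
      ((Polynomial.X : Polynomial (ZMod p)) ^ (p ^ b * j))) (Additive.ofMul v) = ∑ j ∈ Finset.range (p ^ a), Additive.ofMul (G^[p ^ b * j] v) := by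
    refine Finset.sum_congr rfl fun j _ => ?_
    rw [map_pow, Polynomial.aeval_X, hgk]
  rw [h3, ← ofMul_prod] at h2
  exact Additive.ofMul.injective h2

/-- The norm of the elements of the module. -/
theorem norm_mem {p : ℕ} [hp : Fact p.Prime] {H D' : Subgroup 𝔾} (hD'n : D'.Normal) {γ : 𝔾}
    (hγH : γ ∈ H) {V : Type} [CommGroup V] (hV : ∀ v : V, v ^ p = 1) {ψ : 𝔾 → V}
    (hψ : HomOn (H ⊓ D') ψ) {G φ : V →* V} (hφ : ∀ v, φ v = G v * v⁻¹)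
    (hG : ∀ x ∈ H ⊓ D', G (ψ x) = ψ (γ * x * γ⁻¹)) (a b : ℕ) {u : 𝔾} (hu : u ∈ H ⊓ D') :
    (u * γ ^ p ^ b) ^ p ^ a * ((γ ^ p ^ b) ^ p ^ a)⁻¹ ∈ hψ.pre (iter φ (p ^ b * (p ^ a - 1))).range := by
  have hcj : ∀ g ∈ H, ∀ x ∈ H ⊓ D', g * x * g⁻¹ ∈ H ⊓ D' := fun g hg x hx =>
    ⟨H.mul_mem (H.mul_mem hg hx.1) (H.inv_mem hg), hD'n.conj_mem x hx.2 g⟩
  have hGk : ∀ k : ℕ, ∀ x ∈ H ⊓ D', G^[k] (ψ x) = ψ (γ ^ k * x * (γ ^ k)⁻¹) := by
    intro k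
    induction k with
    | zero =>
      intro x _
      rw [pow_zero, inv_one, mul_one, one_mul]
      rfl
    | succ k ih =>
      intro x hx
      rw [Function.iterate_succ_apply', ih x hx, hG _ (hcj _ (H.pow_mem hγH k) x hx)]
      congr 1
      rw [pow_succ']
      group
  have key : ∀ N : ℕ, (u * γ ^ p ^ b) ^ N * ((γ ^ p ^ b) ^ N)⁻¹ ∈ H ⊓ D' ∧
      ψ ((u * γ ^ p ^ b) ^ N * ((γ ^ p ^ b) ^ N)⁻¹) = ∏ j ∈ Finset.range N, G^[p ^ b * j] (ψ u) := by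
    intro N
    induction N with
    | zero =>
      rw [pow_zero, pow_zero, inv_one, mul_one, Finset.range_zero, Finset.prod_empty]
      exact ⟨one_mem _, hψ.one⟩
    | succ N ih =>
      obtain ⟨ih1, ih2⟩ := ih
      have h1 : (u * γ ^ p ^ b) ^ (N + 1) * ((γ ^ p ^ b) ^ (N + 1))⁻¹ =
          ((u * γ ^ p ^ b) ^ N * ((γ ^ p ^ b) ^ N)⁻¹) *
            (γ ^ (p ^ b * N) * u * (γ ^ (p ^ b * N))⁻¹) := by
        rw [pow_mul, pow_succ, pow_succ]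
        group
      have h2 := hcj _ (H.pow_mem hγH (p ^ b * N)) u hu
      rw [h1]
      refine ⟨mul_mem ih1 h2, ?_⟩
      rw [hψ _ ih1 _ h2, ih2, Finset.prod_range_succ, hGk _ u hu]
  obtain ⟨h1, h2⟩ := key (p ^ a)
  refine ⟨h1, ?_⟩
  rw [h2, norm_pow hV G φ hφ]
  exact ⟨ψ u, rfl⟩

/-- The data at the lower layer. -/
def Lift [TopologicalSpace 𝔾] (p : ℕ) {Ω : Type} (I : Ω → Subgroup 𝔾) (H D QE : Subgroup 𝔾)
    {A : Type} [CommGroup A] (α : 𝔾 → A) : Prop :=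
  ∃ (Ψ : 𝔾 → A) (k : ℕ), ¬ p ∣ k ∧ HomOn (H ⊓ D) Ψ ∧ (∀ x ∈ H ⊓ D, Ψ x ^ p = 1) ∧
    (∀ w, ∀ x ∈ H ⊓ D, x ∈ I w → Ψ x = 1) ∧ (∀ x ∈ H ⊓ QE, Ψ x = α x ^ k) ∧
    ∃ Q₀ ≤ H ⊓ D, IsOpen (Q₀ : Set 𝔾) ∧ Q₀.index ≠ 0 ∧ ∀ x ∈ Q₀, Ψ x = 1

theorem rel_fin [TopologicalSpace 𝔾] [ContinuousMul 𝔾] {p : ℕ} [hp : Fact p.Prime] {Ω : Type}
    [MulAction 𝔾 Ω]
    {I : Ω → Subgroup 𝔾} (hI : ∀ (g : 𝔾) (w : Ω), ∀ x ∈ I w, g * x * g⁻¹ ∈ I (g • w))
    {H D D' QF QE : Subgroup 𝔾} (hpH : ¬ p ∣ H.index) (hDn : D.Normal) (hD'n : D'.Normal)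
    (hDD : D' ≤ D) (hD'o : IsOpen (D' : Set 𝔾)) {m m' : ℕ} (hDi : D.index = p ^ m)
    (hD'i : D'.index = p ^ m') {γ : 𝔾} (hγH : γ ∈ H) (hγ : ∀ τ ∈ H, ∃ i : ℤ, τ * (γ ^ i)⁻¹ ∈ D')
    (hF : IsMin p I (H ⊓ D') QF) (hE : IsMin p I D' QE) {e : ℕ} (he : e ≤ D.relIndex H)
    (hlift : ∀ (T' : Subgroup 𝔾) (A : Type) [CommGroup A] (α : 𝔾 → A), QF ≤ T' → T' ≤ H ⊓ D' →
      (∀ a b : ℕ, e = p ^ b * (p ^ a - 1) → ∀ u ∈ H ⊓ D',
        (u * γ ^ p ^ b) ^ p ^ a * ((γ ^ p ^ b) ^ p ^ a)⁻¹ ∈ T') →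
      HomOn (H ⊓ D) α → (∀ x ∈ H ⊓ D, α x = 1 ↔ x ∈ T') → (∀ a, ∃ x ∈ H ⊓ D, α x = a) →
      Lift p I H D QE α)
    {C CE : ℕ} (hC : RankLe p I (H ⊓ D) C) (hCE : RankLe p I D' CE) {W₀ : Subgroup 𝔾}
    (hW₀D : W₀ ≤ D) (hW₀o : IsOpen (W₀ : Set 𝔾)) (hW₀f : W₀.relIndex D ≠ 0)
    (hW₀g : gens p I D ⊆ W₀) (hlt : C < p ^ e * W₀.relIndex D) :
    W₀.relIndex D * QF.relIndex (H ⊓ D') ≤ C * CE := by
  classical
  obtain ⟨V, iV, ψ, φ, G, hVfin, hV, hψ, hψ1, hψs, hcard, hφ, hG, hfrob⟩ := exists_V hI hD'n hF hγH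
  have hL' : H ⊓ QE ≤ H ⊓ D' := inf_le_inf_left H hE.1
  have hQFE : QF ≤ QE := by
    have h1 := hF.2.2.2.2 (H ⊓ QE) hL'
    have h2 : IsOpen ((H ⊓ D' : Subgroup 𝔾) : Set 𝔾) := Subgroup.isOpen_mono hF.1 hF.2.1
    have h3 : H ⊓ QE = (H ⊓ D') ⊓ QE := by
      rw [inf_assoc, inf_eq_right.2 hE.1]
    refine (h1 ?_ ?_ ?_).trans inf_le_right
    · rw [h3, coe_inf]
      exact h2.inter hE.2.1
    · rw [h3, inf_relIndex_left]
      exact fun h => hE.2.2.1 (relIndex_eq_zero_of_le_right inf_le_right h)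
    · intro x hx
      exact ⟨(gens_subset hx).1, hE.2.2.2.1 (gens_mono inf_le_right hx)⟩
  set Y : Subgroup V := hψ.img hL' with hYdef
  have hY : ∀ x ∈ H ⊓ D', ψ x ∈ Y ↔ x ∈ QE := by
    intro x hx
    constructor
    · rintro ⟨z, hz, hzx⟩
      have h1 : x * z⁻¹ ∈ QF := by
        rw [← hψ1 _ (mul_mem hx (inv_mem (hL' hz))), hψ _ hx _ (inv_mem (hL' hz)), hψ.inv (hL' hz), hzx,
          mul_inv_cancel]
      have h2 := QE.mul_mem (hQFE h1) hz.2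
      rwa [inv_mul_cancel_right] at h2
    · exact fun h => ⟨x, ⟨hx.1, h⟩, rfl⟩
  have hsp := Y_split hI hpH hD'n hD'o hD'i hF hE hγH hV hψ hψ1 hψs hφ hG hY
  have hcj : ∀ x ∈ H ⊓ D', γ * x * γ⁻¹ ∈ H ⊓ D' := fun x hx =>
    ⟨H.mul_mem (H.mul_mem hγH hx.1) (H.inv_mem hγH), hD'n.conj_mem x hx.2 γ⟩
  have hYφ : ∀ y ∈ Y, φ y ∈ Y := by
    rintro _ ⟨x, hx, rfl⟩
    have hxL := hL' hx
    have h1 : γ * x * γ⁻¹ ∈ QE := hE.conj hI (fun z hz => hD'n.conj_mem z hz γ) (fun z hz => by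
      have h2 := hD'n.conj_mem z hz γ⁻¹
      rwa [inv_inv] at h2) x hx.2
    rw [hφ, hG x hxL]
    refine Y.mul_mem ((hY _ (hcj x hxL)).2 h1) (Y.inv_mem ?_)
    exact (hY x hxL).2 hx.2
  -- the image of the power
  set T : Subgroup V := (iter φ e).range with hT
  obtain ⟨b, -, hb⟩ : ∃ b ≤ m, D.relIndex H = p ^ b :=
    (Nat.dvd_prime_pow hp.out).1 (hDi ▸ relIndex_dvd_index_of_normal D H)
  have hcomm := level_comm hDn hD'n hDD hγH hγ hψ (T := T) (by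
    intro x hx
    rw [hb, ← hfrob b x hx]
    refine ⟨φ^[p ^ b - e] (ψ x), ?_⟩
    show φ^[e] (φ^[p ^ b - e] (ψ x)) = _
    rw [← Function.iterate_add_apply]
    congr 2
    omega)
  obtain ⟨A, iA, α, hα, hα1, hαs, -⟩ := exists_ab (L := H ⊓ D) (T := hψ.pre T) hcomm
  obtain ⟨Ψ, k, hk, hΨ, hΨ1, hΨ2, hΨ3, hΨ4⟩ := hlift (hψ.pre T) A α (by
    intro x hx
    refine ⟨hF.1 hx, ?_⟩
    rw [(hψ1 x (hF.1 hx)).2 hx]
    exact one_mem _) (fun x hx => hx.1) (by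
    rintro a b' rfl u hu
    exact norm_mem hD'n hγH hV hψ hφ hG a b' hu) hα hα1 hαs
  obtain ⟨s, hs⟩ := sec_exists hp.out hD'n hD'i hpH
  have hs' : Sec D s := fun q => ⟨(hs q).1, hDD (hs q).2⟩
  have hDo : IsOpen (D : Set 𝔾) := Subgroup.isOpen_mono hDD hD'o
  -- `QE ≤ W₀`
  have hQW : QE ≤ W₀ := by
    have h1 := hE.2.2.2.2 (W₀ ⊓ D') inf_le_right (by
      rw [coe_inf]
      exact hW₀o.inter hD'o) (by
      rw [inf_relIndex_right]
      exact fun h => hW₀f (relIndex_eq_zero_of_le_right hDD h)) (fun x hx =>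
      ⟨hW₀g (gens_mono hDD hx), gens_subset hx⟩)
    exact h1.trans inf_le_left
  have hαp : ∀ x ∈ H ⊓ QE, α x ^ p = 1 := by
    intro x hx
    have hxL := hL' hx
    have hxD : x ∈ H ⊓ D := ⟨hx.1, hDD hxL.2⟩
    rw [← hα.pow hxD, hα1 _ (pow_mem hxD p)]
    refine ⟨pow_mem hxL p, ?_⟩
    rw [hψ.pow hxL, hV]
    exact one_mem _
  have hcount := rel_count hpH hs' hα hα1 hΨ hΨ1 hΨ2 hk hΨ3 hαp hΨ4 hC hW₀D hW₀o hW₀f hW₀g hQW
  -- indices
  let f := hψ.toHom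
  have hfs : Function.Surjective f := by
    intro v
    obtain ⟨x, hx, rfl⟩ := hψs v
    exact ⟨⟨x, hx⟩, rfl⟩
  have e1 : (hψ.pre T).relIndex (H ⊓ QE) = T.relIndex Y := by
    have h1 : ((H ⊓ QE).subgroupOf (H ⊓ D')).map f = Y := by
      ext v
      constructor
      · rintro ⟨x, hx, rfl⟩
        exact ⟨x, hx, rfl⟩
      · rintro ⟨x, hx, rfl⟩
        exact ⟨⟨x, hL' hx⟩, hx, rfl⟩
    rw [← h1, ← relIndex_comap, ← relIndex_subgroupOf hL']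
    congr 1
    ext x
    exact ⟨fun h => h.2, fun h => ⟨x.2, h⟩⟩
  have e2 : T.relIndex Y * Nat.card ↥(T ⊓ Y) = Nat.card Y := by
    have h1 := (T.subgroupOf Y).card_mul_index
    have h2 : Nat.card (T.subgroupOf Y) = Nat.card ↥(T ⊓ Y) := by
      rw [← Subgroup.subgroupOf_map_subtype, Subgroup.card_map_of_injective Y.subtype_injective]
    rw [h2, mul_comm] at h1
    exact h1
  have e3 : W₀.relIndex D * Nat.card Y ≤ C := by
    rw [e1] at hcount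
    by_cases hbot : T ⊓ Y = ⊥
    · rw [hbot, card_bot, mul_one] at e2
      rwa [← e2]
    · exfalso
      have hnil : ∃ N, ∀ v, φ^[N] v = 1 := by
        refine ⟨p ^ m', fun v => ?_⟩
        obtain ⟨x, hx, rfl⟩ := hψs v
        have h1 : γ ^ p ^ m' ∈ H ⊓ D' := by
          refine ⟨H.pow_mem hγH _, ?_⟩
          rw [← hD'i]
          exact D'.pow_index_mem γ
        rw [hfrob m' x hx, hψ _ (mul_mem h1 hx) _ (inv_mem h1), hψ _ h1 _ hx, hψ.inv h1,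
          mul_right_comm, mul_inv_cancel_right, mul_inv_cancel]
      have h2 := chain_bound hp.out hV φ hnil hYφ hsp hbot
      rw [← e2] at h2
      have h3 : 0 < Nat.card ↥(T ⊓ Y) := Nat.card_pos
      have h4 : p ^ e ≤ T.relIndex Y := Nat.le_of_mul_le_mul_right h2 h3
      have h5 : p ^ e * W₀.relIndex D ≤ C := by
        rw [mul_comm]
        exact (Nat.mul_le_mul_left _ h4).trans hcount
      omega
  have e4 : Y.index = QE.relIndex (H ⊓ D') := by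
    rw [← index_comap_of_surjective Y hfs]
    show _ = (QE.subgroupOf (H ⊓ D')).index
    congr 1
    ext x
    exact hY x x.2
  have e5 : QF.relIndex (H ⊓ D') = Nat.card Y * QE.relIndex (H ⊓ D') := by
    rw [← hcard, ← e4, Y.card_mul_index]
  have e6 : QE.relIndex (H ⊓ D') ≤ CE :=
    (relIndex_le_of_le_right inf_le_right hE.2.2.1).trans
      (hCE QE hE.1 hE.2.1 hE.2.2.1 hE.2.2.2.1)
  rw [e5, ← mul_assoc]
  exact Nat.mul_le_mul e3 e6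

end Pool.Agent.J6H14.DMu
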