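import Pool.Agent.J6H14.DMu.Rel3

/-!
# The lower layer
-/

set_option autoImplicit false

namespace Pool.Agent.J6H14.DMu

open Subgroup Pool.Agent.Q60.MU Pool.Agent.W5h77.MB Pool.Agent.W5h33.DF
open scoped commutatorElement

variable {𝔾 : Type} [Group 𝔾]

/-- Subgroups with coprime indices. -/
theorem exists_dec {G : Type} [Group G] {H D : Subgroup G} {p m : ℕ} (hp : p.Prime) (hDn : D.Normal)
    (hD : D.index ∣ p ^ m) (hH : ¬ p ∣ H.index) (g : G) : ∃ h ∈ H, ∃ d ∈ D, g = h * d := by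
  have hsup : D ⊔ H = ⊤ := by
    rw [← index_eq_one]
    have h1 : (D ⊔ H).index ∣ H.index := index_dvd_of_le le_sup_right
    have h2 : (D ⊔ H).index ∣ p ^ m := (index_dvd_of_le le_sup_left).trans hD
    have h3 : Nat.Coprime H.index (p ^ m) :=
      Nat.Coprime.pow_right m (((Nat.Prime.coprime_iff_not_dvd hp).2 hH).symm)
    exact Nat.dvd_one.1 (h3 ▸ Nat.dvd_gcd h1 h2)
  have hg : g ∈ D ⊔ H := by
    rw [hsup]
    exact mem_top g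
  rw [← SetLike.mem_coe, Subgroup.normal_mul] at hg
  obtain ⟨d, hd, h, hh, rfl⟩ := hg
  refine ⟨h, hh, h⁻¹ * d * h, ?_, by group⟩
  have h1 := hDn.conj_mem d hd h⁻¹
  rwa [inv_inv] at h1

/-- If no prime splits in `F / E`, then none splits in `F R / E R`. -/
theorem ns_level {H D : Subgroup 𝔾} {p m : ℕ} (hp : p.Prime) (hDn : D.Normal) (hDi : D.index = p ^ m)
    (hpH : ¬ p ∣ H.index) {Ω : Type} [MulAction 𝔾 Ω] {w : Ω} (h : ∀ g : 𝔾, ∃ h ∈ H, h • w = g • w) :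
    ∀ d ∈ D, ∃ l ∈ H ⊓ D, l • w = d • w := by
  classical
  set S : Subgroup 𝔾 := MulAction.stabilizer 𝔾 w with hS
  -- the index of `H ∩ S` in `S`
  have hidx : (H.subgroupOf S).index = H.index := by
    have h1 : MulAction.stabilizer S ((1 : 𝔾) : 𝔾 ⧸ H) = H.subgroupOf S := by
      ext x
      rw [MulAction.mem_stabilizer_iff, mem_subgroupOf]
      show ((((x : 𝔾) * 1 : 𝔾)) : 𝔾 ⧸ H) = ((1 : 𝔾) : 𝔾 ⧸ H) ↔ _
      rw [mul_one, eq_comm, QuotientGroup.eq, inv_one, one_mul]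
    have h2 : MulAction.orbit S ((1 : 𝔾) : 𝔾 ⧸ H) = Set.univ := by
      rw [Set.eq_univ_iff_forall]
      intro q
      obtain ⟨g, rfl⟩ := QuotientGroup.mk_surjective q
      obtain ⟨h', hh, hw⟩ := h g⁻¹
      have h3 : g * h' ∈ S := by
        rw [hS, MulAction.mem_stabilizer_iff, mul_smul, hw, smul_inv_smul]
      refine ⟨⟨g * h', h3⟩, ?_⟩
      show (((g * h' * 1 : 𝔾)) : 𝔾 ⧸ H) = (g : 𝔾 ⧸ H)
      rw [mul_one, eq_comm, QuotientGroup.eq, inv_mul_cancel_left]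
      exact hh
    have h3 := MulAction.index_stabilizer S ((1 : 𝔾) : 𝔾 ⧸ H)
    rw [h1, h2, Set.ncard_univ] at h3
    exact h3
  intro d hd
  obtain ⟨h', hh, hw⟩ := h d
  have ht : d⁻¹ * h' ∈ S := by
    rw [hS, MulAction.mem_stabilizer_iff, mul_smul, hw, inv_smul_smul]
  have hDS : (D.subgroupOf S).Normal := hDn.subgroupOf S
  obtain ⟨c, hc, e, he, hce⟩ := exists_dec (H := H.subgroupOf S) (D := D.subgroupOf S) (m := m) hp hDS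
    (by
      have h1 := relIndex_dvd_index_of_normal D S
      rw [hDi] at h1
      exact h1) (by rwa [hidx]) ⟨d⁻¹ * h', ht⟩
  have h1 : d⁻¹ * h' = (c : 𝔾) * e := congrArg Subtype.val hce
  have hcH : (c : 𝔾) ∈ H := hc
  have heD : (e : 𝔾) ∈ D := he
  refine ⟨h' * (c : 𝔾)⁻¹, ⟨H.mul_mem hh (H.inv_mem hcH), ?_⟩, ?_⟩
  · have h2 : h' * (c : 𝔾)⁻¹ = d * ((c : 𝔾) * e * (c : 𝔾)⁻¹) := by
      rw [← h1]
      group
    rw [h2]
    exact D.mul_mem hd (hDn.conj_mem _ heD _)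
  · have h2 : (c : 𝔾)⁻¹ • w = w := by
      rw [inv_smul_eq_iff]
      exact (MulAction.mem_stabilizer_iff.1 c.2).symm
    rw [mul_smul, h2, hw]

section
variable [TopologicalSpace 𝔾] [ContinuousMul 𝔾] {p : ℕ} [hp : Fact p.Prime] {Ω : Type}
  [MulAction 𝔾 Ω] {I : Ω → Subgroup 𝔾} {H D D' QF QE : Subgroup 𝔾}

theorem lift_ns (hI : ∀ (g : 𝔾) (w : Ω), ∀ x ∈ I w, g * x * g⁻¹ ∈ I (g • w))
    (hpH : ¬ p ∣ H.index) (hD'n : D'.Normal) (hDD : D' ≤ D)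
    (hD'o : IsOpen (D' : Set 𝔾)) {m' : ℕ} (hD'i : D'.index = p ^ m')
    (hcm : ∀ a b : 𝔾, ⁅a, b⁆ ∈ D') (hF : IsMin p I (H ⊓ D') QF) (hE : IsMin p I D' QE)
    (hns : ∀ w, I w ≤ D' ∨ ∀ d ∈ D, ∃ l ∈ H ⊓ D, l • w = d • w)
    {T' : Subgroup 𝔾} {A : Type} [CommGroup A] {α : 𝔾 → A} (hQT : QF ≤ T') (hT'L : T' ≤ H ⊓ D')
    (hα : HomOn (H ⊓ D) α) (hα1 : ∀ x ∈ H ⊓ D, α x = 1 ↔ x ∈ T') (hαs : ∀ a, ∃ x ∈ H ⊓ D, α x = a) :
    Lift p I H D QE α := by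
  classical
  have hH0 : H.index ≠ 0 := by
    intro h
    rw [h] at hpH
    exact hpH (dvd_zero p)
  have hD'0 : D'.index ≠ 0 := by
    rw [hD'i]
    exact (pow_pos hp.out.pos m').ne'
  have hfi : H.FiniteIndex := ⟨hH0⟩
  have : Fintype (𝔾 ⧸ H) := Fintype.ofFinite _
  obtain ⟨s, hs'⟩ := sec_exists hp.out hD'n hD'i hpH
  have hs : Sec D s := fun q => ⟨(hs' q).1, hDD (hs' q).2⟩
  have hLL : H ⊓ D' ≤ H ⊓ D := inf_le_inf_left H hDD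
  have htr := tr_homOn hs hα
  have hαQ : ∀ x ∈ QF, α x = 1 := fun x hx => (hα1 x (hLL (hF.1 hx))).2 (hQT hx)
  have hgL : ∀ x ∈ H ⊓ D', ∀ w, x ∈ I w → α x = 1 := fun x hx w hw =>
    hαQ x (hF.2.2.2.1 (Or.inr ⟨hx, w, hw⟩))
  -- the quotient by `D'`
  obtain ⟨X, iX, χ, hχ, hχ1, -, -⟩ := exists_ab (L := (⊤ : Subgroup 𝔾)) (T := D')
    (fun x _ y _ => hcm x y)
  obtain ⟨κ, hκ⟩ := hα.exists_fac hαs (hχ.mono le_top) (by
    intro x hx h1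
    exact (hχ1 x (mem_top x)).2 (hT'L ((hα1 x hx).1 h1)).2)
  have hκ1 : ∀ x ∈ H ⊓ D, κ (α x) = 1 → x ∈ H ⊓ D' := by
    intro x hx h1
    rw [hκ x hx, hχ1 x (mem_top x)] at h1
    exact ⟨hx.1, h1⟩
  let Ψ : 𝔾 → A := fun x => α x ^ H.index * (tr s α x)⁻¹
  have hΨ : HomOn (H ⊓ D) Ψ := by
    intro u hu v hv
    show α (u * v) ^ H.index * (tr s α (u * v))⁻¹ = _
    rw [hα u hu v hv, htr u hu.2 v hv.2, mul_pow, mul_inv, mul_mul_mul_comm]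
  have hκΨ : ∀ x ∈ H ⊓ D, κ (Ψ x) = 1 := by
    intro x hx
    have h1 : κ (tr s α x) = tr s χ x := by
      unfold tr
      rw [map_prod]
      exact Finset.prod_congr rfl fun q _ => hκ _ (zf_mem hs hx.2 q)
    show κ (α x ^ H.index * (tr s α x)⁻¹) = 1
    rw [map_mul, map_inv, map_pow, hκ x hx, h1, tr_res hs (hχ.mono le_top) hx.2, mul_inv_cancel]
  have hΨL : ∀ x ∈ H ⊓ D, ∃ y ∈ H ⊓ D', α y = Ψ x := by
    intro x hx
    obtain ⟨y, hy, hyx⟩ := hαs (Ψ x)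
    exact ⟨y, hκ1 y hy (by rw [hyx, hκΨ x hx]), hyx⟩
  refine ⟨Ψ, H.index, hpH, hΨ, ?_, ?_, ?_, ?_⟩
  · intro x hx
    obtain ⟨y, hy, hyx⟩ := hΨL x hx
    rw [← hyx, ← hα.pow (hLL hy)]
    exact hαQ _ (hF.2.2.2.1 (Or.inl (Or.inl ⟨y, hy, rfl⟩)))
  · intro w x hx hxw
    rcases hns w with hw | hw
    · have h1 : tr s α x = 1 := by
        have h2 := tr_local hs hα (𝒥 := I w ⊓ D) inf_le_right ⊥ (by
          rintro b hb y ⟨hy1, hy2⟩ hyH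
          rw [mem_bot]
          have h3 := hI b⁻¹ w y hy1
          have h4 := hD'n.conj_mem y (hw hy1) b⁻¹
          rw [inv_inv] at h3 h4
          exact hgL _ ⟨hyH, h4⟩ _ h3) ⟨hxw, hx.2⟩
        rwa [mem_bot] at h2
      show α x ^ H.index * (tr s α x)⁻¹ = 1
      rw [h1, hgL x ⟨hx.1, hw hxw⟩ w hxw, one_pow, inv_one, mul_one]
    · have hJL : I w ⊓ (H ⊓ D) ≤ H ⊓ D := inf_le_right
      have h1 : Ψ x ∈ hα.img hJL := by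
        have h0 : α x ∈ hα.img hJL := ⟨x, ⟨hxw, hx⟩, rfl⟩
        refine mul_mem (pow_mem h0 _) (inv_mem ?_)
        refine tr_local hs hα (𝒥 := I w ⊓ D) inf_le_right _ ?_ ⟨hxw, hx.2⟩
        rintro b hb y ⟨hy1, hy2⟩ hyH
        obtain ⟨l, hl, hlw⟩ := hw b⁻¹ (D.inv_mem hb)
        have h3 := hI b⁻¹ w y hy1
        rw [inv_inv, ← hlw] at h3
        have h4 := hDD
        have h5 : b⁻¹ * y * b ∈ H ⊓ D :=
          ⟨hyH, D.mul_mem (D.mul_mem (D.inv_mem hb) hy2) hb⟩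
        have h6 := hI l⁻¹ _ _ h3
        rw [inv_smul_smul, inv_inv] at h6
        have h7 : l⁻¹ * (b⁻¹ * y * b) * l ∈ H ⊓ D := mul_mem (mul_mem (inv_mem hl) h5) hl
        refine ⟨l⁻¹ * (b⁻¹ * y * b) * l, ⟨h6, h7⟩, ?_⟩
        rw [hα _ (mul_mem (inv_mem hl) h5) _ hl, hα _ (inv_mem hl) _ h5, hα.inv hl, mul_right_comm,
          inv_mul_cancel, one_mul]
      obtain ⟨y, hy, hyx⟩ := h1
      have h2 := hκ1 y hy.2 (by rw [hyx, hκΨ x hx])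
      rw [← hyx]
      exact hgL y h2 w hy.1
  · intro x hx
    have h1 := kill_tr hI hH0 hD'o hD'n hD'0 hF hE hs' (hα.mono hLL) hαQ x hx.2
    show α x ^ H.index * (tr s α x)⁻¹ = _
    rw [h1, inv_one, mul_one]
  · have hQ0 : QF.index ≠ 0 := by
      rw [← relIndex_mul_index hF.1]
      exact mul_ne_zero hF.2.2.1 (index_inf_ne_zero hH0 hD'0)
    let f : 𝔾 ⧸ H → (𝔾 →* 𝔾) := fun q => (MulAut.conj (s q)⁻¹).toMonoidHom
    have hmem : ∀ x, x ∈ (⨅ q, QF.comap (f q) : Subgroup 𝔾) → ∀ q, (s q)⁻¹ * x * s q ∈ QF := by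
      intro x hx q
      have h1 : (s q)⁻¹ * x * ((s q)⁻¹)⁻¹ ∈ QF := (mem_iInf.1 hx) q
      rwa [inv_inv] at h1
    refine ⟨QF ⊓ ⨅ q, QF.comap (f q), fun x hx => hLL (hF.1 hx.1), ?_, ?_, ?_⟩
    · rw [coe_inf, coe_iInf]
      refine hF.2.1.inter (isOpen_iInter_of_finite fun q => ?_)
      exact hF.2.1.preimage ((continuous_const.mul continuous_id).mul continuous_const)
    · refine index_inf_ne_zero hQ0 (index_iInf_ne_zero fun q => ?_)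
      rw [index_comap_of_surjective]
      · exact hQ0
      · exact (MulAut.conj (s q)⁻¹).surjective
    · rintro x ⟨hx1, hx2⟩
      show α x ^ H.index * (tr s α x)⁻¹ = 1
      rw [hαQ x hx1, one_pow, one_mul, tr_one (fun q => (hs q).1) (hF.1.trans inf_le_left) hαQ
        (hmem x hx2), inv_one]

theorem lift_tot (hD'n : D'.Normal) (hDD : D' ≤ D)
    {D₁ : Subgroup 𝔾} (hH0 : H.index ≠ 0)
    {m' : ℕ} (hD'i : D'.index = p ^ m') (hcm : ∀ a b : 𝔾, ⁅a, b⁆ ∈ D')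
    {γ : 𝔾} (hγH : γ ∈ H) (hγ : ∀ τ ∈ H, ∃ i : ℤ, τ * (γ ^ i)⁻¹ ∈ D')
    (hDn : D.Normal) (hD₁n : D₁.Normal)
    (hF : IsMin p I (H ⊓ D') QF) (hE : IsMin p I D' QE) {a b e : ℕ}
    (hb : D₁.relIndex H = p ^ b) (hab : D.relIndex H = p ^ b * p ^ a) (he : e = p ^ b * (p ^ a - 1))
    (htot : ∀ w, I w ≤ D' ∨ ∀ x ∈ H ⊓ D₁, ∃ y ∈ I w, y ∈ H ⊓ D₁ ∧ x⁻¹ * y ∈ D')
    (hram : ∃ w, ∀ x ∈ H ⊓ D₁, ∃ y ∈ I w, y ∈ H ⊓ D₁ ∧ x⁻¹ * y ∈ D')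
    {T' : Subgroup 𝔾} {A : Type} [CommGroup A] {α : 𝔾 → A} (hQT : QF ≤ T') (hT'L : T' ≤ H ⊓ D')
    (hT'N : ∀ a b : ℕ, e = p ^ b * (p ^ a - 1) → ∀ u ∈ H ⊓ D',
        (u * γ ^ p ^ b) ^ p ^ a * ((γ ^ p ^ b) ^ p ^ a)⁻¹ ∈ T')
    (hα : HomOn (H ⊓ D) α) (hα1 : ∀ x ∈ H ⊓ D, α x = 1 ↔ x ∈ T') :
    Lift p I H D QE α := by
  classical
  have hLL : H ⊓ D' ≤ H ⊓ D := inf_le_inf_left H hDD
  have hαQ : ∀ x ∈ QF, α x = 1 := fun x hx => (hα1 x (hLL (hF.1 hx))).2 (hQT hx)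
  have hgL : ∀ x ∈ H ⊓ D', ∀ w, x ∈ I w → α x = 1 := fun x hx w hw =>
    hαQ x (hF.2.2.2.1 (Or.inr ⟨hx, w, hw⟩))
  set η := γ ^ D.relIndex H with hη
  have hηeq : (γ ^ p ^ b) ^ p ^ a = η := by rw [hη, hab, pow_mul]
  have hηD : η ∈ D := by
    have hn : (D.subgroupOf H).Normal := hDn.subgroupOf H
    have h1 := (D.subgroupOf H).pow_index_mem (⟨γ, hγH⟩ : H)
    exact h1
  have hηL : η ∈ H ⊓ D := ⟨H.pow_mem hγH _, hηD⟩
  have hγ₁ : γ ^ p ^ b ∈ H ⊓ D₁ := by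
    refine ⟨H.pow_mem hγH _, ?_⟩
    rw [← hb]
    have hn : (D₁.subgroupOf H).Normal := hD₁n.subgroupOf H
    have h1 := (D₁.subgroupOf H).pow_index_mem (⟨γ, hγH⟩ : H)
    exact h1
  -- the elements of the inertia groups
  have hy : ∀ w, (∀ x ∈ H ⊓ D₁, ∃ y ∈ I w, y ∈ H ⊓ D₁ ∧ x⁻¹ * y ∈ D') →
      ∃ z ∈ I w, z ∈ H ⊓ D ∧ α z = α η ∧ η⁻¹ * z ∈ D' := by
    intro w hw
    obtain ⟨y, hy1, hy2, hy3⟩ := hw _ hγ₁
    have hu : y * (γ ^ p ^ b)⁻¹ ∈ H ⊓ D' := by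
      refine ⟨H.mul_mem hy2.1 (H.inv_mem hγ₁.1), ?_⟩
      have h1 := hD'n.conj_mem _ hy3 (γ ^ p ^ b)
      have h2 : γ ^ p ^ b * ((γ ^ p ^ b)⁻¹ * y) * (γ ^ p ^ b)⁻¹ = y * (γ ^ p ^ b)⁻¹ := by group
      rwa [h2] at h1
    have h1 := hT'N a b he _ hu
    rw [inv_mul_cancel_right, hηeq] at h1
    have h2 : y ^ p ^ a ∈ H ⊓ D := by
      have h3 := mul_mem (hLL (hT'L h1)) hηL
      rwa [inv_mul_cancel_right] at h3
    have h3 : α (y ^ p ^ a) = α η := by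
      have h4 := (hα1 _ (hLL (hT'L h1))).2 h1
      rw [hα _ h2 _ (inv_mem hηL), hα.inv hηL, mul_inv_eq_one] at h4
      exact h4
    refine ⟨y ^ p ^ a, pow_mem hy1 _, h2, h3, ?_⟩
    have h4 := hD'n.conj_mem _ (hT'L h1).2 η⁻¹
    have h5 : η⁻¹ * (y ^ p ^ a * η⁻¹) * η⁻¹⁻¹ = η⁻¹ * y ^ p ^ a := by group
    rwa [h5] at h4
  -- powers of `η`
  have hz : ∀ {z : 𝔾}, η⁻¹ * z ∈ D' → ∀ i : ℤ, (η ^ i)⁻¹ * z ^ i ∈ D' := by
    intro z hz i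
    rw [← QuotientGroup.eq] at hz ⊢
    rw [QuotientGroup.mk_zpow, QuotientGroup.mk_zpow, hz]
  have hη1 : ∀ i : ℤ, η ^ i ∈ D' → α (η ^ i) = 1 := by
    intro i hi
    obtain ⟨w, hw⟩ := hram
    obtain ⟨z, hz1, hz2, hz3, hz4⟩ := hy w hw
    have h1 := hz hz4 i
    have h2 : z ^ i ∈ D' := by
      have h3 := D'.mul_mem hi h1
      rwa [mul_inv_cancel_left] at h3
    rw [hα.zpow hηL, ← hz3, ← hα.zpow hz2]
    exact hgL _ ⟨H.zpow_mem hz2.1 i, h2⟩ w (zpow_mem hz1 i)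
  have hdec : ∀ x, ∃ j : ℤ, x ∈ H ⊓ D → x * (η ^ j)⁻¹ ∈ H ⊓ D' := by
    intro x
    by_cases hx : x ∈ H ⊓ D
    · obtain ⟨j, hj⟩ := mod_gamma hDD hγH hγ hx.1 hx.2
      exact ⟨j, fun _ => ⟨H.mul_mem hx.1 (H.inv_mem (H.zpow_mem hηL.1 j)), hj⟩⟩
    · exact ⟨0, fun h => absurd h hx⟩
  choose j hj using hdec
  let Ψ : 𝔾 → A := fun x => α x * (α η ^ j x)⁻¹
  have key : ∀ x ∈ H ⊓ D, ∀ i : ℤ, x * (η ^ i)⁻¹ ∈ D' → Ψ x = α x * (α η ^ i)⁻¹ := by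
    intro x hx i hi
    have h1 : η ^ (i - j x) ∈ D' := by
      have h2 := D'.mul_mem (D'.inv_mem hi) (hj x hx).2
      have h3 : (x * (η ^ i)⁻¹)⁻¹ * (x * (η ^ j x)⁻¹) = η ^ (i - j x) := by
        rw [zpow_sub]
        group
      rwa [h3] at h2
    have h2 := hη1 _ h1
    rw [hα.zpow hηL, zpow_sub, mul_inv_eq_one] at h2
    show α x * (α η ^ j x)⁻¹ = _
    rw [h2]
  have hΨL : ∀ x ∈ H ⊓ D, Ψ x = α (x * (η ^ j x)⁻¹) := by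
    intro x hx
    have h1 : η ^ j x ∈ H ⊓ D := zpow_mem hηL _
    rw [hα x hx _ (inv_mem h1), hα.inv h1, hα.zpow hηL]
  refine ⟨Ψ, 1, fun h => hp.out.one_lt.ne' (Nat.dvd_one.1 h), ?_, ?_, ?_, ?_, ?_⟩
  · intro x hx y hy
    have h1 : (x * y) * (η ^ (j x + j y))⁻¹ ∈ D' := by
      have h2 := hj x hx
      have h3 := hD'n.conj_mem _ (hj y hy).2 (η ^ j x)
      have h4 : x * y * (η ^ (j x + j y))⁻¹ =
          (x * (η ^ j x)⁻¹) * (η ^ j x * (y * (η ^ j y)⁻¹) * (η ^ j x)⁻¹) := by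
        rw [zpow_add, mul_inv_rev]
        have h5 : (η ^ j y)⁻¹ * (η ^ j x)⁻¹ = (η ^ j x)⁻¹ * (η ^ j y)⁻¹ := by
          rw [← mul_inv_rev, ← mul_inv_rev, ← zpow_add, ← zpow_add, add_comm]
        group
      rw [h4]
      exact D'.mul_mem h2.2 h3
    rw [key _ (mul_mem hx hy) _ h1, hα x hx y hy, zpow_add, mul_inv, mul_mul_mul_comm]
  · intro x hx
    rw [hΨL x hx, ← hα.pow (hLL (hj x hx))]
    exact hαQ _ (hF.2.2.2.1 (Or.inl (Or.inl ⟨_, hj x hx, rfl⟩)))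
  · intro w x hx hxw
    rcases htot w with hw | hw
    · rw [key x hx 0 (by rw [zpow_zero, inv_one, mul_one]; exact hw hxw), zpow_zero, inv_one, mul_one]
      exact hgL x ⟨hx.1, hw hxw⟩ w hxw
    · obtain ⟨z, hz1, hz2, hz3, hz4⟩ := hy w hw
      have h1 := hz hz4 (j x)
      have h2 : x * (z ^ j x)⁻¹ ∈ D' := by
        have h3 := (hj x hx).2
        have h4 := hD'n.conj_mem _ (D'.inv_mem h1) (η ^ j x)
        have h5 := D'.mul_mem h3 h4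
        have h6 : x * (η ^ j x)⁻¹ * (η ^ j x * ((η ^ j x)⁻¹ * z ^ j x)⁻¹ * (η ^ j x)⁻¹) =
            x * (z ^ j x)⁻¹ := by group
        rwa [h6] at h5
      have h3 : α (x * (z ^ j x)⁻¹) = 1 :=
        hgL _ ⟨H.mul_mem hx.1 (H.inv_mem (H.zpow_mem hz2.1 _)), h2⟩ w
          (mul_mem hxw (inv_mem (zpow_mem hz1 _)))
      have h4 : z ^ j x ∈ H ⊓ D := zpow_mem hz2 _
      rw [hα x hx _ (inv_mem h4), hα.inv h4, hα.zpow hz2, hz3] at h3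
      exact h3
  · intro x hx
    have hxD : x ∈ D' := hE.1 hx.2
    rw [pow_one, key x ⟨hx.1, hDD hxD⟩ 0 (by rw [zpow_zero, inv_one, mul_one]; exact hxD), zpow_zero,
      inv_one, mul_one]
  · have hD'0 : D'.index ≠ 0 := by
      rw [hD'i]
      exact (pow_pos hp.out.pos m').ne'
    refine ⟨QF, hF.1.trans hLL, hF.2.1, ?_, ?_⟩
    · rw [← relIndex_mul_index hF.1]
      exact mul_ne_zero hF.2.2.1 (index_inf_ne_zero hH0 hD'0)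
    · intro x hx
      have hxD := (hF.1 hx).2
      rw [key x (hLL (hF.1 hx)) 0 (by rw [zpow_zero, inv_one, mul_one]; exact hxD), zpow_zero,
        inv_one, mul_one]
      exact hαQ x hx

end

end Pool.Agent.J6H14.DMu
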