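import Pool.Agent.J6H14.DMu.Rel4
import Pool.Agent.J6H14.DMu.Fin

/-!
# The relative criterion for number fields
-/

set_option autoImplicit false

namespace Pool.Agent.J6H14.DMu

open IntermediateField Module Pool.Agent.Q60.MU Pool.Agent.W5h77.MB Pool.Agent.W5h33.DF NumberField
open scoped Pointwise commutatorElement

/-- The order of the quotient by `p`-th powers of the class group of `L` or, if `s = true`, of the
quotient of the class group by the classes of the primes above `p`: the largest degree of an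
unramified abelian extension of exponent `p`. -/
noncomputable def dCl (p : ℕ) (s : Bool) (L : Fl) : ℕ := sInf {C | RkLe p s L C}

/-- No prime above `p` of `E` splits in `F`: the primes of the field of algebraic numbers above a
prime of `E` above `p` are conjugate over `F`. -/
def NoSplit (p : ℕ) (E F : Fl) : Prop :=
  ∀ A : ValuationSubring Qb, (p : Qb) ∈ A.nonunits → ∀ g ∈ gal E, ∃ h ∈ gal F,
    ∀ x, im g x ∈ A ↔ im h x ∈ A

/-- The primes above `p` of the layer `F R` are totally ramified (for `s = true`: do not split) in the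
cyclotomic `ℤ_p`-extension: each automorphism of a higher layer over `F R` comes from the local
group. -/
def TotAbove (p : ℕ) (s : Bool) (F R : Fl) : Prop :=
  ∀ A : ValuationSubring Qb, (p : Qb) ∈ A.nonunits → ∀ (m' : ℕ) (R' : Fl), Layer p m' R' → R ≤ R' →
    ∀ x ∈ gal (F ⊔ R), ∃ y ∈ gal (F ⊔ R), LocalAt p s A y ∧ ∀ z ∈ R', im y z = im x z

/-- The number `δ` is admissible for `F / E`. -/
def Adm (p : ℕ) (s : Bool) (E F : Fl) (δ : ℕ) : Prop :=
  (δ = 0 ∧ NoSplit p E F) ∨
    ∃ (m₁ : ℕ) (R₁ : Fl), Layer p m₁ R₁ ∧ TotAbove p s F R₁ ∧ δ = rdeg F (F ⊔ R₁)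

/-- The inequality at the layer `R`. -/
def Small (p : ℕ) (s : Bool) (E F : Fl) (δ : ℕ) (R : Fl) : Prop :=
  dCl p s (F ⊔ R) < p ^ (rdeg F (F ⊔ R) - δ) * dCl p s (E ⊔ R)

section dCl
variable {p : ℕ} {s : Bool}

theorem dCl_spec [hp : Fact p.Prime] (s : Bool) (L : IntermediateField ℚ Qb)
    [FiniteDimensional ℚ L] : RkLe p s L (dCl p s L) :=
  Nat.sInf_mem (rank_finite (p := p) s L)

theorem dCl_le {L : IntermediateField ℚ Qb} {C : ℕ} (h : RkLe p s L C) : dCl p s L ≤ C :=
  Nat.sInf_le h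

theorem one_le_dCl [hp : Fact p.Prime] (s : Bool) (L : IntermediateField ℚ Qb)
    [FiniteDimensional ℚ L] : 1 ≤ dCl p s L := by
  by_contra h
  have h0 : dCl p s L = 0 := by omega
  have h1 := dCl_spec (p := p) s L
  rw [h0, ← rkLe_iff] at h1
  have h2 := h1 L.fixingSubgroup le_rfl L.fixingSubgroup_isOpen (by
    rw [Subgroup.relIndex_self]
    exact one_ne_zero) gens_subset
  rw [Subgroup.relIndex_self] at h2
  exact absurd h2 (by norm_num)

theorem isMin_eq [hp : Fact p.Prime] {k L : IntermediateField ℚ Qb} [FiniteDimensional ℚ k]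
    [FiniteDimensional ℚ L] (hkL : k ≤ L) {Q : Subgroup k.fixingSubgroup}
    (hQ : IsMin p (lc p s k) (sb k L) Q) : Q.relIndex (sb k L) = dCl p s L := by
  apply le_antisymm
  · exact (rk_iff hkL _).2 (dCl_spec s L) Q hQ.1 hQ.2.1 hQ.2.2.1 hQ.2.2.2.1
  · exact dCl_le ((rk_iff hkL _).1 hQ.relIndex_le)

theorem exists_isMin [hp : Fact p.Prime] (s : Bool) {k L : IntermediateField ℚ Qb}
    [FiniteDimensional ℚ k] [FiniteDimensional ℚ L] (hkL : k ≤ L) :
    ∃ Q, IsMin p (lc p s k) (sb k L) Q :=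
  exists_min sb_open ((rk_iff hkL _).2 (dCl_spec s L))

end dCl

/-- Subgroups of cyclic groups. -/
theorem cyc_mem {G : Type} [Group G] {N' M : Subgroup G} [hN : N'.Normal] {σ : G}
    (hσ : ∀ τ, ∃ i : ℤ, τ * (σ ^ i)⁻¹ ∈ N') (hM : N' ≤ M) (i : ℤ) :
    σ ^ i ∈ M ↔ (M.index : ℤ) ∣ i := by
  have hc : commutator G ≤ N' := by
    rw [commutator_def, Subgroup.commutator_le]
    intro a _ b _
    exact comm_mem_of ⟨σ, hσ⟩ a b
  have hMn : M.Normal := normal_of_comm (hc.trans hM)
  have h1 : orderOf (σ : G ⧸ M) = Nat.card (G ⧸ M) := by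
    apply orderOf_eq_card_of_forall_mem_zpowers
    intro q
    obtain ⟨τ, rfl⟩ := QuotientGroup.mk_surjective q
    obtain ⟨j, hj⟩ := hσ τ
    refine ⟨j, ?_⟩
    have h2 := hM hj
    rw [← QuotientGroup.eq_one_iff, QuotientGroup.mk_mul, QuotientGroup.mk_inv,
      mul_inv_eq_one] at h2
    exact h2.symm
  have h2 : M.index = orderOf (σ : G ⧸ M) := by rw [h1]; rfl
  rw [h2, orderOf_dvd_iff_zpow_eq_one, ← QuotientGroup.mk_zpow, QuotientGroup.eq_one_iff]

theorem cyc_le {G : Type} [Group G] {N' M N : Subgroup G} [hN : N'.Normal]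
    (hσ : ∃ σ : G, ∀ τ, ∃ i : ℤ, τ * (σ ^ i)⁻¹ ∈ N') (hM : N' ≤ M) (hN' : N' ≤ N)
    (h : M.index ∣ N.index) : N ≤ M := by
  obtain ⟨σ, hσ⟩ := hσ
  intro τ hτ
  obtain ⟨i, hi⟩ := hσ τ
  have h1 : σ ^ i ∈ N := by
    have h2 := N.mul_mem (N.inv_mem (hN' hi)) hτ
    rwa [mul_inv_rev, inv_inv, inv_mul_cancel_right] at h2
  rw [cyc_mem hσ hN'] at h1
  have h2 : σ ^ i ∈ M := (cyc_mem hσ hM i).2 ((Int.natCast_dvd_natCast.2 h).trans h1)
  have h3 := M.mul_mem (hM hi) h2
  rwa [inv_mul_cancel_right] at h3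

section
variable {p : ℕ} [hp : Fact p.Prime]

theorem layer_index {m : ℕ} {R : IntermediateField ℚ Qb} (hR : Layer p m R) :
    R.fixingSubgroup.index = p ^ m := by
  rw [← finrank_eq_fixingSubgroup_index Qb R]
  exact hR.1.1

/-- The layers are totally ordered. -/
theorem layer_le {m m' : ℕ} {R R' : IntermediateField ℚ Qb} (hR : Layer p m R)
    (hR' : Layer p m' R') (h : m ≤ m') : R ≤ R' := by
  obtain ⟨m'', hR''⟩ := hR.sup hR'
  have hn := layer_normal hp.out hR''.1
  have h1 : R'.fixingSubgroup ≤ R.fixingSubgroup := cyc_le (layer_cyc hp.out hR'')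
    (fixingSubgroup_le le_sup_left) (fixingSubgroup_le le_sup_right) (by
    rw [layer_index hR, layer_index hR']
    exact pow_dvd_pow p h)
  have h2 := fixedField_antitone h1
  rwa [InfiniteGalois.fixedField_fixingSubgroup, InfiniteGalois.fixedField_fixingSubgroup] at h2

end

end Pool.Agent.J6H14.DMu
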