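import Pool.Agent.J6H14.DMu.Rel5

/-!
# The relative criterion for number fields
-/

set_option autoImplicit false

namespace Pool.Agent.J6H14.DMu

open IntermediateField Module Pool.Agent.Q60.MU Pool.Agent.W5h77.MB Pool.Agent.W5h33.DF NumberField
open scoped Pointwise commutatorElement

section
variable {p : ℕ} [hp : Fact p.Prime] {s : Bool} {E F : IntermediateField ℚ Qb}

omit hp in
theorem sb_self (E R : IntermediateField ℚ Qb) : sb E R = sb E (E ⊔ R) := by
  rw [← sb_inf]
  have h : sb E E = ⊤ := by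
    rw [eq_top_iff]
    intro x _
    exact mem_sb.2 x.2
  rw [h, top_inf_eq]

/-- The local groups away from `p` fix the layers. -/
theorem lc_le {k : IntermediateField ℚ Qb} {m : ℕ} {R : IntermediateField ℚ Qb} (hR : Layer p m R)
    (w : ValuationSubring Qb ⊕ InfinitePlace Qb) :
    lc p s k w ≤ sb k R ∨ ∃ A : ValuationSubring Qb, w = Sum.inl A ∧ (p : Qb) ∈ A.nonunits := by
  rcases w with A | w
  · by_cases hpA : (p : Qb) ∈ A.nonunits
    · exact Or.inr ⟨A, rfl, hpA⟩
    · left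
      intro g hg
      have h4 : (g : Gal(Qb/ℚ)) ∈ locFin p s A := hg
      unfold locFin at h4
      rw [if_neg (fun h => hpA h.2)] at h4
      exact inertia_le_layer hp.out hR.1 hpA h4
  · left
    intro g hg
    exact stab_le_layer hR w hg

/-- The bound for the relative part. -/
theorem rel_fields [FiniteDimensional ℚ F] (hEF : E ≤ F) (hpF : ¬ p ∣ rdeg E F) {δ : ℕ}
    (hδ : Adm p s E F δ) {m m' : ℕ} {R R' : IntermediateField ℚ Qb} (hR : Layer p m R)
    (hR' : Layer p m' R') (hRR : R ≤ R') (hsm : Small p s E F δ R) :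
    dCl p s (F ⊔ R') * dCl p s (E ⊔ R) ≤ dCl p s (F ⊔ R) * dCl p s (E ⊔ R') := by
  classical
  have hfE : FiniteDimensional ℚ E := fd_of_le hEF
  have hfR := layer_fd hp.out hR.1
  have hfR' := layer_fd hp.out hR'.1
  have hFR : sb E F ⊓ sb E R = sb E (F ⊔ R) := sb_inf E F R
  have hFR' : sb E F ⊓ sb E R' = sb E (F ⊔ R') := sb_inf E F R'
  obtain ⟨QF, hQF⟩ := exists_isMin (p := p) s (hEF.trans (le_sup_left : F ≤ F ⊔ R'))
  obtain ⟨QE, hQE⟩ := exists_isMin (p := p) s (le_sup_left : E ≤ E ⊔ R')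
  obtain ⟨W₀, hW₀⟩ := exists_isMin (p := p) s (le_sup_left : E ≤ E ⊔ R)
  have hiF := isMin_eq (hEF.trans le_sup_left) hQF
  have hiW := isMin_eq le_sup_left hW₀
  rw [← sb_self] at hQE hW₀ hiW
  rw [← hFR'] at hQF hiF
  have hC := (rk_iff (p := p) (k := E) (s := s) (hEF.trans (le_sup_left : F ≤ F ⊔ R)) _).2 (dCl_spec s (F ⊔ R))
  rw [← hFR] at hC
  have hCE := (rk_iff (p := p) (k := E) (s := s) (le_sup_left : E ≤ E ⊔ R') _).2 (dCl_spec s (E ⊔ R'))
  rw [← sb_self] at hCE
  have hDn : (sb E R).Normal := layer_sb_normal hR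
  have hD'n : (sb E R').Normal := layer_sb_normal hR'
  have hDD : sb E R' ≤ sb E R := sb_mono hRR
  obtain ⟨a, ha⟩ := layer_sb_index (k := E) hR
  obtain ⟨a', ha'⟩ := layer_sb_index (k := E) hR'
  have hpH : ¬ p ∣ (sb E F).index := by rwa [index_sb hEF]
  have hH0 : (sb E F).index ≠ 0 := by
    intro h
    rw [h] at hpH
    exact hpH (dvd_zero p)
  obtain ⟨γ, hγH, hγ⟩ := exists_gamma (K := sb E F) (layer_sb_cyc (k := E) hR')
  have hcm := comm_mem_of (layer_sb_cyc (k := E) hR')
  have hrel : (sb E R).relIndex (sb E F) = rdeg F (F ⊔ R) := rel_layer hEF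
  have hsm' : dCl p s (F ⊔ R) < p ^ (rdeg F (F ⊔ R) - δ) * W₀.relIndex (sb E R) := by
    rw [hiW]
    exact hsm
  have key := rel_fin (I := lc p s E) lc_conj hpH hDn hD'n hDD sb_open ha ha' hγH hγ hQF hQE
    (e := rdeg F (F ⊔ R) - δ) (by
      rw [hrel]
      exact Nat.sub_le _ _) ?_ hC hCE hW₀.1 hW₀.2.1 hW₀.2.2.1 hW₀.2.2.2.1 hsm'
  · rw [hiW, hiF] at key
    rwa [mul_comm (dCl p s (F ⊔ R'))]
  · intro T' A _ α hQT hT'L hT'N hα hα1 hαs
    rcases hδ with ⟨rfl, hns⟩ | ⟨m₁, R₁, hR₁, htot, rfl⟩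
    · refine lift_ns lc_conj hpH hD'n hDD sb_open ha' hcm hQF hQE ?_ hQT hT'L hα hα1 hαs
      intro w
      rcases lc_le (s := s) (k := E) hR' w with h | ⟨B, rfl, hB⟩
      · exact Or.inl h
      · right
        refine ns_level (m := a) hp.out hDn ha hpH fun g => ?_
        obtain ⟨h, hh, hgh⟩ := hns B hB ((g : Gal(Qb/ℚ))⁻¹) (inv_mem g.2)
        refine ⟨⟨h⁻¹, fixingSubgroup_le hEF (inv_mem hh)⟩, mem_sb.2 (inv_mem hh), ?_⟩
        show Sum.inl (h⁻¹ • B) = Sum.inl ((g : Gal(Qb/ℚ)) • B)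
        congr 1
        ext x
        rw [ValuationSubring.mem_pointwise_smul_iff_inv_smul_mem,
          ValuationSubring.mem_pointwise_smul_iff_inv_smul_mem, inv_inv]
        exact (hgh x).symm
    · have hfR₁ := layer_fd hp.out hR₁.1
      have hrel₁ : (sb E R₁).relIndex (sb E F) = rdeg F (F ⊔ R₁) := rel_layer hEF
      by_cases hle : R₁ ≤ R
      · obtain ⟨a₁, ha₁⟩ := layer_sb_index (k := E) hR₁
        have hD₁n : (sb E R₁).Normal := layer_sb_normal hR₁
        obtain ⟨b, -, hb⟩ : ∃ b ≤ a₁, (sb E R₁).relIndex (sb E F) = p ^ b :=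
          (Nat.dvd_prime_pow hp.out).1 (ha₁ ▸ Subgroup.relIndex_dvd_index_of_normal _ _)
        obtain ⟨c, -, hc⟩ : ∃ c ≤ a, (sb E R).relIndex (sb E F) = p ^ c :=
          (Nat.dvd_prime_pow hp.out).1 (ha ▸ Subgroup.relIndex_dvd_index_of_normal _ _)
        have hbc : b ≤ c := by
          have h1 := Subgroup.relIndex_dvd_of_le_left (sb E F) (sb_mono (k := E) hle)
          rw [hb, hc] at h1
          exact (Nat.pow_dvd_pow_iff_le_right hp.out.one_lt).1 h1
        obtain ⟨d, rfl⟩ := Nat.exists_eq_add_of_le hbc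
        have hT : ∀ A : ValuationSubring Qb, (p : Qb) ∈ A.nonunits →
            ∀ x ∈ sb E F ⊓ sb E R₁, ∃ y ∈ lc p s E (Sum.inl A), y ∈ sb E F ⊓ sb E R₁ ∧
              x⁻¹ * y ∈ sb E R' := by
          intro B hB x hx
          rw [sb_inf] at hx
          obtain ⟨y, hy, hyB, hyR⟩ := htot B hB m' R' hR' (hle.trans hRR) x hx
          refine ⟨⟨y, fixingSubgroup_le (hEF.trans le_sup_left) hy⟩, localAt_iff.1 hyB, ?_, ?_⟩
          · rw [sb_inf]
            exact mem_sb.2 hy
          · rw [mem_sb, IntermediateField.mem_fixingSubgroup_iff]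
            intro z hz
            show (x : Gal(Qb/ℚ))⁻¹ (y z) = z
            have h1 : y z = (x : Gal(Qb/ℚ)) z := hyR z hz
            rw [h1]
            show ((x : Gal(Qb/ℚ))⁻¹ * (x : Gal(Qb/ℚ))) z = z
            rw [inv_mul_cancel]
            rfl
        refine lift_tot hD'n hDD (D₁ := sb E R₁) hH0 ha' hcm hγH hγ hDn hD₁n hQF hQE
          (a := d) (b := b) hb (by rw [hc, pow_add]) ?_ ?_ ?_ hQT hT'L hT'N hα hα1
        · rw [← hrel, ← hrel₁, hb, hc, pow_add, Nat.mul_sub, mul_one]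
        · intro w
          rcases lc_le (s := s) (k := E) hR' w with h | ⟨B, rfl, hB⟩
          · exact Or.inl h
          · exact Or.inr (hT B hB)
        · obtain ⟨B, hB⟩ := exists_above hp.out
          exact ⟨Sum.inl B, hT B hB⟩
      · -- the exponent is zero
        have hle' : R ≤ R₁ := by
          rcases le_total m m₁ with h | h
          · exact layer_le hR hR₁ h
          · exact absurd (layer_le hR₁ hR h) hle
        have he : rdeg F (F ⊔ R) - rdeg F (F ⊔ R₁) = 0 := by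
          rw [← hrel, ← hrel₁]
          refine Nat.sub_eq_zero_of_le (Subgroup.relIndex_le_of_le_left (sb_mono hle') ?_)
          rw [hrel₁]
          have h1 : 0 < rdeg F (F ⊔ R₁) := Nat.div_pos
            (IntermediateField.finrank_le_of_le_right le_sup_left) finrank_pos
          exact h1.ne'
        refine ⟨fun _ => 1, 1, fun h => hp.out.one_lt.ne' (Nat.dvd_one.1 h), ?_, ?_, ?_, ?_, ?_⟩
        · intro x _ y _
          exact (one_mul 1).symm
        · intro x _
          exact one_pow p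
        · intro w x _ _
          rfl
        · intro x hx
          have hxD : x ∈ sb E F ⊓ sb E R' := ⟨hx.1, hQE.1 hx.2⟩
          have h1 := hT'N 0 0 (by rw [he]; simp) x hxD
          rw [pow_zero, pow_one, pow_one, pow_one, mul_inv_cancel_right] at h1
          rw [pow_one, (hα1 x ⟨hxD.1, hDD hxD.2⟩).2 h1]
        · refine ⟨sb E F ⊓ sb E R, le_rfl, ?_, ?_, fun _ _ => rfl⟩
          · rw [hFR]
            exact sb_open
          · rw [hFR, index_sb (hEF.trans le_sup_left)]
            have h1 : 0 < rdeg E (F ⊔ R) := Nat.div_pos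
              (IntermediateField.finrank_le_of_le_right (hEF.trans le_sup_left)) finrank_pos
            exact h1.ne'

end

end Pool.Agent.J6H14.DMu
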