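import Pool.Agent.J6H14.DMu.Rel6
import Pool.Agent.J6H14.DMu.Iner

/-!
# The layers are totally ramified above `p`
-/

set_option autoImplicit false

namespace Pool.Agent.J6H14.DMu

open IntermediateField Module Pool.Agent.Q60.MU Pool.Agent.W5h77.MB Pool.Agent.W5h33.DF NumberField
open scoped Pointwise commutatorElement

/-- The roots of unity of `p`-power order are congruent to `1` above `p`. -/
theorem root_sub_one {p : ℕ} (hp : p.Prime) {A : ValuationSubring Qb}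
    (hA : (p : Qb) ∈ A.nonunits) {N : ℕ} {u : Qb} (hu : u ^ p ^ N = 1) :
    A.valuation (u - 1) < 1 := by
  have huA : u ∈ A := root_mem (pow_pos hp.pos N).ne' hu
  let κ := IsLocalRing.ResidueField A
  have hpA : (p : Qb) = ((p : A) : Qb) := by simp
  have hp0 : (p : κ) = 0 := by
    have h1 : IsLocalRing.residue A (p : A) = 0 := by
      rw [IsLocalRing.residue_eq_zero_iff, A.valuation_lt_one_iff, ← hpA]
      exact (ValuationSubring.mem_nonunits_iff A).1 hA
    rwa [map_natCast] at h1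
  have hC : CharP κ p := (CharP.charP_iff_prime_eq_zero hp).mpr hp0
  have hfp : Fact p.Prime := ⟨hp⟩
  let x : A := ⟨u, huA⟩
  have hx : x ^ p ^ N = 1 := Subtype.ext hu
  have h1 : (IsLocalRing.residue A x - 1) ^ p ^ N = 0 := by
    rw [sub_pow_char_pow, one_pow, ← map_pow, hx, map_one, sub_self]
  have h2 : IsLocalRing.residue A (x - 1) = 0 := by
    rw [map_sub, map_one]
    exact pow_eq_zero_iff (pow_pos hp.pos N).ne' |>.1 h1
  rw [IsLocalRing.residue_eq_zero_iff, A.valuation_lt_one_iff] at h2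
  exact h2

/-- The residue field of the prime above `p` in the field of `p`-power roots of unity. -/
theorem cy_int {p : ℕ} [hp : Fact p.Prime] (k : ℕ) :
    FiniteDimensional ℚ (adjoin ℚ {z : Qb | z ^ p ^ (k + 1) = 1}) ∧
    ∃ ζ : Qb, ζ ^ p ^ (k + 1) = 1 ∧ ∀ r ∈ adjoin ℚ {z : Qb | z ^ p ^ (k + 1) = 1}, IsIntegral ℤ r →
      ∃ (n : ℤ) (c : Qb), IsIntegral ℤ c ∧ r - n = (ζ - 1) * c := by
  have hpn : NeZero (p ^ (k + 1)) := ⟨(pow_pos hp.out.pos (k + 1)).ne'⟩
  have hpQ : NeZero ((p ^ (k + 1) : ℕ) : Qb) := ⟨by exact_mod_cast (pow_pos hp.out.pos (k + 1)).ne'⟩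
  obtain ⟨ζ, hζ⟩ := HasEnoughRootsOfUnity.exists_primitiveRoot Qb (p ^ (k + 1))
  have hE : adjoin ℚ {z : Qb | z ^ p ^ (k + 1) = 1} = ℚ⟮ζ⟯ := by
    apply le_antisymm
    · rw [adjoin_le_iff]
      intro z hz
      obtain ⟨i, -, rfl⟩ := hζ.eq_pow_of_pow_eq_one hz
      exact pow_mem (mem_adjoin_simple_self ℚ ζ) i
    · rw [adjoin_le_iff]
      rintro _ rfl
      exact subset_adjoin ℚ _ hζ.pow_eq_one
  rw [hE]
  have hfd : FiniteDimensional ℚ ℚ⟮ζ⟯ :=
    adjoin.finiteDimensional (Algebra.IsIntegral.isIntegral ζ)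
  have hcyc : IsCyclotomicExtension {p ^ (k + 1)} ℚ ℚ⟮ζ⟯ :=
    hζ.intermediateField_adjoin_isCyclotomicExtension ℚ
  have hnf : NumberField ℚ⟮ζ⟯ := ⟨⟩
  have hz := IsCyclotomicExtension.zeta_spec (p ^ (k + 1)) ℚ ℚ⟮ζ⟯
  set z := IsCyclotomicExtension.zeta (p ^ (k + 1)) ℚ ℚ⟮ζ⟯ with hzdef
  refine ⟨hfd, (z : Qb), ?_, ?_⟩
  · have h1 := congrArg (fun y : ℚ⟮ζ⟯ => (y : Qb)) hz.pow_eq_one
    exact h1
  · intro r hr hint
    have hint' : IsIntegral ℤ (⟨r, hr⟩ : ℚ⟮ζ⟯) := by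
      have h1 : IsIntegral ℤ (algebraMap ℚ⟮ζ⟯ Qb ⟨r, hr⟩) := hint
      exact (isIntegral_algebraMap_iff (algebraMap ℚ⟮ζ⟯ Qb).injective).1 h1
    let a : 𝓞 ℚ⟮ζ⟯ := ⟨⟨r, hr⟩, hint'⟩
    let P : Ideal (𝓞 ℚ⟮ζ⟯) := Ideal.span {hz.toInteger - 1}
    have hcard : Nat.card (𝓞 ℚ⟮ζ⟯ ⧸ P) = p := by
      have h1 := IsCyclotomicExtension.Rat.absNorm_span_zeta_sub_one p k hz
      rwa [Ideal.absNorm_apply, Submodule.cardQuot_apply] at h1
    have h1 : (1 : 𝓞 ℚ⟮ζ⟯ ⧸ P) ≠ 0 := by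
      intro h
      have h2 : Subsingleton (𝓞 ℚ⟮ζ⟯ ⧸ P) := subsingleton_of_zero_eq_one h.symm
      have h3 : Nat.card (𝓞 ℚ⟮ζ⟯ ⧸ P) = 1 := Nat.card_eq_one_iff_unique.2
        ⟨h2, ⟨0⟩⟩
      rw [hcard] at h3
      exact hp.out.one_lt.ne' h3
    obtain ⟨n, hn⟩ := mem_zmultiples_of_prime_card (g' := Ideal.Quotient.mk P a) hcard h1
    have h2 : Ideal.Quotient.mk P a = Ideal.Quotient.mk P (n : 𝓞 ℚ⟮ζ⟯) := by
      have h3 : n • (1 : 𝓞 ℚ⟮ζ⟯ ⧸ P) = Ideal.Quotient.mk P a := hn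
      rw [← h3, map_intCast, zsmul_eq_mul, mul_one]
    rw [Ideal.Quotient.eq, Ideal.mem_span_singleton] at h2
    obtain ⟨c, hc⟩ := h2
    refine ⟨n, ((c : ℚ⟮ζ⟯) : Qb), ?_, ?_⟩
    · have h3 : IsIntegral ℤ (c : ℚ⟮ζ⟯) := RingOfIntegers.isIntegral_coe c
      exact h3.map ((algebraMap ℚ⟮ζ⟯ Qb).toIntAlgHom)
    · have h3 := congrArg (fun y : 𝓞 ℚ⟮ζ⟯ => ((y : ℚ⟮ζ⟯) : Qb)) hc
      simp only [map_sub, map_mul, map_one, map_intCast] at h3
      exact h3

section
variable {p : ℕ} [hp : Fact p.Prime]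

/-- The inertia groups above `p` map onto the Galois groups of the layers. -/
theorem inertia_surj {A : ValuationSubring Qb} (hA : (p : Qb) ∈ A.nonunits) {m : ℕ}
    {R : IntermediateField ℚ Qb} (hR : Layer p m R) (g : Gal(Qb/ℚ)) :
    ∃ h ∈ inertia A, ∀ x ∈ R, h x = g x := by
  obtain ⟨⟨-, N, hN⟩, -⟩ := hR
  obtain ⟨hfd, ζ, hζ, hres⟩ := cy_int (p := p) N
  have hR𝕃 : R ≤ adjoin ℚ {z : Qb | z ^ p ^ (N + 1) = 1} := hN.trans (adjoin_mono (by omega))
  have hAint : ∀ a : ℤ, algebraMap ℤ Qb a ∈ A := fun a => integral_mem A (by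
    exact isIntegral_algebraMap)
  have hne : A.comap (algebraMap ℚ Qb) ≠ ⊤ := by
    intro htop
    have h2 : ((p : ℚ))⁻¹ ∈ A.comap (algebraMap ℚ Qb) := by rw [htop]; trivial
    rw [ValuationSubring.mem_comap, map_inv₀, map_natCast] at h2
    rw [ValuationSubring.mem_nonunits_iff_or] at hA
    rcases hA with h3 | h3
    · exact hp.out.ne_zero (by exact_mod_cast h3)
    · exact h3 h2
  obtain ⟨θ, h1, h2, h3⟩ := inertia_of_triv (K := ℚ) (A := ℤ) A hAint hne
    (adjoin ℚ {z : Qb | z ^ p ^ (N + 1) = 1}) g (by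
    intro r hr hint
    obtain ⟨n, c, hc, hrc⟩ := hres r hr hint
    have hgc : A.valuation (g c) ≤ 1 := (A.valuation_le_one_iff _).2
      (integral_mem A (hc.map (g.restrictScalars ℤ : Qb →ₐ[ℤ] Qb)))
    have hcA : A.valuation c ≤ 1 := (A.valuation_le_one_iff _).2 (integral_mem A hc)
    have h4 : r = n + (ζ - 1) * c := by rw [← hrc]; ring
    have h5 : g r - r = (g ζ - 1) * g c - (ζ - 1) * c := by
      rw [h4, map_add, map_intCast, map_mul, map_sub, map_one]
      ring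
    have h6 : A.valuation (g ζ - 1) < 1 := root_sub_one hp.out hA (by
      rw [← map_pow, hζ, map_one])
    have h7 : A.valuation (ζ - 1) < 1 := root_sub_one hp.out hA hζ
    rw [h5]
    refine (Valuation.map_sub _ _ _).trans_lt (max_lt ?_ ?_)
    · rw [map_mul]
      exact mul_lt_one_of_lt_of_le h6 hgc
    · rw [map_mul]
      exact mul_lt_one_of_lt_of_le h7 hcA)
  refine ⟨θ, ⟨?_, ?_⟩, fun x hx => h3 x (hR𝕃 hx)⟩
  · exact stab_iff.1 fun z => (h1 z).symm
  · intro x hx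
    exact (ValuationSubring.mem_nonunits_iff A).2 (h2 x hx)

/-- The condition `TotAbove` holds for the layers of degree at least the degree of `F`. -/
theorem totAbove_of_deg (s : Bool) {F R : IntermediateField ℚ Qb} [FiniteDimensional ℚ F] {m : ℕ}
    (hR : Layer p m R) (hdeg : finrank ℚ F ≤ finrank ℚ R) : TotAbove p s F R := by
  intro A hA m' R' hR' hRR x hx
  have hn := layer_normal hp.out hR'.1
  let N : Subgroup Gal(Qb/ℚ) := (inertia A ⊓ F.fixingSubgroup) ⊔ R'.fixingSubgroup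
  have hR'N : R'.fixingSubgroup ≤ N := le_sup_right
  have hcyc := layer_cyc hp.out hR'
  have hcomm : commutator Gal(Qb/ℚ) ≤ N := by
    refine le_trans ?_ hR'N
    rw [commutator_def, Subgroup.commutator_le]
    intro a _ b _
    exact comm_mem_of hcyc a b
  have hNn : N.Normal := normal_of_comm hcomm
  -- the index of `N`
  have hidx : N.index ≤ F.fixingSubgroup.index := by
    let q : inertia A →* Gal(Qb/ℚ) ⧸ N := (QuotientGroup.mk' N).comp (inertia A).subtype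
    have hq : Function.Surjective q := by
      intro y
      obtain ⟨g, rfl⟩ := QuotientGroup.mk_surjective y
      obtain ⟨h, hh, hhg⟩ := inertia_surj hA hR' g
      refine ⟨⟨h, hh⟩, ?_⟩
      show ((h : Gal(Qb/ℚ)) : Gal(Qb/ℚ) ⧸ N) = g
      rw [QuotientGroup.eq]
      apply hR'N
      rw [IntermediateField.mem_fixingSubgroup_iff]
      intro z hz
      show h⁻¹ (g z) = z
      rw [← hhg z hz]
      show (h⁻¹ * h) z = z
      rw [inv_mul_cancel]
      rfl
    have h1 : N.index = q.ker.index := by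
      rw [Subgroup.index_ker, MonoidHom.range_eq_top.2 hq, Subgroup.card_top]
      rfl
    have h2 : F.fixingSubgroup.subgroupOf (inertia A) ≤ q.ker := by
      intro y hy
      rw [MonoidHom.mem_ker]
      show ((y : Gal(Qb/ℚ)) : Gal(Qb/ℚ) ⧸ N) = 1
      rw [QuotientGroup.eq_one_iff]
      exact (le_sup_left : inertia A ⊓ F.fixingSubgroup ≤ N) ⟨y.2, hy⟩
    have h3 : (F.fixingSubgroup.subgroupOf (inertia A)).index ≤ F.fixingSubgroup.index := by
      have h5 := Subgroup.relIndex_le_of_le_right (le_top : inertia A ≤ ⊤) (H := F.fixingSubgroup) (by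
        rw [Subgroup.relIndex_top_right]
        exact index_ne_zero' F)
      rwa [Subgroup.relIndex_top_right] at h5
    have h4 : (F.fixingSubgroup.subgroupOf (inertia A)).index ≠ 0 := by
      intro h
      have h5 : F.fixingSubgroup.relIndex (inertia A) = 0 := h
      have h6 := Subgroup.relIndex_eq_zero_of_le_right (le_top : inertia A ≤ ⊤) h5
      rw [Subgroup.relIndex_top_right] at h6
      exact index_ne_zero' F h6
    rw [h1]
    exact (Nat.le_of_dvd (Nat.pos_of_ne_zero h4) (Subgroup.index_dvd_of_le h2)).trans h3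
  have hRN : R.fixingSubgroup ≤ N := by
    refine cyc_le hcyc hR'N (fixingSubgroup_le hRR) ?_
    rw [layer_index hR]
    have h1 : N.index ∣ p ^ m' := by
      rw [← layer_index hR']
      exact Subgroup.index_dvd_of_le hR'N
    obtain ⟨c, -, hc⟩ := (Nat.dvd_prime_pow hp.out).1 h1
    rw [hc]
    refine pow_dvd_pow p ?_
    have h2 : p ^ c ≤ p ^ m := by
      rw [← hc, ← layer_index hR, ← finrank_eq_fixingSubgroup_index Qb R]
      refine hidx.trans ?_
      rw [← finrank_eq_fixingSubgroup_index Qb F]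
      exact hdeg
    exact (Nat.pow_le_pow_iff_right hp.out.one_lt).1 h2
  have hxN : x ∈ N := hRN (fixingSubgroup_le le_sup_right hx)
  have hxN' : x ∈ (inertia A ⊓ F.fixingSubgroup) ⊔ R'.fixingSubgroup := hxN
  rw [← SetLike.mem_coe, Subgroup.mul_normal] at hxN'
  obtain ⟨y, hy, d, hd, hyd⟩ := hxN'
  have hyd' : y = x * d⁻¹ := by rw [← hyd]; group
  have hyR : y ∈ R.fixingSubgroup := by
    rw [hyd']
    exact mul_mem (fixingSubgroup_le le_sup_right hx) (inv_mem (fixingSubgroup_le hRR hd))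
  refine ⟨y, ?_, localAt_iff.2 (inertia_le_locFin p s A hy.1), ?_⟩
  · show y ∈ (F ⊔ R).fixingSubgroup
    rw [fixingSubgroup_sup]
    exact ⟨hy.2, hyR⟩
  · intro z hz
    show y z = x z
    rw [← hyd]
    show y z = y (d z)
    rw [(IntermediateField.mem_fixingSubgroup_iff _ _).1 hd z hz]

end

end Pool.Agent.J6H14.DMu
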