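import Pool.Agent.J6H14.DMu.Grp

/-!
# The transfer
-/

set_option autoImplicit false

namespace Pool.Agent.J6H14.DMu

open Subgroup Pool.Agent.Q60.MU Pool.Agent.W5h77.MB Pool.Agent.W5h33.DF
open scoped commutatorElement

variable {𝔾 : Type} [Group 𝔾]

/-- `α` is multiplicative on `L`. -/
def HomOn (L : Subgroup 𝔾) {A : Type} [CommGroup A] (α : 𝔾 → A) : Prop :=
  ∀ u ∈ L, ∀ v ∈ L, α (u * v) = α u * α v

namespace HomOn
variable {L : Subgroup 𝔾} {A : Type} [CommGroup A] {α : 𝔾 → A}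

/-- the homomorphism -/
def toHom (h : HomOn L α) : L →* A where
  toFun x := α x
  map_one' := by
    have h1 := h 1 (one_mem L) 1 (one_mem L)
    rw [mul_one] at h1
    exact mul_eq_left.1 h1.symm
  map_mul' x y := h x x.2 y y.2

theorem one (h : HomOn L α) : α 1 = 1 := map_one h.toHom

theorem inv (h : HomOn L α) {x : 𝔾} (hx : x ∈ L) : α x⁻¹ = (α x)⁻¹ := map_inv h.toHom ⟨x, hx⟩

theorem pow (h : HomOn L α) {x : 𝔾} (hx : x ∈ L) (n : ℕ) : α (x ^ n) = α x ^ n :=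
  map_pow h.toHom ⟨x, hx⟩ n

theorem zpow (h : HomOn L α) {x : 𝔾} (hx : x ∈ L) (n : ℤ) : α (x ^ n) = α x ^ n :=
  map_zpow h.toHom ⟨x, hx⟩ n

theorem mono (h : HomOn L α) {L' : Subgroup 𝔾} (hL : L' ≤ L) : HomOn L' α := fun u hu v hv =>
  h u (hL hu) v (hL hv)

theorem comm (h : HomOn L α) {x y : 𝔾} (hx : x ∈ L) (hy : y ∈ L) : α ⁅x, y⁆ = 1 := by
  have h1 := map_commutatorElement h.toHom ⟨x, hx⟩ ⟨y, hy⟩
  rw [commutatorElement_eq_one_iff_mul_comm.2 (mul_comm (h.toHom ⟨x, hx⟩) (h.toHom ⟨y, hy⟩))] at h1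
  exact h1

/-- the elements of `L` which are mapped to a subgroup -/
def pre (h : HomOn L α) (J : Subgroup A) : Subgroup 𝔾 where
  carrier := {x | x ∈ L ∧ α x ∈ J}
  mul_mem' := by
    rintro x y ⟨hx1, hx2⟩ ⟨hy1, hy2⟩
    refine ⟨mul_mem hx1 hy1, ?_⟩
    rw [h x hx1 y hy1]
    exact mul_mem hx2 hy2
  one_mem' := ⟨one_mem _, by rw [h.one]; exact one_mem _⟩
  inv_mem' := by
    rintro x ⟨hx1, hx2⟩
    refine ⟨inv_mem hx1, ?_⟩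
    rw [h.inv hx1]
    exact inv_mem hx2

theorem mem_pre (h : HomOn L α) {J : Subgroup A} {x : 𝔾} : x ∈ h.pre J ↔ x ∈ L ∧ α x ∈ J := Iff.rfl

/-- the image of a subgroup -/
def img (h : HomOn L α) {J : Subgroup 𝔾} (hJ : J ≤ L) : Subgroup A where
  carrier := {a | ∃ x ∈ J, α x = a}
  mul_mem' := by
    rintro _ _ ⟨x, hx, rfl⟩ ⟨y, hy, rfl⟩
    exact ⟨x * y, mul_mem hx hy, h x (hJ hx) y (hJ hy)⟩
  one_mem' := ⟨1, one_mem _, h.one⟩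
  inv_mem' := by
    rintro _ ⟨x, hx, rfl⟩
    exact ⟨x⁻¹, inv_mem hx, h.inv (hJ hx)⟩

theorem mem_img (h : HomOn L α) {J : Subgroup 𝔾} (hJ : J ≤ L) {a : A} :
    a ∈ h.img hJ ↔ ∃ x ∈ J, α x = a := Iff.rfl

/-- Homomorphisms factor through the quotient. -/
theorem exists_fac (h : HomOn L α) (hs : ∀ a, ∃ x ∈ L, α x = a) {B : Type} [CommGroup B]
    {χ : 𝔾 → B} (hχ : HomOn L χ) (hk : ∀ x ∈ L, α x = 1 → χ x = 1) :
    ∃ κ : A →* B, ∀ x ∈ L, κ (α x) = χ x := by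
  choose x hx hxa using hs
  have key : ∀ y ∈ L, ∀ z ∈ L, α y = α z → χ y = χ z := by
    intro y hy z hz hyz
    have h1 := hk (y * z⁻¹) (mul_mem hy (inv_mem hz)) (by
      rw [h y hy _ (inv_mem hz), h.inv hz, hyz, mul_inv_cancel])
    rw [hχ y hy _ (inv_mem hz), hχ.inv hz, mul_inv_eq_one] at h1
    exact h1
  refine ⟨{ toFun := fun a => χ (x a), map_one' := ?_, map_mul' := ?_ }, ?_⟩
  · rw [← hχ.one]
    exact key _ (hx 1) _ (one_mem _) (by rw [hxa, h.one])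
  · intro a b
    rw [← hχ _ (hx a) _ (hx b)]
    exact key _ (hx _) _ (mul_mem (hx a) (hx b)) (by rw [hxa, h _ (hx a) _ (hx b), hxa, hxa])
  · intro y hy
    exact key _ (hx _) _ hy (hxa _)

end HomOn

/-- A commutative quotient. -/
theorem exists_ab {L T : Subgroup 𝔾} (hc : ∀ x ∈ L, ∀ y ∈ L, ⁅x, y⁆ ∈ T) :
    ∃ (A : Type) (_ : CommGroup A) (α : 𝔾 → A), HomOn L α ∧ (∀ x ∈ L, α x = 1 ↔ x ∈ T) ∧
      (∀ a, ∃ x ∈ L, α x = a) ∧ Nat.card A = T.relIndex L := by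
  classical
  have hn : (T.subgroupOf L).Normal := by
    refine ⟨fun t ht g => ?_⟩
    have h1 : (⁅(g : 𝔾), (t : 𝔾)⁆ * t : 𝔾) ∈ T := T.mul_mem (hc g g.2 t t.2) ht
    rw [commutatorElement_def, inv_mul_cancel_right] at h1
    exact h1
  let _ : CommGroup (L ⧸ T.subgroupOf L) :=
    { (inferInstance : Group (L ⧸ T.subgroupOf L)) with
      mul_comm := by
        intro a b
        obtain ⟨x, rfl⟩ := QuotientGroup.mk_surjective a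
        obtain ⟨y, rfl⟩ := QuotientGroup.mk_surjective b
        rw [← QuotientGroup.mk_mul, ← QuotientGroup.mk_mul, QuotientGroup.eq]
        have h1 := hc (y : 𝔾)⁻¹ (inv_mem y.2) (x : 𝔾)⁻¹ (inv_mem x.2)
        rw [commutatorElement_def, inv_inv, inv_inv] at h1
        show ((x * y)⁻¹ * (y * x) : 𝔾) ∈ T
        rw [mul_inv_rev]
        simpa [mul_assoc] using h1 }
  let α : 𝔾 → L ⧸ T.subgroupOf L := fun x => if hx : x ∈ L then ((⟨x, hx⟩ : L) : L ⧸ T.subgroupOf L)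
    else 1
  have hα : ∀ x (hx : x ∈ L), α x = ((⟨x, hx⟩ : L) : L ⧸ T.subgroupOf L) := fun x hx => dif_pos hx
  refine ⟨L ⧸ T.subgroupOf L, inferInstance, α, ?_, ?_, ?_, rfl⟩
  · intro u hu v hv
    rw [hα u hu, hα v hv, hα (u * v) (mul_mem hu hv)]
    rfl
  · intro x hx
    rw [hα x hx, QuotientGroup.eq_one_iff]
    exact Iff.rfl
  · intro a
    obtain ⟨x, rfl⟩ := QuotientGroup.mk_surjective a
    exact ⟨x, x.2, hα x x.2⟩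

section tr
variable {H : Subgroup 𝔾} {A : Type} [CommGroup A]

/-- the factors of the transfer -/
def zf (s : 𝔾 ⧸ H → 𝔾) (x : 𝔾) (q : 𝔾 ⧸ H) : 𝔾 := (s (x • q))⁻¹ * x * s q

/-- representatives in `D` -/
def Sec (D : Subgroup 𝔾) (s : 𝔾 ⧸ H → 𝔾) : Prop := ∀ q, (s q : 𝔾 ⧸ H) = q ∧ s q ∈ D

theorem zf_mem {D : Subgroup 𝔾} {s : 𝔾 ⧸ H → 𝔾} (hs : Sec D s) {x : 𝔾} (hx : x ∈ D) (q : 𝔾 ⧸ H) :
    zf s x q ∈ H ⊓ D := by
  refine ⟨?_, D.mul_mem (D.mul_mem (D.inv_mem (hs _).2) hx) (hs q).2⟩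
  show (s (x • q))⁻¹ * x * s q ∈ H
  rw [mul_assoc, ← QuotientGroup.eq, (hs _).1]
  show x • q = ((x * s q : 𝔾) : 𝔾 ⧸ H)
  conv_lhs => rw [← (hs q).1]
  rfl

theorem zf_mul (s : 𝔾 ⧸ H → 𝔾) (x y : 𝔾) (q : 𝔾 ⧸ H) :
    zf s (x * y) q = zf s x (y • q) * zf s y q := by
  unfold zf
  rw [mul_smul]
  group

variable [Fintype (𝔾 ⧸ H)]

/-- the transfer -/
def tr (s : 𝔾 ⧸ H → 𝔾) (α : 𝔾 → A) (x : 𝔾) : A := ∏ q, α (zf s x q)

theorem prod_smul (x : 𝔾) (f : 𝔾 ⧸ H → A) : ∏ q, f (x • q) = ∏ q, f q :=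
  Equiv.prod_comp (MulAction.toPerm x) f

theorem tr_homOn {D : Subgroup 𝔾} {s : 𝔾 ⧸ H → 𝔾} (hs : Sec D s) {α : 𝔾 → A}
    (hα : HomOn (H ⊓ D) α) : HomOn D (tr s α) := by
  intro x hx y hy
  unfold tr
  rw [← prod_smul y (fun q => α (zf s x q)), ← Finset.prod_mul_distrib]
  refine Finset.prod_congr rfl fun q _ => ?_
  rw [zf_mul, hα _ (zf_mem hs hx _) _ (zf_mem hs hy _)]

theorem tr_indep {D : Subgroup 𝔾} {s s' : 𝔾 ⧸ H → 𝔾} (hs : Sec D s) (hs' : Sec D s') {α : 𝔾 → A}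
    (hα : HomOn (H ⊓ D) α) {x : 𝔾} (hx : x ∈ D) : tr s' α x = tr s α x := by
  have hl : ∀ q, (s q)⁻¹ * s' q ∈ H ⊓ D := by
    intro q
    refine ⟨?_, D.mul_mem (D.inv_mem (hs q).2) (hs' q).2⟩
    show (s q)⁻¹ * s' q ∈ H
    rw [← QuotientGroup.eq, (hs q).1, (hs' q).1]
  have h1 : ∀ q, α (zf s' x q) =
      (α ((s (x • q))⁻¹ * s' (x • q)))⁻¹ * α (zf s x q) * α ((s q)⁻¹ * s' q) := by
    intro q
    rw [← hα.inv (hl _), ← hα _ (inv_mem (hl _)) _ (zf_mem hs hx q),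
      ← hα _ (mul_mem (inv_mem (hl _)) (zf_mem hs hx q)) _ (hl q)]
    congr 1
    unfold zf
    group
  unfold tr
  rw [Finset.prod_congr rfl fun q _ => h1 q, Finset.prod_mul_distrib, Finset.prod_mul_distrib,
    prod_smul x (fun q => (α ((s q)⁻¹ * s' q))⁻¹), Finset.prod_inv_distrib,
    mul_comm, mul_inv_cancel_left]

theorem tr_conj {D : Subgroup 𝔾} (hDn : D.Normal) {s : 𝔾 ⧸ H → 𝔾} (hs : Sec D s) {α : 𝔾 → A}
    (hα : HomOn (H ⊓ D) α) {γ : 𝔾} (hγ : γ ∈ H) {x : 𝔾} (hx : x ∈ D) :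
    tr s α (γ * x * γ⁻¹) = tr s (fun z => α (γ * z * γ⁻¹)) x := by
  let s' : 𝔾 ⧸ H → 𝔾 := fun q => γ⁻¹ * s (γ • q) * γ
  have hs' : Sec D s' := by
    intro q
    constructor
    · have h1 : (γ⁻¹ * s (γ • q)) * γ = (γ⁻¹ * s (γ • q)) * γ := rfl
      have h2 : ((γ⁻¹ * s (γ • q) * γ : 𝔾) : 𝔾 ⧸ H) = ((γ⁻¹ * s (γ • q) : 𝔾) : 𝔾 ⧸ H) := by
        rw [QuotientGroup.eq]
        have h3 : (γ⁻¹ * s (γ • q) * γ)⁻¹ * (γ⁻¹ * s (γ • q)) = γ⁻¹ := by group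
        rw [h3]
        exact H.inv_mem hγ
      show ((γ⁻¹ * s (γ • q) * γ : 𝔾) : 𝔾 ⧸ H) = q
      rw [h2]
      show γ⁻¹ • ((s (γ • q) : 𝔾) : 𝔾 ⧸ H) = q
      rw [(hs _).1, inv_smul_smul]
    · have h1 := hDn.conj_mem _ (hs (γ • q)).2 γ⁻¹
      rwa [inv_inv] at h1
  have hα' : HomOn (H ⊓ D) (fun z => α (γ * z * γ⁻¹)) := by
    intro u hu v hv
    have h1 : ∀ u ∈ H ⊓ D, γ * u * γ⁻¹ ∈ H ⊓ D := fun u hu =>
      ⟨H.mul_mem (H.mul_mem hγ hu.1) (H.inv_mem hγ), hDn.conj_mem u hu.2 γ⟩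
    show α (γ * (u * v) * γ⁻¹) = _
    rw [← hα _ (h1 u hu) _ (h1 v hv)]
    congr 1
    group
  rw [← tr_indep hs hs' hα' hx]
  unfold tr
  rw [← prod_smul γ]
  refine Finset.prod_congr rfl fun q _ => ?_
  congr 1
  have h1 : (γ * x * γ⁻¹) • γ • q = γ • x • q := by
    rw [← mul_smul, ← mul_smul, inv_mul_cancel_right]
  unfold zf
  rw [h1]
  show _ = γ * ((γ⁻¹ * s (γ • x • q) * γ)⁻¹ * x * (γ⁻¹ * s (γ • q) * γ)) * γ⁻¹
  group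

theorem tr_res {D : Subgroup 𝔾} {s : 𝔾 ⧸ H → 𝔾} (hs : Sec D s) {θ : 𝔾 → A}
    (hθ : HomOn D θ) {x : 𝔾} (hx : x ∈ D) : tr s θ x = θ x ^ H.index := by
  have h1 : ∀ q, θ (zf s x q) = (θ (s (x • q)))⁻¹ * θ x * θ (s q) := by
    intro q
    unfold zf
    rw [hθ _ (D.mul_mem (D.inv_mem (hs _).2) hx) _ (hs q).2, hθ _ (D.inv_mem (hs _).2) _ hx,
      hθ.inv (hs _).2]
  unfold tr
  rw [Finset.prod_congr rfl fun q _ => h1 q, Finset.prod_mul_distrib, Finset.prod_mul_distrib,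
    prod_smul x (fun q => (θ (s q))⁻¹), Finset.prod_inv_distrib, Finset.prod_const,
    Finset.card_univ, mul_right_comm, inv_mul_cancel, one_mul]
  rw [Subgroup.index_eq_card, Nat.card_eq_fintype_card]

/-- The transfer of the elements of a local group. -/
theorem tr_local {D : Subgroup 𝔾} {s : 𝔾 ⧸ H → 𝔾} (hs : Sec D s) {α : 𝔾 → A}
    (hα : HomOn (H ⊓ D) α) {𝒥 : Subgroup 𝔾} (h𝒥 : 𝒥 ≤ D) (J : Subgroup A)
    (h : ∀ b ∈ D, ∀ y ∈ 𝒥, b⁻¹ * y * b ∈ H → α (b⁻¹ * y * b) ∈ J) {x : 𝔾} (hx : x ∈ 𝒥) :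
    tr s α x ∈ J := by
  classical
  let r : 𝔾 ⧸ H → 𝔾 ⧸ H := fun q =>
    Quotient.out (s := MulAction.orbitRel 𝒥 (𝔾 ⧸ H)) (Quotient.mk (MulAction.orbitRel 𝒥 (𝔾 ⧸ H)) q)
  have hr : ∀ q, ∃ i : 𝒥, i • r q = q := by
    intro q
    have h1 : (MulAction.orbitRel 𝒥 (𝔾 ⧸ H)).r (r q) q := Quotient.mk_out q
    obtain ⟨i, hi⟩ := MulAction.orbitRel_apply.1 h1
    exact ⟨i⁻¹, by
      show i⁻¹ • r q = q
      rw [← hi]
      exact inv_smul_smul i q⟩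
  choose i hi using hr
  have hrx : ∀ q, r (x • q) = r q := by
    intro q
    show Quotient.out (s := MulAction.orbitRel 𝒥 (𝔾 ⧸ H)) _ = Quotient.out _
    congr 1
    apply Quotient.sound
    exact MulAction.orbitRel_apply.2 ⟨⟨x, hx⟩, rfl⟩
  let s' : 𝔾 ⧸ H → 𝔾 := fun q => (i q : 𝔾) * s (r q)
  have hs' : Sec D s' := by
    intro q
    refine ⟨?_, D.mul_mem (h𝒥 (i q).2) (hs _).2⟩
    show (i q : 𝔾) • ((s (r q) : 𝔾) : 𝔾 ⧸ H) = q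
    rw [(hs _).1]
    exact hi q
  rw [← tr_indep hs hs' hα (h𝒥 hx)]
  unfold tr
  refine Subgroup.prod_mem _ fun q _ => ?_
  have h1 : zf s' x q = (s (r q))⁻¹ * ((i (x • q) : 𝔾)⁻¹ * x * i q) * s (r q) := by
    show ((i (x • q) : 𝔾) * s (r (x • q)))⁻¹ * x * ((i q : 𝔾) * s (r q)) = _
    rw [hrx]
    group
  have h2 := (zf_mem hs' (h𝒥 hx) q).1
  rw [h1] at h2 ⊢
  exact h _ (hs _).2 _ (𝒥.mul_mem (𝒥.mul_mem (𝒥.inv_mem (i _).2) hx) (i q).2) h2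

/-- The transfer is trivial on an intersection of conjugates. -/
theorem tr_one {s : 𝔾 ⧸ H → 𝔾} (hs : ∀ q, (s q : 𝔾 ⧸ H) = q) {α : 𝔾 → A} {Q : Subgroup 𝔾} (hQH : Q ≤ H)
    (hQ : ∀ x ∈ Q, α x = 1) {x : 𝔾} (hx : ∀ q, (s q)⁻¹ * x * s q ∈ Q) : tr s α x = 1 := by
  unfold tr
  refine Finset.prod_eq_one fun q _ => ?_
  have h1 : x • q = q := by
    have h2 : ((x * s q : 𝔾) : 𝔾 ⧸ H) = ((s q : 𝔾) : 𝔾 ⧸ H) := by
      rw [eq_comm, QuotientGroup.eq, ← mul_assoc]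
      exact hQH (hx q)
    rw [(hs q)] at h2
    conv_lhs => rw [← hs q]
    exact h2
  unfold zf
  rw [h1]
  exact hQ _ (hx q)

end tr

end Pool.Agent.J6H14.DMu
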